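import Pool.Agent.W801.RS.Stm
import Pool.Agent.W801.OS.T_KL

/-!
# The winding number of a walk seen from a link of another configuration
-/

set_option autoImplicit false

namespace Pool.Agent.W801.RS
open H974 H906.Cyl
open Pool.Agent.W801.OU (RZ LZ Dg nrm zp)
open Pool.Agent.W801.OS (cr)
open Pool.Agent.W801.OS.KLpriv (cr_down cr_up)

namespace CONpriv

/-- first coordinate of the normal form -/
def N (d j : ℤ) : ℤ := if d < 0 ∧ j = 0 then j - 1 else j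

lemma N_mono (d : ℤ) {j j' : ℤ} (h : j ≤ j') : N d j ≤ N d j' := by
  unfold N
  split_ifs <;> omega

lemma nrm_fst (d j t : ℤ) : (nrm ({0} : Set ℤ) d j t).1 = N d j := by
  unfold nrm N
  simp only [Set.mem_singleton_iff]
  split_ifs <;> rfl

lemma nrm_snd (d j t : ℤ) : (nrm ({0} : Set ℤ) d j t).2 = t := by
  unfold nrm
  split_ifs <;> rfl

lemma lq_symm {G : Set Edg} {e : Edg} {x y : ℤ × ℤ} (h : Lq G e x y) : Lq G e y x := by
  obtain ⟨h1, h2⟩ := h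
  refine ⟨h1, ?_⟩
  rcases h2 with ⟨h3, h4⟩ | ⟨h3, h4⟩
  · exact Or.inl ⟨h3, h4.symm⟩
  · exact Or.inr ⟨h3, h4.symm⟩

lemma dg_form {c : ℤ} {e : Edg} {x y : ℤ × ℤ} (h : Dg ({0} : Set ℤ) c e x y) :
    ((e.1 + e.2.1 + dco e) % 2 = c ∧ x.1 = N (dco e) (e.1 + e.2.1) ∧ x.2 = dco e ∧
      y.1 = N (dco e) (e.1 + e.2.1 + 1) ∧ y.2 = dco e + 1) ∨
    ((e.1 + e.2.1 + dco e) % 2 = 1 - c ∧ x.1 = N (dco e) (e.1 + e.2.1) ∧ x.2 = dco e + 1 ∧
      y.1 = N (dco e) (e.1 + e.2.1 + 1) ∧ y.2 = dco e) := by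
  cases h with
  | rise h => exact Or.inl ⟨h, nrm_fst _ _ _, nrm_snd _ _ _, nrm_fst _ _ _, nrm_snd _ _ _⟩
  | fall h => exact Or.inr ⟨h, nrm_fst _ _ _, nrm_snd _ _ _, nrm_fst _ _ _, nrm_snd _ _ _⟩

lemma lq_low {G : Set Edg} {e : Edg} {x y : ℤ × ℤ} (h : Lq G e y x) (hxy : x.2 = y.2 + 1) :
    ∃ i : ℤ, (i = 0 ∨ i = 1) ∧ y.2 = dco e ∧ y.1 = N (dco e) (e.1 + e.2.1 + i) ∧
      x.1 = N (dco e) (e.1 + e.2.1 + 1 - i) ∧
      (e ∈ G ↔ ((e.1 + e.2.1 + dco e) % 2 = 0 ↔ i = 0)) ∧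
      ¬ (dco e < 0 ∧ e.1 + e.2.1 + 1 = 0) := by
  obtain ⟨h1, h2⟩ := h
  have h1' : ¬ (dco e < 0 ∧ e.1 + e.2.1 + 1 = 0) := fun q => h1 q
  rcases h2 with ⟨h3, h4 | h4⟩ | ⟨h3, h4 | h4⟩ <;>
    rcases dg_form h4 with ⟨g1, g2, g3, g4, g5⟩ | ⟨g1, g2, g3, g4, g5⟩
  · refine ⟨0, Or.inl rfl, g3, by rw [add_zero]; exact g2, by rw [sub_zero]; exact g4, ?_, h1'⟩
    constructor
    · intro _; constructor <;> intro _
      · rfl
      · exact g1
    · intro _; exact h3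
  · omega
  · omega
  · refine ⟨1, Or.inr rfl, g5, g4, by rw [add_sub_cancel_right]; exact g2, ?_, h1'⟩
    constructor
    · intro _; constructor <;> intro _ <;> omega
    · intro _; exact h3
  · refine ⟨0, Or.inl rfl, g3, by rw [add_zero]; exact g2, by rw [sub_zero]; exact g4, ?_, h1'⟩
    constructor
    · intro q; exact absurd q h3
    · intro q; exfalso; have := q.mpr rfl; omega
  · omega
  · omega
  · refine ⟨1, Or.inr rfl, g5, g4, by rw [add_sub_cancel_right]; exact g2, ?_, h1'⟩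
    constructor
    · intro q; exact absurd q h3
    · intro q; exfalso; have := q.mp (by omega); omega

lemma lq_adj {G : Set Edg} {e : Edg} {x y : ℤ × ℤ} (h : Lq G e x y) :
    y.2 = x.2 + 1 ∨ y.2 = x.2 - 1 := by
  obtain ⟨h1, h2⟩ := h
  rcases h2 with ⟨h3, h4 | h4⟩ | ⟨h3, h4 | h4⟩ <;>
    rcases dg_form h4 with ⟨g1, g2, g3, g4, g5⟩ | ⟨g1, g2, g3, g4, g5⟩ <;> omega

lemma lq_rz {B G : Set Edg} {e : Edg} {x y : ℤ × ℤ} (hB : e ∈ B) (h : Lq G e x y) :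
    RZ ({0} : Set ℤ) B G x y := by
  obtain ⟨h1, h2⟩ := h
  rcases h2 with ⟨h3, h4 | h4⟩ | ⟨h3, h4 | h4⟩
  · exact Relation.EqvGen.rel _ _ ⟨e, hB, h1, Or.inl ⟨h3, h4⟩⟩
  · exact Relation.EqvGen.symm _ _ (Relation.EqvGen.rel _ _ ⟨e, hB, h1, Or.inl ⟨h3, h4⟩⟩)
  · exact Relation.EqvGen.rel _ _ ⟨e, hB, h1, Or.inr ⟨h3, h4⟩⟩
  · exact Relation.EqvGen.symm _ _ (Relation.EqvGen.rel _ _ ⟨e, hB, h1, Or.inr ⟨h3, h4⟩⟩)

lemma wk_rz {B G : Set Edg} {a b : ℤ × ℤ} {φ : ℤ × ℤ → ℤ} (h : Wk B G a b φ) :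
    RZ ({0} : Set ℤ) B G a b := by
  induction h with
  | nil => exact Relation.EqvGen.refl _
  | cons v w φ e h hB hL ih => exact Relation.EqvGen.trans _ _ _ ih (lq_rz hB hL)

lemma core {B G G' : Set Edg} {e e2 : Edg} {p p' x y : ℤ × ℤ} (he2 : e2 ∈ B)
    (hG : e ∈ B → (e ∈ G' ↔ e ∈ G)) (hL : Lq G' e p p') (hp : p'.2 = p.2 + 1)
    (hL2 : Lq G e2 y x) (hxy : x.2 = y.2 + 1) (hyp : y ≠ p) (hxp : x ≠ p') :
    gg p' x = gg p y := by
  obtain ⟨i, hi, i1, i2, i3, i4, i5⟩ := lq_low hL2 hxy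
  obtain ⟨j, hj, j1, j2, j3, j4, j5⟩ := lq_low hL hp
  unfold gg
  by_cases hr : y.2 = p.2
  · have hr' : x.2 = p'.2 := by omega
    have hd : dco e2 = dco e := by omega
    have hy1 : y.1 ≠ p.1 := fun q => hyp (Prod.ext q hr)
    have hx1 : x.1 ≠ p'.1 := fun q => hxp (Prod.ext q hr')
    have hs : e2.1 + e2.2.1 ≠ e.1 + e.2.1 := by
      intro hs
      have hee : e2 = e := by
        rw [← edz_of e2, ← edz_of e, hs, hd]
      rw [hee] at i4 he2 i2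
      have h1 := hG he2
      have h2 : (i = 0 ↔ j = 0) := by
        by_cases hq : (e.1 + e.2.1 + dco e) % 2 = 0
        · have h3 : (i = 0) ↔ e ∈ G :=
            ⟨fun q => i4.mpr ⟨fun _ => q, fun _ => hq⟩, fun q => (i4.mp q).mp hq⟩
          have h4 : (j = 0) ↔ e ∈ G' :=
            ⟨fun q => j4.mpr ⟨fun _ => q, fun _ => hq⟩, fun q => (j4.mp q).mp hq⟩
          exact h3.trans (h1.symm.trans h4.symm)
        · have h3 : (i = 0) ↔ e ∉ G :=
            ⟨fun q r => hq ((i4.mp r).mpr q), fun q => by_contra fun r =>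
              q (i4.mpr ⟨fun s => absurd s hq, fun s => absurd s r⟩)⟩
          have h4 : (j = 0) ↔ e ∉ G' :=
            ⟨fun q r => hq ((j4.mp r).mpr q), fun q => by_contra fun r =>
              q (j4.mpr ⟨fun s => absurd s hq, fun s => absurd s r⟩)⟩
          exact h3.trans ((not_congr h1.symm).trans h4.symm)
      have hij : i = j := by omega
      rw [hij] at i2
      exact hy1 (i2.trans j2.symm)
    clear i4 j4 i5 j5 hG hL hL2 he2
    have : p'.1 < x.1 ↔ p.1 < y.1 := by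
      rw [hd] at i2 i3
      rcases lt_or_gt_of_ne hs with hs | hs
      · have k1 : x.1 ≤ p'.1 := by
          rw [i3, j3]
          exact N_mono _ (by omega)
        have k2 : y.1 ≤ p.1 := by
          rw [i2, j2]
          exact N_mono _ (by omega)
        constructor <;> intro q <;> omega
      · have k1 : p'.1 ≤ x.1 := by
          rw [i3, j3]
          exact N_mono _ (by omega)
        have k2 : p.1 ≤ y.1 := by
          rw [i2, j2]
          exact N_mono _ (by omega)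
        constructor <;> intro q <;> omega
    by_cases hq : p.1 < y.1
    · rw [if_pos ⟨hr', this.mpr hq⟩, if_pos ⟨hr, hq⟩]
    · rw [if_neg (fun q => hq (this.mp q.2)), if_neg (fun q => hq q.2)]
  · rw [if_neg (by rintro ⟨q1, q2⟩; omega), if_neg (fun q => hr q.1)]

lemma step {B G G' : Set Edg} {e e2 : Edg} {p p' v w : ℤ × ℤ} (he2 : e2 ∈ B)
    (hG : e ∈ B → (e ∈ G' ↔ e ∈ G)) (hL : Lq G' e p p') (hp : p'.2 = p.2 + 1)
    (hL2 : Lq G e2 v w) (h1 : v ≠ p) (h2 : v ≠ p') (h3 : w ≠ p) (h4 : w ≠ p') :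
    cr p' v w - cr p v w = gg p w - gg p v := by
  have hd : ∀ {x u v : ℤ × ℤ}, v.2 = u.2 - 1 → cr x u v = gg x u := fun h => cr_down h
  have hu : ∀ {x u v : ℤ × ℤ}, v.2 = u.2 + 1 → cr x u v = - gg x v := fun h => cr_up h
  rcases lq_adj hL2 with a2 | a2
  · rw [hu a2, hu a2, core he2 hG hL hp hL2 a2 h1 h4]
    ring
  · rw [hd a2, hd a2, core he2 hG hL hp (lq_symm hL2) (by omega) h3 h2]

end CONpriv

open CONpriv in
theorem t_CON : S_CON := by
  intro B G G' a b φ e p p' h hG hL hp h1 h2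
  induction h with
  | nil => simp
  | cons v w φ e2 h hB hL2 ih =>
    have hv := wk_rz h
    have hw : RZ ({0} : Set ℤ) B G a w := Relation.EqvGen.trans _ _ _ hv (lq_rz hB hL2)
    have h3 := step hB hG hL hp hL2 (fun q => h1 (q ▸ hv)) (fun q => h2 (q ▸ hv))
      (fun q => h1 (q ▸ hw)) (fun q => h2 (q ▸ hw))
    show (φ p' + cr p' v w) - (φ p + cr p v w) = gg p w - gg p a
    linarith

end Pool.Agent.W801.RS
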