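import Pool.Agent.W801.RS.Stm

/-!
# Bound of the gauge (`S_DG` from `S_CON` and `S_LP`)
-/

set_option autoImplicit false

namespace Pool.Agent.W801.RS
open H974 H906.Cyl Finset
open Pool.Agent.W801.OU (RZ LZ Dg nrm zp Cor scz bxz SE3)
open Pool.Agent.W801.OS (cr)

namespace DGpriv

theorem nrm_snd (d j t : ℤ) : (nrm ({0} : Set ℤ) d j t).2 = t := by
  unfold nrm; split_ifs <;> rfl

theorem nrm_fst (d j t : ℤ) :
    (nrm ({0} : Set ℤ) d j t).1 = j ∨ (nrm ({0} : Set ℤ) d j t).1 = j - 1 := by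
  unfold nrm; split_ifs
  · exact Or.inr rfl
  · exact Or.inl rfl

theorem nrm_ne (d j t : ℤ) (hd : d < 0) : (nrm ({0} : Set ℤ) d j t).1 ≠ 0 := by
  unfold nrm
  split_ifs with h
  · have : j = 0 := h.2
    simp only
    omega
  · intro h2
    exact h ⟨hd, h2⟩

theorem dg_facts {c : ℤ} {e : Edg} {x y : ℤ × ℤ} (h : Dg ({0} : Set ℤ) c e x y) :
    ((x.2 = dco e ∧ y.2 = dco e + 1) ∨ (x.2 = dco e + 1 ∧ y.2 = dco e)) ∧
      (x.1 - y.1 ≤ 2 ∧ y.1 - x.1 ≤ 2) ∧ (dco e < 0 → x.1 ≠ 0 ∧ y.1 ≠ 0) := by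
  rcases h with h | h
  · refine ⟨Or.inl ⟨nrm_snd _ _ _, nrm_snd _ _ _⟩, ?_, fun hd => ⟨nrm_ne _ _ _ hd, nrm_ne _ _ _ hd⟩⟩
    have h1 := nrm_fst (dco e) (e.1 + e.2.1) (dco e)
    have h2 := nrm_fst (dco e) (e.1 + e.2.1 + 1) (dco e + 1)
    omega
  · refine ⟨Or.inr ⟨nrm_snd _ _ _, nrm_snd _ _ _⟩, ?_, fun hd => ⟨nrm_ne _ _ _ hd, nrm_ne _ _ _ hd⟩⟩
    have h1 := nrm_fst (dco e) (e.1 + e.2.1) (dco e + 1)
    have h2 := nrm_fst (dco e) (e.1 + e.2.1 + 1) (dco e)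
    omega

theorem lq_facts {G : Set Edg} {e : Edg} {x y : ℤ × ℤ} (h : Lq G e x y) :
    ((x.2 = dco e ∧ y.2 = dco e + 1) ∨ (x.2 = dco e + 1 ∧ y.2 = dco e)) ∧
      (x.1 - y.1 ≤ 2 ∧ y.1 - x.1 ≤ 2) ∧ (dco e < 0 → x.1 ≠ 0 ∧ y.1 ≠ 0) := by
  rcases h.2 with ⟨-, h | h⟩ | ⟨-, h | h⟩
  · exact dg_facts h
  · obtain ⟨h1, h2, h3⟩ := dg_facts h
    exact ⟨by omega, by omega, fun hd => ⟨(h3 hd).2, (h3 hd).1⟩⟩
  · exact dg_facts h
  · obtain ⟨h1, h2, h3⟩ := dg_facts h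
    exact ⟨by omega, by omega, fun hd => ⟨(h3 hd).2, (h3 hd).1⟩⟩

theorem lq_symm {G : Set Edg} {e : Edg} {x y : ℤ × ℤ} (h : Lq G e x y) : Lq G e y x := by
  refine ⟨h.1, ?_⟩
  rcases h.2 with ⟨h1, h | h⟩ | ⟨h1, h | h⟩
  · exact Or.inl ⟨h1, Or.inr h⟩
  · exact Or.inl ⟨h1, Or.inl h⟩
  · exact Or.inr ⟨h1, Or.inr h⟩
  · exact Or.inr ⟨h1, Or.inl h⟩

theorem lq_of {B G : Set Edg} {x y : ℤ × ℤ} (h : LZ {0} B G x y) : ∃ e ∈ B, Lq G e x y := by
  obtain ⟨e, he, hz, h⟩ := h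
  refine ⟨e, he, hz, ?_⟩
  rcases h with ⟨h1, h⟩ | ⟨h1, h⟩
  · exact Or.inl ⟨h1, Or.inl h⟩
  · exact Or.inr ⟨h1, Or.inl h⟩

theorem rz_of {B G : Set Edg} {e : Edg} (he : e ∈ B) {x y : ℤ × ℤ} (h : Lq G e x y) :
    RZ {0} B G x y := by
  rcases h.2 with ⟨h1, h2 | h2⟩ | ⟨h1, h2 | h2⟩
  · exact Relation.EqvGen.rel _ _ ⟨e, he, h.1, Or.inl ⟨h1, h2⟩⟩
  · exact Relation.EqvGen.symm _ _ (Relation.EqvGen.rel _ _ ⟨e, he, h.1, Or.inl ⟨h1, h2⟩⟩)
  · exact Relation.EqvGen.rel _ _ ⟨e, he, h.1, Or.inr ⟨h1, h2⟩⟩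
  · exact Relation.EqvGen.symm _ _ (Relation.EqvGen.rel _ _ ⟨e, he, h.1, Or.inr ⟨h1, h2⟩⟩)

/-- walks exist -/
theorem walk {B G : Set Edg} {u v : ℤ × ℤ} (h : RZ {0} B G u v) : ∃ φ, Wk B G u v φ := by
  have key : ∀ (a : ℤ × ℤ), (∃ φ, Wk B G a u φ) ↔ (∃ φ, Wk B G a v φ) := by
    intro a
    induction h with
    | rel x y h =>
      obtain ⟨e, he, hl⟩ := lq_of h
      constructor
      · rintro ⟨φ, hφ⟩
        exact ⟨_, Wk.cons a x y φ e hφ he hl⟩
      · rintro ⟨φ, hφ⟩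
        exact ⟨_, Wk.cons a y x φ e hφ he (lq_symm hl)⟩
    | refl x => exact Iff.rfl
    | symm x y _ ih => exact ih.symm
    | trans x y z _ _ ih1 ih2 => exact ih1.trans ih2
  exact (key u).1 ⟨_, Wk.nil u⟩

theorem wk_rz {B G : Set Edg} {a b : ℤ × ℤ} {φ : ℤ × ℤ → ℤ} (h : Wk B G a b φ) :
    RZ {0} B G a b := by
  induction h with
  | nil => exact Relation.EqvGen.refl _
  | cons v w φ e h he hl ih => exact Relation.EqvGen.trans _ _ _ ih (rz_of he hl)

theorem wk_gauge {R : ℕ} {G : Set Edg} {m : ℤ × ℤ → ℤ} (hG : GauD R G m) {a b : ℤ × ℤ}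
    {φ : ℤ × ℤ → ℤ} (h : Wk (bxz R) G a b φ) (ha : K1 R G a) : φ (0, 0) = m b - m a := by
  induction h with
  | nil => simp
  | cons v w φ e h he hl ih =>
    have hv : K1 R G v := Relation.EqvGen.trans _ _ _ ha (wk_rz h)
    show φ (0, 0) + cr (0, 0) v w = m w - m a
    rw [hG.step v w e hv he hl, ih]
    ring

theorem wk_left {B G : Set Edg} {a b : ℤ × ℤ} {φ : ℤ × ℤ → ℤ} (h : Wk B G a b φ) :
    φ (-1, 0) = φ (0, 0) := by
  induction h with
  | nil => rfl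
  | cons v w φ e h he hl ih =>
    show φ (-1, 0) + cr (-1, 0) v w = φ (0, 0) + cr (0, 0) v w
    rw [ih]
    congr 1
    obtain ⟨h1, h2, h3⟩ := lq_facts hl
    unfold cr
    simp only
    split_ifs <;> omega

theorem wk_right {R : ℕ} {G : Set Edg} {a b : ℤ × ℤ} {φ : ℤ × ℤ → ℤ} (h : Wk (bxz R) G a b φ)
    (ha : ¬ RZ {0} (bxz R) G a (1, 0)) : φ (1, 0) = φ (0, 0) := by
  induction h with
  | nil => rfl
  | cons v w φ e h he hl ih =>
    show φ (1, 0) + cr (1, 0) v w = φ (0, 0) + cr (0, 0) v w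
    rw [ih]
    congr 1
    have hv : ¬ (v.1 = 1 ∧ v.2 = 0) := by
      rintro ⟨q1, q2⟩
      apply ha
      have : v = (1, 0) := Prod.ext q1 q2
      rw [← this]
      exact wk_rz h
    have hw : ¬ (w.1 = 1 ∧ w.2 = 0) := by
      rintro ⟨q1, q2⟩
      apply ha
      have : w = (1, 0) := Prod.ext q1 q2
      rw [← this]
      exact Relation.EqvGen.trans _ _ _ (wk_rz h) (rz_of he hl)
    unfold cr
    simp only
    split_ifs <;> omega

/-- discrete intermediate values -/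
theorem ivt (f : ℤ × ℤ → ℤ) (A : Finset ℤ) (U : ℤ × ℤ → Prop) (r : ℤ × ℤ → ℤ × ℤ → Prop)
    (hU : ∀ u v, Relation.EqvGen r u v → (U u ↔ U v))
    (hR : ∀ u v, U u → U v → r u v → ∀ n, n ∉ A → (n < f u ↔ n < f v))
    (u v : ℤ × ℤ) (h : Relation.EqvGen r u v) (hu : U u) : |f u - f v| ≤ A.card := by
  have key : ∀ n : ℤ, n ∉ A → (n < f u ↔ n < f v) := by
    intro n hn
    induction h with
    | rel x y h => exact hR x y hu ((hU x y (Relation.EqvGen.rel _ _ h)).1 hu) h n hn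
    | refl x => exact Iff.rfl
    | symm x y h ih => exact (ih ((hU x y h).2 hu)).symm
    | trans x y z h1 h2 ih1 ih2 => exact (ih1 hu).trans (ih2 ((hU x y h1).1 hu))
  rcases le_total (f u) (f v) with h1 | h1
  · have hs : Finset.Ico (f u) (f v) ⊆ A := by
      intro n hn
      rw [Finset.mem_Ico] at hn
      by_contra hA
      have := key n hA
      omega
    have hc := Finset.card_le_card hs
    rw [Int.card_Ico] at hc
    rw [abs_of_nonpos (by omega)]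
    omega
  · have hs : Finset.Ico (f v) (f u) ⊆ A := by
      intro n hn
      rw [Finset.mem_Ico] at hn
      by_contra hA
      have := key n hA
      omega
    have hc := Finset.card_le_card hs
    rw [Int.card_Ico] at hc
    rw [abs_of_nonneg (by omega)]
    omega

open Classical in
/-- columns of the row of `a` between `a` and `b` in the cluster of `c0` -/
noncomputable def Col (R : ℕ) (G : Set Edg) (a b c0 : ℤ × ℤ) : Finset ℤ :=
  (Finset.Ico (min a.1 b.1) (max a.1 b.1)).filter (fun k => RZ {0} (bxz R) G c0 (k, a.2))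

/-- the change along an upward link -/
theorem up_link (p p' a b : ℤ × ℤ) (D : ℤ) (hup : p'.2 = p.2 + 1) (h2 : p.1 - p'.1 ≤ 2)
    (h2' : p'.1 - p.1 ≤ 2) (hD : D = gg p b - gg p a + vc p' b a - vc p b a) :
    (D = 0) ∨ (D = 1 ∧ p.2 = a.2 ∧ a.1 ≤ p.1 ∧ p.1 < b.1) ∨
    (D = -1 ∧ p.2 = a.2 ∧ b.1 ≤ p.1 ∧ p.1 < a.1) ∨
    ((-2 ≤ D ∧ D ≤ 2) ∧ (min a.2 b.2 ≤ p.2 ∧ p.2 ≤ max a.2 b.2) ∧
      (b.1 - 2 ≤ p.1 ∧ p.1 ≤ b.1 + 1)) := by
  unfold gg vc at hD
  split_ifs at hD <;> omega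

theorem sector (hC : S_CON) (hL : S_LP) {R : ℕ} {G : Set Edg} {a b : ℤ × ℤ} {φ : ℤ × ℤ → ℤ}
    (hR : 20 ≤ R) (hφ : Wk (bxz R) G a b φ) (na : 2 * nz a ≤ R) (nb : 2 * nz b ≤ R)
    (c0 x : ℤ × ℤ) (h0 : ¬ RZ {0} (bxz R) G a c0) (hx : RZ {0} (bxz R) G c0 x)
    (ht : ∃ e ∉ bxz R, Cor {0} 0 e x ∨ Cor {0} 1 e x) :
    |φ c0 + vc c0 b a| ≤ ((Col R G a b c0).card : ℤ) + 16 * (|b.2 - a.2| + 1) := by
  classical
  set F : ℤ × ℤ → ℤ := fun p => φ p + vc p b a with hF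
  set A1 : Finset ℤ := (Col R G a b c0).image
    (fun k => if a.1 ≤ b.1 then F (k, a.2) else F (k, a.2) - 1) with hA1
  set A2 : Finset ℤ := ((Finset.Icc (min a.2 b.2) (max a.2 b.2)) ×ˢ (Finset.Icc (-2 : ℤ) 1) ×ˢ
    (Finset.Icc (-2 : ℤ) 1)).image (fun t => F (b.1 + t.2.1, t.1) + t.2.2) with hA2
  have hA1c : A1.card ≤ (Col R G a b c0).card := Finset.card_image_le
  have hA2c : (A2.card : ℤ) ≤ 16 * (|b.2 - a.2| + 1) := by
    have h1 : A2.card ≤ _ := Finset.card_image_le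
    rw [Finset.card_product, Finset.card_product, Int.card_Icc, Int.card_Icc] at h1
    have h2 : ((max a.2 b.2 + 1 - min a.2 b.2).toNat : ℤ) = |b.2 - a.2| + 1 := by
      rcases le_total a.2 b.2 with h | h
      · rw [max_eq_right h, min_eq_left h, abs_of_nonneg (by omega)]
        omega
      · rw [max_eq_left h, min_eq_right h, abs_of_nonpos (by omega)]
        omega
    have h3 : ((1 : ℤ) + 1 - (-2)).toNat = 4 := rfl
    rw [h3] at h1
    have h4 : (A2.card : ℤ) ≤ ((max a.2 b.2 + 1 - min a.2 b.2).toNat : ℤ) * (4 * 4) := by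
      exact_mod_cast h1
    rw [h2] at h4
    linarith
  -- the value at the boundary
  have hFx : F x = 0 := by
    have h1 : 0 ≤ nz a := (abs_nonneg a.1).trans (le_max_left _ _)
    have h2 := hL R G a b φ (0, 0) (R / 2) hφ
      (by
        have : (a.1 - ((0, 0) : ℤ × ℤ).1, a.2 - ((0, 0) : ℤ × ℤ).2) = a := by simp
        rw [this]
        push_cast
        omega)
      (by
        have : (b.1 - ((0, 0) : ℤ × ℤ).1, b.2 - ((0, 0) : ℤ × ℤ).2) = b := by simp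
        rw [this]
        push_cast
        omega)
    refine h2.2 ?_ x ?_ ht
    · have : nz ((0, 0) : ℤ × ℤ) = 0 := by simp [nz]
      rw [this]
      push_cast
      omega
    · intro h
      exact h0 (Relation.EqvGen.trans _ _ _ h (Relation.EqvGen.symm _ _ hx))
  have hUa : ∀ p, RZ {0} (bxz R) G c0 p → ¬ RZ {0} (bxz R) G a p := fun p hp h =>
    h0 (Relation.EqvGen.trans _ _ _ h (Relation.EqvGen.symm _ _ hp))
  -- upward links
  have up : ∀ (e : Edg) (p p' : ℤ × ℤ), e ∈ bxz R → Lq G e p p' → p'.2 = p.2 + 1 →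
      RZ {0} (bxz R) G c0 p → RZ {0} (bxz R) G c0 p' → ∀ n, n ∉ A1 ∪ A2 →
      (n < F p ↔ n < F p') := by
    intro e p p' he hl hup hp hp' n hn
    rw [Finset.mem_union, not_or] at hn
    obtain ⟨hn1, hn2⟩ := hn
    have hc := hC (bxz R) G G a b φ e p p' hφ (fun _ => Iff.rfl) hl hup (hUa p hp) (hUa p' hp')
    obtain ⟨-, ⟨h2, h2'⟩, -⟩ := lq_facts hl
    have hD : F p' - F p = gg p b - gg p a + vc p' b a - vc p b a := by
      show (φ p' + vc p' b a) - (φ p + vc p b a) = _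
      linarith
    rcases up_link p p' a b (F p' - F p) hup h2 h2' hD with h | ⟨h, q1, q2, q3⟩ |
      ⟨h, q1, q2, q3⟩ | ⟨⟨h, h'⟩, ⟨q1, q2⟩, q3, q4⟩
    · have : F p' = F p := by linarith
      rw [this]
    · have hpe : (p.1, a.2) = p := Prod.ext rfl q1.symm
      have : n ≠ F p := by
        rintro rfl
        apply hn1
        rw [hA1, Finset.mem_image]
        refine ⟨p.1, ?_, ?_⟩
        · rw [Col, Finset.mem_filter, Finset.mem_Ico, hpe]
          exact ⟨by omega, hp⟩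
        · rw [if_pos (by omega), hpe]
      omega
    · have hpe : (p.1, a.2) = p := Prod.ext rfl q1.symm
      have : n ≠ F p - 1 := by
        rintro rfl
        apply hn1
        rw [hA1, Finset.mem_image]
        refine ⟨p.1, ?_, ?_⟩
        · rw [Col, Finset.mem_filter, Finset.mem_Ico, hpe]
          exact ⟨by omega, hp⟩
        · rw [if_neg (by omega), hpe]
      omega
    · have : ¬ (F p - 2 ≤ n ∧ n ≤ F p + 1) := by
        rintro ⟨r1, r2⟩
        apply hn2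
        rw [hA2, Finset.mem_image]
        refine ⟨(p.2, p.1 - b.1, n - F p), ?_, ?_⟩
        · simp only [Finset.mem_product, Finset.mem_Icc]
          omega
        · have : ((b.1 + (p.1 - b.1), p.2) : ℤ × ℤ) = p := Prod.ext (by simp) rfl
          simp only [this]
          ring
      omega
  have hmain := ivt F (A1 ∪ A2) (fun p => RZ {0} (bxz R) G c0 p) (LZ {0} (bxz R) G)
    (fun u v h => ⟨fun h1 => Relation.EqvGen.trans _ _ _ h1 h,
      fun h1 => Relation.EqvGen.trans _ _ _ h1 (Relation.EqvGen.symm _ _ h)⟩)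
    (by
      intro u v hu hv h n hn
      obtain ⟨e, he, hl⟩ := lq_of h
      obtain ⟨h1, -, -⟩ := lq_facts hl
      rcases h1 with h1 | h1
      · exact up e u v he hl (by omega) hu hv n hn
      · exact (up e v u he (lq_symm hl) (by omega) hv hu n hn).symm)
    c0 x hx (Relation.EqvGen.refl _)
  rw [hFx, sub_zero] at hmain
  have h3 : ((A1 ∪ A2).card : ℤ) ≤ A1.card + A2.card := by exact_mod_cast Finset.card_union_le _ _
  have h4 : (A1.card : ℤ) ≤ (Col R G a b c0).card := by exact_mod_cast hA1c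
  show |F c0| ≤ _
  linarith

end DGpriv

open DGpriv in
/-- **bound of the gauge** -/
theorem t_DG : S_CON → S_LP → S_DG := by
  classical
  intro hC hL
  refine ⟨34, ?_⟩
  intro R G m hR hS hG a b ha hb hna hnb
  have hab : RZ {0} (bxz R) G a b := Relation.EqvGen.trans _ _ _ (Relation.EqvGen.symm _ _ ha) hb
  obtain ⟨φ, hφ⟩ := walk hab
  have s0 : scz 0 0 0 = (-1, 0) := by simp [scz]
  have s1 : scz 0 0 1 = (0, 0) := by simp [scz]
  have s2 : scz 0 0 2 = (1, 0) := by simp [scz]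
  have d10 := hS.1 1 0 (by norm_num) (by norm_num) (by norm_num)
  have d12 := hS.1 1 2 (by norm_num) (by norm_num) (by norm_num)
  have d02 := hS.1 0 2 (by norm_num) (by norm_num) (by norm_num)
  rw [s1, s0] at d10
  rw [s1, s2] at d12
  rw [s0, s2] at d02
  obtain ⟨x, hx, hxe⟩ := hS.2 0 (by norm_num)
  obtain ⟨y, hy, hye⟩ := hS.2 2 (by norm_num)
  rw [s0] at hx
  rw [s2] at hy
  have hm := wk_gauge hG hφ ha
  have a0 : ¬ RZ {0} (bxz R) G a (-1, 0) := fun h => d10 (Relation.EqvGen.trans _ _ _ ha h)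
  have a2 : ¬ RZ {0} (bxz R) G a (1, 0) := fun h => d12 (Relation.EqvGen.trans _ _ _ ha h)
  have k1 := sector hC hL hR hφ hna hnb (-1, 0) x a0 hx hxe
  have k2 := sector hC hL hR hφ hna hnb (1, 0) y a2 hy hye
  rw [wk_left hφ, hm] at k1
  rw [wk_right hφ a2, hm] at k2
  have hvc : ∀ p, |vc p b a| ≤ 1 := by
    intro p
    unfold vc
    split_ifs <;> simp
  have v1 := hvc (-1, 0)
  have v2 := hvc (1, 0)
  have hcard : ((Col R G a b (-1, 0)).card : ℤ) + (Col R G a b (1, 0)).card ≤ |b.1 - a.1| := by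
    have hdis : Disjoint (Col R G a b (-1, 0)) (Col R G a b (1, 0)) := by
      rw [Finset.disjoint_left]
      intro k hk1 hk2
      rw [Col, Finset.mem_filter] at hk1 hk2
      exact d02 (Relation.EqvGen.trans _ _ _ hk1.2 (Relation.EqvGen.symm _ _ hk2.2))
    have h1 : (Col R G a b (-1, 0) ∪ Col R G a b (1, 0)).card ≤
        (Finset.Ico (min a.1 b.1) (max a.1 b.1)).card :=
      Finset.card_le_card (Finset.union_subset (Finset.filter_subset _ _)
        (Finset.filter_subset _ _))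
    rw [Finset.card_union_of_disjoint hdis, Int.card_Ico] at h1
    have h2 : ((max a.1 b.1 - min a.1 b.1).toNat : ℤ) = |b.1 - a.1| := by
      rcases le_total a.1 b.1 with h | h
      · rw [max_eq_right h, min_eq_left h, abs_of_nonneg (by omega)]
        omega
      · rw [max_eq_left h, min_eq_right h, abs_of_nonpos (by omega)]
        omega
    rw [← h2]
    exact_mod_cast h1
  have t1 : |m b - m a| ≤ |m b - m a + vc (-1, 0) b a| + |vc (-1, 0) b a| := by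
    have := abs_sub (m b - m a + vc (-1, 0) b a) (vc (-1, 0) b a)
    rwa [add_sub_cancel_right] at this
  have t2 : |m b - m a| ≤ |m b - m a + vc (1, 0) b a| + |vc (1, 0) b a| := by
    have := abs_sub (m b - m a + vc (1, 0) b a) (vc (1, 0) b a)
    rwa [add_sub_cancel_right] at this
  have t3 := abs_nonneg (b.2 - a.2)
  push_cast
  linarith

end Pool.Agent.W801.RS
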