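import Pool.Agent.W801.RS.Stm

/-!
# Existence of the gauge
-/

set_option autoImplicit false

namespace Pool.Agent.W801.RS
open H974 H906.Cyl H12S Finset
open Pool.Agent.H160R2.ML (nm)
open Pool.Agent.W801.OU (RZ LZ Dg nrm zp Cor scz bxz SE3 uR)
open Pool.Agent.W801.OS (cr)

namespace GADx

theorem nrm_snd (Z : Set ℤ) (d j t : ℤ) : (nrm Z d j t).2 = t := by
  unfold nrm
  split_ifs <;> rfl

theorem Dg_snd {Z : Set ℤ} {c : ℤ} {e : Edg} {x y : ℤ × ℤ} (h : Dg Z c e x y) :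
    y.2 = x.2 + 1 ∨ x.2 = y.2 + 1 := by
  cases h with
  | rise _ => left; rw [nrm_snd, nrm_snd]
  | fall _ => right; rw [nrm_snd, nrm_snd]

theorem Lq_snd {G : Set Edg} {e : Edg} {x y : ℤ × ℤ} (h : Lq G e x y) :
    y.2 = x.2 + 1 ∨ x.2 = y.2 + 1 := by
  obtain ⟨_, h | h⟩ := h
  · obtain ⟨_, h | h⟩ := h
    · exact Dg_snd h
    · exact (Dg_snd h).symm
  · obtain ⟨_, h | h⟩ := h
    · exact Dg_snd h
    · exact (Dg_snd h).symm

theorem Lq_symm {G : Set Edg} {e : Edg} {x y : ℤ × ℤ} (h : Lq G e x y) : Lq G e y x := by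
  obtain ⟨h0, h | h⟩ := h
  · exact ⟨h0, Or.inl ⟨h.1, h.2.symm⟩⟩
  · exact ⟨h0, Or.inr ⟨h.1, h.2.symm⟩⟩

theorem Lq_RZ {B G : Set Edg} {e : Edg} {x y : ℤ × ℤ} (he : e ∈ B) (h : Lq G e x y) :
    RZ {0} B G x y := by
  obtain ⟨h0, h | h⟩ := h
  · obtain ⟨h1, h | h⟩ := h
    · exact Relation.EqvGen.rel _ _ ⟨e, he, h0, Or.inl ⟨h1, h⟩⟩
    · exact Relation.EqvGen.symm _ _ (Relation.EqvGen.rel _ _ ⟨e, he, h0, Or.inl ⟨h1, h⟩⟩)
  · obtain ⟨h1, h | h⟩ := h
    · exact Relation.EqvGen.rel _ _ ⟨e, he, h0, Or.inr ⟨h1, h⟩⟩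
    · exact Relation.EqvGen.symm _ _ (Relation.EqvGen.rel _ _ ⟨e, he, h0, Or.inr ⟨h1, h⟩⟩)

theorem LZ_Lq {B G : Set Edg} {x y : ℤ × ℤ} (h : LZ {0} B G x y) : ∃ e ∈ B, Lq G e x y := by
  obtain ⟨e, he, h0, h | h⟩ := h
  · exact ⟨e, he, h0, Or.inl ⟨h.1, Or.inl h.2⟩⟩
  · exact ⟨e, he, h0, Or.inr ⟨h.1, Or.inl h.2⟩⟩

theorem cr_symm (p u v : ℤ × ℤ) : cr p v u = - cr p u v := by
  unfold cr
  split_ifs <;> first | rfl | (exfalso; omega)

theorem cr_shift {u v : ℤ × ℤ} (hu : u ≠ (1, 0)) (hv : v ≠ (1, 0)) : cr (1, 0) u v = cr (0, 0) u v := by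
  have hu' : ¬ (u.1 = 1 ∧ u.2 = 0) := fun h => hu (Prod.ext h.1 h.2)
  have hv' : ¬ (v.1 = 1 ∧ v.2 = 0) := fun h => hv (Prod.ext h.1 h.2)
  unfold cr
  simp only
  split_ifs <;> first | rfl | (exfalso; omega)

end GADx

open GADx

theorem wk_rz {B G : Set Edg} {u v : ℤ × ℤ} {φ : ℤ × ℤ → ℤ} (h : Wk B G u v φ) :
    RZ {0} B G u v := by
  induction h with
  | nil => exact Relation.EqvGen.refl _
  | cons v w φ e _ he hl ih => exact Relation.EqvGen.trans _ _ _ ih (Lq_RZ he hl)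

theorem wk_trans {B G : Set Edg} {u v w : ℤ × ℤ} {φ ψ : ℤ × ℤ → ℤ} (h : Wk B G u v φ)
    (h' : Wk B G v w ψ) : Wk B G u w (fun p => φ p + ψ p) := by
  induction h' with
  | nil =>
    have : (fun p => φ p + 0) = φ := by funext p; rw [add_zero]
    rw [this]; exact h
  | cons w z ψ e _ he hl ih =>
    have h1 := Wk.cons _ _ _ _ e ih he hl
    have : (fun p => φ p + (ψ p + cr p w z)) = fun p => φ p + ψ p + cr p w z := by
      funext p; ring
    rw [this]; exact h1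

theorem wk_one {B G : Set Edg} {u v : ℤ × ℤ} {e : Edg} (he : e ∈ B) (hl : Lq G e u v) :
    Wk B G u v (fun p => cr p u v) := by
  have h1 := Wk.cons _ _ _ _ e (Wk.nil (B := B) (G := G) u) he hl
  have : (fun p => (fun _ : ℤ × ℤ => (0 : ℤ)) p + cr p u v) = fun p => cr p u v := by
    funext p; ring
  rw [this] at h1; exact h1

theorem wk_rev {B G : Set Edg} {u v : ℤ × ℤ} {φ : ℤ × ℤ → ℤ} (h : Wk B G u v φ) :
    Wk B G v u (fun p => - φ p) := by
  induction h with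
  | nil =>
    have : (fun _ : ℤ × ℤ => - (0 : ℤ)) = fun _ => 0 := by funext p; ring
    rw [this]; exact Wk.nil _
  | cons v w φ e _ he hl ih =>
    have h1 := wk_trans (wk_one he (Lq_symm hl)) ih
    have : (fun p => - (φ p + cr p v w)) = fun p => cr p w v + - φ p := by
      funext p; rw [cr_symm p v w]; ring
    rw [this]; exact h1

theorem rz_wk {B G : Set Edg} {u v : ℤ × ℤ} (h : RZ {0} B G u v) : ∃ φ, Wk B G u v φ := by
  induction h with
  | rel x y h =>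
    obtain ⟨e, he, hl⟩ := LZ_Lq h
    exact ⟨_, wk_one he hl⟩
  | refl x => exact ⟨_, Wk.nil x⟩
  | symm x y _ ih =>
    obtain ⟨φ, hφ⟩ := ih
    exact ⟨_, wk_rev hφ⟩
  | trans x y z _ _ ih1 ih2 =>
    obtain ⟨φ, hφ⟩ := ih1
    obtain ⟨ψ, hψ⟩ := ih2
    exact ⟨_, wk_trans hφ hψ⟩

theorem gaud_wk {R : ℕ} {G : Set Edg} {m : ℤ × ℤ → ℤ} {u v : ℤ × ℤ} {φ : ℤ × ℤ → ℤ}
    (hg : GauD R G m) (hu : K1 R G u) (h : Wk (bxz R) G u v φ) : m v - m u = φ (0, 0) := by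
  induction h with
  | nil => ring
  | cons v w φ e hw he hl ih =>
    have h1 := ih
    have h2 : K1 R G v := Relation.EqvGen.trans _ _ _ hu (wk_rz hw)
    have h3 := hg.step v w e h2 he hl
    show m w - m u = φ (0, 0) + cr (0, 0) v w
    linarith

namespace GADx

/-- the crossing numbers at the two tips agree -/
theorem wk_shift {B G : Set Edg} {a b : ℤ × ℤ} {φ : ℤ × ℤ → ℤ} (h : Wk B G a b φ)
    (h1 : ¬ RZ {0} B G a (1, 0)) : φ (1, 0) = φ (0, 0) := by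
  induction h with
  | nil => rfl
  | cons v w φ e hw he hl ih =>
    have e1 := ih
    have e2 : v ≠ (1, 0) := by
      rintro rfl
      exact h1 (wk_rz hw)
    have e3 : w ≠ (1, 0) := by
      rintro rfl
      exact h1 (Relation.EqvGen.trans _ _ _ (wk_rz hw) (Lq_RZ he hl))
    show φ (1, 0) + cr (1, 0) v w = φ (0, 0) + cr (0, 0) v w
    rw [e1, cr_shift e2 e3]

theorem vc_self (p a : ℤ × ℤ) : vc p a a = 0 := by
  unfold vc
  have h1 : ¬ (a.2 < p.2 ∧ p.2 ≤ a.2 ∧ p.1 < a.1) := by omega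
  rw [if_neg h1]
  rfl

theorem const_cl (hCON : S_CON) {B G : Set Edg} {a : ℤ × ℤ} {φ : ℤ × ℤ → ℤ} (h : Wk B G a a φ)
    {p q : ℤ × ℤ} (hpq : RZ {0} B G p q) : ¬ RZ {0} B G a p → φ p = φ q := by
  induction hpq with
  | rel x y hl =>
    intro hp
    obtain ⟨e, he, hq⟩ := LZ_Lq hl
    have hy : ¬ RZ {0} B G a y := fun hy =>
      hp (Relation.EqvGen.trans _ _ _ hy (Relation.EqvGen.symm _ _ (Lq_RZ he hq)))
    rcases Lq_snd hq with h1 | h1
    · have := hCON B G G a a φ e x y h (fun _ => Iff.rfl) hq h1 hp hy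
      linarith
    · have := hCON B G G a a φ e y x h (fun _ => Iff.rfl) (Lq_symm hq) h1 hy hp
      linarith
  | refl x => intro _; rfl
  | symm x y hxy ih =>
    intro hy
    have hx : ¬ RZ {0} B G a x := fun hx => hy (Relation.EqvGen.trans _ _ _ hx hxy)
    exact (ih hx).symm
  | trans x y z hxy _ ih1 ih2 =>
    intro hx
    have hy : ¬ RZ {0} B G a y := fun hy =>
      hx (Relation.EqvGen.trans _ _ _ hy (Relation.EqvGen.symm _ _ hxy))
    exact (ih1 hx).trans (ih2 hy)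

theorem closed (hCON : S_CON) (hLP : S_LP) {R : ℕ} {G : Set Edg} (hR : 3 ≤ R) (hS : SE3 R G)
    {φ : ℤ × ℤ → ℤ} (h : Wk (bxz R) G (0, 0) (0, 0) φ) : φ (0, 0) = 0 := by
  have hs1 : scz 0 0 1 = (0, 0) := by unfold scz; norm_num
  have hs2 : scz 0 0 2 = (1, 0) := by unfold scz; norm_num
  have hn : ¬ RZ {0} (bxz R) G (0, 0) (1, 0) := by
    have := hS.1 1 2 (by norm_num) (by norm_num) (by norm_num)
    rwa [hs1, hs2] at this
  obtain ⟨x, hx, e, he, hc⟩ := hS.2 2 (by norm_num)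
  rw [hs2] at hx
  have hxn : ¬ RZ {0} (bxz R) G (0, 0) x := fun h' =>
    hn (Relation.EqvGen.trans _ _ _ h' (Relation.EqvGen.symm _ _ hx))
  have h1 := (hLP R G (0, 0) (0, 0) φ (0, 0) 0 h (by simp [nz]) (by simp [nz])).2
    (by simp [nz]; exact_mod_cast hR) x hxn ⟨e, he, hc⟩
  rw [vc_self, add_zero] at h1
  rw [← wk_shift h hn, const_cl hCON h hx hn, h1]

end GADx

theorem t_GAD : S_CON → S_LP → S_GAD := by
  intro hCON hLP R G hR hS
  classical
  refine ⟨fun v => if h : ∃ φ, Wk (bxz R) G (0, 0) v φ then (Classical.choose h) (0, 0) else 0,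
    ?_, ?_⟩
  · have h : ∃ φ, Wk (bxz R) G (0, 0) (0, 0) φ := ⟨_, Wk.nil _⟩
    show (if h : ∃ φ, Wk (bxz R) G (0, 0) (0, 0) φ then (Classical.choose h) (0, 0) else 0) = 0
    rw [dif_pos h]
    exact closed hCON hLP hR hS (Classical.choose_spec h)
  · intro u v e hu he hl
    have h1 : ∃ φ, Wk (bxz R) G (0, 0) u φ := rz_wk hu
    have h2 : ∃ φ, Wk (bxz R) G (0, 0) v φ :=
      ⟨_, wk_trans (Classical.choose_spec h1) (wk_one he hl)⟩
    show (if h : ∃ φ, Wk (bxz R) G (0, 0) v φ then (Classical.choose h) (0, 0) else 0) =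
      (if h : ∃ φ, Wk (bxz R) G (0, 0) u φ then (Classical.choose h) (0, 0) else 0) + cr (0, 0) u v
    rw [dif_pos h1, dif_pos h2]
    have h3 := closed hCON hLP hR hS (wk_trans (wk_trans (Classical.choose_spec h1) (wk_one he hl))
      (wk_rev (Classical.choose_spec h2)))
    have h4 : Classical.choose h1 (0, 0) + cr (0, 0) u v + - Classical.choose h2 (0, 0) = 0 := h3
    linarith

end Pool.Agent.W801.RS
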