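import Pool.Agent.W801.RS.Stm

/-! # Six arms around a gate -/

set_option autoImplicit false

namespace Pool.Agent.W801.RS
open H974 H906.Cyl H12S Finset
open Pool.Agent.H160R2.ML (nm)
open Pool.Agent.W801.OU (RZ LZ Dg nrm zp Cor scz bxz SE3)
open Pool.Agent.W801.OS (cr)

namespace TGATE

/-- symmetric steps -/
def St (B G : Set Edg) (x y : ℤ × ℤ) : Prop := ∃ e ∈ B, Lq G e x y

/-- `x` is a corner of a square of `P` -/
def Tc (P : Set Edg) (x : ℤ × ℤ) : Prop := ∃ e ∈ P, Cor {0} 0 e x ∨ Cor {0} 1 e x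

theorem lq_symm {G : Set Edg} {e : Edg} {x y : ℤ × ℤ} (h : Lq G e x y) : Lq G e y x := by
  obtain ⟨h1, ⟨a, b⟩ | ⟨a, b⟩⟩ := h
  · exact ⟨h1, Or.inl ⟨a, b.symm⟩⟩
  · exact ⟨h1, Or.inr ⟨a, b.symm⟩⟩

theorem st_symm {B G : Set Edg} {x y : ℤ × ℤ} (h : St B G x y) : St B G y x := by
  obtain ⟨e, he, h⟩ := h
  exact ⟨e, he, lq_symm h⟩

theorem lz_st {B G : Set Edg} {x y : ℤ × ℤ} (h : LZ {0} B G x y) : St B G x y := by
  obtain ⟨e, he, hz, ⟨a, b⟩ | ⟨a, b⟩⟩ := h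
  · exact ⟨e, he, hz, Or.inl ⟨a, Or.inl b⟩⟩
  · exact ⟨e, he, hz, Or.inr ⟨a, Or.inl b⟩⟩

theorem st_rz {B G : Set Edg} {x y : ℤ × ℤ} (h : St B G x y) : RZ {0} B G x y := by
  obtain ⟨e, he, hz, ⟨a, b | b⟩ | ⟨a, b | b⟩⟩ := h
  · exact Relation.EqvGen.rel _ _ ⟨e, he, hz, Or.inl ⟨a, b⟩⟩
  · exact Relation.EqvGen.symm _ _ (Relation.EqvGen.rel _ _ ⟨e, he, hz, Or.inl ⟨a, b⟩⟩)
  · exact Relation.EqvGen.rel _ _ ⟨e, he, hz, Or.inr ⟨a, b⟩⟩
  · exact Relation.EqvGen.symm _ _ (Relation.EqvGen.rel _ _ ⟨e, he, hz, Or.inr ⟨a, b⟩⟩)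

theorem rtg_symm {B G : Set Edg} {x y : ℤ × ℤ} (h : Relation.ReflTransGen (St B G) x y) :
    Relation.ReflTransGen (St B G) y x := by
  induction h with
  | refl => exact Relation.ReflTransGen.refl
  | tail _ h ih => exact Relation.ReflTransGen.head (st_symm h) ih

theorem rz_iff {B G : Set Edg} {x y : ℤ × ℤ} :
    RZ {0} B G x y ↔ Relation.ReflTransGen (St B G) x y := by
  constructor
  · intro h
    induction h with
    | rel x y h => exact Relation.ReflTransGen.single (lz_st h)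
    | refl x => exact Relation.ReflTransGen.refl
    | symm x y _ ih => exact rtg_symm ih
    | trans x y z _ _ i1 i2 => exact i1.trans i2
  · intro h
    induction h with
    | refl => exact Relation.EqvGen.refl _
    | tail _ h ih => exact Relation.EqvGen.trans _ _ _ ih (st_rz h)

theorem rz_refl {B G : Set Edg} (x : ℤ × ℤ) : RZ {0} B G x x := Relation.EqvGen.refl _

theorem rz_symm {B G : Set Edg} {x y : ℤ × ℤ} (h : RZ {0} B G x y) : RZ {0} B G y x :=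
  Relation.EqvGen.symm _ _ h

theorem rz_trans {B G : Set Edg} {x y z : ℤ × ℤ} (h : RZ {0} B G x y) (h' : RZ {0} B G y z) :
    RZ {0} B G x z := Relation.EqvGen.trans _ _ _ h h'

theorem rz_mono {B B' G : Set Edg} (hB : B ⊆ B') {x y : ℤ × ℤ} (h : RZ {0} B G x y) :
    RZ {0} B' G x y := by
  rw [rz_iff] at h ⊢
  induction h with
  | refl => exact Relation.ReflTransGen.refl
  | tail _ h ih =>
    obtain ⟨e, he, h⟩ := h
    exact ih.tail ⟨e, hB he, h⟩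

theorem tc_of_lq {G P : Set Edg} {e : Edg} {x y : ℤ × ℤ} (he : e ∈ P) (h : Lq G e x y) :
    Tc P x := by
  obtain ⟨h1, ⟨a, b⟩ | ⟨a, b⟩⟩ := h
  · exact ⟨e, he, Or.inl ⟨h1, y, b⟩⟩
  · exact ⟨e, he, Or.inr ⟨h1, y, b⟩⟩

/-- a walk avoids `P` or its first part reaches `P` -/
theorem dich {B : Set Edg} (P : Set Edg) {G : Set Edg} {u q : ℤ × ℤ} (h : RZ {0} B G u q) :
    RZ {0} (B \ P) G u q ∨ ∃ x, Tc P x ∧ RZ {0} (B \ P) G u x := by
  rw [rz_iff] at h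
  induction h using Relation.ReflTransGen.head_induction_on with
  | refl => exact Or.inl (rz_refl _)
  | head h1 _ ih =>
    obtain ⟨e, he, h1⟩ := h1
    by_cases hP : e ∈ P
    · exact Or.inr ⟨_, tc_of_lq hP h1, rz_refl _⟩
    · have h2 : RZ {0} (B \ P) G _ _ := st_rz ⟨e, ⟨he, hP⟩, h1⟩
      rcases ih with ih | ⟨x, hx, ih⟩
      · exact Or.inl (rz_trans h2 ih)
      · exact Or.inr ⟨x, hx, rz_trans h2 ih⟩

/-! ## corners -/

theorem dg_cor {c : ℤ} {e : Edg} {x y : ℤ × ℤ} (h : Dg {0} c e x y) :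
    ∃ k : ℤ, (k = 0 ∨ k = 1) ∧ x = nrm {0} (dco e) (e.1 + e.2.1) (dco e + k) ∧
      y = nrm {0} (dco e) (e.1 + e.2.1 + 1) (dco e + (1 - k)) := by
  rcases h with h | h
  · exact ⟨0, Or.inl rfl, by rw [add_zero], by rw [sub_zero]⟩
  · exact ⟨1, Or.inr rfl, rfl, by rw [sub_self, add_zero]⟩

theorem lq_cor {G : Set Edg} {e : Edg} {x y : ℤ × ℤ} (h : Lq G e x y) :
    ∃ i k : ℤ, (i = 0 ∨ i = 1) ∧ (k = 0 ∨ k = 1) ∧
      x = nrm {0} (dco e) (e.1 + e.2.1 + i) (dco e + k) ∧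
      y = nrm {0} (dco e) (e.1 + e.2.1 + (1 - i)) (dco e + (1 - k)) := by
  have k1 : ∀ c : ℤ, Dg {0} c e x y ∨ Dg {0} c e y x → ∃ i k : ℤ, (i = 0 ∨ i = 1) ∧
      (k = 0 ∨ k = 1) ∧ x = nrm {0} (dco e) (e.1 + e.2.1 + i) (dco e + k) ∧
      y = nrm {0} (dco e) (e.1 + e.2.1 + (1 - i)) (dco e + (1 - k)) := by
    rintro c (h | h)
    · obtain ⟨k, hk, h1, h2⟩ := dg_cor h
      exact ⟨0, k, Or.inl rfl, hk, by rw [add_zero]; exact h1, by rw [sub_zero]; exact h2⟩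
    · obtain ⟨k, hk, h1, h2⟩ := dg_cor h
      refine ⟨1, 1 - k, Or.inr rfl, by omega, h2, ?_⟩
      rw [sub_self, add_zero, sub_sub_cancel]
      exact h1
  obtain ⟨-, ⟨-, h⟩ | ⟨-, h⟩⟩ := h
  · exact k1 _ h
  · exact k1 _ h

theorem nrm_snd (d j t : ℤ) : (nrm ({0} : Set ℤ) d j t).2 = t := by
  unfold nrm; split_ifs <;> rfl

theorem nrm_fst (d j t : ℤ) : (¬ (d < 0 ∧ j = 0) ∧ (nrm ({0} : Set ℤ) d j t).1 = j) ∨
    (d < 0 ∧ j = 0 ∧ (nrm ({0} : Set ℤ) d j t).1 = -1) := by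
  unfold nrm
  by_cases h : d < 0 ∧ j = 0
  · right
    rw [if_pos (by simpa using h)]
    exact ⟨h.1, h.2, by rw [h.2]; rfl⟩
  · left
    rw [if_neg (by simpa using h)]
    exact ⟨h, rfl⟩

/-- the numerical content of a link -/
theorem lq_num {G : Set Edg} {e : Edg} {x y : ℤ × ℤ} (h : Lq G e x y) :
    (e.1 + e.2.1 - 1 ≤ x.1 ∧ x.1 ≤ e.1 + e.2.1 + 1) ∧
    (e.1 + e.2.1 - 1 ≤ y.1 ∧ y.1 ≤ e.1 + e.2.1 + 1) ∧
    ((x.2 = dco e ∧ y.2 = dco e + 1) ∨ (x.2 = dco e + 1 ∧ y.2 = dco e)) ∧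
    (e.1 + e.2.1 ≠ 0 → e.1 + e.2.1 ≠ -1 → e.1 + e.2.1 ≤ x.1 ∧ e.1 + e.2.1 ≤ y.1) ∧
    (dco e < 0 → x.1 ≠ 0 ∧ y.1 ≠ 0) := by
  obtain ⟨i, k, hi, hk, h1, h2⟩ := lq_cor h
  have a1 := nrm_snd (dco e) (e.1 + e.2.1 + i) (dco e + k)
  have a2 := nrm_fst (dco e) (e.1 + e.2.1 + i) (dco e + k)
  have a3 := nrm_snd (dco e) (e.1 + e.2.1 + (1 - i)) (dco e + (1 - k))
  have a4 := nrm_fst (dco e) (e.1 + e.2.1 + (1 - i)) (dco e + (1 - k))
  rw [← h1] at a1 a2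
  rw [← h2] at a3 a4
  refine ⟨?_, ?_, ?_, ?_, ?_⟩ <;> omega

/-! ## walks -/

theorem wk_rz {B G : Set Edg} {a b : ℤ × ℤ} {φ : ℤ × ℤ → ℤ} (h : Wk B G a b φ) :
    RZ {0} B G a b := by
  induction h with
  | nil => exact rz_refl _
  | cons v w φ e _ he hl ih => exact rz_trans ih (st_rz ⟨e, he, hl⟩)

theorem wk_ex {B G : Set Edg} {a b : ℤ × ℤ} (h : RZ {0} B G a b) : ∃ φ, Wk B G a b φ := by
  rw [rz_iff] at h
  induction h with
  | refl => exact ⟨_, Wk.nil _⟩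
  | tail _ h ih =>
    obtain ⟨φ, ih⟩ := ih
    obtain ⟨e, he, h⟩ := h
    exact ⟨_, Wk.cons _ _ _ _ e ih he h⟩

theorem wk_left {B G : Set Edg} {a b : ℤ × ℤ} {φ : ℤ × ℤ → ℤ} (h : Wk B G a b φ) :
    φ (-1, 0) = φ (0, 0) := by
  induction h with
  | nil => rfl
  | cons v w φ e _ he hl ih =>
    have h1 := lq_num hl
    show φ (-1, 0) + cr (-1, 0) v w = φ (0, 0) + cr (0, 0) v w
    have h2 : cr (-1, 0) v w = cr (0, 0) v w := by
      unfold cr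
      simp only
      split_ifs <;> omega
    rw [ih, h2]

theorem wk_right {B G : Set Edg} {a b : ℤ × ℤ} {φ : ℤ × ℤ → ℤ} (h : Wk B G a b φ)
    (hn : ¬ RZ {0} B G a (1, 0)) : φ (1, 0) = φ (0, 0) := by
  induction h with
  | nil => rfl
  | cons v w φ e hw he hl ih =>
    have h1 : RZ {0} B G a v := wk_rz hw
    have h2 : RZ {0} B G a w := rz_trans h1 (st_rz ⟨e, he, hl⟩)
    have h3 : ¬ (v.1 = 1 ∧ v.2 = 0) := by
      rintro ⟨h4, h5⟩
      apply hn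
      have : v = (1, 0) := Prod.ext h4 h5
      rw [← this]; exact h1
    have h4 : ¬ (w.1 = 1 ∧ w.2 = 0) := by
      rintro ⟨h4, h5⟩
      apply hn
      have : w = (1, 0) := Prod.ext h4 h5
      rw [← this]; exact h2
    show φ (1, 0) + cr (1, 0) v w = φ (0, 0) + cr (0, 0) v w
    have h2 : cr (1, 0) v w = cr (0, 0) v w := by
      unfold cr
      simp only
      split_ifs <;> omega
    rw [ih, h2]

theorem wk_m {R : ℕ} {G : Set Edg} {m : ℤ × ℤ → ℤ} (g : GauD R G m) {a b : ℤ × ℤ}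
    {φ : ℤ × ℤ → ℤ} (h : Wk (bxz R) G a b φ) (ha : K1 R G a) : m b - m a = φ (0, 0) := by
  induction h with
  | nil => simp
  | cons v w φ e hw he hl ih =>
    have h1 : K1 R G v := rz_trans ha (wk_rz hw)
    have h2 := g.step v w e h1 he hl
    have h3 := ih
    show m w - m a = φ (0, 0) + cr (0, 0) v w
    omega

/-! ## geometry -/

theorem nz_le {x : ℤ × ℤ} {k : ℤ} (h : nz x ≤ k) : (-k ≤ x.1 ∧ x.1 ≤ k) ∧ (-k ≤ x.2 ∧ x.2 ≤ k) := by
  unfold nz at h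
  rw [max_le_iff, abs_le, abs_le] at h
  exact h

theorem nz_ge {x : ℤ × ℤ} {k : ℤ} (h : k ≤ nz x) : k ≤ x.1 ∨ k ≤ -x.1 ∨ k ≤ x.2 ∨ k ≤ -x.2 := by
  unfold nz at h
  rw [le_max_iff, le_abs, le_abs] at h
  tauto

theorem mem_DB {z : ℤ × ℤ} {n : ℕ} {e : Edg} : e ∈ DB z n ↔
    (-(n : ℤ) ≤ e.1 + e.2.1 - z.1 ∧ e.1 + e.2.1 - z.1 ≤ n) ∧
    (-(n : ℤ) ≤ dco e - z.2 ∧ dco e - z.2 ≤ n) := by
  unfold DB
  rw [Set.mem_ofPred_eq, abs_le, abs_le]

theorem db_sub {z : ℤ × ℤ} {n R : ℕ} (h0 : 1 ≤ n) (h1 : 8 * (n : ℤ) ≤ nz z) (h2 : 2 * nz z ≤ R) :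
    DB z n ⊆ bxz R := by
  intro e he
  rw [mem_DB] at he
  obtain ⟨x, y, b⟩ := e
  have h3 := nz_le (le_refl (nz z))
  cases b
  · simp only [dco, Bool.false_eq_true, if_false] at he
    simp only [bxz, Set.mem_ofPred_eq, nm, src_mk, tgt_false, max_le_iff, abs_le]
    omega
  · simp only [dco, if_true] at he
    simp only [bxz, Set.mem_ofPred_eq, nm, src_mk, tgt_true, max_le_iff, abs_le]
    omega

/-- the local gauge near `z` -/
noncomputable def al (m : ℤ × ℤ → ℤ) (z : ℤ × ℤ) (n : ℕ) (p : ℤ × ℤ) : ℤ :=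
  m p + if 8 * (n : ℤ) ≤ z.1 ∧ 0 ≤ p.2 then 1 else 0

theorem al_step {R : ℕ} {G : Set Edg} {m : ℤ × ℤ → ℤ} (g : GauD R G m) {z : ℤ × ℤ} {n : ℕ}
    (h0 : 2 ≤ n) (h1 : 8 * (n : ℤ) ≤ nz z) {x y : ℤ × ℤ} {e : Edg} (hx : K1 R G x)
    (he : e ∈ DB z n) (hB : e ∈ bxz R) (h : Lq G e x y) : al m z n y = al m z n x := by
  have h2 := g.step x y e hx hB h
  have h3 := lq_num h
  rw [mem_DB] at he
  have h4 := nz_ge h1
  unfold al
  rw [h2]
  unfold cr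
  simp only
  split_ifs <;> omega

theorem al_rz {R : ℕ} {G : Set Edg} {m : ℤ × ℤ → ℤ} (g : GauD R G m) {z : ℤ × ℤ} {n : ℕ}
    (h0 : 2 ≤ n) (h1 : 8 * (n : ℤ) ≤ nz z) {B : Set Edg} (hD : B ⊆ DB z n) (hB : B ⊆ bxz R)
    {x y : ℤ × ℤ} (hx : K1 R G x) (h : RZ {0} B G x y) : al m z n y = al m z n x := by
  rw [rz_iff] at h
  induction h with
  | refl => rfl
  | @tail v w hv hs ih =>
    obtain ⟨e, he, hl⟩ := hs
    have h2 : K1 R G v := rz_trans hx (rz_mono hB (rz_iff.2 hv))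
    rw [al_step g h0 h1 h2 (hD he) (hB he) hl, ih]

theorem al_ne {m : ℤ × ℤ → ℤ} {z a b : ℤ × ℤ} {n s : ℕ} (h0 : s + 2 ≤ n)
    (h1 : 8 * (n : ℤ) ≤ nz z) (ha : nz (a.1 - z.1, a.2 - z.2) ≤ s)
    (hb : nz (b.1 - z.1, b.2 - z.2) ≤ s) (h : m b - m a ≠ crd a b) :
    al m z n a ≠ al m z n b := by
  have h2 := nz_ge h1
  have h3 := nz_le ha
  have h4 := nz_le hb
  simp only at h3 h4
  intro h5
  apply h
  unfold al at h5
  unfold crd
  split_ifs at h5 ⊢ <;> omega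

theorem vc_eq {z a b u : ℤ × ℤ} {n s : ℕ} (h0 : s + 2 ≤ n)
    (h1 : 8 * (n : ℤ) ≤ nz z) (ha : nz (a.1 - z.1, a.2 - z.2) ≤ s)
    (hb : nz (b.1 - z.1, b.2 - z.2) ≤ s) (hu : u = (-1, 0) ∨ u = (1, 0)) :
    vc u b a = - crd a b := by
  have h2 := nz_ge h1
  have h3 := nz_le ha
  have h4 := nz_le hb
  simp only at h3 h4
  unfold vc crd
  rcases hu with rfl | rfl
  · simp only
    split_ifs <;> omega
  · simp only
    split_ifs <;> omega

/-- a point of the cluster near `z` is a corner of a square near `z` -/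
theorem tc_near {R : ℕ} {G : Set Edg} {z a : ℤ × ℤ} {n s : ℕ} (h0 : s + 2 ≤ n)
    (h1 : 8 * (n : ℤ) ≤ nz z) (hK : K1 R G a) (ha : nz (a.1 - z.1, a.2 - z.2) ≤ s) :
    Tc (DB z (s + 2)) a := by
  have h2 := rz_iff.1 (rz_symm hK)
  rcases Relation.ReflTransGen.cases_head h2 with h3 | ⟨c, ⟨e, he, hl⟩, -⟩
  · exfalso
    rw [h3] at ha
    have h4 := nz_le ha
    have h5 := nz_ge h1
    simp only at h4
    omega
  · refine tc_of_lq ?_ hl
    have h3 := lq_num hl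
    have h4 := nz_le ha
    rw [mem_DB]
    push_cast
    simp only at h4
    omega

theorem tc_tip {z u : ℤ × ℤ} {n : ℕ} (h0 : 2 ≤ n) (h1 : 8 * (n : ℤ) ≤ nz z)
    (hu : u = (-1, 0) ∨ u = (1, 0)) : Tc (DB z n)ᶜ u := by
  have h5 := nz_ge h1
  rcases hu with rfl | rfl
  · refine ⟨(0, -1, false), ?_, Or.inr ⟨?_, (0, 1), Or.inl ?_⟩⟩
    · intro h
      rw [mem_DB] at h
      simp only [dco, Bool.false_eq_true, if_false] at h
      omega
    · intro h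
      have h2 := h.1
      simp only [dco, Bool.false_eq_true, if_false] at h2
      omega
    · have h2 : Dg ({0} : Set ℤ) 1 (0, -1, false) _ _ := Dg.rise (by
        simp only [dco, Bool.false_eq_true, if_false]; norm_num)
      have e1 : nrm ({0} : Set ℤ) (dco (0, -1, false)) (((0, -1, false) : Edg).1 +
          ((0, -1, false) : Edg).2.1) (dco (0, -1, false)) = (-1, 0) := by
        simp [nrm, dco]
      have e2 : nrm ({0} : Set ℤ) (dco (0, -1, false)) (((0, -1, false) : Edg).1 +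
          ((0, -1, false) : Edg).2.1 + 1) (dco (0, -1, false) + 1) = (0, 1) := by
        simp [nrm, dco]
      rw [e1, e2] at h2
      exact h2
  · refine ⟨(1, 0, false), ?_, Or.inr ⟨?_, (2, 1), Or.inl ?_⟩⟩
    · intro h
      rw [mem_DB] at h
      simp only [dco, Bool.false_eq_true, if_false] at h
      omega
    · intro h
      have h2 := h.1
      simp only [dco, Bool.false_eq_true, if_false] at h2
      omega
    · have h2 : Dg ({0} : Set ℤ) 1 (1, 0, false) _ _ := Dg.rise (by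
        simp only [dco, Bool.false_eq_true, if_false]; norm_num)
      have e1 : nrm ({0} : Set ℤ) (dco (1, 0, false)) (((1, 0, false) : Edg).1 +
          ((1, 0, false) : Edg).2.1) (dco (1, 0, false)) = (1, 0) := by
        simp [nrm, dco]
      have e2 : nrm ({0} : Set ℤ) (dco (1, 0, false)) (((1, 0, false) : Edg).1 +
          ((1, 0, false) : Edg).2.1 + 1) (dco (1, 0, false) + 1) = (2, 1) := by
        simp [nrm, dco]
      rw [e1, e2] at h2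
      exact h2

/-! ## the two pieces of each sector -/

/-- two crossing pieces of the cluster of `u`, separated by an invariant -/
def Two (s n R : ℕ) (G : Set Edg) (z u : ℤ × ℤ) : Prop :=
  ∃ (w : ℤ × ℤ → ℤ) (x : Bool → ℤ × ℤ) (y : Bool → ℤ × ℤ),
    (∀ c, Tc (DB z (s + 2)) (x c) ∧ Tc (DB z n)ᶜ (y c) ∧ RZ {0} (AZ z (s + 2) n) G (x c) (y c) ∧
      RZ {0} (bxz R) G u (x c)) ∧
    w (x false) ≠ w (x true) ∧
    ∀ p q, RZ {0} (bxz R) G u p → RZ {0} (AZ z (s + 2) n) G p q → w q = w p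

theorem sub1 {z : ℤ × ℤ} {s n : ℕ} {B : Set Edg} : (B \ DB z (s + 2)) \ (DB z n)ᶜ ⊆ AZ z (s + 2) n := by
  rintro e ⟨⟨-, h1⟩, h2⟩
  rw [Set.mem_compl_iff, not_not] at h2
  exact ⟨h2, h1⟩

theorem sub2 {z : ℤ × ℤ} {s n : ℕ} {B : Set Edg} : (B \ (DB z n)ᶜ) \ DB z (s + 2) ⊆ AZ z (s + 2) n := by
  rintro e ⟨⟨-, h1⟩, h2⟩
  rw [Set.mem_compl_iff, not_not] at h1
  exact ⟨h1, h2⟩

theorem side (hLP : S_LP) {s n R : ℕ} {G : Set Edg} {z a b : ℤ × ℤ} {φ : ℤ × ℤ → ℤ}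
    (h0 : s + 2 ≤ n) (h1 : 8 * (n : ℤ) ≤ nz z) (h2 : 2 * nz z ≤ R) (hW : Wk (bxz R) G a b φ)
    (ha : nz (a.1 - z.1, a.2 - z.2) ≤ s) (hb : nz (b.1 - z.1, b.2 - z.2) ≤ s) {u : ℤ × ℤ}
    (hu : ¬ RZ {0} (bxz R) G a u) (huT : Tc (DB z n)ᶜ u) (hF : φ u + vc u b a ≠ 0)
    (hq : ∃ x : ℤ × ℤ, RZ {0} (bxz R) G u x ∧ ∃ e ∉ bxz R, Cor {0} 0 e x ∨ Cor {0} 1 e x) :
    Two s n R G z u := by
  have hsub := db_sub (z := z) (n := n) (R := R) (by omega) h1 h2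
  obtain ⟨L1, L2⟩ := hLP R G a b φ z s hW ha hb
  obtain ⟨q, hq, hqT⟩ := hq
  have hqa : ¬ RZ {0} (bxz R) G a q := fun h => hu (rz_trans h (rz_symm hq))
  have hFq : φ q + vc q b a = 0 := by
    refine L2 ?_ q hqa hqT
    omega
  have hqT' : Tc (DB z n)ᶜ q := by
    obtain ⟨e, he, h⟩ := hqT
    exact ⟨e, fun h => he (hsub h), h⟩
  have hAZ : AZ z (s + 2) n ⊆ bxz R \ DB z (s + 2) := fun e he => ⟨hsub he.1, he.2⟩
  have hm1 : (bxz R \ DB z (s + 2) : Set Edg) ⊆ bxz R := fun e he => he.1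
  -- the first part
  obtain ⟨x1, hx1, hr1⟩ : ∃ x, Tc (DB z (s + 2)) x ∧ RZ {0} (bxz R \ DB z (s + 2)) G u x := by
    rcases dich (DB z (s + 2)) hq with h | h
    · exact absurd ((L1 u q hu h).symm.trans hFq) hF
    · exact h
  have hF1 := L1 u x1 hu hr1
  obtain ⟨y1, hy1, hr1'⟩ : ∃ y, Tc (DB z n)ᶜ y ∧ RZ {0} (AZ z (s + 2) n) G x1 y := by
    rcases dich (DB z n)ᶜ (rz_symm hr1) with h | ⟨y, hy, h⟩
    · exact ⟨u, huT, rz_mono sub1 h⟩
    · exact ⟨y, hy, rz_mono sub1 h⟩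
  -- the last part
  obtain ⟨x2, hx2, hr2⟩ : ∃ x, Tc (DB z (s + 2)) x ∧ RZ {0} (bxz R \ DB z (s + 2)) G q x := by
    rcases dich (DB z (s + 2)) (rz_symm hq) with h | h
    · exact absurd (L1 q u hqa h |>.trans hFq) hF
    · exact h
  have hF2 := L1 q x2 hqa hr2
  obtain ⟨y2, hy2, hr2'⟩ : ∃ y, Tc (DB z n)ᶜ y ∧ RZ {0} (AZ z (s + 2) n) G x2 y := by
    rcases dich (DB z n)ᶜ (rz_symm hr2) with h | ⟨y, hy, h⟩
    · exact ⟨q, hqT', rz_mono sub1 h⟩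
    · exact ⟨y, hy, rz_mono sub1 h⟩
  refine ⟨fun p => φ p + vc p b a, fun c => if c then x2 else x1, fun c => if c then y2 else y1,
    ?_, ?_, ?_⟩
  · intro c
    cases c
    · exact ⟨hx1, hy1, hr1', rz_mono hm1 hr1⟩
    · exact ⟨hx2, hy2, hr2', rz_trans hq (rz_mono hm1 hr2)⟩
  · show φ x1 + vc x1 b a ≠ φ x2 + vc x2 b a
    rw [hF1, hF2, hFq]
    exact hF
  · intro p q' hp hpq
    exact L1 p q' (fun h => hu (rz_trans h (rz_symm hp))) (rz_mono hAZ hpq)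

theorem middle {s n R : ℕ} {G : Set Edg} {m : ℤ × ℤ → ℤ} (g : GauD R G m) {z a b : ℤ × ℤ}
    (h0 : s + 2 ≤ n) (h1 : 8 * (n : ℤ) ≤ nz z) (h2 : 2 * nz z ≤ R) (hKa : K1 R G a)
    (hKb : K1 R G b) (ha : nz (a.1 - z.1, a.2 - z.2) ≤ s) (hb : nz (b.1 - z.1, b.2 - z.2) ≤ s)
    (h : m b - m a ≠ crd a b) : Two s n R G z (0, 0) := by
  have hsub := db_sub (z := z) (n := n) (R := R) (by omega) h1 h2
  have hne := al_ne (m := m) h0 h1 ha hb h
  have hin : (bxz R \ (DB z n)ᶜ : Set Edg) ⊆ DB z n := by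
    rintro e ⟨-, h⟩
    rw [Set.mem_compl_iff, not_not] at h
    exact h
  have hin2 : (bxz R \ (DB z n)ᶜ : Set Edg) ⊆ bxz R := fun e he => he.1
  have key : ∀ a b : ℤ × ℤ, K1 R G a → K1 R G b → nz (a.1 - z.1, a.2 - z.2) ≤ s →
      al m z n a ≠ al m z n b → ∃ x y, Tc (DB z (s + 2)) x ∧ Tc (DB z n)ᶜ y ∧
        RZ {0} (AZ z (s + 2) n) G x y ∧ K1 R G x ∧ al m z n x = al m z n a := by
    intro a b hKa hKb ha hne
    have hab : RZ {0} (bxz R) G a b := rz_trans (rz_symm hKa) hKb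
    obtain ⟨y, hy, hay⟩ : ∃ y, Tc (DB z n)ᶜ y ∧ RZ {0} (bxz R \ (DB z n)ᶜ) G a y := by
      rcases dich (DB z n)ᶜ hab with h | h
      · exact absurd (al_rz g (by omega) h1 hin hin2 hKa h).symm hne
      · exact h
    have hKy : K1 R G y := rz_trans hKa (rz_mono hin2 hay)
    obtain ⟨x, hx, hyx⟩ : ∃ x, Tc (DB z (s + 2)) x ∧
        RZ {0} ((bxz R \ (DB z n)ᶜ) \ DB z (s + 2)) G y x := by
      rcases dich (DB z (s + 2)) (rz_symm hay) with h | h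
      · exact ⟨a, tc_near h0 h1 hKa ha, h⟩
      · exact h
    have hyx' : RZ {0} (bxz R \ (DB z n)ᶜ) G y x := rz_mono (fun e he => he.1) hyx
    refine ⟨x, y, hx, hy, rz_mono sub2 (rz_symm hyx), rz_trans hKy (rz_mono hin2 hyx'), ?_⟩
    rw [al_rz g (by omega) h1 hin hin2 hKy hyx', al_rz g (by omega) h1 hin hin2 hKa hay]
  obtain ⟨x1, y1, p1, p2, p3, p4, p5⟩ := key a b hKa hKb ha hne
  obtain ⟨x2, y2, q1, q2, q3, q4, q5⟩ := key b a hKb hKa hb hne.symm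
  refine ⟨al m z n, fun c => if c then x2 else x1, fun c => if c then y2 else y1, ?_, ?_, ?_⟩
  · intro c
    cases c
    · exact ⟨p1, p2, p3, p4⟩
    · exact ⟨q1, q2, q3, q4⟩
  · show al m z n x1 ≠ al m z n x2
    rw [p5, q5]
    exact hne
  · intro p q hp hpq
    exact al_rz g (by omega) h1 (fun e he => he.1) (fun e he => hsub he.1) hp hpq

theorem two_all (hLP : S_LP) {s n R : ℕ} {G : Set Edg} {m : ℤ × ℤ → ℤ} {z : ℤ × ℤ}
    (h0 : s + 2 ≤ n) (h1 : 8 * (n : ℤ) ≤ nz z) (h2 : 2 * nz z ≤ R) (hS : SE3 R G)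
    (g : GauD R G m) (hG : Gate s R G m z) : ∀ c : Fin 3, Two s n R G z (scz 0 0 c) := by
  obtain ⟨a, b, hKa, hKb, ha, hb, hne⟩ := hG
  obtain ⟨φ, hW⟩ := wk_ex (rz_trans (rz_symm hKa) hKb)
  have e0 : scz 0 0 0 = (-1, 0) := by simp [scz]
  have e1 : scz 0 0 1 = (0, 0) := by simp [scz]
  have e2 : scz 0 0 2 = (1, 0) := by simp [scz]
  have hl := wk_left hW
  have hm := wk_m g hW hKa
  have n0 : ¬ RZ {0} (bxz R) G a (-1, 0) := by
    intro h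
    have := hS.1 1 0 (by norm_num) (by norm_num) (by norm_num)
    rw [e0, e1] at this
    exact this (rz_trans hKa h)
  have n2 : ¬ RZ {0} (bxz R) G a (1, 0) := by
    intro h
    have := hS.1 1 2 (by norm_num) (by norm_num) (by norm_num)
    rw [e2, e1] at this
    exact this (rz_trans hKa h)
  have hr := wk_right hW n2
  intro c
  fin_cases c
  · show Two s n R G z (scz 0 0 0)
    have hq := hS.2 0 (by norm_num)
    rw [e0] at hq ⊢
    refine side hLP h0 h1 h2 hW ha hb n0 (tc_tip (by omega) h1 (Or.inl rfl)) ?_ hq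
    rw [hl, vc_eq h0 h1 ha hb (Or.inl rfl), ← hm]
    omega
  · show Two s n R G z (scz 0 0 1)
    rw [e1]
    exact middle g h0 h1 h2 hKa hKb ha hb hne
  · show Two s n R G z (scz 0 0 2)
    have hq := hS.2 2 (by norm_num)
    rw [e2] at hq ⊢
    refine side hLP h0 h1 h2 hW ha hb n2 (tc_tip (by omega) h1 (Or.inr rfl)) ?_ hq
    rw [hr, vc_eq h0 h1 ha hb (Or.inr rfl), ← hm]
    omega

end TGATE

open TGATE in
/-- **six arms around a gate** -/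
theorem t_GATE : S_CON → S_LP → S_GATE := by
  intro _ hLP s n R G m z h0 h1 h2 hS g hG
  have T := two_all hLP h0 h1 h2 hS g hG
  have hsub := db_sub (z := z) (n := n) (R := R) (by omega) h1 h2
  choose w x y hxy hw hinv using T
  let c : Fin 6 → Fin 3 := fun i => ⟨i.1 / 2, by omega⟩
  let d : Fin 6 → Bool := fun i => decide (i.1 % 2 = 1)
  have hcd : ∀ i j : Fin 6, c i = c j → d i = d j → i = j := by
    intro i j h3 h4
    have h5 : i.1 / 2 = j.1 / 2 := congrArg Fin.val h3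
    have h6 : (i.1 % 2 = 1) ↔ (j.1 % 2 = 1) := by
      have h7 : decide (i.1 % 2 = 1) = decide (j.1 % 2 = 1) := h4
      exact decide_eq_decide.1 h7
    apply Fin.ext
    omega
  refine ⟨fun i => x (c i) (d i), fun i => y (c i) (d i), fun i => (hxy (c i) (d i)).1,
    fun i => ?_, fun i => (hxy (c i) (d i)).2.2.1, ?_⟩
  · obtain ⟨e, he, h⟩ := (hxy (c i) (d i)).2.1
    exact ⟨e, he, h⟩
  · intro i j hij h
    have hb : RZ {0} (bxz R) G (x (c i) (d i)) (x (c j) (d j)) :=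
      rz_mono (fun e he => hsub he.1) h
    have hc : c i = c j := by
      by_contra hne
      refine hS.1 (c i) (c j) (c i).2 (c j).2 (fun h => hne (Fin.ext h)) ?_
      exact rz_trans (hxy (c i) (d i)).2.2.2 (rz_trans hb (rz_symm (hxy (c j) (d j)).2.2.2))
    have hd : d i ≠ d j := fun h => hij (hcd i j hc h)
    have hv : w (c i) (x (c j) (d j)) = w (c i) (x (c i) (d i)) :=
      hinv (c i) _ _ (hxy (c i) (d i)).2.2.2 h
    rw [← hc] at hv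
    have hw' := hw (c i)
    cases h3 : d i <;> cases h4 : d j
    · rw [h3, h4] at hd; exact hd rfl
    · rw [h3, h4] at hv; exact hw' hv.symm
    · rw [h3, h4] at hv; exact hw' hv
    · rw [h3, h4] at hd; exact hd rfl

end Pool.Agent.W801.RS
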