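import Pool.Agent.W801.RS.Stm
import Pool.Agent.W143.KI.T_IND
import Pool.Agent.W15.KI.T_DEC

/-!
# Probability of one gate
-/

set_option autoImplicit false

namespace Pool.Agent.W801.RS
open H974 H906.Cyl H12S Finset
open Pool.Agent.H160R2.ML (nm)
open Pool.Agent.W801.OU (RZ LZ Dg nrm zp Cor scz bxz SE3 uR S_UR3)
open Pool.Agent.W801.OS (cr)

namespace TGPR

open Pool.Agent.W424.KI (AnS VA vA)
open Pool.Agent.W143.KI.TIND (VA_congr nm_of_mem)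
open Pool.Agent.W808.KZ.TIND (SE3_congr RZ_congr)
open Pool.Agent.H160R2.MU.TIND (mem_boxE_of)

theorem okh : Ok (fun _ : Edg => (1 / 2 : ℝ)) := fun _ => ⟨by norm_num, by norm_num⟩

theorem Six_congr {z : ℤ × ℤ} {s n : ℕ} {G G' : Set Edg}
    (h : ∀ e ∈ DB z n, (e ∈ G ↔ e ∈ G')) : Six z s n G ↔ Six z s n G' := by
  have e : RZ {0} (AZ z s n) G = RZ {0} (AZ z s n) G' := RZ_congr fun e he => h e he.1
  unfold Six
  rw [e]

/-- coordinates of the edges near `z` -/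
theorem DB_bound {z : ℤ × ℤ} {n : ℕ} {e : Edg} (he : e ∈ DB z n) :
    |e.1| ≤ nz z + n + 1 ∧ |e.2.1| ≤ nz z + n + 1 ∧
      (2 * nz z - 2 * n - 2 ≤ 2 * (|e.1| + |e.2.1|)) := by
  obtain ⟨h1, h2⟩ := he
  obtain ⟨x, y, b⟩ := e
  have hd : dco (x, y, b) = x - y ∨ dco (x, y, b) = x - y - 1 := by
    cases b
    · right; simp [dco]
    · left; simp [dco]
  simp only at h1 h2 ⊢
  have hz1 : |z.1| ≤ nz z := le_max_left _ _
  have hz2 : |z.2| ≤ nz z := le_max_right _ _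
  have hz3 : nz z = |z.1| ∨ nz z = |z.2| := by
    unfold nz
    rcases le_total |z.1| |z.2| with h | h
    · right; exact max_eq_right h
    · left; exact max_eq_left h
  rw [abs_le] at h1 h2 hz1 hz2
  refine ⟨?_, ?_, ?_⟩
  · rw [abs_le]
    rcases hd with hd | hd <;> rw [hd] at h2 <;> constructor <;> omega
  · rw [abs_le]
    rcases hd with hd | hd <;> rw [hd] at h2 <;> constructor <;> omega
  · have hx1 := le_abs_self x
    have hx2 := neg_abs_le x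
    have hy1 := le_abs_self y
    have hy2 := neg_abs_le y
    rcases hz3 with h3 | h3
    · rw [h3]
      rcases abs_cases z.1 with h4 | h4 <;> omega
    · rw [h3]
      rcases hd with hd | hd <;> rw [hd] at h2 <;> rcases abs_cases z.2 with h4 | h4 <;> omega

/-- independence of the three events -/
theorem indep (z : ℤ × ℤ) (s n d D R : ℕ) (hn : 8 * (n : ℤ) ≤ nz z) (hn4 : 4 ≤ n)
    (hd : 4 * (d : ℤ) ≤ nz z) (hD : (D : ℤ) = 2 * nz z) (hR : D ≤ R) :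
    Pr (fun _ => (1 / 2 : ℝ)) (boxE R) (fun F => (SE3 (d : ℕ) (↑F : Set Edg) ∧
      VA (D : ℕ) R (↑F : Set Edg)) ∧ Six z s n (↑F : Set Edg)) =
    uR d * vA D R * Pr (fun _ => (1 / 2 : ℝ)) (boxE R) (fun F => Six z s n (↑F : Set Edg)) := by
  classical
  have hn4' : (4 : ℤ) ≤ n := by exact_mod_cast hn4
  set E1 : Finset Edg := boxE d with hE1
  set E3 : Finset Edg := (boxE R).filter (fun e => e ∈ AnS (D : ℕ) R) with hE3
  set E2 : Finset Edg := boxE R \ (E1 ∪ E3) with hE2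
  have hdD : (d : ℤ) < D := by omega
  have s1 : E1 ⊆ boxE R := by
    intro e he
    obtain ⟨h3, h4⟩ := nm_of_mem he
    have h5 : (d : ℤ) ≤ R := by omega
    exact mem_boxE_of (h3.trans h5) (h4.trans h5)
  have s3 : E3 ⊆ boxE R := Finset.filter_subset _ _
  have s2 : E2 ⊆ boxE R := Finset.sdiff_subset
  have d13 : Disjoint E1 E3 := by
    rw [Finset.disjoint_left]
    intro e he he'
    obtain ⟨h3, h4⟩ := nm_of_mem he
    obtain ⟨⟨h5, h6⟩, h7⟩ := (Finset.mem_filter.1 he').2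
    linarith
  have hA : ∀ F, F ⊆ boxE R → (SE3 (d : ℕ) (↑F : Set Edg) ↔ SE3 (d : ℕ) (↑(F ∩ E1) : Set Edg)) := by
    intro F _
    apply SE3_congr
    intro e he
    rw [Finset.mem_coe, Finset.mem_coe, Finset.mem_inter]
    exact ⟨fun h => ⟨h, he⟩, fun h => h.1⟩
  have hB : ∀ F, F ⊆ boxE R → (VA (D : ℕ) R (↑F : Set Edg) ↔
      VA (D : ℕ) R (↑(F ∩ E3) : Set Edg)) := by
    intro F _
    apply VA_congr
    intro e he
    rw [Finset.mem_coe, Finset.mem_coe, Finset.mem_inter]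
    exact ⟨fun h => ⟨h, Finset.mem_filter.2 ⟨mem_boxE_of he.2.1 he.2.2, he⟩⟩, fun h => h.1⟩
  have hC : ∀ F, F ⊆ boxE R → (Six z s n (↑F : Set Edg) ↔ Six z s n (↑(F ∩ E2) : Set Edg)) := by
    intro F hF
    apply Six_congr
    intro e he
    obtain ⟨b1, b2, b3⟩ := DB_bound he
    rw [Finset.mem_coe, Finset.mem_coe, Finset.mem_inter]
    refine ⟨fun h => ⟨h, Finset.mem_sdiff.2 ⟨hF h, ?_⟩⟩, fun h => h.1⟩
    rw [Finset.mem_union, not_or]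
    constructor
    · intro h6
      obtain ⟨h7, h8⟩ := nm_of_mem h6
      have h10 : |e.1| ≤ d ∧ |e.2.1| ≤ d := max_le_iff.1 h7
      omega
    · intro h6
      obtain ⟨⟨h7, h8⟩, h9⟩ := (Finset.mem_filter.1 h6).2
      have h10 : nm (src e) ≤ nz z + n + 1 := max_le b1 b2
      omega
  have hAB : ∀ F, F ⊆ boxE R → ((SE3 (d : ℕ) (↑F : Set Edg) ∧ VA (D : ℕ) R (↑F : Set Edg)) ↔
      (SE3 (d : ℕ) (↑(F ∩ (E1 ∪ E3)) : Set Edg) ∧
        VA (D : ℕ) R (↑(F ∩ (E1 ∪ E3)) : Set Edg))) := by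
    intro F hF
    have hF' : F ∩ (E1 ∪ E3) ⊆ boxE R := Finset.inter_subset_left.trans hF
    have q1 : F ∩ (E1 ∪ E3) ∩ E1 = F ∩ E1 := by
      rw [Finset.inter_assoc, Finset.inter_eq_right.2 Finset.subset_union_left]
    have q3 : F ∩ (E1 ∪ E3) ∩ E3 = F ∩ E3 := by
      rw [Finset.inter_assoc, Finset.inter_eq_right.2 Finset.subset_union_right]
    rw [hA F hF, hB F hF, hA _ hF', hB _ hF', q1, q3]
  have e1 : Pr (fun _ => (1 / 2 : ℝ)) (boxE R) (fun F => (SE3 (d : ℕ) (↑F : Set Edg) ∧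
      VA (D : ℕ) R (↑F : Set Edg)) ∧ Six z s n (↑F : Set Edg)) =
      Pr (fun _ => (1 / 2 : ℝ)) (boxE R) (fun F => SE3 (d : ℕ) (↑F : Set Edg) ∧
        VA (D : ℕ) R (↑F : Set Edg)) *
      Pr (fun _ => (1 / 2 : ℝ)) (boxE R) (fun F => Six z s n (↑F : Set Edg)) :=
    Pr_indep (Finset.union_subset s1 s3) s2 Finset.disjoint_sdiff hAB hC
  have e2 : Pr (fun _ => (1 / 2 : ℝ)) (boxE R) (fun F => SE3 (d : ℕ) (↑F : Set Edg) ∧
        VA (D : ℕ) R (↑F : Set Edg)) =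
      Pr (fun _ => (1 / 2 : ℝ)) (boxE R) (fun F => SE3 (d : ℕ) (↑F : Set Edg)) *
      Pr (fun _ => (1 / 2 : ℝ)) (boxE R) (fun F => VA (D : ℕ) R (↑F : Set Edg)) :=
    Pr_indep s1 s3 d13 hA hB
  have e3 : Pr (fun _ => (1 / 2 : ℝ)) (boxE R) (fun F => SE3 (d : ℕ) (↑F : Set Edg)) = uR d :=
    Pr_local s1 hA
  have e4 : Pr (fun _ => (1 / 2 : ℝ)) (boxE R) (fun F => VA (D : ℕ) R (↑F : Set Edg)) =
      vA D R := rfl
  rw [e1, e2, e3, e4]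

/-- the squares near `z` are in the box -/
theorem DB_box {z : ℤ × ℤ} {n R : ℕ} (hn : 8 * (n : ℤ) ≤ nz z) (hn4 : 4 ≤ n)
    (hR : 2 * nz z ≤ R) : ∀ e ∈ DB z n, e ∈ boxE R := by
  intro e he
  have hn4' : (4 : ℤ) ≤ n := by exact_mod_cast hn4
  obtain ⟨b1, b2, -⟩ := DB_bound he
  have h1 : nz z + n + 2 ≤ R := by omega
  have h2 : |(tgt e).1| ≤ R ∧ |(tgt e).2| ≤ R := by
    obtain ⟨x, y, _ | _⟩ := e
    · simp only [tgt_false] at b1 b2 ⊢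
      rw [abs_le] at b1 b2 ⊢
      rw [abs_le]
      omega
    · simp only [tgt_true] at b1 b2 ⊢
      rw [abs_le] at b1 b2 ⊢
      rw [abs_le]
      omega
  refine mem_boxE_of (max_le ?_ ?_) (max_le h2.1 h2.2)
  · exact b1.trans (by omega)
  · exact b2.trans (by omega)

/-- the real inequality -/
theorem real_ineq (C1 C2 C3 N n d D R u v x : ℝ) (hC1 : 0 < C1) (hC2 : 0 < C2) (hC3 : 0 < C3)
    (hN : 0 < N) (hn : N / 16 ≤ n) (hd : N / 8 ≤ d) (hD : D = 2 * N) (hR : 0 < R)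
    (hu : u ≤ C1 * d ^ (-(2 / 3 : ℝ))) (hv : v ≤ C3 * (D / R) ^ (2 / 3 : ℝ))
    (hx : x ≤ C2 * n ^ (-(35 / 12 : ℝ))) (_hu0 : 0 ≤ u) (hv0 : 0 ≤ v) (hx0 : 0 ≤ x) :
    u * v * x ≤ C1 * C2 * C3 * (8 ^ (2 / 3 : ℝ) * 16 ^ (35 / 12 : ℝ) * 2 ^ (2 / 3 : ℝ)) *
      N ^ (-(35 / 12 : ℝ)) * R ^ (-(2 / 3 : ℝ)) := by
  have h1 : d ^ (-(2 / 3 : ℝ)) ≤ 8 ^ (2 / 3 : ℝ) * N ^ (-(2 / 3 : ℝ)) := by
    calc d ^ (-(2 / 3 : ℝ)) ≤ (N / 8) ^ (-(2 / 3 : ℝ)) :=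
          Real.rpow_le_rpow_of_nonpos (by positivity) hd (by norm_num)
      _ = 8 ^ (2 / 3 : ℝ) * N ^ (-(2 / 3 : ℝ)) := by
          rw [Real.div_rpow hN.le (by norm_num), Real.rpow_neg (by norm_num : (0 : ℝ) ≤ 8),
            div_inv_eq_mul, mul_comm]
  have h2 : n ^ (-(35 / 12 : ℝ)) ≤ 16 ^ (35 / 12 : ℝ) * N ^ (-(35 / 12 : ℝ)) := by
    calc n ^ (-(35 / 12 : ℝ)) ≤ (N / 16) ^ (-(35 / 12 : ℝ)) :=
          Real.rpow_le_rpow_of_nonpos (by positivity) hn (by norm_num)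
      _ = 16 ^ (35 / 12 : ℝ) * N ^ (-(35 / 12 : ℝ)) := by
          rw [Real.div_rpow hN.le (by norm_num), Real.rpow_neg (by norm_num : (0 : ℝ) ≤ 16),
            div_inv_eq_mul, mul_comm]
  have h3 : (D / R) ^ (2 / 3 : ℝ) = 2 ^ (2 / 3 : ℝ) * N ^ (2 / 3 : ℝ) * R ^ (-(2 / 3 : ℝ)) := by
    rw [hD, Real.div_rpow (by positivity) hR.le, Real.mul_rpow (by norm_num) hN.le,
      Real.rpow_neg hR.le, div_eq_mul_inv]
  have h4 : N ^ (-(2 / 3 : ℝ)) * N ^ (2 / 3 : ℝ) = 1 := by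
    rw [← Real.rpow_add hN]
    norm_num
  have h5 : u * v * x ≤ (C1 * (8 ^ (2 / 3 : ℝ) * N ^ (-(2 / 3 : ℝ)))) *
      (C3 * (2 ^ (2 / 3 : ℝ) * N ^ (2 / 3 : ℝ) * R ^ (-(2 / 3 : ℝ)))) *
      (C2 * (16 ^ (35 / 12 : ℝ) * N ^ (-(35 / 12 : ℝ)))) := by
    have k1 : u ≤ C1 * (8 ^ (2 / 3 : ℝ) * N ^ (-(2 / 3 : ℝ))) :=
      hu.trans (mul_le_mul_of_nonneg_left h1 hC1.le)
    have k2 : v ≤ C3 * (2 ^ (2 / 3 : ℝ) * N ^ (2 / 3 : ℝ) * R ^ (-(2 / 3 : ℝ))) := by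
      rw [← h3]; exact hv
    have k3 : x ≤ C2 * (16 ^ (35 / 12 : ℝ) * N ^ (-(35 / 12 : ℝ))) :=
      hx.trans (mul_le_mul_of_nonneg_left h2 hC2.le)
    exact mul_le_mul (mul_le_mul k1 k2 hv0 (by positivity)) k3 hx0 (by positivity)
  refine h5.trans (le_of_eq ?_)
  calc (C1 * (8 ^ (2 / 3 : ℝ) * N ^ (-(2 / 3 : ℝ)))) *
      (C3 * (2 ^ (2 / 3 : ℝ) * N ^ (2 / 3 : ℝ) * R ^ (-(2 / 3 : ℝ)))) *
      (C2 * (16 ^ (35 / 12 : ℝ) * N ^ (-(35 / 12 : ℝ))))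
      = C1 * C2 * C3 * (8 ^ (2 / 3 : ℝ) * 16 ^ (35 / 12 : ℝ) * 2 ^ (2 / 3 : ℝ)) *
        (N ^ (-(2 / 3 : ℝ)) * N ^ (2 / 3 : ℝ)) *
        N ^ (-(35 / 12 : ℝ)) * R ^ (-(2 / 3 : ℝ)) := by ring
    _ = _ := by rw [h4, mul_one]

end TGPR

open TGPR in
open Pool.Agent.W424.KI (AnS VA vA) in
theorem t_GPR : S_GATE → S_P6 → Pool.Agent.W801.OU.S_UR3 → Pool.Agent.W424.KI.S_VA → S_GPR := by
  intro hG hP6 hU hVA s
  obtain ⟨C1, hC1, hU⟩ := hU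
  obtain ⟨C3, hC3, hVA⟩ := hVA
  obtain ⟨C2, hC2, hP⟩ := hP6 (s + 2)
  set K : ℝ := 8 * (s + 2) + 64 with hK
  have hK0 : 0 < K := by positivity
  refine ⟨C1 * K ^ (35 / 12 : ℝ) +
    C1 * C2 * C3 * (8 ^ (2 / 3 : ℝ) * 16 ^ (35 / 12 : ℝ) * 2 ^ (2 / 3 : ℝ)), by positivity, ?_⟩
  intro z R hz hzR
  obtain ⟨N, hN⟩ : ∃ N : ℕ, nz z = (N : ℤ) := ⟨(nz z).toNat, by omega⟩
  have hN1 : 1 ≤ N := by omega
  have hN1' : (1 : ℝ) ≤ N := by exact_mod_cast hN1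
  have hR1 : 1 ≤ R := by omega
  have hR0 : (0 : ℝ) < R := by exact_mod_cast hR1
  have hcast : ((nz z : ℤ) : ℝ) = (N : ℝ) := by rw [hN]; simp
  rw [hcast]
  have hNp : 0 < (N : ℝ) ^ (-(35 / 12 : ℝ)) := Real.rpow_pos_of_pos (by linarith) _
  have hRp : 0 < (R : ℝ) ^ (-(2 / 3 : ℝ)) := Real.rpow_pos_of_pos hR0 _
  by_cases hsm : N < 8 * (s + 2) + 64
  · -- few squares
    have h1 : Pr (fun _ => (1 / 2 : ℝ)) (boxE R) (fun G => SE3 R (↑G : Set Edg) ∧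
        ∃ m : ℤ × ℤ → ℤ, GauD R (↑G : Set Edg) m ∧ Gate s R (↑G : Set Edg) m z) ≤ uR R :=
      Pr_mono okh fun F _ h => h.1
    have h2 : (1 : ℝ) ≤ K ^ (35 / 12 : ℝ) * (N : ℝ) ^ (-(35 / 12 : ℝ)) := by
      rw [Real.rpow_neg (by linarith), ← div_eq_mul_inv, one_le_div (Real.rpow_pos_of_pos
        (by linarith) _)]
      apply Real.rpow_le_rpow (by linarith) _ (by norm_num)
      rw [hK]
      have : (N : ℝ) < ((8 * (s + 2) + 64 : ℕ) : ℝ) := by exact_mod_cast hsm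
      push_cast at this
      exact this.le
    calc _ ≤ uR R := h1
      _ ≤ C1 * (R : ℝ) ^ (-(2 / 3 : ℝ)) := hU R hR1
      _ ≤ C1 * (R : ℝ) ^ (-(2 / 3 : ℝ)) * (K ^ (35 / 12 : ℝ) * (N : ℝ) ^ (-(35 / 12 : ℝ))) :=
          le_mul_of_one_le_right (by positivity) h2
      _ = C1 * K ^ (35 / 12 : ℝ) * (N : ℝ) ^ (-(35 / 12 : ℝ)) * (R : ℝ) ^ (-(2 / 3 : ℝ)) := by
          ring
      _ ≤ _ := by
          apply mul_le_mul_of_nonneg_right _ hRp.le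
          apply mul_le_mul_of_nonneg_right _ hNp.le
          have : 0 < C1 * C2 * C3 * ((8 : ℝ) ^ (2 / 3 : ℝ) * 16 ^ (35 / 12 : ℝ) *
            2 ^ (2 / 3 : ℝ)) := by positivity
          linarith
  · push Not at hsm
    set n : ℕ := N / 8 with hn
    set d : ℕ := N / 4 with hd
    set D : ℕ := 2 * N with hD
    have hn8 : 8 * (n : ℤ) ≤ nz z := by omega
    have hn4 : 4 ≤ n := by omega
    have hd4 : 4 * (d : ℤ) ≤ nz z := by omega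
    have hDz : (D : ℤ) = 2 * nz z := by omega
    have hDR : D ≤ R := by omega
    have h1 : Pr (fun _ => (1 / 2 : ℝ)) (boxE R) (fun G => SE3 R (↑G : Set Edg) ∧
        ∃ m : ℤ × ℤ → ℤ, GauD R (↑G : Set Edg) m ∧ Gate s R (↑G : Set Edg) m z) ≤
        Pr (fun _ => (1 / 2 : ℝ)) (boxE R) (fun F => (SE3 (d : ℕ) (↑F : Set Edg) ∧
          VA (D : ℕ) R (↑F : Set Edg)) ∧ Six z (s + 2) n (↑F : Set Edg)) := by
      refine Pr_mono okh fun F _ h => ?_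
      obtain ⟨h2, m, h3, h4⟩ := h
      refine ⟨?_, hG s n R (↑F : Set Edg) m z (by omega) hn8 hzR h2 h3 h4⟩
      exact Pool.Agent.W15.KI.t_DEC d D R (↑F : Set Edg) (↑F : Set Edg) (by omega) (by omega)
        hDR (fun _ _ => Iff.rfl) (fun _ _ => Iff.rfl) h2
    rw [indep z (s + 2) n d D R hn8 hn4 hd4 hDz hDR] at h1
    have h2 := hP z n (boxE R) (by omega) hn8 (DB_box hn8 hn4 hzR)
    have h3 := hU d (by omega)
    have h4 := hVA D R (by omega) hDR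
    have k1 : (N : ℝ) / 16 ≤ (n : ℕ) := by
      have : N ≤ 16 * n := by omega
      have : (N : ℝ) ≤ 16 * (n : ℕ) := by exact_mod_cast this
      linarith
    have k2 : (N : ℝ) / 8 ≤ (d : ℕ) := by
      have : N ≤ 8 * d := by omega
      have : (N : ℝ) ≤ 8 * (d : ℕ) := by exact_mod_cast this
      linarith
    have h5 := real_ineq C1 C2 C3 N n d D R (uR d) (vA D R)
      (Pr (fun _ => (1 / 2 : ℝ)) (boxE R) (fun F => Six z (s + 2) n (↑F : Set Edg)))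
      hC1 hC2 hC3 (by linarith) k1 k2 (by rw [hD]; push_cast; ring) hR0 h3 h4 h2
      (Pr_nonneg okh _ _) (Pr_nonneg okh _ _) (Pr_nonneg okh _ _)
    refine (h1.trans h5).trans ?_
    apply mul_le_mul_of_nonneg_right _ hRp.le
    apply mul_le_mul_of_nonneg_right _ hNp.le
    have : 0 < C1 * K ^ (35 / 12 : ℝ) := by positivity
    linarith

end Pool.Agent.W801.RS
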