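import Pool.Agent.W801.RS.Stm

/-! # Three arms of the copy -/

set_option autoImplicit false

namespace Pool.Agent.W801.RS
open H974 H906.Cyl H12S Finset
open Pool.Agent.H160R2.ML (nm)
open Pool.Agent.W801.OU (RZ LZ Dg nrm zp Cor scz bxz SE3)
open Pool.Agent.W801.OS (cr)
open Pool.Agent.W424.OD (A3v AE)

namespace THEV

theorem edz_sum (s d : ℤ) : (edz s d).1 + (edz s d).2.1 = s := by
  unfold edz; split_ifs <;> simp only <;> omega

theorem dco_edz (s d : ℤ) : dco (edz s d) = d := by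
  unfold edz dco; split_ifs with h1 h2 h2 <;> simp at h2 ⊢ <;> omega

theorem edz_eq (e : Edg) : edz (e.1 + e.2.1) (dco e) = e := by
  obtain ⟨x, y, b⟩ := e
  unfold edz dco
  cases b
  · simp only [Bool.false_eq_true, if_false]
    rw [if_neg (by omega)]
    simp only [Prod.mk.injEq, and_true]
    omega
  · simp only [if_true]
    rw [if_pos (by omega)]
    simp only [Prod.mk.injEq, and_true]
    omega

/-- the point of a vertex -/
def ch (v : Vtx) : ℤ × ℤ := (v.1 + v.2, v.1 - v.2)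

theorem ch_surj {p : ℤ × ℤ} (h : (p.1 + p.2) % 2 = 0) : ∃ v : Vtx, ch v = p := by
  obtain ⟨a, b⟩ := p
  simp only at h
  refine ⟨((a + b) / 2, (a - b) / 2), ?_⟩
  simp only [ch, Prod.mk.injEq]
  omega

/-- the class 0 corners of the square of an edge -/
theorem corners (e : Edg) : (∃ i k : ℤ, (i = 0 ∨ i = 1) ∧ (k = 0 ∨ k = 1) ∧
    ch (src e) = (e.1 + e.2.1 + i, dco e + k) ∧
    ch (tgt e) = (e.1 + e.2.1 + (1 - i), dco e + (1 - k))) := by
  obtain ⟨x, y, b⟩ := e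
  cases b
  · refine ⟨0, 1, Or.inl rfl, Or.inr rfl, ?_, ?_⟩ <;>
    simp only [ch, src_mk, tgt_false, dco, Bool.false_eq_true, if_false, Prod.mk.injEq] <;> omega
  · refine ⟨0, 0, Or.inl rfl, Or.inl rfl, ?_, ?_⟩ <;>
    simp only [ch, src_mk, tgt_true, dco, if_true, Prod.mk.injEq] <;> omega

theorem ch_inj {u v : Vtx} (h : ch u = ch v) : u = v := by
  obtain ⟨a, b⟩ := u
  obtain ⟨c, d⟩ := v
  simp only [ch, Prod.mk.injEq] at h ⊢
  omega

/-- an end of the edge of a square -/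
theorem end_of {v : Vtx} {s d i k : ℤ} (hi : i = 0 ∨ i = 1) (hk : k = 0 ∨ k = 1)
    (h : ch v = (s + i, d + k)) : ∃ w : Vtx, ch w = (s + (1 - i), d + (1 - k)) ∧
      ((src (edz s d) = v ∧ tgt (edz s d) = w) ∨ (src (edz s d) = w ∧ tgt (edz s d) = v)) := by
  obtain ⟨x, y⟩ := v
  simp only [ch, Prod.mk.injEq] at h
  obtain ⟨h1, h2⟩ := h
  unfold edz
  by_cases hp : (s + d) % 2 = 0
  · rw [if_pos hp]
    have hik : i = k := by omega
    subst hik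
    rcases hi with rfl | rfl
    · refine ⟨(x + 1, y), ?_, Or.inl ⟨?_, ?_⟩⟩
      · simp only [ch, Prod.mk.injEq]; omega
      · simp only [src_mk, Prod.mk.injEq]; omega
      · simp only [tgt_true, Prod.mk.injEq]; omega
    · refine ⟨(x - 1, y), ?_, Or.inr ⟨?_, ?_⟩⟩
      · simp only [ch, Prod.mk.injEq]; omega
      · simp only [src_mk, Prod.mk.injEq]; omega
      · simp only [tgt_true, Prod.mk.injEq]; omega
  · rw [if_neg hp]
    have hik : k = 1 - i := by omega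
    subst hik
    rcases hi with rfl | rfl
    · refine ⟨(x, y + 1), ?_, Or.inl ⟨?_, ?_⟩⟩
      · simp only [ch, Prod.mk.injEq]; omega
      · simp only [src_mk, Prod.mk.injEq]; omega
      · simp only [tgt_false, Prod.mk.injEq]; omega
    · refine ⟨(x, y - 1), ?_, Or.inr ⟨?_, ?_⟩⟩
      · simp only [ch, Prod.mk.injEq]; omega
      · simp only [src_mk, Prod.mk.injEq]; omega
      · simp only [tgt_false, Prod.mk.injEq]; omega

theorem nm_ch (v : Vtx) : |(ch v).1| + |(ch v).2| = 2 * nm v := by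
  obtain ⟨x, y⟩ := v
  simp only [ch, nm]
  rcases abs_cases (x + y) with h1 | h1 <;> rcases abs_cases (x - y) with h2 | h2 <;>
    rcases abs_cases x with h3 | h3 <;> rcases abs_cases y with h4 | h4 <;>
    rcases le_total |x| |y| with h5 | h5 <;>
    simp only [max_eq_right h5, max_eq_left h5] <;> omega

theorem nz_ch (v : Vtx) : nz (ch v) ≤ 2 * nm v ∧ nm v ≤ nz (ch v) := by
  have h := nm_ch v
  have h1 := abs_nonneg (ch v).1
  have h2 := abs_nonneg (ch v).2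
  unfold nz
  rcases le_total |(ch v).1| |(ch v).2| with h5 | h5
  · rw [max_eq_right h5]; omega
  · rw [max_eq_left h5]; omega

theorem nm_step {v w : Vtx} (h1 : |(ch w).1 - (ch v).1| = 1) (h2 : |(ch w).2 - (ch v).2| = 1) :
    nm w ≤ nm v + 1 ∧ nm v ≤ nm w + 1 := by
  have a1 := nm_ch v
  have a2 := nm_ch w
  have b1 := abs_sub_abs_le_abs_sub (ch w).1 (ch v).1
  have b2 := abs_sub_abs_le_abs_sub (ch w).2 (ch v).2
  have b3 := abs_sub_abs_le_abs_sub (ch v).1 (ch w).1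
  have b4 := abs_sub_abs_le_abs_sub (ch v).2 (ch w).2
  rw [abs_sub_comm] at b3 b4
  omega

theorem bxz_of_bound {R : ℤ} {s d : ℤ} (h : |s| + |d| + 2 ≤ 2 * R) : edz s d ∈ bxz R := by
  unfold edz bxz
  rcases abs_cases s with h1 | h1 <;> rcases abs_cases d with h2 | h2 <;> split_ifs <;>
    simp only [Set.mem_ofPred_eq, nm, src_mk, tgt_true, tgt_false, max_le_iff, abs_le] <;> omega

theorem mem_zp {e : Edg} : e ∈ zp ({0} : Set ℤ) ↔ dco e < 0 ∧ e.1 + e.2.1 + 1 = 0 := Iff.rfl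

/-- a corner of a square is an end of one of its diagonals -/
theorem cor_of {e : Edg} (hz : e ∉ zp ({0} : Set ℤ)) {i k : ℤ} (hi : i = 0 ∨ i = 1)
    (hk : k = 0 ∨ k = 1) :
    Cor {0} 0 e (nrm {0} (dco e) (e.1 + e.2.1 + i) (dco e + k)) ∨
      Cor {0} 1 e (nrm {0} (dco e) (e.1 + e.2.1 + i) (dco e + k)) := by
  have hm := Int.emod_two_eq_zero_or_one (e.1 + e.2.1 + dco e)
  have r0 : (e.1 + e.2.1 + dco e) % 2 = 0 → Dg ({0} : Set ℤ) 0 e
    (nrm {0} (dco e) (e.1 + e.2.1) (dco e)) (nrm {0} (dco e) (e.1 + e.2.1 + 1) (dco e + 1)) :=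
      fun h => Dg.rise h
  have r1 : (e.1 + e.2.1 + dco e) % 2 = 1 → Dg ({0} : Set ℤ) 1 e
    (nrm {0} (dco e) (e.1 + e.2.1) (dco e)) (nrm {0} (dco e) (e.1 + e.2.1 + 1) (dco e + 1)) :=
      fun h => Dg.rise h
  have f0 : (e.1 + e.2.1 + dco e) % 2 = 1 → Dg ({0} : Set ℤ) 0 e
    (nrm {0} (dco e) (e.1 + e.2.1) (dco e + 1)) (nrm {0} (dco e) (e.1 + e.2.1 + 1) (dco e)) :=
      fun h => Dg.fall (by omega)
  have f1 : (e.1 + e.2.1 + dco e) % 2 = 0 → Dg ({0} : Set ℤ) 1 e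
    (nrm {0} (dco e) (e.1 + e.2.1) (dco e + 1)) (nrm {0} (dco e) (e.1 + e.2.1 + 1) (dco e)) :=
      fun h => Dg.fall (by omega)
  rcases hi with rfl | rfl <;> rcases hk with rfl | rfl <;> rcases hm with h | h <;>
    (try simp only [add_zero])
  · exact Or.inl ⟨hz, _, Or.inl (r0 h)⟩
  · exact Or.inr ⟨hz, _, Or.inl (r1 h)⟩
  · exact Or.inr ⟨hz, _, Or.inl (f1 h)⟩
  · exact Or.inl ⟨hz, _, Or.inl (f0 h)⟩
  · exact Or.inr ⟨hz, _, Or.inr (f1 h)⟩
  · exact Or.inl ⟨hz, _, Or.inr (f0 h)⟩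
  · exact Or.inl ⟨hz, _, Or.inr (r0 h)⟩
  · exact Or.inr ⟨hz, _, Or.inr (r1 h)⟩

/-- the ends of the diagonals are corners -/
theorem dg_cor {c : ℤ} {e : Edg} {x y : ℤ × ℤ} (h : Dg ({0} : Set ℤ) c e x y) :
    (∃ i k : ℤ, (i = 0 ∨ i = 1) ∧ (k = 0 ∨ k = 1) ∧
      x = nrm {0} (dco e) (e.1 + e.2.1 + i) (dco e + k)) ∧
    (∃ i k : ℤ, (i = 0 ∨ i = 1) ∧ (k = 0 ∨ k = 1) ∧
      y = nrm {0} (dco e) (e.1 + e.2.1 + i) (dco e + k)) := by
  rcases h with h | h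
  · exact ⟨⟨0, 0, Or.inl rfl, Or.inl rfl, by simp⟩, ⟨1, 1, Or.inr rfl, Or.inr rfl, by simp⟩⟩
  · exact ⟨⟨0, 1, Or.inl rfl, Or.inr rfl, by simp⟩, ⟨1, 0, Or.inr rfl, Or.inl rfl, by simp⟩⟩

theorem cor_ik {e : Edg} {x : ℤ × ℤ} (h : Cor ({0} : Set ℤ) 0 e x ∨ Cor ({0} : Set ℤ) 1 e x) :
    ∃ i k : ℤ, (i = 0 ∨ i = 1) ∧ (k = 0 ∨ k = 1) ∧
      x = nrm {0} (dco e) (e.1 + e.2.1 + i) (dco e + k) := by
  rcases h with ⟨-, y, h | h⟩ | ⟨-, y, h | h⟩
  · exact (dg_cor h).1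
  · exact (dg_cor h).2
  · exact (dg_cor h).1
  · exact (dg_cor h).2

/-- distances of a corner -/
theorem nrm_near {d j t : ℤ} : (nrm ({0} : Set ℤ) d j t).1 ≤ j ∧ j - 1 ≤ (nrm ({0} : Set ℤ) d j t).1 ∧
    (nrm ({0} : Set ℤ) d j t).2 = t := by
  unfold nrm
  split_ifs
  · simp
  · simp

theorem near {e : Edg} {x y : ℤ × ℤ} (hx : Cor ({0} : Set ℤ) 0 e x ∨ Cor ({0} : Set ℤ) 1 e x)
    (hy : Cor ({0} : Set ℤ) 0 e y ∨ Cor ({0} : Set ℤ) 1 e y) : nz y ≤ nz x + 2 := by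
  obtain ⟨i, k, hi, hk, rfl⟩ := cor_ik hx
  obtain ⟨i', k', hi', hk', rfl⟩ := cor_ik hy
  have h1 := nrm_near (d := dco e) (j := e.1 + e.2.1 + i) (t := dco e + k)
  have h2 := nrm_near (d := dco e) (j := e.1 + e.2.1 + i') (t := dco e + k')
  generalize nrm ({0} : Set ℤ) (dco e) (e.1 + e.2.1 + i) (dco e + k) = p at *
  generalize nrm ({0} : Set ℤ) (dco e) (e.1 + e.2.1 + i') (dco e + k') = q at *
  unfold nz
  have h3 : |q.1| ≤ |p.1| + 2 := by
    have := abs_sub_abs_le_abs_sub q.1 p.1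
    have h4 : |q.1 - p.1| ≤ 2 := by rw [abs_le]; omega
    omega
  have h4 : |q.2| ≤ |p.2| + 2 := by
    have := abs_sub_abs_le_abs_sub q.2 p.2
    have h4 : |q.2 - p.2| ≤ 2 := by rw [abs_le]; omega
    omega
  have h5 := le_max_left |p.1| |p.2|
  have h6 := le_max_right |p.1| |p.2|
  rw [max_le_iff]
  omega

theorem box_of {R : ℕ} {e : Edg} {x : ℤ × ℤ}
    (hx : Cor ({0} : Set ℤ) 0 e x ∨ Cor ({0} : Set ℤ) 1 e x) (h : 4 * nz x + 16 ≤ R) :
    e ∈ bxz R := by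
  obtain ⟨i, k, hi, hk, rfl⟩ := cor_ik hx
  have h1 := nrm_near (d := dco e) (j := e.1 + e.2.1 + i) (t := dco e + k)
  generalize nrm ({0} : Set ℤ) (dco e) (e.1 + e.2.1 + i) (dco e + k) = p at *
  rw [← edz_eq e]
  apply bxz_of_bound
  have h5 := le_max_left |p.1| |p.2|
  have h6 := le_max_right |p.1| |p.2|
  have h7 : nz p = max |p.1| |p.2| := rfl
  have h3 : |e.1 + e.2.1| ≤ |p.1| + 2 := by
    have := abs_sub_abs_le_abs_sub (e.1 + e.2.1) p.1
    have h4 : |e.1 + e.2.1 - p.1| ≤ 2 := by rw [abs_le]; omega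
    omega
  have h4 : |dco e| ≤ |p.2| + 2 := by
    have := abs_sub_abs_le_abs_sub (dco e) p.2
    have h4 : |dco e - p.2| ≤ 2 := by rw [abs_le]; omega
    omega
  have h8 := abs_nonneg p.1
  have h9 := abs_nonneg p.2
  omega

theorem and_of {ρ R : ℕ} {e : Edg} {x : ℤ × ℤ} (hz : e ∉ zp ({0} : Set ℤ))
    (hx : Cor ({0} : Set ℤ) 0 e x ∨ Cor ({0} : Set ℤ) 1 e x) (h0 : (ρ : ℤ) + 4 ≤ nz x)
    (h : 4 * nz x + 16 ≤ R) : e ∈ AnD ρ R := by
  refine ⟨hz, fun y hy => ?_⟩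
  have h1 := near hx hy
  have h2 := near hy hx
  unfold Rg
  omega

/-- the diagonal through the corner `(i, k)` -/
theorem lq_of {G : Set Edg} {s d i k : ℤ} (hi : i = 0 ∨ i = 1) (hk : k = 0 ∨ k = 1)
    (hz : ¬ (d < 0 ∧ s + 1 = 0)) (hG : edz s d ∈ G ↔ ((s + d) % 2 = 0 ↔ i = k)) :
    Lq G (edz s d) (nrm {0} d (s + i) (d + k)) (nrm {0} d (s + (1 - i)) (d + (1 - k))) := by
  refine ⟨by rw [mem_zp, edz_sum, dco_edz]; exact hz, ?_⟩
  have hm := Int.emod_two_eq_zero_or_one (s + d)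
  have R : ∀ c : ℤ, (s + d) % 2 = c → Dg ({0} : Set ℤ) c (edz s d) (nrm {0} d s d)
      (nrm {0} d (s + 1) (d + 1)) := by
    intro c hc
    have := Dg.rise (Z := ({0} : Set ℤ)) (c := c) (e := edz s d)
      (by rw [edz_sum, dco_edz]; exact hc)
    rw [edz_sum, dco_edz] at this
    exact this
  have L : ∀ c : ℤ, (s + d) % 2 = 1 - c → Dg ({0} : Set ℤ) c (edz s d) (nrm {0} d s (d + 1))
      (nrm {0} d (s + 1) d) := by
    intro c hc
    have := Dg.fall (Z := ({0} : Set ℤ)) (c := c) (e := edz s d)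
      (by rw [edz_sum, dco_edz]; exact hc)
    rw [edz_sum, dco_edz] at this
    exact this
  by_cases h : edz s d ∈ G
  · left
    refine ⟨h, ?_⟩
    have h2 := hG.1 h
    rcases hi with rfl | rfl <;> rcases hk with rfl | rfl
    · left; simpa using R 0 (h2.2 rfl)
    · left; simpa using L 0 (by have := h2.1; omega)
    · right; simpa using L 0 (by have := h2.1; omega)
    · right; simpa using R 0 (h2.2 rfl)
  · right
    refine ⟨h, ?_⟩
    have h2 : ¬ ((s + d) % 2 = 0 ↔ i = k) := fun h4 => h (hG.2 h4)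
    rcases hi with rfl | rfl <;> rcases hk with rfl | rfl
    · left; simpa using R 1 (by omega)
    · left; simpa using L 1 (by omega)
    · right; simpa using L 1 (by omega)
    · right; simpa using R 1 (by omega)

theorem lq_ik {G : Set Edg} {e : Edg} {x y : ℤ × ℤ} (h : Lq G e x y) :
    ∃ i k : ℤ, (i = 0 ∨ i = 1) ∧ (k = 0 ∨ k = 1) ∧
      (e ∈ G ↔ ((e.1 + e.2.1 + dco e) % 2 = 0 ↔ i = k)) ∧
      x = nrm {0} (dco e) (e.1 + e.2.1 + i) (dco e + k) ∧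
      y = nrm {0} (dco e) (e.1 + e.2.1 + (1 - i)) (dco e + (1 - k)) := by
  obtain ⟨hz, ⟨hG, h | h⟩ | ⟨hG, h | h⟩⟩ := h
  · rcases h with h | h
    · exact ⟨0, 0, Or.inl rfl, Or.inl rfl, by simp [hG, h], by simp, by simp⟩
    · exact ⟨0, 1, Or.inl rfl, Or.inr rfl, by simp [hG, h], by simp, by simp⟩
  · rcases h with h | h
    · exact ⟨1, 1, Or.inr rfl, Or.inr rfl, by simp [hG, h], by simp, by simp⟩
    · exact ⟨1, 0, Or.inr rfl, Or.inl rfl, by simp [hG, h], by simp, by simp⟩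
  · rcases h with h | h
    · exact ⟨0, 0, Or.inl rfl, Or.inl rfl, by simp [hG, h], by simp, by simp⟩
    · exact ⟨0, 1, Or.inl rfl, Or.inr rfl, by simp [hG, h], by simp, by simp⟩
  · rcases h with h | h
    · exact ⟨1, 1, Or.inr rfl, Or.inr rfl, by simp [hG, h], by simp, by simp⟩
    · exact ⟨1, 0, Or.inr rfl, Or.inl rfl, by simp [hG, h], by simp, by simp⟩

theorem lq_cor {G : Set Edg} {e : Edg} {x y : ℤ × ℤ} (h : Lq G e x y) :
    (Cor ({0} : Set ℤ) 0 e x ∨ Cor ({0} : Set ℤ) 1 e x) ∧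
    (Cor ({0} : Set ℤ) 0 e y ∨ Cor ({0} : Set ℤ) 1 e y) := by
  obtain ⟨hz, ⟨hG, h⟩ | ⟨hG, h⟩⟩ := h
  · exact ⟨Or.inl ⟨hz, y, h⟩, Or.inl ⟨hz, x, h.symm⟩⟩
  · exact ⟨Or.inr ⟨hz, y, h⟩, Or.inr ⟨hz, x, h.symm⟩⟩

theorem lq_rz {R : ℕ} {G : Set Edg} {e : Edg} {x y : ℤ × ℤ} (hx : K1 R G x) (he : e ∈ bxz R)
    (h : Lq G e x y) : K1 R G y := by
  obtain ⟨hz, ⟨hG, h | h⟩ | ⟨hG, h | h⟩⟩ := h
  · exact Relation.EqvGen.trans _ _ _ hx (Relation.EqvGen.rel _ _ ⟨e, he, hz, Or.inl ⟨hG, h⟩⟩)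
  · exact Relation.EqvGen.trans _ _ _ hx (Relation.EqvGen.symm _ _
      (Relation.EqvGen.rel _ _ ⟨e, he, hz, Or.inl ⟨hG, h⟩⟩))
  · exact Relation.EqvGen.trans _ _ _ hx (Relation.EqvGen.rel _ _ ⟨e, he, hz, Or.inr ⟨hG, h⟩⟩)
  · exact Relation.EqvGen.trans _ _ _ hx (Relation.EqvGen.symm _ _
      (Relation.EqvGen.rel _ _ ⟨e, he, hz, Or.inr ⟨hG, h⟩⟩))

theorem eqv_refl {α : Type*} {r : α → α → Prop} {a b : α} (h : Relation.EqvGen r a b) :
    Relation.ReflTransGen (fun x y => r x y ∨ r y x) a b := by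
  induction h with
  | rel x y h => exact Relation.ReflTransGen.single (Or.inl h)
  | refl x => exact Relation.ReflTransGen.refl
  | symm x y _ ih =>
    clear * - ih
    induction ih with
    | refl => exact Relation.ReflTransGen.refl
    | tail _ h ih => exact Relation.ReflTransGen.head h.symm ih
  | trans x y z _ _ ih1 ih2 => exact ih1.trans ih2

/-- the data -/
structure Hy (ρ R d k : ℕ) (G F : Set Edg) (m : ℤ × ℤ → ℤ) : Prop where
  d1 : 1 ≤ d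
  dk : d < k
  z : m (0, 0) = 0
  a2 : ∀ (x : ℤ × ℤ) (sq d i k : ℤ), (i = 0 ∨ i = 1) → (k = 0 ∨ k = 1) → ¬ (d < 0 ∧ sq + 1 = 0) →
    nrm {0} d (sq + i) (d + k) = x →
    (dsi m x sq d).2 = d ∧ Psi m x = ((dsi m x sq d).1 + i, (dsi m x sq d).2 + k)
  a3 : ∀ (x : ℤ × ℤ) (s' d' i k : ℤ), K1 R G x → x ≠ (0, 0) → (i = 0 ∨ i = 1) → (k = 0 ∨ k = 1) →
    Psi m x = (s' + i, d' + k) → ∃ sq : ℤ, ¬ (d' < 0 ∧ sq + 1 = 0) ∧
      nrm {0} d' (sq + i) (d' + k) = x ∧ dsi m x sq d' = (s', d')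
  a4 : ∀ (x y : ℤ × ℤ) (e : Edg), K1 R G x → e ∈ bxz R → Lq G e x y →
    dsi m x (e.1 + e.2.1) (dco e) = dsi m y (e.1 + e.2.1) (dco e) ∧
    |(Psi m y).1 - (Psi m x).1| = 1 ∧ |(Psi m y).2 - (Psi m x).2| = 1
  a5 : ∀ x, K1 R G x → ((Psi m x).1 + (Psi m x).2) % 2 = 0
  cpy : Cpy ρ R G m F
  lo : ∀ x v, K1 R G x → 2 * nz x ≤ R → Psi m x = ch v → (d : ℤ) ≤ nm v → (ρ : ℤ) + 4 ≤ nz x
  hi : ∀ x v, K1 R G x → 2 * nz x ≤ R → Psi m x = ch v → nm v ≤ k → 4 * nz x + 16 ≤ R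

/-- the image of the cluster -/
def W (ρ R : ℕ) (G : Set Edg) (m : ℤ × ℤ → ℤ) : Set Vtx :=
  {v | ∃ x, K1 R G x ∧ Rg ρ R x ∧ Psi m x = ch v}

theorem pq {a p q : Prop} (h : (a ↔ p) ↔ q) : a ↔ (p ↔ q) := by
  by_cases ha : a <;> by_cases hp : p <;> by_cases hq : q <;> simp [ha, hp, hq] at h ⊢

theorem pq' {a p q : Prop} (h : a ↔ (p ↔ q)) : (a ↔ p) ↔ q := by
  by_cases ha : a <;> by_cases hp : p <;> by_cases hq : q <;> simp [ha, hp, hq] at h ⊢

variable {ρ R d k : ℕ} {G F : Set Edg} {m : ℤ × ℤ → ℤ}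

theorem clos (H : Hy ρ R d k G F m) {v w : Vtx} {e' : Edg} (hv : v ∈ W ρ R G m)
    (h1 : (d : ℤ) ≤ nm v) (h2 : nm v ≤ k) (he : e' ∈ F)
    (hst : (src e' = v ∧ tgt e' = w) ∨ (src e' = w ∧ tgt e' = v)) : w ∈ W ρ R G m := by
  obtain ⟨x, hx, hr, hp⟩ := hv
  have l1 := H.lo x v hx hr.2 hp h1
  have l2 := H.hi x v hx hr.2 hp h2
  obtain ⟨i, kk, hi, hk, hv', hw'⟩ : ∃ i k : ℤ, (i = 0 ∨ i = 1) ∧ (k = 0 ∨ k = 1) ∧
      ch v = (e'.1 + e'.2.1 + i, dco e' + k) ∧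
      ch w = (e'.1 + e'.2.1 + (1 - i), dco e' + (1 - k)) := by
    obtain ⟨i, k, hi, hk, h3, h4⟩ := corners e'
    rcases hst with ⟨h, h'⟩ | ⟨h, h'⟩
    · exact ⟨i, k, hi, hk, by rw [← h, h3], by rw [← h', h4]⟩
    · exact ⟨1 - i, 1 - k, by omega, by omega, by rw [← h', h4],
        by rw [← h, h3]; simp only [Prod.mk.injEq]; omega⟩
  have hx0 : x ≠ (0, 0) := by
    rintro rfl
    simp only [nz, abs_zero, max_self] at l1
    omega
  obtain ⟨sq, hz, hn, hd⟩ := H.a3 x _ _ i kk hx hx0 hi hk (hp.trans hv')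
  have hz' : edz sq (dco e') ∉ zp ({0} : Set ℤ) := by
    rw [mem_zp, edz_sum, dco_edz]; exact hz
  have hc := cor_of hz' hi hk
  rw [edz_sum, dco_edz, hn] at hc
  have hA := and_of hz' hc l1 l2
  have hB := box_of hc l2
  have him : im m x (edz sq (dco e')) = e' := by
    unfold im
    rw [edz_sum, dco_edz, hd]
    exact edz_eq e'
  have hcp := H.cpy _ x hA hx hc
  rw [him] at hcp
  have h3 := hcp.1 he
  have hpar : pa e' ↔ i = kk := by
    have := H.a5 x hx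
    rw [hp, hv'] at this
    unfold pa
    simp only at this
    omega
  rw [hpar] at h3
  have h4 := pq h3
  have hpa : pa (edz sq (dco e')) ↔ (sq + dco e') % 2 = 0 := by
    unfold pa; rw [edz_sum, dco_edz]
  rw [hpa] at h4
  have hL := lq_of hi hk hz h4
  rw [hn] at hL
  have hy := lq_rz hx hB hL
  have h5 := (H.a4 x _ _ hx hB hL).1
  rw [edz_sum, dco_edz, hd] at h5
  have h6 := (H.a2 _ sq (dco e') (1 - i) (1 - kk) (by omega) (by omega) hz rfl).2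
  rw [← h5] at h6
  have hn1 := near hc (lq_cor hL).2
  have hn2 := near (lq_cor hL).2 hc
  refine ⟨_, hy, ?_, ?_⟩
  · unfold Rg; omega
  · rw [h6, hw']

theorem link (H : Hy ρ R d k G F m) {x y : ℤ × ℤ} {v w : Vtx} {e : Edg} (hx : K1 R G x)
    (he : e ∈ bxz R) (hL : Lq G e x y) (hv : Psi m x = ch v) (hw : Psi m y = ch w)
    (l1 : (ρ : ℤ) + 4 ≤ nz x) (l2 : 4 * nz x + 16 ≤ R) :
    ∃ e' ∈ F, (src e' = v ∧ tgt e' = w) ∨ (src e' = w ∧ tgt e' = v) := by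
  obtain ⟨i, kk, hi, hk, hG, rfl, hy⟩ := lq_ik hL
  obtain ⟨hc, hc2⟩ := lq_cor hL
  have hA := and_of hL.1 hc l1 l2
  have hz := hL.1
  rw [mem_zp] at hz
  have hcp := H.cpy _ _ hA hx hc
  have h4 := (H.a4 _ _ _ hx he hL).1
  have h2 := H.a2 _ (e.1 + e.2.1) (dco e) i kk hi hk hz rfl
  have h3 := H.a2 _ (e.1 + e.2.1) (dco e) (1 - i) (1 - kk) (by omega) (by omega) hz hy.symm
  rw [← h4] at h3
  have h5 := H.a5 _ hx
  generalize nrm ({0} : Set ℤ) (dco e) (e.1 + e.2.1 + i) (dco e + kk) = x at *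
  obtain ⟨s', hs'⟩ : ∃ s', s' = (dsi m x (e.1 + e.2.1) (dco e)).1 := ⟨_, rfl⟩
  have hd : dsi m x (e.1 + e.2.1) (dco e) = (s', dco e) := Prod.ext hs'.symm h2.1
  have him : im m x e = edz s' (dco e) := by unfold im; rw [hd]
  rw [hd] at h2 h3
  have h2' := h2.2
  have h3' := h3.2
  simp only at h2' h3'
  rw [hv] at h2'
  rw [hw] at h3'
  obtain ⟨w', hw', hst⟩ := end_of hi hk h2'
  have : w' = w := ch_inj (by rw [hw', h3'])
  subst this
  refine ⟨edz s' (dco e), ?_, hst⟩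
  rw [him] at hcp
  rw [hcp]
  have hpar : pa (edz s' (dco e)) ↔ i = kk := by
    unfold pa
    rw [edz_sum, dco_edz]
    rw [hv, h2'] at h5
    simp only at h5
    omega
  rw [hpar]
  exact pq' hG

theorem mem_AE {d k : ℕ} {e : Edg} : e ∈ AE (0, 0) d k ↔
    (nm (src e) ≤ k ∧ nm (tgt e) ≤ k) ∧ ¬ (nm (src e) ≤ d ∧ nm (tgt e) ≤ d) := by
  have hb : ∀ n : ℕ, e ∈ blk (0, 0) n ↔ nm (src e) ≤ n ∧ nm (tgt e) ≤ n := by
    intro n
    unfold blk
    obtain ⟨x, y, _ | _⟩ := e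
    · rw [mem_RE_false]
      simp only [nm, src_mk, tgt_false, max_le_iff, abs_le]
      omega
    · rw [mem_RE_true]
      simp only [nm, src_mk, tgt_true, max_le_iff, abs_le]
      omega
  unfold AE
  rw [Finset.mem_coe, Finset.mem_sdiff, hb, hb]

theorem mem_bdB {d : ℕ} {v : Vtx} : v ∈ bdB (0, 0) d ↔ nm v = d := by
  unfold bdB nm
  simp only [Set.mem_ofPred_eq, sub_zero]
  constructor
  · rintro ⟨h1, h2, h3⟩
    rcases h3 with h3 | h3
    · rw [h3, max_eq_left h2]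
    · rw [h3, max_eq_right h1]
  · intro h
    have h1 := le_max_left |v.1| |v.2|
    have h2 := le_max_right |v.1| |v.2|
    rw [h] at h1 h2
    refine ⟨h1, h2, ?_⟩
    rcases max_choice |v.1| |v.2| with h3 | h3
    · left; rw [← h3, h]
    · right; rw [← h3, h]

theorem nm_ends (e : Edg) : nm (src e) ≤ nm (tgt e) + 1 ∧ nm (tgt e) ≤ nm (src e) + 1 := by
  obtain ⟨i, k, hi, hk, h1, h2⟩ := corners e
  have := nm_step (v := src e) (w := tgt e)
    (by rw [h1, h2]; rcases hi with rfl | rfl <;> simp)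
    (by rw [h1, h2]; rcases hk with rfl | rfl <;> simp)
  omega

theorem ae_of {d k : ℕ} {e : Edg} {v w : Vtx}
    (hst : (src e = v ∧ tgt e = w) ∨ (src e = w ∧ tgt e = v)) (h1 : nm v ≤ k) (h2 : nm w ≤ k)
    (h3 : (d : ℤ) < nm w) : e ∈ AE (0, 0) d k := by
  rw [mem_AE]
  rcases hst with ⟨a, b⟩ | ⟨a, b⟩ <;> rw [a, b] <;> omega

/-- the crossing -/
def Done (ρ R d k : ℕ) (G F : Set Edg) (m : ℤ × ℤ → ℤ) : Prop :=
  ∃ u w : Vtx, u ∈ W ρ R G m ∧ nm u = d ∧ nm w = k ∧ Reach (F ∩ AE (0, 0) d k) u w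

theorem walk (H : Hy ρ R d k G F m) {x : ℤ × ℤ}
    (h : Relation.ReflTransGen (fun x y => LZ {0} (bxz R) G x y ∨ LZ {0} (bxz R) G y x) (0, 0) x) :
    Done ρ R d k G F m ∨ (K1 R G x ∧ 2 * nz x ≤ R ∧ ∃ v, Psi m x = ch v ∧ nm v < k ∧
      ((d : ℤ) < nm v → ∃ u, u ∈ W ρ R G m ∧ nm u = d ∧ Reach (F ∩ AE (0, 0) d k) u v)) := by
  induction h with
  | refl =>
    right
    refine ⟨Relation.EqvGen.refl _, ?_, (0, 0), ?_, ?_, ?_⟩
    · simp [nz]
    · unfold Psi; simp [H.z, ch]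
    · have := H.dk
      simp only [nm, abs_zero, max_self]
      omega
    · intro h
      simp only [nm, abs_zero, max_self] at h
      omega
  | @tail x y _ h2 ih =>
    rcases ih with ih | ⟨hx, hR, v, hv, hvk, hu⟩
    · exact Or.inl ih
    have hstep : ∃ e ∈ bxz R, Lq G e x y := by
      rcases h2 with ⟨e, he, hz, h⟩ | ⟨e, he, hz, h⟩
      · exact ⟨e, he, hz, h.imp (fun h => ⟨h.1, Or.inl h.2⟩) (fun h => ⟨h.1, Or.inl h.2⟩)⟩
      · exact ⟨e, he, hz, h.imp (fun h => ⟨h.1, Or.inr h.2⟩) (fun h => ⟨h.1, Or.inr h.2⟩)⟩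
    obtain ⟨e, he, hL⟩ := hstep
    have hy := lq_rz hx he hL
    have l2 := H.hi x v hx hR hv hvk.le
    obtain ⟨hc1, hc2⟩ := lq_cor hL
    have hn := near hc1 hc2
    obtain ⟨w, hw⟩ := ch_surj (H.a5 y hy)
    have hst := (H.a4 x y e hx he hL).2
    rw [← hw, hv] at hst
    obtain ⟨s1, s2⟩ := nm_step hst.1 hst.2
    by_cases hwd : (d : ℤ) < nm w
    · have l1 := H.lo x v hx hR hv (by omega)
      obtain ⟨e', heF, hends⟩ := link H hx he hL hv hw.symm l1 l2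
      have hae := ae_of hends (by omega : nm v ≤ k) (by omega : nm w ≤ k) hwd
      have hadj : Adj (F ∩ AE (0, 0) d k) v w := ⟨e', ⟨heF, hae⟩, hends⟩
      obtain ⟨u, huW, hud, hreach⟩ : ∃ u, u ∈ W ρ R G m ∧ nm u = d ∧
          Reach (F ∩ AE (0, 0) d k) u w := by
        by_cases hvd : (d : ℤ) < nm v
        · obtain ⟨u, huW, hud, hr⟩ := hu hvd
          exact ⟨u, huW, hud, hr.tail hadj⟩
        · refine ⟨v, ⟨x, hx, ?_, hv⟩, by omega, Relation.ReflTransGen.single hadj⟩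
          unfold Rg; omega
      by_cases hwk : nm w < k
      · right
        exact ⟨hy, by omega, w, hw.symm, hwk, fun _ => ⟨u, huW, hud, hreach⟩⟩
      · left
        exact ⟨u, w, huW, hud, by omega, hreach⟩
    · right
      have := H.dk
      exact ⟨hy, by omega, w, hw.symm, by omega, fun h => absurd h hwd⟩

theorem done (H : Hy ρ R d k G F m) (hS : SE3 R G) : Done ρ R d k G F m := by
  obtain ⟨x, hx, e, he, hc⟩ := hS.2 1 (by norm_num)
  have h0 : scz 0 0 1 = (0, 0) := by unfold scz; norm_num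
  rw [h0] at hx
  rcases walk H (eqv_refl hx) with h | ⟨h1, h2, v, h3, h4, -⟩
  · exact h
  · exfalso
    exact he (box_of hc (H.hi x v h1 h2 h3 h4.le))

theorem main (H : Hy ρ R d k G F m) (hS : SE3 R G) (hJ : S_JOR)
    (hb : ∀ x y, K1 R G x → K1 R G y → Rg ρ R x → Rg ρ R y → |(Psi m y).1 - (Psi m x).1| ≤ 2 →
    |(Psi m y).2 - (Psi m x).2| ≤ 2 → m y - m x = crd (Psi m x) (Psi m y)) :
    A3v (0, 0) d k F := by
  classical
  obtain ⟨u, w, huW, hud, hwk, hr⟩ := done H hS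
  have hcl : ∀ v, Reach (F ∩ AE (0, 0) d k) u v →
      v ∈ W ρ R G m ∧ (d : ℤ) ≤ nm v ∧ nm v ≤ k := by
    intro v hv
    induction hv with
    | refl => exact ⟨huW, hud.ge, by rw [hud]; exact_mod_cast H.dk.le⟩
    | @tail v w _ h2 ih =>
      obtain ⟨e, ⟨heF, heA⟩, hst⟩ := h2
      refine ⟨clos H ih.1 ih.2.1 ih.2.2 heF hst, ?_⟩
      have := mem_AE.1 heA
      have hd := nm_ends e
      rcases hst with ⟨a, b⟩ | ⟨a, b⟩ <;> rw [a, b] at this hd <;> omega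
  obtain ⟨x, hx, y, hy, hxy⟩ := hJ (W ρ R G m)
    (fun v => if h : v ∈ W ρ R G m then m h.choose else 0) d k H.d1 H.dk (by
      intro v w hv hw h1 h2 _ _
      simp only [dif_pos hv, dif_pos hw]
      obtain ⟨a1, a2, a3⟩ := hv.choose_spec
      obtain ⟨b1, b2, b3⟩ := hw.choose_spec
      rw [abs_le] at h1 h2
      have := hb _ _ a1 b1 a2 b2 (by rw [a3, b3, abs_le]; simp only [ch]; omega)
        (by rw [a3, b3, abs_le]; simp only [ch]; omega)
      rw [this, a3, b3]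
      rfl)
  refine ⟨u, mem_bdB.2 hud, ⟨w, mem_bdB.2 hwk, hr⟩, x, hx, y, hy, hxy.mono ?_⟩
  rintro e ⟨h1, h2, h3⟩
  exact ⟨h1, fun h => h2 (hcl _ h).1, fun h => h3 (hcl _ h).1⟩

end THEV

/-- **three arms of the copy** -/
theorem t_HEV : S_RA → S_RB → S_JOR → S_HEV := by
  intro hRA hRB hJ C
  obtain ⟨s, ρ0, hρ0, hB⟩ := hRB C
  refine ⟨s, 1000 * (C + 2) ^ 2, ρ0 + 100, ?_, by omega, ?_⟩
  · have : 1 ≤ (C + 2) ^ 2 := Nat.one_le_pow _ _ (by omega)
    omega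
  intro s' K' ρ R G m F hs hK hρ hR hG hF
  obtain ⟨a1, a2, a3, a4, a5⟩ := hRA R G m hG.g
  obtain ⟨b1, b2, b3, b4, b5⟩ := hB s' ρ R G m hs (by omega) hG
  have hK0 : 0 < K' := by
    have : 1 ≤ (C + 2) ^ 2 := Nat.one_le_pow _ _ (by omega)
    omega
  have hk1 : K' * K' * ρ ≤ R / K' := by
    rw [Nat.le_div_iff_mul_le hK0]
    calc K' * K' * ρ * K' = K' * K' * K' * ρ := by ring
      _ ≤ R := hR
  have hk2 : R / K' * K' ≤ R := Nat.div_mul_le_self R K'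
  generalize hkk : R / K' = k at *
  have hC2 : C + 2 ≤ (C + 2) ^ 2 := by nlinarith
  have hKC : 1000 * (C + 2) ≤ K' := by omega
  have hd1 : 1 ≤ K' * ρ := Nat.mul_pos hK0 (by omega)
  have hdk : K' * ρ < k := by
    have : 2 * (K' * ρ) ≤ K' * (K' * ρ) := Nat.mul_le_mul_right _ (by omega)
    have h2 : K' * (K' * ρ) = K' * K' * ρ := by ring
    omega
  have hk0 : 1 ≤ k := by omega
  have H : THEV.Hy ρ R (K' * ρ) k G F m := by
    refine ⟨hd1, hdk, hG.g.zero, a2, a3, a4, a5, hF, ?_, ?_⟩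
    · intro x v hx h2 hp h3
      by_contra hcon
      push Not at hcon
      have h4 := (b4 x hx h2).1
      rw [hp] at h4
      have h5 := (THEV.nz_ch v).2
      have h6 : ((K' * ρ : ℕ) : ℤ) ≤ (C + 4) * (nz x + 1) := by omega
      have h7 : ((C : ℤ) + 4) * (nz x + 1) ≤ (C + 4) * (2 * ρ) := by
        apply mul_le_mul_of_nonneg_left _ (by positivity)
        omega
      have h8 : ((C : ℤ) + 4) * (2 * ρ) < K' * ρ := by
        have h9 : ((C : ℤ) + 4) * 2 < K' := by omega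
        have hρp : (0 : ℤ) < ρ := by omega
        nlinarith
      push_cast at h6
      omega
    · intro x v hx h2 hp h3
      have h4 := (b4 x hx h2).2
      rw [hp] at h4
      have h5 := (THEV.nz_ch v).1
      have h6 : nz (THEV.ch v) + 1 ≤ 3 * k := by omega
      have h7 : 4 * ((C : ℤ) + 2) * (nz (THEV.ch v) + 1) ≤ 4 * (C + 2) * (3 * k) :=
        mul_le_mul_of_nonneg_left h6 (by positivity)
      have h8 : (1000 * ((C : ℤ) + 2)) * k ≤ K' * k := by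
        apply mul_le_mul_of_nonneg_right _ (by positivity)
        exact_mod_cast hKC
      have h9 : (k : ℤ) * K' ≤ R := by exact_mod_cast hk2
      have h10 : (k : ℤ) ≤ (C + 2) * k := by nlinarith
      have h11 : 4 * ((C : ℤ) + 2) * (3 * k) = 12 * ((C + 2) * k) := by ring
      have h12 : (1000 * ((C : ℤ) + 2)) * k = 1000 * ((C + 2) * k) := by ring
      have h13 : (k : ℤ) * K' = K' * k := by ring
      have h14 : (1 : ℤ) ≤ k := by exact_mod_cast hk0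
      omega
  exact THEV.main H hG.se hJ b5

end Pool.Agent.W801.RS
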