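import Pool.Agent.W801.RS.Stm

/-!
# Discrete Jordan theorem in the annulus
-/

set_option autoImplicit false

namespace Pool.Agent.W801.RS
open H974 H906.Cyl H12S Finset
open Pool.Agent.H160R2.ML (nm)
open Pool.Agent.W424.OD (A3v AE)

namespace JOR

theorem nm_le {v : ℤ × ℤ} {R : ℤ} : nm v ≤ R ↔ (-R ≤ v.1 ∧ v.1 ≤ R) ∧ (-R ≤ v.2 ∧ v.2 ≤ R) := by
  unfold nm
  rw [max_le_iff, abs_le, abs_le]

theorem le_nm {v : ℤ × ℤ} {d : ℤ} : d ≤ nm v ↔ (v.1 ≤ -d ∨ d ≤ v.1) ∨ (v.2 ≤ -d ∨ d ≤ v.2) := by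
  unfold nm
  rw [le_max_iff, le_abs, le_abs]
  omega

theorem nm_nb {u v : ℤ × ℤ} (h1 : |v.1 - u.1| ≤ 1) (h2 : |v.2 - u.2| ≤ 1) : nm v ≤ nm u + 1 := by
  rw [nm_le]
  have h3 := (nm_le (v := u) (R := nm u)).1 le_rfl
  rw [abs_le] at h1 h2
  omega

theorem mem_bd (n : ℕ) (v : ℤ × ℤ) : v ∈ bdB (0, 0) n ↔ nm v = n := by
  unfold bdB
  simp only [Set.mem_ofPred_eq, sub_zero]
  unfold nm
  constructor
  · rintro ⟨h1, h2, h3 | h3⟩
    · rw [h3]; exact max_eq_left h2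
    · rw [h3]; exact max_eq_right h1
  · intro h
    have h1 : |v.1| ≤ (n : ℤ) := h ▸ le_max_left _ _
    have h2 : |v.2| ≤ (n : ℤ) := h ▸ le_max_right _ _
    refine ⟨h1, h2, ?_⟩
    rcases max_choice |v.1| |v.2| with h3 | h3
    · left; rw [← h3, h]
    · right; rw [← h3, h]

theorem mem_blk0 (n : ℕ) (e : Edg) : e ∈ blk (0, 0) n ↔ nm (src e) ≤ n ∧ nm (tgt e) ≤ n := by
  obtain ⟨x, y, b⟩ := e
  unfold blk
  rw [nm_le, nm_le]
  cases b
  · rw [mem_RE_false]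
    simp only [src_mk, tgt_false]
    constructor
    · rintro ⟨h1, h2, h3, h4⟩
      omega
    · rintro ⟨h1, h2⟩
      omega
  · rw [mem_RE_true]
    simp only [src_mk, tgt_true]
    constructor
    · rintro ⟨h1, h2, h3, h4⟩
      omega
    · rintro ⟨h1, h2⟩
      omega

/-- two lattice neighbours are joined by an edge -/
theorem exists_edge {u v : ℤ × ℤ} (h : Unt u v) : ∃ e : Edg, (src e = u ∧ tgt e = v) ∨
    (src e = v ∧ tgt e = u) := by
  obtain ⟨x, y⟩ := u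
  obtain ⟨x', y'⟩ := v
  unfold Unt at h
  simp only at h
  rcases h with ⟨rfl, rfl | rfl⟩ | ⟨rfl, rfl | rfl⟩
  · exact ⟨(x', y, false), Or.inl ⟨rfl, rfl⟩⟩
  · refine ⟨(x', y - 1, false), Or.inr ⟨rfl, ?_⟩⟩
    rw [tgt_false, sub_add_cancel]
  · exact ⟨(x, y', true), Or.inl ⟨rfl, rfl⟩⟩
  · refine ⟨(x - 1, y', true), Or.inr ⟨rfl, ?_⟩⟩
    rw [tgt_true, sub_add_cancel]

theorem unt_abs {u v : ℤ × ℤ} (h : Unt u v) : |v.1 - u.1| ≤ 1 ∧ |v.2 - u.2| ≤ 1 := by
  rw [abs_le, abs_le]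
  unfold Unt at h
  omega

theorem unt_symm {u v : ℤ × ℤ} (h : Unt u v) : Unt v u := by
  unfold Unt at h ⊢
  omega

open Classical in
/-- the cochain of `μ` -/
noncomputable def g1 (I : Set Vtx) (μ : Vtx → ℤ) (a b : Vtx) : ℤ :=
  (if a ∉ I ∧ b ∈ I then μ a else 0) - (if a ∈ I ∧ b ∉ I then μ b else 0)

open Classical in
/-- the cochain of the crossings -/
noncomputable def c1 (I : Set Vtx) (a b : Vtx) : ℤ := if a ∉ I ∧ b ∉ I then crv a b else 0

section face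
variable (x y : ℤ)

theorem i1 : crv (x + 1, y) (x, y + 1) =
    crv (x + 1, y) (x + 1, y + 1) - crv (x, y + 1) (x + 1, y + 1) := by
  unfold crv crd
  simp only
  split_ifs <;> omega

theorem i2 (h : ¬ (x = 0 ∧ y = 0)) : crv (x, y + 1) (x + 1, y) =
    crv (x, y) (x + 1, y) - crv (x, y) (x, y + 1) := by
  unfold crv crd
  simp only
  split_ifs <;> omega

theorem i3 : crv (x, y) (x + 1, y + 1) = 0 := by
  unfold crv crd
  simp only
  split_ifs <;> omega

theorem i4 (h : ¬ (x = 0 ∧ y = 0)) :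
    crv (x, y + 1) (x + 1, y + 1) + crv (x, y) (x, y + 1) = 0 := by
  unfold crv crd
  simp only
  split_ifs <;> omega

theorem i5 : crv (x, y) (x + 1, y) + crv (x + 1, y) (x + 1, y + 1) = 0 := by
  unfold crv crd
  simp only
  split_ifs <;> omega

end face

/-- the two circulations agree -/
theorem face (I : Set Vtx) (μ : Vtx → ℤ) (Gd : Vtx → Prop) (h0 : (0, 0) ∈ I)
    (hb : ∀ u v, Unt u v → v ∈ I → u ∉ I → Gd u)
    (hμ : ∀ v w, Gd v → Gd w → |v.1 - w.1| ≤ 1 → |v.2 - w.2| ≤ 1 → μ w - μ v = crv v w) (x y : ℤ) :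
    g1 I μ (x, y) (x + 1, y) - g1 I μ (x, y + 1) (x + 1, y + 1) +
      (g1 I μ (x + 1, y) (x + 1, y + 1) - g1 I μ (x, y) (x, y + 1)) =
    c1 I (x, y) (x + 1, y) - c1 I (x, y + 1) (x + 1, y + 1) +
      (c1 I (x + 1, y) (x + 1, y + 1) - c1 I (x, y) (x, y + 1)) := by
  have uab : Unt (x, y) (x + 1, y) := Or.inr ⟨rfl, Or.inl rfl⟩
  have uae : Unt (x, y) (x, y + 1) := Or.inl ⟨rfl, Or.inl rfl⟩
  have ubc : Unt (x + 1, y) (x + 1, y + 1) := Or.inl ⟨rfl, Or.inl rfl⟩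
  have uec : Unt (x, y + 1) (x + 1, y + 1) := Or.inr ⟨rfl, Or.inl rfl⟩
  have j1 := i1 x y
  have hz : (x, y) ∉ I → ¬ (x = 0 ∧ y = 0) := by
    rintro h ⟨rfl, rfl⟩
    exact h h0
  have j2 : (x, y) ∉ I → crv (x, y + 1) (x + 1, y) =
    crv (x, y) (x + 1, y) - crv (x, y) (x, y + 1) := fun h => i2 x y (hz h)
  have j3 := i3 x y
  have j4 : (x, y) ∉ I → crv (x, y + 1) (x + 1, y + 1) + crv (x, y) (x, y + 1) = 0 :=
    fun h => i4 x y (hz h)
  have j5 := i5 x y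
  have hab : Gd (x, y) → Gd (x + 1, y) → μ (x + 1, y) - μ (x, y) = crv (x, y) (x + 1, y) :=
    fun p q => hμ _ _ p q (by simp) (by simp)
  have hbc : Gd (x + 1, y) → Gd (x + 1, y + 1) →
      μ (x + 1, y + 1) - μ (x + 1, y) = crv (x + 1, y) (x + 1, y + 1) :=
    fun p q => hμ _ _ p q (by simp) (by simp)
  have hec : Gd (x, y + 1) → Gd (x + 1, y + 1) →
      μ (x + 1, y + 1) - μ (x, y + 1) = crv (x, y + 1) (x + 1, y + 1) :=
    fun p q => hμ _ _ p q (by simp) (by simp)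
  have hae : Gd (x, y) → Gd (x, y + 1) → μ (x, y + 1) - μ (x, y) = crv (x, y) (x, y + 1) :=
    fun p q => hμ _ _ p q (by simp) (by simp)
  have hbe : Gd (x + 1, y) → Gd (x, y + 1) → μ (x, y + 1) - μ (x + 1, y) =
      crv (x + 1, y) (x, y + 1) := fun p q => hμ _ _ p q (by simp) (by simp)
  have heb : Gd (x, y + 1) → Gd (x + 1, y) → μ (x + 1, y) - μ (x, y + 1) =
      crv (x, y + 1) (x + 1, y) := fun p q => hμ _ _ p q (by simp) (by simp)
  have hac : Gd (x, y) → Gd (x + 1, y + 1) → μ (x + 1, y + 1) - μ (x, y) =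
      crv (x, y) (x + 1, y + 1) := fun p q => hμ _ _ p q (by simp) (by simp)
  clear hz
  have ga1 := fun p q => hb (x, y) (x + 1, y) uab p q
  have ga2 := fun p q => hb (x, y) (x, y + 1) uae p q
  have gb1 := fun p q => hb (x + 1, y) (x, y) (unt_symm uab) p q
  have gb2 := fun p q => hb (x + 1, y) (x + 1, y + 1) ubc p q
  have gc1 := fun p q => hb (x + 1, y + 1) (x + 1, y) (unt_symm ubc) p q
  have gc2 := fun p q => hb (x + 1, y + 1) (x, y + 1) (unt_symm uec) p q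
  have ge1 := fun p q => hb (x, y + 1) (x, y) (unt_symm uae) p q
  have ge2 := fun p q => hb (x, y + 1) (x + 1, y + 1) uec p q
  clear hμ hb uab uae ubc uec
  unfold g1 c1
  by_cases ha : (x, y) ∈ I <;> by_cases hb : (x + 1, y) ∈ I <;> by_cases hc : (x + 1, y + 1) ∈ I <;>
    by_cases he : (x, y + 1) ∈ I <;>
    simp only [ha, hb, hc, he, not_true_eq_false, not_false_eq_true, and_self, and_true, and_false,
      if_true, if_false, true_and, false_and, forall_true_left, false_implies, true_implies] at *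
  all_goals first
    | omega
    | (simp_all only [forall_true_left]; omega)

/-- the sum of the circulations -/
theorem tele (p q : ℤ → ℤ → ℤ) (N : ℕ) (a b : ℤ) :
    ∑ i ∈ range N, ∑ j ∈ range N, (p (a + i) (b + j) - p (a + i) (b + j + 1) +
      (q (a + i + 1) (b + j) - q (a + i) (b + j))) =
    ∑ i ∈ range N, (p (a + i) b - p (a + i) (b + N)) +
      ∑ j ∈ range N, (q (a + N) (b + j) - q a (b + j)) := by
  simp only [sum_add_distrib]
  congr 1
  · apply sum_congr rfl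
    intro i _
    have := sum_range_sub' (fun j : ℕ => p (a + i) (b + j)) N
    simp only [Nat.cast_zero, add_zero] at this
    rw [← this]
    apply sum_congr rfl
    intro j _
    push_cast
    rw [add_assoc]
  · rw [sum_comm]
    apply sum_congr rfl
    intro j _
    have := sum_range_sub (fun i : ℕ => q (a + i) (b + j)) N
    simp only [Nat.cast_zero, add_zero] at this
    rw [← this]
    apply sum_congr rfl
    intro i _
    push_cast
    rw [add_assoc]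

/-- no bounded set with such a boundary -/
theorem absurd' (I : Set Vtx) (μ : Vtx → ℤ) (Gd : Vtx → Prop) (h0 : (0, 0) ∈ I)
    (hb : ∀ u v, Unt u v → v ∈ I → u ∉ I → Gd u)
    (hμ : ∀ v w, Gd v → Gd w → |v.1 - w.1| ≤ 1 → |v.2 - w.2| ≤ 1 → μ w - μ v = crv v w)
    (k : ℕ) (hk : 1 ≤ k) (hI : ∀ v ∈ I, nm v < k) : False := by
  have hout : ∀ x y : ℤ, (x = -k ∨ x = k ∨ y = -k ∨ y = k) → (x, y) ∉ I := by
    intro x y h1 h2
    have h3 := hI _ h2
    have h4 : (k : ℤ) ≤ nm (x, y) := by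
      rw [le_nm]
      simp only
      omega
    omega
  have s1 := tele (fun x y => g1 I μ (x, y) (x + 1, y)) (fun x y => g1 I μ (x, y) (x, y + 1))
    (2 * k) (-k) (-k)
  have s2 := tele (fun x y => c1 I (x, y) (x + 1, y)) (fun x y => c1 I (x, y) (x, y + 1))
    (2 * k) (-k) (-k)
  have s3 : ∑ i ∈ range (2 * k), ∑ j ∈ range (2 * k),
      (g1 I μ (-k + (i : ℤ), -k + (j : ℤ)) (-k + (i : ℤ) + 1, -k + (j : ℤ)) -
        g1 I μ (-k + (i : ℤ), -k + (j : ℤ) + 1) (-k + (i : ℤ) + 1, -k + (j : ℤ) + 1) +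
      (g1 I μ (-k + (i : ℤ) + 1, -k + (j : ℤ)) (-k + (i : ℤ) + 1, -k + (j : ℤ) + 1) -
        g1 I μ (-k + (i : ℤ), -k + (j : ℤ)) (-k + (i : ℤ), -k + (j : ℤ) + 1))) =
      ∑ i ∈ range (2 * k), ∑ j ∈ range (2 * k),
      (c1 I (-k + (i : ℤ), -k + (j : ℤ)) (-k + (i : ℤ) + 1, -k + (j : ℤ)) -
        c1 I (-k + (i : ℤ), -k + (j : ℤ) + 1) (-k + (i : ℤ) + 1, -k + (j : ℤ) + 1) +
      (c1 I (-k + (i : ℤ) + 1, -k + (j : ℤ)) (-k + (i : ℤ) + 1, -k + (j : ℤ) + 1) -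
        c1 I (-k + (i : ℤ), -k + (j : ℤ)) (-k + (i : ℤ), -k + (j : ℤ) + 1))) := by
    apply sum_congr rfl
    intro i _
    apply sum_congr rfl
    intro j _
    exact face I μ Gd h0 hb hμ _ _
  beta_reduce at s1 s2
  rw [s1, s2] at s3
  have hK : (-(k : ℤ) + ((2 * k : ℕ) : ℤ)) = k := by push_cast; ring
  rw [hK] at s3
  have z1 : ∑ i ∈ range (2 * k), (g1 I μ (-k + (i : ℤ), -k) (-k + (i : ℤ) + 1, -k) -
      g1 I μ (-k + (i : ℤ), (k : ℤ)) (-k + (i : ℤ) + 1, (k : ℤ))) = 0 := by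
    apply sum_eq_zero
    intro i _
    unfold g1
    have q1 := hout (-k + (i : ℤ)) (-k) (by omega)
    have q2 := hout (-k + (i : ℤ) + 1) (-k) (by omega)
    have q3 := hout (-k + (i : ℤ)) k (by omega)
    have q4 := hout (-k + (i : ℤ) + 1) k (by omega)
    simp only [q1, q2, q3, q4, and_false, false_and, if_false, sub_self]
  have z2 : ∑ j ∈ range (2 * k), (g1 I μ ((k : ℤ), -k + (j : ℤ)) ((k : ℤ), -k + (j : ℤ) + 1) -
      g1 I μ (-(k : ℤ), -k + (j : ℤ)) (-(k : ℤ), -k + (j : ℤ) + 1)) = 0 := by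
    apply sum_eq_zero
    intro i _
    unfold g1
    have q1 := hout k (-k + (i : ℤ)) (by omega)
    have q2 := hout k (-k + (i : ℤ) + 1) (by omega)
    have q3 := hout (-k) (-k + (i : ℤ)) (by omega)
    have q4 := hout (-k) (-k + (i : ℤ) + 1) (by omega)
    simp only [q1, q2, q3, q4, and_false, false_and, if_false, sub_self]
  have z3 : ∑ i ∈ range (2 * k), (c1 I (-k + (i : ℤ), -k) (-k + (i : ℤ) + 1, -k) -
      c1 I (-k + (i : ℤ), (k : ℤ)) (-k + (i : ℤ) + 1, (k : ℤ))) = 1 := by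
    have : ∀ i ∈ range (2 * k), (c1 I (-k + (i : ℤ), -k) (-k + (i : ℤ) + 1, -k) -
      c1 I (-k + (i : ℤ), (k : ℤ)) (-k + (i : ℤ) + 1, (k : ℤ))) =
        if i = 2 * k - 1 then (1 : ℤ) else 0 := by
      intro i hi
      rw [mem_range] at hi
      unfold c1
      have q1 := hout (-k + (i : ℤ)) (-k) (by omega)
      have q2 := hout (-k + (i : ℤ) + 1) (-k) (by omega)
      have q3 := hout (-k + (i : ℤ)) k (by omega)
      have q4 := hout (-k + (i : ℤ) + 1) k (by omega)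
      simp only [q1, q2, q3, q4, not_false_eq_true, and_self, if_true]
      unfold crv crd
      simp only
      split_ifs <;> omega
    rw [sum_congr rfl this, sum_ite_eq' (range (2 * k)) (2 * k - 1) (fun _ => (1 : ℤ)), if_pos]
    rw [mem_range]
    omega
  have z4 : ∑ j ∈ range (2 * k), (c1 I ((k : ℤ), -k + (j : ℤ)) ((k : ℤ), -k + (j : ℤ) + 1) -
      c1 I (-(k : ℤ), -k + (j : ℤ)) (-(k : ℤ), -k + (j : ℤ) + 1)) = 0 := by
    apply sum_eq_zero
    intro i hi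
    rw [mem_range] at hi
    unfold c1
    have q1 := hout k (-k + (i : ℤ)) (by omega)
    have q2 := hout k (-k + (i : ℤ) + 1) (by omega)
    have q3 := hout (-k) (-k + (i : ℤ)) (by omega)
    have q4 := hout (-k) (-k + (i : ℤ) + 1) (by omega)
    simp only [q1, q2, q3, q4, not_false_eq_true, and_self, if_true]
    unfold crv crd
    simp only
    split_ifs <;> omega
  rw [z1, z2, z3, z4] at s3
  omega

end JOR

theorem t_JOR : S_JOR := by
  intro W μ d k hd hdk hμ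
  by_contra hcon
  set S : Set Edg := {e | e ∈ AE (0, 0) d k ∧ src e ∉ W ∧ tgt e ∉ W} with hS
  set I : Set Vtx := {v | nm v < d ∨ (v ∉ W ∧ (d : ℤ) ≤ nm v ∧ nm v ≤ k ∧
    ∃ x : Vtx, nm x = d ∧ Reach S x v)} with hI
  have hIk : ∀ v ∈ I, nm v < k := by
    rintro v (h1 | ⟨h1, h2, h3, x, hx, h4⟩)
    · omega
    · refine lt_of_le_of_ne h3 ?_
      intro h5
      exact hcon ⟨x, (JOR.mem_bd d x).2 hx, v, (JOR.mem_bd k v).2 h5, h4⟩
  refine JOR.absurd' I μ (fun v => v ∈ W ∧ ((d : ℤ) ≤ nm v ∧ nm v ≤ k)) ?_ ?_ ?_ k (by omega) hIk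
  · left
    have : nm (0, 0) = 0 := by simp [nm]
    rw [this]
    exact_mod_cast hd
  · intro u v huv hv hu
    obtain ⟨a1, a2⟩ := JOR.unt_abs huv
    obtain ⟨b1, b2⟩ := JOR.unt_abs (JOR.unt_symm huv)
    have n1 := JOR.nm_nb a1 a2
    have n2 := JOR.nm_nb b1 b2
    have hvk := hIk v hv
    have hud : (d : ℤ) ≤ nm u := by
      by_contra h
      exact hu (Or.inl (not_le.1 h))
    have huk : nm u ≤ k := by omega
    refine ⟨?_, hud, huk⟩
    by_contra huW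
    apply hu
    rcases hv with h1 | ⟨h1, h2, h3, x, hx, h4⟩
    · refine Or.inr ⟨huW, hud, huk, u, by omega, Reach.refl _ _⟩
    · rcases eq_or_lt_of_le hud with h5 | h5
      · exact Or.inr ⟨huW, hud, huk, u, h5.symm, Reach.refl _ _⟩
      · refine Or.inr ⟨huW, hud, huk, x, hx, ?_⟩
        obtain ⟨e, he⟩ := JOR.exists_edge huv
        refine Relation.ReflTransGen.tail h4 ⟨e, ?_, he.symm⟩
        have hmem : e ∈ AE (0, 0) d k := by
          unfold AE
          rw [Finset.mem_coe, Finset.mem_sdiff, JOR.mem_blk0, JOR.mem_blk0]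
          rcases he with ⟨e1, e2⟩ | ⟨e1, e2⟩ <;> rw [e1, e2] <;> omega
        refine ⟨hmem, ?_⟩
        rcases he with ⟨e1, e2⟩ | ⟨e1, e2⟩
        · rw [e1, e2]; exact ⟨huW, h1⟩
        · rw [e1, e2]; exact ⟨h1, huW⟩
  · intro v w hv hw h1 h2
    exact hμ v w hv.1 hw.1 h1 h2 hv.2 hw.2

end Pool.Agent.W801.RS
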