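import Pool.Agent.W801.RS.Stm
import Pool.Agent.W801.OS.T_TIP
import Pool.Agent.W801.OS.T_DIA

/-!
# The reverse seam: the lower bound for the three arm event of the plane
-/

set_option autoImplicit false

namespace Pool.Agent.W801.RS
open H974 H906.Cyl H12S Finset
open Pool.Agent.H160R2.ML (nm)
open Pool.Agent.W801.OU (RZ LZ Dg nrm zp Cor scz bxz SE3 uR S_UR3)
open Pool.Agent.W801.OS (cr)
open Pool.Agent.W424.OD (A3v AE Cl)

namespace TLOW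

open Pool.Agent.W801.OS.TipAux (okh bxz_coe)

/-! ## translation -/

theorem blk_trl (c : Vtx) (k : ℕ) (e : Edg) :
    (trl c.1 c.2).φ e ∈ blk c k ↔ e ∈ blk (0, 0) k := by
  obtain ⟨x, y, _ | _⟩ := e <;>
    simp only [blk, trl_φ, mem_RE_true, mem_RE_false] <;> omega

theorem ae_iff (c : Vtx) (d k : ℕ) (e : Edg) :
    (trl c.1 c.2).φ e ∈ AE c d k ↔ e ∈ AE (0, 0) d k := by
  unfold AE
  rw [Finset.mem_coe, Finset.mem_coe, Finset.mem_sdiff, Finset.mem_sdiff, blk_trl, blk_trl]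

theorem ae_trl (c : Vtx) (d k : ℕ) (F : Set Edg) :
    ((trl c.1 c.2).φ '' F) ∩ AE c d k = (trl c.1 c.2).φ '' (F ∩ AE (0, 0) d k) := by
  ext e
  constructor
  · rintro ⟨⟨e', he', rfl⟩, h⟩
    exact ⟨e', ⟨he', (ae_iff c d k e').mp h⟩, rfl⟩
  · rintro ⟨e', ⟨he', h⟩, rfl⟩
    exact ⟨⟨e', he', rfl⟩, (ae_iff c d k e').mpr h⟩

theorem cl_trl (c : Vtx) (d k : ℕ) (F : Set Edg) (u v : Vtx) :
    (trl c.1 c.2).ψ v ∈ Cl c d k ((trl c.1 c.2).φ '' F) ((trl c.1 c.2).ψ u) ↔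
      v ∈ Cl (0, 0) d k F u := by
  unfold W424.OD.Cl
  simp only [Set.mem_ofPred_eq]
  rw [ae_trl, LSym.reach_iff]

theorem a3v_trl (c : Vtx) (d k : ℕ) (F : Set Edg) (h : A3v (0, 0) d k F) :
    A3v c d k ((trl c.1 c.2).φ '' F) := by
  obtain ⟨u, hu, ⟨w, hw, hwu⟩, x, hx, y, hy, hxy⟩ := h
  have hb : ∀ (v : Vtx) (k : ℕ), v ∈ bdB (0, 0) k → (trl c.1 c.2).ψ v ∈ bdB c k := by
    rintro ⟨a, b⟩ k h
    simpa [bdB] using h
  refine ⟨_, hb _ _ hu, ⟨_, hb _ _ hw, (cl_trl c d k F u w).2 hwu⟩, _, hb _ _ hx, _, hb _ _ hy, ?_⟩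
  refine ((trl c.1 c.2).reach hxy).mono ?_
  rintro _ ⟨e, ⟨he1, he2, he3⟩, rfl⟩
  refine ⟨(ae_iff c d k e).2 he1, ?_⟩
  rcases (trl c.1 c.2).compat e with ⟨k1, k2⟩ | ⟨k1, k2⟩
  · rw [k1, k2, cl_trl, cl_trl]
    exact ⟨he2, he3⟩
  · rw [k1, k2, cl_trl, cl_trl]
    exact ⟨he3, he2⟩

theorem a3v_local (c : Vtx) (d k : ℕ) (F : Finset Edg) :
    A3v c d k (↑F : Set Edg) ↔ A3v c d k (↑(F ∩ blk c k) : Set Edg) := by
  have : ∀ u, Cl c d k (↑(F ∩ blk c k) : Set Edg) u = Cl c d k (↑F : Set Edg) u := by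
    intro u
    unfold W424.OD.Cl
    have e1 : (↑(F ∩ blk c k) : Set Edg) ∩ AE c d k = (↑F : Set Edg) ∩ AE c d k := by
      ext e
      unfold AE
      simp only [Finset.coe_inter, Set.mem_inter_iff, Finset.mem_coe, Finset.mem_sdiff]
      tauto
    rw [e1]
  unfold A3v
  simp only [this]

/-! ## smaller annuli -/

theorem bd_iff (k : ℕ) (v : Vtx) : v ∈ bdB (0, 0) k ↔ nm v = k := by
  obtain ⟨a, b⟩ := v
  unfold bdB nm
  simp only [Set.mem_ofPred_eq, sub_zero]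
  generalize |a| = A
  generalize |b| = B
  omega

theorem box_blk (k : ℕ) : boxE k = blk (0, 0) k := by
  unfold boxE blk
  congr 1 <;> simp

theorem blk_mono {k M : ℕ} (h : k ≤ M) : blk (0, 0) k ⊆ blk (0, 0) M := by
  unfold blk
  apply RE_subset <;> omega

theorem ae_mono {d k M : ℕ} (h : k ≤ M) {e : Edg} (he : e ∈ AE (0, 0) d k) :
    e ∈ AE (0, 0) d M := by
  unfold AE at he ⊢
  rw [Finset.mem_coe, Finset.mem_sdiff] at he ⊢
  exact ⟨blk_mono h he.1, he.2⟩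

theorem ae_cut {d k M : ℕ} {e : Edg} (he : e ∈ AE (0, 0) d M) (h : e ∈ bxz k) :
    e ∈ AE (0, 0) d k := by
  unfold AE at he ⊢
  rw [Finset.mem_coe, Finset.mem_sdiff] at he ⊢
  rw [bxz_coe, box_blk, Finset.mem_coe] at h
  exact ⟨h, he.2⟩

theorem cut {d k M : ℕ} (hdk : d ≤ k) (hkM : k ≤ M) {F : Set Edg} (h : A3v (0, 0) d M F) :
    A3v (0, 0) d k F := by
  obtain ⟨u, hu, ⟨w, hw, hwu⟩, x, hx, y, hy, hxy⟩ := h
  rw [bd_iff] at hu hw hx hy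
  have hwu' : Reach (F ∩ AE (0, 0) d M) u w := hwu
  obtain ⟨w', hw', hr⟩ := Pool.Agent.W801.OS.TDIA.first_exit (r := k) hwu' (by omega) (by omega)
  obtain ⟨y', hy', hr'⟩ := Pool.Agent.W801.OS.TDIA.first_exit (r := k) hxy (by omega) (by omega)
  have hcl : ∀ v, v ∈ Cl (0, 0) d k F u → v ∈ Cl (0, 0) d M F u := by
    intro v hv
    have hv' : Reach (F ∩ AE (0, 0) d k) u v := hv
    refine hv'.mono ?_
    rintro e ⟨he1, he2⟩
    exact ⟨he1, ae_mono hkM he2⟩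
  refine ⟨u, (bd_iff _ _).2 hu, ⟨w', (bd_iff _ _).2 hw', ?_⟩, x, (bd_iff _ _).2 hx, y',
    (bd_iff _ _).2 hy', ?_⟩
  · refine hr.mono ?_
    rintro e ⟨⟨he1, he2⟩, he3⟩
    exact ⟨he1, ae_cut he2 he3⟩
  · refine hr'.mono ?_
    rintro e ⟨⟨he1, he2, he3⟩, he4⟩
    exact ⟨ae_cut he1 he4, fun h => he2 (hcl _ h), fun h => he3 (hcl _ h)⟩

/-- from the annulus around the origin to smaller annuli around any point -/
theorem low {d k M N : ℕ} (a : ℤ × ℤ) (S : Finset Edg) (hS : blk a k ⊆ S) (hdk : d ≤ k)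
    (hkM : k ≤ M) (hMN : M ≤ N) :
    Pr (fun _ => (1 / 2 : ℝ)) (boxE N) (fun F => A3v (0, 0) d M (↑F : Set Edg)) ≤
      PQ (1 / 2) S (fun F => A3v a d k (↑F : Set Edg)) := by
  have h1 : Pr (fun _ => (1 / 2 : ℝ)) (boxE N) (fun F => A3v (0, 0) d M (↑F : Set Edg)) ≤
      Pr (fun _ => (1 / 2 : ℝ)) (boxE N) (fun F => A3v (0, 0) d k (↑F : Set Edg)) :=
    Pr_mono okh fun F _ h => cut hdk hkM h
  have h2 : Pr (fun _ => (1 / 2 : ℝ)) (boxE N) (fun F => A3v (0, 0) d k (↑F : Set Edg)) =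
      Pr (fun _ => (1 / 2 : ℝ)) (boxE k) (fun F => A3v (0, 0) d k (↑F : Set Edg)) := by
    rw [box_blk, box_blk]
    exact Pr_local (blk_mono (by omega)) fun F _ => a3v_local (0, 0) d k F
  have h3 : Pr (fun _ => (1 / 2 : ℝ)) (boxE k) (fun F => A3v (0, 0) d k (↑F : Set Edg)) ≤
      Pr (fun _ => (1 / 2 : ℝ)) (boxE k)
        (fun F => A3v a d k (↑((trl a.1 a.2).mp F) : Set Edg)) := by
    refine Pr_mono okh fun F _ h => ?_
    rw [LSym.coe_mp]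
    exact a3v_trl a d k _ h
  have hb : blk a k = (trl a.1 a.2).mp (boxE k) := by
    unfold boxE
    rw [trl_RE]
    unfold blk
    congr 1 <;> ring
  have h4 : Pr (fun _ => (1 / 2 : ℝ)) S (fun F => A3v a d k (↑F : Set Edg)) =
      Pr (fun _ => (1 / 2 : ℝ)) (boxE k)
        (fun F => A3v a d k (↑((trl a.1 a.2).mp F) : Set Edg)) := by
    rw [Pr_local hS (A := fun F => A3v a d k (↑F : Set Edg)) (fun F _ => a3v_local a d k F), hb,
      LSym.pr]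
  calc _ ≤ _ := h1
    _ = _ := h2
    _ ≤ _ := h3
    _ = PQ (1 / 2) S (fun F => A3v a d k (↑F : Set Edg)) := h4.symm

theorem choose_rho (C1 c0 : ℝ) (hc0 : 0 < c0) (ρ0 : ℕ) :
    ∃ ρ : ℕ, ρ0 ≤ ρ ∧ C1 * (ρ : ℝ) ^ (-(11 / 12 : ℝ)) ≤ c0 / 2 := by
  have h1 : Filter.Tendsto (fun x : ℕ => C1 * (x : ℝ) ^ (-(11 / 12 : ℝ))) Filter.atTop
      (nhds (C1 * 0)) :=
    ((tendsto_rpow_neg_atTop (by norm_num : (0 : ℝ) < 11 / 12)).comp
      tendsto_natCast_atTop_atTop).const_mul C1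
  rw [mul_zero] at h1
  have h2 := h1.eventually (eventually_le_nhds (by linarith : (0 : ℝ) < c0 / 2))
  obtain ⟨ρ, hρ1, hρ2⟩ := (h2.and (Filter.eventually_ge_atTop ρ0)).exists
  exact ⟨ρ, hρ2, hρ1⟩

end TLOW

open TLOW Pool.Agent.W801.OS.TipAux in
/-- **lower bound for the three arm event of the plane** -/
theorem t_LOW : S_GAD → S_DG → S_SUM → S_RSV → Pool.Agent.W801.OS.S_LB → S_LOW := by
  rintro hG ⟨C, hC⟩ hSUM hRSV ⟨c0, hc0, hLB⟩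
  obtain ⟨s, K, ρ0, hK, hρ0, hR⟩ := hRSV C
  obtain ⟨C1, hC1, hS1⟩ := hSUM s
  obtain ⟨ρ, hρ, hρ1⟩ := choose_rho C1 c0 hc0 ρ0
  have key : ∀ R : ℕ, 20 ≤ R → K * K * K * ρ ≤ R → c0 / 2 * (R : ℝ) ^ (-(2 / 3 : ℝ)) ≤
      Pr (fun _ => (1 / 2 : ℝ)) (boxE (K * R))
        (fun F => A3v (0, 0) (K * ρ) (R / K) (↑F : Set Edg)) := by
    intro R hR20 hRK
    have h1 := hLB R (by omega)
    have h2 := hS1 ρ R (by omega) (by omega)
    have h3 := hR ρ R hρ hRK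
    have h4 : uR R ≤ Pr (fun _ => (1 / 2 : ℝ)) (boxE R) (fun G => SE3 R (↑G : Set Edg) ∧
        ∃ m : ℤ × ℤ → ℤ, GauD R (↑G : Set Edg) m ∧ ∃ z : ℤ × ℤ, ((ρ : ℤ) ≤ nz z ∧ 2 * nz z ≤ R) ∧
        Gate s R (↑G : Set Edg) m z) +
        Pr (fun _ => (1 / 2 : ℝ)) (boxE R)
          (fun G => ∃ m : ℤ × ℤ → ℤ, Gd C s ρ R (↑G : Set Edg) m) := by
      refine le_trans (Pr_mono okh ?_) (Pr_or_le okh _ _ _)
      intro G _ hSE
      obtain ⟨m, hm⟩ := hG R (↑G : Set Edg) (by omega) hSE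
      by_cases hz : ∃ z : ℤ × ℤ, ((ρ : ℤ) ≤ nz z ∧ 2 * nz z ≤ R) ∧ Gate s R (↑G : Set Edg) m z
      · left
        exact ⟨hSE, m, hm, hz⟩
      · right
        exact ⟨m, hSE, hm, hC R (↑G : Set Edg) m hR20 hSE hm,
          fun z h1 h2 h3 => hz ⟨z, ⟨h1, h2⟩, h3⟩⟩
    have h5 : (0 : ℝ) ≤ (R : ℝ) ^ (-(2 / 3 : ℝ)) := by positivity
    nlinarith [mul_le_mul_of_nonneg_right hρ1 h5]
  set L : ℕ := K * K * ρ + 20 with hL
  refine ⟨c0 / 2 * ((K * L : ℕ) : ℝ) ^ (-(2 / 3 : ℝ)), K * ρ, ?_, Nat.mul_pos hK (by omega), ?_⟩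
  · have : 0 < K * L := Nat.mul_pos hK (by omega)
    positivity
  intro a k hk S hS
  have hk1 : 1 ≤ k := le_trans (Nat.mul_pos hK (by omega)) hk
  have hM : k ≤ L * k := Nat.le_mul_of_pos_left k (by omega)
  have hLM : L ≤ L * k := Nat.le_mul_of_pos_right L hk1
  have hMR : L * k ≤ K * (L * k) := Nat.le_mul_of_pos_left _ hK
  have h1 := key (K * (L * k)) (by omega) (by
    calc K * K * K * ρ = K * (K * K * ρ) := by ring
      _ ≤ K * (L * k) := Nat.mul_le_mul_left K (by omega))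
  rw [Nat.mul_div_cancel_left _ hK] at h1
  have h2 := low (N := K * (K * (L * k))) a S hS hk hM
    (hMR.trans (Nat.le_mul_of_pos_left _ hK))
  refine le_trans (le_of_eq ?_) (h1.trans h2)
  have e1 : ((K * (L * k) : ℕ) : ℝ) = ((K * L : ℕ) : ℝ) * (k : ℝ) := by
    push_cast
    ring
  rw [e1, Real.mul_rpow (by positivity) (by positivity)]
  ring

end Pool.Agent.W801.RS
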