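import Pool.Agent.W801.RS.Stm
import Pool.Agent.W424.OD.Ann

/-!
# The lower bound for annuli
-/

set_option autoImplicit false

namespace Pool.Agent.W801.RS
open H974 H906.Cyl H12S Finset
open Pool.Agent.W424.OD (A3v AE BX mem_bdB_iff lastX firstX bdB_BX U3)

namespace LOWA

theorem blk_sub (c : ℤ × ℤ) {d k : ℕ} (h : d ≤ k) : blk c d ⊆ blk c k := by
  unfold blk
  have : (d : ℤ) ≤ k := by exact_mod_cast h
  exact RE_subset (by omega) (by omega) (by omega) (by omega)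

theorem mem_AE {c : ℤ × ℤ} {d k : ℕ} {e : Edg} : e ∈ AE c d k ↔ e ∈ blk c k ∧ e ∉ blk c d := by
  unfold AE
  rw [Finset.mem_coe, Finset.mem_sdiff]

theorem AE_out {c : ℤ × ℤ} {d0 d k : ℕ} (h : d0 ≤ d) : AE c d k ⊆ AE c d0 k := by
  intro e he
  rw [mem_AE] at he ⊢
  exact ⟨he.1, fun h1 => he.2 (blk_sub c h h1)⟩

theorem AE_in {c : ℤ × ℤ} {d0 d k : ℕ} (h : d ≤ k) : AE c d0 d ⊆ AE c d0 k := by
  intro e he
  rw [mem_AE] at he ⊢
  exact ⟨blk_sub c h he.1, he.2⟩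

theorem eq_of {c : ℤ × ℤ} {d k : ℕ} (hdk : d ≤ k) {w : Vtx} (hw : w ∈ bdB c k) (h : BX c d w) :
    d = k := by
  rw [mem_bdB_iff] at hw
  unfold BX inR at h
  omega

theorem tip (c : ℤ × ℤ) (k : ℕ) : (c.1 + (k : ℤ), c.2) ∈ bdB c k := by
  rw [mem_bdB_iff]
  have h : (0 : ℤ) ≤ k := Int.natCast_nonneg k
  refine ⟨?_, Or.inr (Or.inl rfl)⟩
  show (c.1 - (k : ℤ) ≤ c.1 + k ∧ c.1 + (k : ℤ) ≤ c.1 + k) ∧ c.2 - (k : ℤ) ≤ c.2 ∧ c.2 ≤ c.2 + k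
  omega

theorem A3v_self (c : ℤ × ℤ) (k : ℕ) (F : Set Edg) : A3v c k k F :=
  ⟨_, tip c k, ⟨_, tip c k, Reach.refl _ _⟩, _, tip c k, _, tip c k, Reach.refl _ _⟩

theorem A3v_out {c : ℤ × ℤ} {d0 d k : ℕ} (h1 : d0 ≤ d) (h2 : d ≤ k) {F : Set Edg}
    (h : A3v c d0 k F) : A3v c d k F := by
  rcases Nat.eq_or_lt_of_le h2 with rfl | hlt
  · exact A3v_self c d F
  obtain ⟨u, hu, ⟨w, hw, huw⟩, x, hx, y, hy, hxy⟩ := h
  have hnw : ¬ BX c d w := fun hh => absurd (eq_of h2 hw hh) (by omega)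
  have hny : ¬ BX c d y := fun hh => absurd (eq_of h2 hy hh) (by omega)
  have huw' : Reach (F ∩ AE c d0 k) u w := huw
  rcases lastX (bdB_BX h1 hu) huw' with hh | ⟨u', hu', h3, h4⟩
  · exact absurd hh hnw
  rcases lastX (bdB_BX h1 hx) hxy with hh | ⟨x', hx', h5, h6⟩
  · exact absurd hh hny
  have hsub : ∀ t, t ∈ Pool.Agent.W424.OD.Cl c d k F u' →
      t ∈ Pool.Agent.W424.OD.Cl c d0 k F u := by
    intro t ht
    exact h3.trans (Reach.mono (Set.inter_subset_inter_right F (AE_out h1)) ht)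
  refine ⟨u', hu', ⟨w, hw, ?_⟩, x', hx', y, hy, ?_⟩
  · refine Reach.mono ?_ h4
    rintro e ⟨⟨h7, h8⟩, h9⟩
    rw [mem_AE] at h8
    exact ⟨h7, mem_AE.2 ⟨h8.1, fun hh => h9 (Finset.mem_coe.2 hh)⟩⟩
  · refine Reach.mono ?_ h6
    rintro e ⟨⟨h7, h8, h9⟩, h10⟩
    rw [mem_AE] at h7
    exact ⟨mem_AE.2 ⟨h7.1, fun hh => h10 (Finset.mem_coe.2 hh)⟩, fun hh => h8 (hsub _ hh),
      fun hh => h9 (hsub _ hh)⟩

theorem A3v_in {c : ℤ × ℤ} {d0 d k : ℕ} (h1 : d0 ≤ d) (h2 : d ≤ k) {F : Set Edg}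
    (h : A3v c d0 k F) : A3v c d0 d F := by
  rcases Nat.eq_or_lt_of_le h2 with rfl | hlt
  · exact h
  obtain ⟨u, hu, ⟨w, hw, huw⟩, x, hx, y, hy, hxy⟩ := h
  have hnw : ¬ BX c d w := fun hh => absurd (eq_of h2 hw hh) (by omega)
  have hny : ¬ BX c d y := fun hh => absurd (eq_of h2 hy hh) (by omega)
  have huw' : Reach (F ∩ AE c d0 k) u w := huw
  rcases firstX (bdB_BX h1 hu) huw' with hh | ⟨w', hw', h4⟩
  · exact absurd hh.1 hnw
  rcases firstX (bdB_BX h1 hx) hxy with hh | ⟨y', hy', h6⟩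
  · exact absurd hh.1 hny
  have hsub : ∀ t, t ∈ Pool.Agent.W424.OD.Cl c d0 d F u →
      t ∈ Pool.Agent.W424.OD.Cl c d0 k F u := by
    intro t ht
    exact Reach.mono (Set.inter_subset_inter_right F (AE_in h2)) ht
  refine ⟨u, hu, ⟨w', hw', ?_⟩, x, hx, y', hy', ?_⟩
  · refine Reach.mono ?_ h4
    rintro e ⟨⟨h7, h8⟩, h9⟩
    rw [mem_AE] at h8
    exact ⟨h7, mem_AE.2 ⟨Finset.mem_coe.1 h9, h8.2⟩⟩
  · refine Reach.mono ?_ h6
    rintro e ⟨⟨h7, h8, h9⟩, h10⟩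
    rw [mem_AE] at h7
    exact ⟨mem_AE.2 ⟨Finset.mem_coe.1 h10, h7.2⟩, fun hh => h8 (hsub _ hh),
      fun hh => h9 (hsub _ hh)⟩

theorem A3v_local (c : ℤ × ℤ) (d k : ℕ) (F : Finset Edg) :
    A3v c d k (↑F : Set Edg) ↔ A3v c d k (↑(F ∩ (blk c k \ blk c d)) : Set Edg) := by
  have h : ∀ u, Pool.Agent.W424.OD.Cl c d k (↑F : Set Edg) u =
      Pool.Agent.W424.OD.Cl c d k (↑(F ∩ (blk c k \ blk c d)) : Set Edg) u := by
    intro u
    unfold Pool.Agent.W424.OD.Cl AE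
    rw [Finset.coe_inter, Set.inter_assoc, Set.inter_self]
  unfold A3v
  simp only [h]

theorem prod_le {a : ℤ × ℤ} {d0 d k : ℕ} (h1 : d0 ≤ d) (h2 : d ≤ k) {S : Finset Edg}
    (hS : blk a k ⊆ S) :
    PQ (1 / 2) S (fun F => A3v a d0 k (↑F : Set Edg)) ≤
      PQ (1 / 2) S (fun F => A3v a d0 d (↑F : Set Edg)) *
        PQ (1 / 2) S (fun F => A3v a d k (↑F : Set Edg)) := by
  have hok : Ok (fun _ : Edg => (1 / 2 : ℝ)) := fun _ => ⟨by norm_num, by norm_num⟩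
  have e1 : PQ (1 / 2) S (fun F => A3v a d0 d (↑F : Set Edg)) *
        PQ (1 / 2) S (fun F => A3v a d k (↑F : Set Edg)) =
      Ex (fun _ => (1 / 2 : ℝ)) S (fun F => ind (A3v a d0 d (↑F : Set Edg)) *
        ind (A3v a d k (↑F : Set Edg))) := by
    refine (Ex_mul_indep (S := blk a d \ blk a d0) (T := blk a k \ blk a d)
      (Finset.sdiff_subset.trans ((blk_sub a h2).trans hS)) (Finset.sdiff_subset.trans hS)
      ?_ ?_ ?_).symm
    · rw [Finset.disjoint_left]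
      intro e he he'
      rw [Finset.mem_sdiff] at he he'
      exact he'.2 he.1
    · intro F _
      exact ind_congr (A3v_local a d0 d F)
    · intro F _
      exact ind_congr (A3v_local a d k F)
  rw [e1]
  refine Ex_mono hok fun F _ => ?_
  rw [← ind_and]
  exact ind_mono fun h => ⟨A3v_in h1 h2 h, A3v_out h1 h2 h⟩

end LOWA

theorem t_LOWA : S_LOW → Pool.Agent.W424.OD.U3 → S_LOWA := by
  rintro ⟨c, d0, hc, hd0, hlow⟩ ⟨C, hC, hup⟩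
  have hd0' : (0 : ℝ) < d0 := by exact_mod_cast hd0
  refine ⟨c / (C * (d0 : ℝ) ^ (2 / 3 : ℝ)), d0, by positivity, hd0, ?_⟩
  intro a d k h1 h2 S hS
  have hd : (0 : ℝ) < d := by exact_mod_cast (lt_of_lt_of_le hd0 h1)
  have hk : (0 : ℝ) < k := by exact_mod_cast (lt_of_lt_of_le hd0 (h1.trans h2))
  have a1 := hlow a k (h1.trans h2) S hS
  have a2 := hup a d0 d hd0 h1 S ((LOWA.blk_sub a h2).trans hS)
  have a3 := LOWA.prod_le (a := a) h1 h2 hS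
  have hok : Ok (fun _ : Edg => (1 / 2 : ℝ)) := fun _ => ⟨by norm_num, by norm_num⟩
  have a4 : 0 ≤ PQ (1 / 2) S (fun F => A3v a d k (↑F : Set Edg)) :=
    Ex_nonneg hok fun F _ => ind_nonneg _
  generalize PQ (1 / 2) S (fun F => A3v a d k (↑F : Set Edg)) = q at *
  have a5 : c * (k : ℝ) ^ (-(2 / 3 : ℝ)) ≤ C * ((d0 : ℝ) / d) ^ (2 / 3 : ℝ) * q :=
    a1.trans (a3.trans (mul_le_mul_of_nonneg_right a2 a4))
  rw [Real.rpow_neg hk.le, Real.div_rpow hd0'.le hd.le] at a5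
  rw [Real.div_rpow hd.le hk.le]
  have p1 : 0 < (k : ℝ) ^ (2 / 3 : ℝ) := Real.rpow_pos_of_pos hk _
  have p2 : 0 < (d : ℝ) ^ (2 / 3 : ℝ) := Real.rpow_pos_of_pos hd _
  have p3 : 0 < (d0 : ℝ) ^ (2 / 3 : ℝ) := Real.rpow_pos_of_pos hd0' _
  generalize (k : ℝ) ^ (2 / 3 : ℝ) = K at *
  generalize (d : ℝ) ^ (2 / 3 : ℝ) = D at *
  generalize (d0 : ℝ) ^ (2 / 3 : ℝ) = D0 at *
  have e : c / (C * D0) * (D / K) = (D / (C * D0)) * (c * K⁻¹) := by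
    field_simp
  rw [e]
  refine (mul_le_mul_of_nonneg_left a5 (by positivity)).trans (le_of_eq ?_)
  field_simp

end Pool.Agent.W801.RS
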