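import Pool.Agent.W801.RS.Stm
import Pool.Agent.W801.OS.T_TRA
import Pool.Agent.W801.OS.T_CPL
import Pool.Agent.W801.OS.T_DIA
import Pool.Agent.W801.OS.T_FIL

/-! # The lower bound at the origin and for all annuli -/

set_option autoImplicit false

namespace Pool.Agent.W801.RS
open H974 H906.Cyl H12S Finset
open Pool.Agent.H160R2.ML (nm)
open Pool.Agent.W801.OU (RZ LZ Dg nrm zp Cor scz bxz SE3 uR S_UR3)
open Pool.Agent.W801.OS (cr T3 A3u Dd An Rn rgF nd)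
open Pool.Agent.W424.OD (A3v AE Cl)

/-- lower bound at the origin -/
def S_LOWT : Prop := ∃ c : ℝ, 0 < c ∧ ∀ k : ℕ, 1 ≤ k →
  c * (k : ℝ) ^ (-(2 / 3 : ℝ)) ≤
    Pr (fun _ => (1 / 2 : ℝ)) (boxE k) (fun F => T3 k (↑F : Set Edg))

/-- lower bound for all annuli -/
def S_LOWB : Prop := ∃ c : ℝ, 0 < c ∧ ∀ (a : ℤ × ℤ) (d k : ℕ), 1 ≤ d → d ≤ k →
  ∀ S : Finset Edg, blk a k ⊆ S →
    c * ((d : ℝ) / k) ^ (2 / 3 : ℝ) ≤ PQ (1 / 2) S (fun F => A3v a d k (↑F : Set Edg))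

namespace TLOWB
open Pool.Agent.W801.OS.TTRA Pool.Agent.W801.OS.TipAux

theorem nm_step {e : Edg} {u v : Vtx} (h : (src e = u ∧ tgt e = v) ∨ (src e = v ∧ tgt e = u)) :
    nm v ≤ nm u + 1 ∧ nm u ≤ nm v + 1 := by
  obtain ⟨x, y, b⟩ := e
  rcases h with ⟨rfl, rfl⟩ | ⟨rfl, rfl⟩ <;> cases b <;>
    simp only [nm, src_mk, tgt_true, tgt_false] <;>
    rcases abs_cases x with h1 | h1 <;> rcases abs_cases y with h2 | h2 <;>
    rcases abs_cases (x + 1) with h3 | h3 <;> rcases abs_cases (y + 1) with h4 | h4 <;>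
    constructor <;> omega

theorem bx_ends {e : Edg} {u v : Vtx} {r : ℤ}
    (h : (src e = u ∧ tgt e = v) ∨ (src e = v ∧ tgt e = u)) : e ∈ bxz r ↔ nm u ≤ r ∧ nm v ≤ r := by
  rcases h with ⟨rfl, rfl⟩ | ⟨rfl, rfl⟩
  · exact Iff.rfl
  · exact ⟨fun h => ⟨h.2, h.1⟩, fun h => ⟨h.2, h.1⟩⟩

/-- first exit -/
theorem fexit {E : Set Edg} {u v : Vtx} {k : ℤ} (h : Reach E u v) (hu : nm u ≤ k) (hv : k ≤ nm v) :
    ∃ w, nm w = k ∧ Reach (E ∩ bxz k) u w := by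
  induction h using Relation.ReflTransGen.head_induction_on with
  | refl => exact ⟨v, le_antisymm hu hv, Relation.ReflTransGen.refl⟩
  | head hac hcv ih =>
    rename_i a c
    by_cases h1 : nm a = k
    · exact ⟨a, h1, Relation.ReflTransGen.refl⟩
    · obtain ⟨e, he, hst⟩ := hac
      have h2 := nm_step hst
      have h3 : nm c ≤ k := by omega
      obtain ⟨w, hw, h4⟩ := ih h3
      exact ⟨w, hw, Relation.ReflTransGen.head ⟨e, ⟨he, (bx_ends hst).2 ⟨hu, h3⟩⟩, hst⟩ h4⟩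

/-- last exit -/
theorem lexit {E : Set Edg} {u v : Vtx} {d : ℤ} (h : Reach E u v) (hu : nm u ≤ d) (hv : d ≤ nm v) :
    ∃ w, nm w = d ∧ Reach E u w ∧ Reach (E \ bxz d) w v := by
  induction h with
  | refl => exact ⟨u, le_antisymm hu hv, Relation.ReflTransGen.refl, Relation.ReflTransGen.refl⟩
  | @tail b c h1 h2 ih =>
    by_cases h3 : nm c = d
    · exact ⟨c, h3, Relation.ReflTransGen.tail h1 h2, Relation.ReflTransGen.refl⟩
    · obtain ⟨e, he, hst⟩ := h2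
      have h4 := nm_step hst
      obtain ⟨w, hw, h5, h6⟩ := ih (by omega)
      refine ⟨w, hw, h5, h6.tail ⟨e, ⟨he, fun h7 => ?_⟩, hst⟩⟩
      have := (bx_ends hst).1 h7
      omega

theorem mono' {E E' : Set Edg} (h : E ⊆ E') {u v : Vtx} (h1 : Reach E u v) : Reach E' u v :=
  h1.mono h

theorem bxz_mono {a b : ℤ} (h : a ≤ b) : bxz a ⊆ bxz b := fun _ he =>
  ⟨he.1.trans h, he.2.trans h⟩

theorem t3_mono {k R : ℕ} (hk : 1 ≤ k) (hkR : k ≤ R) {F : Set Edg} (h : T3 R F) : T3 k F := by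
  obtain ⟨h1, ⟨v, hv, h2⟩, p, q, hp, hq, h3, h4⟩ := h
  have hk' : (k : ℤ) ≤ R := by exact_mod_cast hkR
  have h1k : (1 : ℤ) ≤ k := by exact_mod_cast hk
  have hsub : F ∩ bxz k ⊆ F ∩ bxz R := fun e he => ⟨he.1, bxz_mono hk' he.2⟩
  refine ⟨h1, ?_, p, ?_⟩
  · obtain ⟨w, hw, h5⟩ := fexit (k := k) h2 (by simp [nm]) (by rw [hv]; exact hk')
    exact ⟨w, hw, mono' (E := (F ∩ bxz R) ∩ bxz k) (E' := F ∩ bxz k) (fun e he => ⟨he.1.1, he.2⟩) h5⟩
  · obtain ⟨w, hw, h5⟩ := fexit (k := k) h4 (by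
      rcases hp with rfl | rfl <;> simp [nm] <;> omega) (by rw [hq]; exact hk')
    refine ⟨w, hp, hw, fun h6 => h3 (mono' hsub h6), h5.mono ?_⟩
    rintro e ⟨⟨-, he2, he3⟩, he4⟩
    exact ⟨he4, fun h => he2 (mono' hsub h), fun h => he3 (mono' hsub h)⟩

theorem bdB_nm {v : Vtx} {k : ℕ} : v ∈ bdB (0, 0) k ↔ nm v = k := by
  have hk : (0 : ℤ) ≤ k := Int.natCast_nonneg k
  unfold bdB nm
  simp only [Set.mem_setOf_eq, sub_zero]
  constructor
  · rintro ⟨h1, h2, h3 | h3⟩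
    · rw [max_eq_left (by omega)]; exact h3
    · rw [max_eq_right (by omega)]; exact h3
  · intro h
    rcases le_total |v.1| |v.2| with h1 | h1
    · rw [max_eq_right h1] at h
      exact ⟨by omega, by omega, Or.inr h⟩
    · rw [max_eq_left h1] at h
      exact ⟨by omega, by omega, Or.inl h⟩

theorem ae_mem {d k : ℕ} {e : Edg} : e ∈ AE (0, 0) d k ↔ e ∈ bxz k ∧ e ∉ bxz d := by
  have hb : ∀ r : ℕ, blk (0, 0) r = boxE r := by
    intro r
    unfold blk boxE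
    congr 1 <;> ring
  unfold AE
  rw [Finset.mem_coe, Finset.mem_sdiff, hb, hb, Pool.Agent.W801.OS.TCMP.bxz_iff,
    Pool.Agent.W801.OS.TCMP.bxz_iff]

theorem t3_a3v {d k : ℕ} (hd : 1 ≤ d) (hdk : d ≤ k) {F : Set Edg} (h : T3 k F) :
    A3v (0, 0) d k F := by
  obtain ⟨h1, ⟨v, hv, h2⟩, p, q, hp, hq, h3, h4⟩ := h
  have hk' : (d : ℤ) ≤ k := by exact_mod_cast hdk
  have h1d : (1 : ℤ) ≤ d := by exact_mod_cast hd
  obtain ⟨u, hu, h5, h6⟩ := lexit (d := d) h2 (by simp [nm]) (by rw [hv]; exact hk')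
  obtain ⟨x, hx, h7, h8⟩ := lexit (d := d) h4 (by
      rcases hp with rfl | rfl <;> simp [nm] <;> omega) (by rw [hq]; exact hk')
  have hcl : ∀ w, w ∈ Cl (0, 0) d k F u → Reach (F ∩ bxz k) (0, 0) w := by
    intro w hw
    exact h5.trans (mono' (E := F ∩ AE (0, 0) d k) (E' := F ∩ bxz k) (fun e he => ⟨he.1, (ae_mem.1 he.2).1⟩) hw)
  refine ⟨u, bdB_nm.2 hu, ⟨v, bdB_nm.2 hv, ?_⟩, x, bdB_nm.2 hx, q, bdB_nm.2 hq, ?_⟩
  · exact mono' (E := (F ∩ bxz k) \ bxz d) (E' := F ∩ AE (0, 0) d k) (fun e he => ⟨he.1.1, ae_mem.2 ⟨he.1.2, he.2⟩⟩) h6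
  · refine h8.mono ?_
    rintro e ⟨⟨he1, he2, he3⟩, he4⟩
    exact ⟨ae_mem.2 ⟨he1, he4⟩, fun h => he2 (hcl _ h), fun h => he3 (hcl _ h)⟩

theorem a3v_trl' (c : Vtx) (d k : ℕ) (F : Set Edg) (h : A3v (0, 0) d k F) :
    A3v c d k ((trl c.1 c.2).φ '' F) := by
  obtain ⟨u, hu, ⟨w, hw, hwu⟩, x, hx, y, hy, hxy⟩ := h
  have hb : ∀ (v : Vtx) (k : ℕ), v ∈ bdB (0, 0) k → (trl c.1 c.2).ψ v ∈ bdB c k := by
    rintro ⟨a, b⟩ k h
    simpa [bdB] using h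
  refine ⟨_, hb _ _ hu, ⟨_, hb _ _ hw, (cl_trl c d k F u w).2 hwu⟩, _, hb _ _ hx, _, hb _ _ hy, ?_⟩
  have h2 := (trl c.1 c.2).reach hxy
  refine h2.mono ?_
  rintro _ ⟨e, ⟨he1, he2, he3⟩, rfl⟩
  have h3 : (trl c.1 c.2).φ e ∈ AE c d k := by
    unfold AE at he1 ⊢
    rw [Finset.mem_coe, Finset.mem_sdiff, blk_trl, blk_trl]
    rw [Finset.mem_coe, Finset.mem_sdiff] at he1
    exact he1
  refine ⟨h3, ?_⟩
  rcases (trl c.1 c.2).compat e with ⟨k1, k2⟩ | ⟨k1, k2⟩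
  · rw [k1, k2, cl_trl, cl_trl]
    exact ⟨he2, he3⟩
  · rw [k1, k2, cl_trl, cl_trl]
    exact ⟨he3, he2⟩

/-- from the origin -/
theorem red0' (c : Vtx) (d k : ℕ) (S : Finset Edg) (hS : blk c k ⊆ S) :
    Pr (fun _ => (1 / 2 : ℝ)) (boxE k) (fun F => A3v (0, 0) d k (↑F : Set Edg)) ≤
      Pr (fun _ => (1 / 2 : ℝ)) S (fun F => A3v c d k (↑F : Set Edg)) := by
  rw [Pr_local hS (A := fun F => A3v c d k (↑F : Set Edg)) (fun F _ => a3v_local c d k F)]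
  have hb : blk c k = (trl c.1 c.2).mp (boxE k) := by
    unfold boxE
    rw [trl_RE]
    unfold blk
    congr 1 <;> ring
  rw [hb, LSym.pr]
  refine Pr_mono okh fun F _ h => ?_
  rw [LSym.coe_mp]
  exact a3v_trl' c d k _ h

/-- probability of one configuration -/
theorem pr_eq (T σ : Finset Edg) (hσ : σ ⊆ T) :
    Pr (fun _ => (1 / 2 : ℝ)) T (fun F => F = σ) = (1 / 2 : ℝ) ^ T.card := by
  unfold Pr Ex
  rw [Finset.sum_eq_single σ]
  · simp only [Finset.prod_const, ind_of, mul_one]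
    rw [Finset.card_sdiff_of_subset hσ]
    have h := Finset.card_le_card hσ
    rw [show (1 - 1 / 2 : ℝ) = 1 / 2 by norm_num, ← pow_add]
    congr 1
    omega
  · intro F _ hF
    simp only [ind_not_of hF, mul_zero]
  · intro h
    exact absurd (Finset.mem_powerset.2 hσ) h

/-- finite energy -/
theorem fe (U D σ : Finset Edg) (hD : D ⊆ U) (hσ : σ ⊆ D) (A : Finset Edg → Prop) :
    Pr (fun _ => (1 / 2 : ℝ)) U (fun F => A (σ ∪ (F \ D))) ≤
      2 ^ D.card * Pr (fun _ => (1 / 2 : ℝ)) U A := by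
  have h1 : Pr (fun _ => (1 / 2 : ℝ)) U (fun F => A (σ ∪ (F \ D)) ∧ F ∩ D = σ) =
      Pr (fun _ => (1 / 2 : ℝ)) U (fun F => A (σ ∪ (F \ D))) *
        Pr (fun _ => (1 / 2 : ℝ)) U (fun F => F ∩ D = σ) := by
    apply Pr_indep (S := U \ D) (T := D) Finset.sdiff_subset hD Finset.sdiff_disjoint
    · intro F hF
      have : (F ∩ (U \ D)) \ D = F \ D := by
        ext e
        simp only [Finset.mem_sdiff, Finset.mem_inter]
        exact ⟨fun h => ⟨h.1.1, h.2⟩, fun h => ⟨⟨h.1, hF h.1, h.2⟩, h.2⟩⟩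
      rw [this]
    · intro F _
      rw [Finset.inter_assoc, Finset.inter_self]
  have h2 : Pr (fun _ => (1 / 2 : ℝ)) U (fun F => F ∩ D = σ) = (1 / 2 : ℝ) ^ D.card := by
    rw [← pr_eq D σ hσ, Pr_local hD (A := fun F => F ∩ D = σ)
      (fun F _ => by rw [Finset.inter_assoc, Finset.inter_self])]
    apply Pr_congr
    intro F hF
    rw [Finset.inter_eq_left.mpr hF]
  have h3 : Pr (fun _ => (1 / 2 : ℝ)) U (fun F => A (σ ∪ (F \ D)) ∧ F ∩ D = σ) ≤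
      Pr (fun _ => (1 / 2 : ℝ)) U A := by
    refine Pr_mono okh fun F _ h => ?_
    have : σ ∪ (F \ D) = F := by
      rw [← h.2]
      ext e
      simp only [Finset.mem_union, Finset.mem_inter, Finset.mem_sdiff]
      tauto
    rw [← this]
    exact h.1
  rw [h1, h2] at h3
  have h5 : (2 : ℝ) ^ D.card * (1 / 2) ^ D.card = 1 := by
    rw [← mul_pow]; norm_num
  have h6 := mul_le_mul_of_nonneg_left h3 (by positivity : (0 : ℝ) ≤ 2 ^ D.card)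
  calc Pr (fun _ => (1 / 2 : ℝ)) U (fun F => A (σ ∪ (F \ D)))
      = 2 ^ D.card * (Pr (fun _ => (1 / 2 : ℝ)) U (fun F => A (σ ∪ (F \ D))) *
          (1 / 2) ^ D.card) := by
        linear_combination (-Pr (fun _ => (1 / 2 : ℝ)) U (fun F => A (σ ∪ (F \ D)))) * h5
    _ ≤ _ := h6

open Classical in
/-- the edges of the diamond -/
noncomputable def DF (ρ : ℕ) : Finset Edg := (boxE ρ).filter (fun e => e ∈ Dd ρ)

theorem mem_DF {ρ : ℕ} {e : Edg} : e ∈ DF ρ ↔ e ∈ Dd ρ := by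
  classical
  unfold DF
  rw [Finset.mem_filter]
  exact ⟨fun h => h.2, fun h => ⟨Pool.Agent.W801.OS.TCPL.Dd_sub le_rfl h, h⟩⟩

/-- one vertex of the inner boundary -/
theorem one' (hFI : Pool.Agent.W801.OS.S_FIL) (ρ R : ℕ) (hρ : 6 ≤ ρ) (hρR : ρ ≤ R) (u : Vtx)
    (hu : nd u = ρ) :
    Pr (fun _ => (1 / 2 : ℝ)) (boxE R) (fun F => A3u ρ R u (↑F : Set Edg)) ≤
      2 ^ (DF ρ).card * Pr (fun _ => (1 / 2 : ℝ)) (boxE R) (fun F => T3 R (↑F : Set Edg)) := by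
  classical
  obtain ⟨g, hg, h1, h2⟩ := quad u
  obtain ⟨σ, hσ, hT⟩ := hFI ρ (g.ψ u) (by exact_mod_cast hρ) (by rw [hg.nd]; exact hu) h1 h2
  have e1 : Pr (fun _ => (1 / 2 : ℝ)) (boxE R) (fun F => A3u ρ R (g.ψ u) (↑F : Set Edg)) =
      Pr (fun _ => (1 / 2 : ℝ)) (boxE R) (fun F => A3u ρ R (g.ψ u) (↑(g.mp F) : Set Edg)) := by
    have := LSym.pr g (1 / 2) (boxE R) (fun F => A3u ρ R (g.ψ u) (↑F : Set Edg))
    rw [mp_box hg] at this
    exact this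
  have e2 : Pr (fun _ => (1 / 2 : ℝ)) (boxE R) (fun F => A3u ρ R u (↑F : Set Edg)) ≤
      Pr (fun _ => (1 / 2 : ℝ)) (boxE R) (fun F => A3u ρ R (g.ψ u) (↑(g.mp F) : Set Edg)) := by
    refine Pr_mono okh fun F _ h => ?_
    rw [LSym.coe_mp]
    exact a3u_sym hg h
  have e3 : Pr (fun _ => (1 / 2 : ℝ)) (boxE R) (fun F => A3u ρ R (g.ψ u) (↑F : Set Edg)) ≤
      Pr (fun _ => (1 / 2 : ℝ)) (boxE R) (fun F =>
        (fun X : Finset Edg => T3 R (↑X : Set Edg)) (σ ∪ (F \ DF ρ))) := by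
    refine Pr_mono okh fun F _ h => ?_
    have h3 := hT R _ (by exact_mod_cast hρR) h
    have h4 : (↑(σ ∪ (F \ DF ρ)) : Set Edg) = (↑σ : Set Edg) ∪ ((↑F : Set Edg) \ Dd ρ) := by
      ext e
      simp only [Finset.coe_union, Finset.coe_sdiff, Set.mem_union, Set.mem_diff, Finset.mem_coe,
        mem_DF]
    simp only
    rw [h4]
    exact h3
  refine e2.trans (e1 ▸ e3.trans ?_)
  refine fe (boxE R) (DF ρ) σ ?_ (fun e he => mem_DF.2 (hσ e he))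
    (fun X : Finset Edg => T3 R (↑X : Set Edg))
  intro e he
  exact Pool.Agent.W801.OS.TCPL.Dd_sub hρR (mem_DF.1 he)

end TLOWB

open TLOWB Pool.Agent.W801.OS.TTRA Pool.Agent.W801.OS.TipAux in
/-- lower bound at the origin -/
theorem t_LOWT : S_LOW → S_LOWT := by
  classical
  rintro ⟨c, d0, hc, hd0, hL⟩
  set N : ℝ := 2 ^ (DF (6 * d0)).card with hN
  have hN0 : 0 < N := by positivity
  set M : ℝ := ((rgF (6 * d0)).card : ℝ) + 1 with hM
  have hM0 : 0 < M := by positivity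
  have key : ∀ k : ℕ, 24 * d0 ≤ k → c / (M * N) * (k : ℝ) ^ (-(2 / 3 : ℝ)) ≤
      Pr (fun _ => (1 / 2 : ℝ)) (boxE k) (fun F => T3 k (↑F : Set Edg)) := by
    intro k hk
    set P := Pr (fun _ => (1 / 2 : ℝ)) (boxE k) (fun F => T3 k (↑F : Set Edg)) with hP
    have hP0 : 0 ≤ P := Pr_nonneg okh _ _
    have h0 := hL (0, 0) k (by omega) (blk (0, 0) k) (Finset.Subset.refl _)
    have h1 := h0.trans (red0 (0, 0) d0 k (blk (0, 0) k) (Finset.Subset.refl _))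
    have h2 : Pr (fun _ => (1 / 2 : ℝ)) (boxE k) (fun F => A3v (0, 0) d0 k (↑F : Set Edg)) ≤
        ∑ u ∈ rgF (6 * d0), Pr (fun _ => (1 / 2 : ℝ)) (boxE k)
          (fun F => A3u (6 * d0 : ℕ) k u (↑F : Set Edg)) := by
      refine le_trans (Pr_mono okh (B := fun F => ∃ u ∈ rgF (6 * d0),
        A3u (6 * d0 : ℕ) k u (↑F : Set Edg)) ?_) (Pr_exists_le okh _ _ _)
      intro F _ h
      obtain ⟨u, h2, -⟩ := Pool.Agent.W801.OS.t_DIA d0 k _ hd0 hk h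
      refine ⟨u, ?_, h2⟩
      unfold rgF
      have h4 : nd u = ((6 * d0 : ℕ) : ℤ) := h2.1
      have h5 : |u.1| + |u.2| = ((6 * d0 : ℕ) : ℤ) := h4
      have h6 := abs_nonneg u.1
      have h7 := abs_nonneg u.2
      rw [Finset.mem_filter, Finset.mem_product, Finset.mem_Icc, Finset.mem_Icc, ← abs_le, ← abs_le]
      exact ⟨⟨by omega, by omega⟩, h4⟩
    have h3 : ∑ u ∈ rgF (6 * d0), Pr (fun _ => (1 / 2 : ℝ)) (boxE k)
          (fun F => A3u (6 * d0 : ℕ) k u (↑F : Set Edg)) ≤ ∑ _u ∈ rgF (6 * d0), N * P := by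
      refine Finset.sum_le_sum fun u hu => ?_
      unfold rgF at hu
      rw [Finset.mem_filter] at hu
      exact one' Pool.Agent.W801.OS.t_FIL (6 * d0) k (by omega) (by omega) u hu.2
    rw [Finset.sum_const, nsmul_eq_mul] at h3
    have h4 : c * (k : ℝ) ^ (-(2 / 3 : ℝ)) ≤ M * (N * P) := by
      refine h1.trans (h2.trans (h3.trans ?_))
      exact mul_le_mul_of_nonneg_right (by rw [hM]; linarith) (by positivity)
    rw [div_mul_eq_mul_div, div_le_iff₀ (by positivity)]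
    linarith
  set c1 : ℝ := c / (M * N) * ((24 * d0 : ℕ) : ℝ) ^ (-(2 / 3 : ℝ)) with hc1
  have hk0 : (0 : ℝ) < ((24 * d0 : ℕ) : ℝ) := by exact_mod_cast (by omega : 0 < 24 * d0)
  have hc10 : 0 < c1 := by positivity
  refine ⟨min (c / (M * N)) c1, lt_min (by positivity) hc10, ?_⟩
  intro k hk
  have hkpos : (0 : ℝ) < k := by exact_mod_cast hk
  have hk1 : (1 : ℝ) ≤ k := by exact_mod_cast hk
  by_cases h : 24 * d0 ≤ k
  · exact (mul_le_mul_of_nonneg_right (min_le_left _ _) (by positivity)).trans (key k h)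
  · have h1 := key (24 * d0) le_rfl
    have h2 : Pr (fun _ => (1 / 2 : ℝ)) (boxE (24 * d0))
        (fun F => T3 (24 * d0 : ℕ) (↑F : Set Edg)) ≤
        Pr (fun _ => (1 / 2 : ℝ)) (boxE k) (fun F => T3 k (↑F : Set Edg)) := by
      have hsub : boxE k ⊆ boxE (24 * d0) := by
        intro e he
        rw [← Pool.Agent.W801.OS.TCMP.bxz_iff] at he ⊢
        exact bxz_mono (by push_cast; omega) he
      rw [← Pr_local hsub (A := fun F => T3 k (↑F : Set Edg)) (fun F _ => by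
        rw [T3_local (by exact_mod_cast hk), bxz_coe, Finset.coe_inter])]
      exact Pr_mono okh fun F _ h => t3_mono hk (by omega) h
    have h3 : (k : ℝ) ^ (-(2 / 3 : ℝ)) ≤ 1 := Real.rpow_le_one_of_one_le_of_nonpos hk1 (by norm_num)
    calc min (c / (M * N)) c1 * (k : ℝ) ^ (-(2 / 3 : ℝ)) ≤ c1 * 1 :=
          mul_le_mul (min_le_right _ _) h3 (by positivity) hc10.le
      _ = c1 := mul_one _
      _ ≤ _ := h1.trans h2

open TLOWB Pool.Agent.W801.OS.TTRA Pool.Agent.W801.OS.TipAux in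
/-- **lower bound for all annuli** -/
theorem t_LOWB : S_LOW → S_LOWA → S_LOWB := by
  intro hL hLA
  obtain ⟨c1, hc1, h1⟩ := t_LOWT hL
  obtain ⟨c2, d0, hc2, hd0, h2⟩ := hLA
  have hd0' : (0 : ℝ) < d0 := by exact_mod_cast hd0
  refine ⟨min c2 (c1 * (d0 : ℝ) ^ (-(2 / 3 : ℝ))), lt_min hc2 (by positivity), ?_⟩
  intro a d k hd hdk S hS
  have hdp : (0 : ℝ) < d := by exact_mod_cast hd
  have hkp : (0 : ℝ) < k := by exact_mod_cast (hd.trans hdk)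
  by_cases h : d0 ≤ d
  · exact (mul_le_mul_of_nonneg_right (min_le_left _ _) (by positivity)).trans
      (h2 a d k h hdk S hS)
  · have h3 := h1 k (hd.trans hdk)
    have h4 : Pr (fun _ => (1 / 2 : ℝ)) (boxE k) (fun F => T3 k (↑F : Set Edg)) ≤
        Pr (fun _ => (1 / 2 : ℝ)) (boxE k) (fun F => A3v (0, 0) d k (↑F : Set Edg)) :=
      Pr_mono okh fun F _ h => t3_a3v hd hdk h
    have h5 := h3.trans (h4.trans (red0' a d k S hS))
    refine le_trans ?_ h5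
    have h6 : ((d : ℝ) / k) ^ (2 / 3 : ℝ) = (d : ℝ) ^ (2 / 3 : ℝ) * (k : ℝ) ^ (-(2 / 3 : ℝ)) := by
      rw [Real.div_rpow hdp.le hkp.le, Real.rpow_neg hkp.le, div_eq_mul_inv]
    have h7 : (d : ℝ) ^ (2 / 3 : ℝ) ≤ (d0 : ℝ) ^ (2 / 3 : ℝ) :=
      Real.rpow_le_rpow hdp.le (by exact_mod_cast (by omega : d ≤ d0)) (by norm_num)
    have h8 : (d0 : ℝ) ^ (-(2 / 3 : ℝ)) * (d0 : ℝ) ^ (2 / 3 : ℝ) = 1 := by
      rw [← Real.rpow_add hd0']; norm_num
    rw [h6]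
    calc min c2 (c1 * (d0 : ℝ) ^ (-(2 / 3 : ℝ))) * ((d : ℝ) ^ (2 / 3 : ℝ) * (k : ℝ) ^ (-(2 / 3 : ℝ)))
        ≤ (c1 * (d0 : ℝ) ^ (-(2 / 3 : ℝ))) * ((d0 : ℝ) ^ (2 / 3 : ℝ) * (k : ℝ) ^ (-(2 / 3 : ℝ))) :=
          mul_le_mul (min_le_right _ _) (mul_le_mul_of_nonneg_right h7 (by positivity))
            (by positivity) (by positivity)
      _ = c1 * ((d0 : ℝ) ^ (-(2 / 3 : ℝ)) * (d0 : ℝ) ^ (2 / 3 : ℝ)) * (k : ℝ) ^ (-(2 / 3 : ℝ)) := by
          ring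
      _ = c1 * (k : ℝ) ^ (-(2 / 3 : ℝ)) := by rw [h8, mul_one]

end Pool.Agent.W801.RS
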