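import Pool.Agent.W801.RS.Stm

/-!
# Closed loops (task RS-LP, helper293)
-/

set_option autoImplicit false

namespace Pool.Agent.W801.RS
open H974 H906.Cyl
open Pool.Agent.H160R2.ML (nm)
open Pool.Agent.W801.OU (RZ LZ Dg nrm zp Cor scz bxz)
open Pool.Agent.W801.OS (cr)

namespace TLP

theorem mem_zp {e : Edg} : e ∈ zp ({0} : Set ℤ) ↔ dco e < 0 ∧ e.1 + e.2.1 + 1 = 0 := Iff.rfl

theorem nrm_eq (d j t : ℤ) : nrm ({0} : Set ℤ) d j t = if d < 0 ∧ j = 0 then (j - 1, t) else (j, t) := by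
  unfold nrm
  simp only [Set.mem_singleton_iff]

theorem nrm_snd (d j t : ℤ) : (nrm ({0} : Set ℤ) d j t).2 = t := by
  rw [nrm_eq]; split_ifs <;> rfl

/-- the first coordinate -/
theorem nrm_fst (d j t : ℤ) : (d < 0 ∧ j = 0 ∧ (nrm ({0} : Set ℤ) d j t).1 = -1) ∨
    (¬ (d < 0 ∧ j = 0) ∧ (nrm ({0} : Set ℤ) d j t).1 = j) := by
  rw [nrm_eq]
  split_ifs with h
  · left
    refine ⟨h.1, h.2, ?_⟩
    simp only
    omega
  · right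
    exact ⟨h, rfl⟩

theorem bxz_iff {R : ℤ} {e : Edg} : e ∈ bxz R ↔
    (e.1 + e.2.1 + dco e + 1 ≤ 2 * R ∧ -(2 * R) ≤ e.1 + e.2.1 + dco e + 1) ∧
    (e.1 + e.2.1 - dco e ≤ 2 * R ∧ -(2 * R) ≤ e.1 + e.2.1 - dco e) := by
  obtain ⟨x, y, b⟩ := e
  cases b
  · have h1 : tgt ((x, y, false) : Edg) = (x, y + 1) := rfl
    have h2 : src ((x, y, false) : Edg) = (x, y) := rfl
    have h3 : dco ((x, y, false) : Edg) = x - y - 1 := rfl
    simp only [bxz, Set.mem_ofPred_eq, h1, h2, h3, nm, max_le_iff, abs_le]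
    omega
  · have h1 : tgt ((x, y, true) : Edg) = (x + 1, y) := rfl
    have h2 : src ((x, y, true) : Edg) = (x, y) := rfl
    have h3 : dco ((x, y, true) : Edg) = x - y := rfl
    simp only [bxz, Set.mem_ofPred_eq, h1, h2, h3, nm, max_le_iff, abs_le]
    omega

/-- linear form of the links -/
theorem dg_cases {c : ℤ} {e : Edg} {x y : ℤ × ℤ} (h : Dg {0} c e x y) :
    ∃ k : ℤ, (k = 0 ∨ k = 1) ∧ x = nrm {0} (dco e) (e.1 + e.2.1) (dco e + k) ∧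
      y = nrm {0} (dco e) (e.1 + e.2.1 + 1) (dco e + (1 - k)) := by
  rcases h with h | h
  · exact ⟨0, Or.inl rfl, by rw [add_zero], by norm_num⟩
  · exact ⟨1, Or.inr rfl, rfl, by norm_num⟩

theorem lq_cases {G : Set Edg} {e : Edg} {x y : ℤ × ℤ} (h : Lq G e x y) (hy : y.2 = x.2 + 1) :
    e ∉ zp ({0} : Set ℤ) ∧ ∃ i : ℤ, (i = 0 ∨ i = 1) ∧
      x = nrm {0} (dco e) (e.1 + e.2.1 + i) (dco e) ∧
      y = nrm {0} (dco e) (e.1 + e.2.1 + (1 - i)) (dco e + 1) := by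
  obtain ⟨hz, h⟩ := h
  refine ⟨hz, ?_⟩
  have h2 : (∃ c : ℤ, Dg {0} c e x y) ∨ ∃ c : ℤ, Dg {0} c e y x := by
    rcases h with ⟨-, h | h⟩ | ⟨-, h | h⟩
    · exact Or.inl ⟨_, h⟩
    · exact Or.inr ⟨_, h⟩
    · exact Or.inl ⟨_, h⟩
    · exact Or.inr ⟨_, h⟩
  rcases h2 with ⟨c, h⟩ | ⟨c, h⟩
  · obtain ⟨k, hk, rfl, rfl⟩ := dg_cases h
    rw [nrm_snd, nrm_snd] at hy
    have : k = 0 := by omega
    subst this
    exact ⟨0, Or.inl rfl, by norm_num, by norm_num⟩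
  · obtain ⟨k, hk, rfl, rfl⟩ := dg_cases h
    rw [nrm_snd, nrm_snd] at hy
    have : k = 1 := by omega
    subst this
    exact ⟨1, Or.inr rfl, by norm_num, by norm_num⟩

theorem lq_symm {G : Set Edg} {e : Edg} {x y : ℤ × ℤ} (h : Lq G e x y) : Lq G e y x := by
  obtain ⟨hz, h⟩ := h
  refine ⟨hz, ?_⟩
  rcases h with ⟨h1, h⟩ | ⟨h1, h⟩
  · exact Or.inl ⟨h1, h.symm⟩
  · exact Or.inr ⟨h1, h.symm⟩

/-- opposite corners are linked in some configuration -/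
theorem lq_exists {e : Edg} (hz : e ∉ zp ({0} : Set ℤ)) {i : ℤ} (hi : i = 0 ∨ i = 1) :
    ∃ G : Set Edg, Lq G e (nrm {0} (dco e) (e.1 + e.2.1 + i) (dco e))
      (nrm {0} (dco e) (e.1 + e.2.1 + (1 - i)) (dco e + 1)) := by
  have hm := Int.emod_two_eq_zero_or_one (e.1 + e.2.1 + dco e)
  rcases hi with rfl | rfl
  · rw [add_zero, sub_zero]
    rcases hm with h | h
    · exact ⟨Set.univ, hz, Or.inl ⟨trivial, Or.inl (Dg.rise h)⟩⟩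
    · exact ⟨∅, hz, Or.inr ⟨fun h => h, Or.inl (Dg.rise h)⟩⟩
  · rw [sub_self, add_zero]
    rcases hm with h | h
    · exact ⟨∅, hz, Or.inr ⟨fun h => h, Or.inr (Dg.fall (by omega))⟩⟩
    · exact ⟨Set.univ, hz, Or.inl ⟨trivial, Or.inr (Dg.fall (by omega))⟩⟩

theorem nz_le {x : ℤ × ℤ} {n : ℤ} : nz x ≤ n ↔ (-n ≤ x.1 ∧ x.1 ≤ n) ∧ (-n ≤ x.2 ∧ x.2 ≤ n) := by
  unfold nz
  rw [max_le_iff, abs_le, abs_le]

theorem mem_DB {z : ℤ × ℤ} {n : ℕ} {e : Edg} : e ∈ DB z n ↔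
    (-(n : ℤ) ≤ e.1 + e.2.1 - z.1 ∧ e.1 + e.2.1 - z.1 ≤ n) ∧
    (-(n : ℤ) ≤ dco e - z.2 ∧ dco e - z.2 ≤ n) := by
  unfold DB
  rw [Set.mem_ofPred_eq, abs_le, abs_le]

/-- the algebra of one step -/
theorem alg (a1 a2 b1 b2 z1 z2 s0 d n p1 p1' : ℤ)
    (ha : (-n ≤ a1 - z1 ∧ a1 - z1 ≤ n) ∧ (-n ≤ a2 - z2 ∧ a2 - z2 ≤ n))
    (hb : (-n ≤ b1 - z1 ∧ b1 - z1 ≤ n) ∧ (-n ≤ b2 - z2 ∧ b2 - z2 ≤ n))
    (hD : ¬ ((-(n + 2) ≤ s0 - z1 ∧ s0 - z1 ≤ n + 2) ∧ (-(n + 2) ≤ d - z2 ∧ d - z2 ≤ n + 2)))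
    (hp : s0 - 1 ≤ p1 ∧ p1 ≤ s0 + 1) (hp' : s0 - 1 ≤ p1' ∧ p1' ≤ s0 + 1) :
    ((if a2 < d + 1 ∧ d + 1 ≤ b2 ∧ p1' < b1 then (1 : ℤ) else 0) -
      (if b2 < d + 1 ∧ d + 1 ≤ a2 ∧ p1' < b1 then 1 else 0)) -
    ((if a2 < d ∧ d ≤ b2 ∧ p1 < b1 then (1 : ℤ) else 0) -
      (if b2 < d ∧ d ≤ a2 ∧ p1 < b1 then 1 else 0)) =
    (if a2 = d ∧ p1 < a1 then (1 : ℤ) else 0) - (if b2 = d ∧ p1 < b1 then 1 else 0) := by
  split_ifs <;> omega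

/-- a corner of a square -/
def Crn (e : Edg) (x : ℤ × ℤ) : Prop := e ∉ zp ({0} : Set ℤ) ∧ ∃ i k : ℤ, (i = 0 ∨ i = 1) ∧
  (k = 0 ∨ k = 1) ∧ x = nrm {0} (dco e) (e.1 + e.2.1 + i) (dco e + k)

theorem crn_fst {e : Edg} {x : ℤ × ℤ} (h : Crn e x) :
    e.1 + e.2.1 - 1 ≤ x.1 ∧ x.1 ≤ e.1 + e.2.1 + 1 := by
  obtain ⟨hz, i, k, hi, hk, rfl⟩ := h
  rcases nrm_fst (dco e) (e.1 + e.2.1 + i) (dco e + k) with ⟨h1, h2, h3⟩ | ⟨h1, h2⟩
  · rw [h3]; omega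
  · rw [h2]; omega

theorem crn_dg {c : ℤ} {e : Edg} {x y : ℤ × ℤ} (hz : e ∉ zp ({0} : Set ℤ)) (h : Dg {0} c e x y) :
    Crn e x ∧ Crn e y := by
  obtain ⟨k, hk, hx, hy⟩ := dg_cases h
  refine ⟨⟨hz, 0, k, Or.inl rfl, hk, by rw [add_zero]; exact hx⟩,
    ⟨hz, 1, 1 - k, Or.inr rfl, by omega, hy⟩⟩

theorem crn_of_cor {c : ℤ} {e : Edg} {x : ℤ × ℤ} (h : Cor {0} c e x) : Crn e x := by
  obtain ⟨hz, y, h | h⟩ := h
  · exact (crn_dg hz h).1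
  · exact (crn_dg hz h).2

/-- one step -/
theorem step (hC : S_CON) {B G G' : Set Edg} {a b z : ℤ × ℤ} {φ : ℤ × ℤ → ℤ} {s : ℕ} {e : Edg}
    {p p' : ℤ × ℤ} (hW : Wk B G a b φ) (ha : nz (a.1 - z.1, a.2 - z.2) ≤ s)
    (hb : nz (b.1 - z.1, b.2 - z.2) ≤ s) (hD : e ∉ DB z (s + 2))
    (hB : e ∈ B → (e ∈ G' ↔ e ∈ G)) (hL : Lq G' e p p') (hp : p'.2 = p.2 + 1)
    (h1 : ¬ RZ {0} B G a p) (h2 : ¬ RZ {0} B G a p') :
    φ p' + vc p' b a = φ p + vc p b a := by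
  have h3 := hC B G G' a b φ e p p' hW hB hL hp h1 h2
  obtain ⟨hz, i, hi, hx, hy⟩ := lq_cases hL hp
  have e1 : p.2 = dco e := by rw [hx, nrm_snd]
  have e2 := crn_fst (e := e) (x := p) ⟨hz, i, 0, hi, Or.inl rfl, by rw [add_zero]; exact hx⟩
  have e3 := crn_fst (e := e) (x := p') ⟨hz, 1 - i, 1, by omega, Or.inr rfl, hy⟩
  rw [nz_le] at ha hb
  rw [mem_DB] at hD
  push_cast at hD
  have h4 := alg a.1 a.2 b.1 b.2 z.1 z.2 (e.1 + e.2.1) (dco e) s p.1 p'.1 ha hb hD e2 e3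
  unfold gg at h3
  unfold vc
  rw [hp, e1]
  rw [e1] at h3
  linarith

theorem rz_sub {B G : Set Edg} {D : Set Edg} {x y : ℤ × ℤ} (h : RZ {0} (B \ D) G x y) :
    RZ {0} B G x y := by
  refine Relation.EqvGen.mono ?_ _ _ h
  rintro u v ⟨e, he, h⟩
  exact ⟨e, he.1, h⟩

theorem rz_symm {B G : Set Edg} {x y : ℤ × ℤ} (h : RZ {0} B G x y) : RZ {0} B G y x :=
  Relation.EqvGen.symm _ _ h

theorem rz_trans {B G : Set Edg} {x y w : ℤ × ℤ} (h : RZ {0} B G x y) (h' : RZ {0} B G y w) :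
    RZ {0} B G x w := Relation.EqvGen.trans _ _ _ h h'

/-- the first part -/
theorem part1 (hC : S_CON) {B G : Set Edg} {a b z : ℤ × ℤ} {φ : ℤ × ℤ → ℤ} {s : ℕ}
    (hW : Wk B G a b φ) (ha : nz (a.1 - z.1, a.2 - z.2) ≤ s)
    (hb : nz (b.1 - z.1, b.2 - z.2) ≤ s) {q q' : ℤ × ℤ} (h : RZ {0} (B \ DB z (s + 2)) G q q') :
    ¬ RZ {0} B G a q → φ q' + vc q' b a = φ q + vc q b a := by
  have h0 := h
  unfold RZ at h
  induction h with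
  | rel x y hxy =>
    intro hq
    have hq' : ¬ RZ {0} B G a y := fun h5 => hq (rz_trans h5 (rz_symm (rz_sub h0)))
    obtain ⟨e, ⟨he, hD⟩, hz, hd⟩ := hxy
    have hL : Lq G e x y := by
      rcases hd with ⟨h5, h6⟩ | ⟨h5, h6⟩
      · exact ⟨hz, Or.inl ⟨h5, Or.inl h6⟩⟩
      · exact ⟨hz, Or.inr ⟨h5, Or.inl h6⟩⟩
    have h7 : ∃ c : ℤ, Dg {0} c e x y := by
      rcases hd with ⟨h5, h6⟩ | ⟨h5, h6⟩
      · exact ⟨_, h6⟩
      · exact ⟨_, h6⟩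
    obtain ⟨c, h7⟩ := h7
    obtain ⟨k, hk, hx, hy⟩ := dg_cases h7
    have e1 : x.2 = dco e + k := by rw [hx, nrm_snd]
    have e2 : y.2 = dco e + (1 - k) := by rw [hy, nrm_snd]
    rcases hk with rfl | rfl
    · exact step hC hW ha hb hD (fun _ => Iff.rfl) hL (by omega) hq hq'
    · exact (step hC hW ha hb hD (fun _ => Iff.rfl) (lq_symm hL) (by omega) hq' hq).symm
  | refl x => intro _; rfl
  | symm x y hxy ih =>
    intro hq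
    have h5 : RZ {0} B G x y := rz_sub hxy
    exact (ih hxy fun h6 => hq (rz_trans h6 h5)).symm
  | trans x y w hxy hyw ih1 ih2 =>
    intro hq
    have h5 : RZ {0} B G x y := rz_sub hxy
    rw [ih2 hyw fun h6 => hq (rz_trans h6 (rz_symm h5))]
    exact ih1 hxy hq

/-- the cluster of `a` consists of `a` and of corners of squares -/
theorem rz_crn {B G : Set Edg} {x y : ℤ × ℤ} (h : RZ {0} B G x y) :
    x = y ∨ ((∃ e ∈ B, Crn e x) ∧ ∃ e ∈ B, Crn e y) := by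
  unfold RZ at h
  induction h with
  | rel x y hxy =>
    obtain ⟨e, he, hz, hd⟩ := hxy
    right
    rcases hd with ⟨-, h6⟩ | ⟨-, h6⟩
    · exact ⟨⟨e, he, (crn_dg hz h6).1⟩, ⟨e, he, (crn_dg hz h6).2⟩⟩
    · exact ⟨⟨e, he, (crn_dg hz h6).1⟩, ⟨e, he, (crn_dg hz h6).2⟩⟩
  | refl x => exact Or.inl rfl
  | symm x y _ ih =>
    rcases ih with h | ⟨h1, h2⟩
    · exact Or.inl h.symm
    · exact Or.inr ⟨h2, h1⟩
  | trans x y w _ _ ih1 ih2 =>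
    rcases ih1 with rfl | ⟨h1, h2⟩
    · exact ih2
    · rcases ih2 with rfl | ⟨h3, h4⟩
      · exact Or.inr ⟨h1, h2⟩
      · exact Or.inr ⟨h1, h4⟩

/-- the norm of the corners of the squares of the box -/
theorem crn_in {R : ℤ} {e : Edg} {x : ℤ × ℤ} (he : e ∈ bxz R) (h : Crn e x) :
    (x.1 + x.2 ≤ 2 * R + 1 ∧ -(2 * R + 1) ≤ x.1 + x.2) ∧
    (x.1 - x.2 ≤ 2 * R + 1 ∧ -(2 * R + 1) ≤ x.1 - x.2) := by
  rw [bxz_iff] at he
  obtain ⟨hz, i, k, hi, hk, rfl⟩ := h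
  rw [mem_zp] at hz
  rw [nrm_snd]
  rcases nrm_fst (dco e) (e.1 + e.2.1 + i) (dco e + k) with ⟨h1, h2, h3⟩ | ⟨h1, h2⟩
  · rw [h3]; omega
  · rw [h2]; omega

/-- the norm of the corners of the squares outside the box -/
theorem crn_out {R : ℤ} {e : Edg} {x : ℤ × ℤ} (he : e ∉ bxz R) (h : Crn e x) :
    (2 * R ≤ x.1 + x.2 ∨ x.1 + x.2 ≤ -(2 * R) ∨ 2 * R ≤ x.1 - x.2 ∨ x.1 - x.2 ≤ -(2 * R)) ∧
      (x.2 < 0 → x.1 ≠ 0) := by
  rw [bxz_iff] at he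
  obtain ⟨hz, i, k, hi, hk, rfl⟩ := h
  rw [mem_zp] at hz
  rw [nrm_snd]
  rcases nrm_fst (dco e) (e.1 + e.2.1 + i) (dco e + k) with ⟨h1, h2, h3⟩ | ⟨h1, h2⟩
  · rw [h3]; omega
  · rw [h2]; omega

theorem wk_dec {B G : Set Edg} {a b : ℤ × ℤ} {φ : ℤ × ℤ → ℤ} (hW : Wk B G a b φ) :
    ∃ M : ℤ, ∀ p : ℤ × ℤ, (M < p.2 ∨ p.2 < -M) → φ p = 0 := by
  induction hW with
  | nil => exact ⟨0, fun _ _ => rfl⟩
  | cons v w φ e _ _ _ ih =>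
    obtain ⟨M, hM⟩ := ih
    refine ⟨max M (max |v.2| |w.2|), fun p hp => ?_⟩
    have h1 := le_max_left M (max |v.2| |w.2|)
    have h2 := le_max_right M (max |v.2| |w.2|)
    have h3 := le_max_left |v.2| |w.2|
    have h4 := le_max_right |v.2| |w.2|
    have h5 := abs_le.1 (le_refl |v.2|)
    have h6 := abs_le.1 (le_refl |w.2|)
    simp only
    rw [hM p (by omega)]
    unfold cr
    rw [if_neg (by omega), if_neg (by omega), add_zero]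

theorem edz_sum (s d : ℤ) : (edz s d).1 + (edz s d).2.1 = s := by
  unfold edz
  split_ifs <;> simp only <;> omega

theorem dco_edz (s d : ℤ) : dco (edz s d) = d := by
  unfold edz dco
  split_ifs <;> simp_all <;> omega

/-- one outward step -/
theorem out_step (hC : S_CON) {R : ℕ} {G : Set Edg} {a b z : ℤ × ℤ} {φ : ℤ × ℤ → ℤ} {s : ℕ}
    (hW : Wk (bxz R) G a b φ) (ha : nz (a.1 - z.1, a.2 - z.2) ≤ s)
    (hb : nz (b.1 - z.1, b.2 - z.2) ≤ s) (hR : nz z + s + 3 ≤ R) {s0 d i : ℤ}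
    (hi : i = 0 ∨ i = 1) (hz : ¬ (d < 0 ∧ s0 + 1 = 0)) (hz2 : ¬ (d < 0 ∧ s0 = 0))
    (hout : 2 * (R : ℤ) < s0 + d + 1 ∨ s0 + d + 1 < -(2 * R) ∨ 2 * (R : ℤ) < s0 - d ∨
      s0 - d < -(2 * R))
    (h1 : ¬ RZ {0} (bxz R) G a (s0 + i, d)) (h2 : ¬ RZ {0} (bxz R) G a (s0 + (1 - i), d + 1)) :
    φ (s0 + (1 - i), d + 1) + vc (s0 + (1 - i), d + 1) b a = φ (s0 + i, d) + vc (s0 + i, d) b a := by
  have hze : edz s0 d ∉ zp ({0} : Set ℤ) := by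
    rw [mem_zp, edz_sum, dco_edz]
    exact hz
  obtain ⟨G', hG'⟩ := lq_exists hze hi
  rw [edz_sum, dco_edz] at hG'
  rw [nrm_eq, nrm_eq, if_neg (by omega), if_neg (by omega)] at hG'
  have hnb : edz s0 d ∉ bxz R := by
    rw [bxz_iff, edz_sum, dco_edz]
    omega
  have hnz := hR
  have h5 : nz z ≤ R - s - 3 := by linarith
  rw [nz_le] at h5
  refine step hC hW ha hb (e := edz s0 d) (G' := G') ?_ (fun h => absurd h hnb) hG' rfl h1 h2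
  rw [mem_DB, edz_sum, dco_edz]
  push_cast
  omega

end TLP

theorem t_LP : S_CON → S_LP := by
  intro hC R G a b φ z s hW ha hb
  refine ⟨fun q q' hq h => TLP.part1 hC hW ha hb h hq, ?_⟩
  rintro hR q hq ⟨e, he, hc⟩
  have hcr : TLP.Crn e q := by
    rcases hc with hc | hc
    · exact TLP.crn_of_cor hc
    · exact TLP.crn_of_cor hc
  obtain ⟨ho1, ho2⟩ := TLP.crn_out he hcr
  obtain ⟨M, hM⟩ := TLP.wk_dec hW
  obtain ⟨q1, q2⟩ := q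
  simp only at ho1 ho2
  have ha' := TLP.nz_le.1 ha
  have hz' : nz z ≤ R - s - 3 := by linarith
  rw [TLP.nz_le] at hz'
  simp only at ha'
  -- far points are not in the cluster
  have hfar : ∀ p : ℤ × ℤ, (2 * (R : ℤ) + 2 ≤ p.1 + p.2 ∨ p.1 + p.2 ≤ -(2 * R + 2) ∨
      2 * (R : ℤ) + 2 ≤ p.1 - p.2 ∨ p.1 - p.2 ≤ -(2 * R + 2)) → ¬ RZ {0} (bxz R) G a p := by
    intro p hp h
    rcases TLP.rz_crn h with rfl | ⟨-, e', he', hc'⟩
    · omega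
    · have := TLP.crn_in he' hc'
      omega
  have key : ∀ σ τ : ℤ, (σ = 1 ∧ 0 ≤ q1 ∨ σ = -1 ∧ q1 < 0) → (τ = 1 ∧ 0 ≤ q2 ∨ τ = -1 ∧ q2 < 0) →
      ∀ n : ℕ, φ (q1 + σ * n, q2 + τ * n) + vc (q1 + σ * n, q2 + τ * n) b a =
        φ (q1, q2) + vc (q1, q2) b a := by
    intro σ τ hσ hτ n
    have hnot : ∀ m : ℕ, ¬ RZ {0} (bxz R) G a (q1 + σ * m, q2 + τ * m) := by
      intro m
      rcases Nat.eq_zero_or_pos m with rfl | hm
      · rw [Nat.cast_zero, mul_zero, mul_zero, add_zero, add_zero]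
        exact hq
      · apply hfar
        simp only
        rcases hσ with ⟨rfl, h1⟩ | ⟨rfl, h1⟩ <;> rcases hτ with ⟨rfl, h2⟩ | ⟨rfl, h2⟩ <;> omega
    induction n with
    | zero => simp
    | succ n ih =>
      rw [← ih]
      have h3 := hnot n
      have h4 := hnot (n + 1)
      push_cast at h4 ⊢
      rcases hσ with ⟨rfl, h1⟩ | ⟨rfl, h1⟩ <;> rcases hτ with ⟨rfl, h2⟩ | ⟨rfl, h2⟩
      · have := TLP.out_step hC hW ha hb hR (s0 := q1 + n) (d := q2 + n) (i := 0) (Or.inl rfl)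
          (by omega) (by omega) (by omega) (by convert h3 using 2; ring_nf)
          (by convert h4 using 2; ring_nf)
        convert this using 3 <;> ring_nf
      · have := TLP.out_step hC hW ha hb hR (s0 := q1 + n) (d := q2 - n - 1) (i := 1) (Or.inr rfl)
          (by omega) (by omega) (by omega) (by convert h4 using 2; ring_nf)
          (by convert h3 using 2; ring_nf)
        convert this.symm using 3 <;> ring_nf
      · have := TLP.out_step hC hW ha hb hR (s0 := q1 - n - 1) (d := q2 + n) (i := 1) (Or.inr rfl)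
          (by omega) (by omega) (by omega) (by convert h3 using 2; ring_nf)
          (by convert h4 using 2; ring_nf)
        convert this using 3 <;> ring_nf
      · have := TLP.out_step hC hW ha hb hR (s0 := q1 - n - 1) (d := q2 - n - 1) (i := 0)
          (Or.inl rfl) (by omega) (by omega) (by omega) (by convert h4 using 2; ring_nf)
          (by convert h3 using 2; ring_nf)
        convert this.symm using 3 <;> ring_nf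
  obtain ⟨σ, hσ⟩ : ∃ σ : ℤ, σ = 1 ∧ 0 ≤ q1 ∨ σ = -1 ∧ q1 < 0 := by
    rcases le_or_gt 0 q1 with h | h
    · exact ⟨1, Or.inl ⟨rfl, h⟩⟩
    · exact ⟨-1, Or.inr ⟨rfl, h⟩⟩
  obtain ⟨τ, hτ⟩ : ∃ τ : ℤ, τ = 1 ∧ 0 ≤ q2 ∨ τ = -1 ∧ q2 < 0 := by
    rcases le_or_gt 0 q2 with h | h
    · exact ⟨1, Or.inl ⟨rfl, h⟩⟩
    · exact ⟨-1, Or.inr ⟨rfl, h⟩⟩
  obtain ⟨n, n1, n2, n3, n4, n5⟩ : ∃ n : ℕ, (M < n ∧ -M < n) ∧ a.2 < n ∧ -a.2 < n ∧ b.2 < n ∧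
      -b.2 < n := ⟨M.natAbs + a.2.natAbs + b.2.natAbs + 1, by omega⟩
  have h5 := key σ τ hσ hτ n
  rw [← h5, hM _ (by
    simp only
    rcases hτ with ⟨rfl, h2⟩ | ⟨rfl, h2⟩ <;> omega), zero_add]
  unfold vc
  simp only
  rcases hτ with ⟨rfl, h2⟩ | ⟨rfl, h2⟩
  · rw [if_neg (by omega), if_neg (by omega), sub_zero]
  · rw [if_neg (by omega), if_neg (by omega), sub_zero]

end Pool.Agent.W801.RS
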