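import Pool.Agent.W801.RS.Stm

/-!
# Six arms away from the tip

A chart of the squares of the ball around `z`, a pigeonhole for the parities of six clusters, and
the transport of the measure.
-/

set_option autoImplicit false

namespace Pool.Agent.W801.RS
open H974 H906.Cyl H12S Finset
open Pool.Agent.H160R2.ML (nm)
open Pool.Agent.W801.OU (RZ LZ Dg nrm zp Cor scz bxz SE3 uR S_UR3)

namespace P6i

/-! ### transport of the measure -/

theorem Ex_flip {E : Type*} [DecidableEq E] (γ : E → Prop) [DecidablePred γ] (T : Finset E) :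
    ∀ g : Finset E → ℝ, Ex (fun _ => (1 / 2 : ℝ)) T (fun F => g (T.filter fun f => (f ∈ F ↔ γ f))) =
      Ex (fun _ => (1 / 2 : ℝ)) T g := by
  induction T using Finset.induction_on with
  | empty => intro g; simp [Ex_empty]
  | insert a T ha ih =>
    intro g
    rw [Ex_insert _ ha, Ex_insert _ ha]
    by_cases hγ : γ a
    · have h1 : Ex (fun _ => (1 / 2 : ℝ)) T (fun F => g ((insert a T).filter fun f =>
          (f ∈ insert a F ↔ γ f))) =
          Ex (fun _ => (1 / 2 : ℝ)) T (fun F => g (insert a (T.filter fun f => (f ∈ F ↔ γ f)))) := by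
        refine Ex_congr fun F hF => ?_
        congr 1
        ext f
        simp only [mem_filter, mem_insert]
        by_cases hfa : f = a
        · subst hfa
          simp [hγ]
        · simp [hfa]
      have h2 : Ex (fun _ => (1 / 2 : ℝ)) T (fun F => g ((insert a T).filter fun f =>
          (f ∈ F ↔ γ f))) =
          Ex (fun _ => (1 / 2 : ℝ)) T (fun F => g (T.filter fun f => (f ∈ F ↔ γ f))) := by
        refine Ex_congr fun F hF => ?_
        congr 1
        ext f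
        simp only [mem_filter, mem_insert]
        by_cases hfa : f = a
        · subst hfa
          have : f ∉ F := fun h => ha (hF h)
          simp [hγ, this, ha]
        · simp [hfa]
      rw [h1, h2, ih g, ih (fun F => g (insert a F))]
    · have h1 : Ex (fun _ => (1 / 2 : ℝ)) T (fun F => g ((insert a T).filter fun f =>
          (f ∈ insert a F ↔ γ f))) =
          Ex (fun _ => (1 / 2 : ℝ)) T (fun F => g (T.filter fun f => (f ∈ F ↔ γ f))) := by
        refine Ex_congr fun F hF => ?_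
        congr 1
        ext f
        simp only [mem_filter, mem_insert]
        by_cases hfa : f = a
        · subst hfa
          simp [hγ, ha]
        · simp [hfa]
      have h2 : Ex (fun _ => (1 / 2 : ℝ)) T (fun F => g ((insert a T).filter fun f =>
          (f ∈ F ↔ γ f))) =
          Ex (fun _ => (1 / 2 : ℝ)) T (fun F => g (insert a (T.filter fun f => (f ∈ F ↔ γ f)))) := by
        refine Ex_congr fun F hF => ?_
        congr 1
        ext f
        simp only [mem_filter, mem_insert]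
        by_cases hfa : f = a
        · subst hfa
          have : f ∉ F := fun h => ha (hF h)
          simp [hγ, this]
        · simp [hfa]
      rw [h1, h2, ih g, ih (fun F => g (insert a F))]
      ring

theorem Pr_tr {E : Type*} [DecidableEq E] {T S : Finset E} (M : E → E) (hM : Set.InjOn M T)
    (hS : T.image M ⊆ S) (γ : E → Prop) [DecidablePred γ] (A : Finset E → Prop) :
    Pr (fun _ => (1 / 2 : ℝ)) S (fun G => A (T.filter fun f => (M f ∈ G ↔ γ f))) =
      Pr (fun _ => (1 / 2 : ℝ)) T A := by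
  rw [Pr_local hS]
  · have h1 : Pr (fun _ => (1 / 2 : ℝ)) (T.image M)
        (fun G => A (T.filter fun f => (M f ∈ G ↔ γ f))) =
        Pr (fun _ => (1 / 2 : ℝ)) T (fun F => A (T.filter fun f => (f ∈ F ↔ γ f))) := by
      unfold Pr
      rw [Ex_image (fun _ => (1 / 2 : ℝ)) M T hM]
      refine Ex_congr fun F hF => ind_congr ?_
      have h2 : (T.filter fun f => (M f ∈ F.image M ↔ γ f)) = T.filter fun f => (f ∈ F ↔ γ f) := by
        refine Finset.filter_congr fun f hf => ?_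
        have h3 : M f ∈ F.image M ↔ f ∈ F := by
          constructor
          · intro h
            obtain ⟨g, hg, hgf⟩ := Finset.mem_image.1 h
            have : g = f := hM (hF hg) hf hgf
            rwa [← this]
          · intro h
            exact Finset.mem_image_of_mem _ h
        rw [h3]
      show A (T.filter fun f => (M f ∈ F.image M ↔ γ f)) ↔ A (T.filter fun f => (f ∈ F ↔ γ f))
      rw [h2]
    rw [h1]
    exact Ex_flip γ T (fun F => ind (A F))
  · intro F _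
    have h2 : (T.filter fun f => (M f ∈ F ↔ γ f)) =
        T.filter fun f => (M f ∈ F ∩ T.image M ↔ γ f) := by
      refine Finset.filter_congr fun f hf => ?_
      have h3 : M f ∈ F ∩ T.image M ↔ M f ∈ F := by
        rw [Finset.mem_inter]
        exact ⟨fun h => h.1, fun h => ⟨h, Finset.mem_image_of_mem _ hf⟩⟩
      rw [h3]
    rw [h2]

/-! ### edges -/

theorem edz_s (s d : ℤ) : (edz s d).1 + (edz s d).2.1 = s := by
  unfold edz
  split_ifs <;> simp only <;> omega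

theorem edz_d (s d : ℤ) : dco (edz s d) = d := by
  unfold edz dco
  split_ifs with h h1 h1 <;> simp_all <;> omega

theorem edz_of' (e : Edg) : edz (e.1 + e.2.1) (dco e) = e := by
  obtain ⟨x, y, _ | _⟩ := e
  · unfold edz dco
    simp only [Bool.false_eq_true, if_false]
    rw [if_neg (by omega)]
    simp only [Prod.mk.injEq, and_true]
    omega
  · unfold edz dco
    simp only [if_true]
    rw [if_pos (by omega)]
    simp only [Prod.mk.injEq, and_true]
    omega

theorem edz_eq {e : Edg} {s d : ℤ} (h1 : e.1 + e.2.1 = s) (h2 : dco e = d) : edz s d = e := by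
  rw [← h1, ← h2, edz_of']

theorem nm_le {v : Vtx} {k : ℤ} : nm v ≤ k ↔ -k ≤ v.1 ∧ v.1 ≤ k ∧ -k ≤ v.2 ∧ v.2 ≤ k := by
  unfold Pool.Agent.H160R2.ML.nm
  rw [max_le_iff, abs_le, abs_le, and_assoc]

theorem nm_st (e : Edg) : nm (tgt e) ≤ nm (src e) + 1 ∧ nm (src e) ≤ nm (tgt e) + 1 := by
  have h1 := (nm_le (v := src e)).1 le_rfl
  have h2 := (nm_le (v := tgt e)).1 le_rfl
  constructor
  · rw [nm_le]
    obtain ⟨x, y, _ | _⟩ := e
    · simp only [src, tgt, Bool.false_eq_true, if_false] at h1 h2 ⊢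
      omega
    · simp only [src, tgt, if_true] at h1 h2 ⊢
      omega
  · rw [nm_le]
    obtain ⟨x, y, _ | _⟩ := e
    · simp only [src, tgt, Bool.false_eq_true, if_false] at h1 h2 ⊢
      omega
    · simp only [src, tgt, if_true] at h1 h2 ⊢
      omega

theorem adj_nm {F : Set Edg} {u v : Vtx} (h : Adj F u v) : nm v ≤ nm u + 1 ∧ nm u ≤ nm v + 1 := by
  obtain ⟨e, -, (⟨rfl, rfl⟩ | ⟨rfl, rfl⟩)⟩ := h
  · exact nm_st e
  · exact ⟨(nm_st e).2, (nm_st e).1⟩

theorem adj_bx {F : Set Edg} {u v : Vtx} {r n : ℤ} (h : Adj F u v) (hu : nm u ≤ n) (hv : nm v ≤ n)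
    (hr : r < nm u ∨ r < nm v) : Adj (F ∩ (bxz n \ bxz r)) u v := by
  obtain ⟨e, he, h⟩ := h
  refine ⟨e, ⟨he, ?_, ?_⟩, h⟩
  · rcases h with ⟨rfl, rfl⟩ | ⟨rfl, rfl⟩
    · exact ⟨hu, hv⟩
    · exact ⟨hv, hu⟩
  · rintro ⟨h1, h2⟩
    rcases h with ⟨rfl, rfl⟩ | ⟨rfl, rfl⟩
    · rcases hr with hr | hr <;> omega
    · rcases hr with hr | hr <;> omega

/-- last visit to the inner box, first exit from the outer box -/
theorem exit {F : Set Edg} {r n : ℤ} (hrn : r < n) {U V : Vtx} (h : Reach F U V) (hU : nm U ≤ r)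
    (hV : n ≤ nm V) : ∃ X W, nm X = r ∧ nm W = n ∧ Reach F U X ∧
      Reach (F ∩ (bxz n \ bxz r)) X W := by
  have key : ∀ w, Reach F U w → (∃ X W, nm X = r ∧ nm W = n ∧ Reach F U X ∧
      Reach (F ∩ (bxz n \ bxz r)) X W) ∨ nm w ≤ r ∨ (r < nm w ∧ nm w < n ∧ ∃ X, nm X = r ∧
      Reach F U X ∧ Reach (F ∩ (bxz n \ bxz r)) X w) := by
    intro w hw
    unfold Reach at hw
    induction hw with
    | refl => exact Or.inr (Or.inl hU)
    | @tail b c hb hbc ih =>
      rcases ih with ih | ih | ⟨h1, h2, X, hX, hX1, hX2⟩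
      · exact Or.inl ih
      · by_cases hc : nm c ≤ r
        · exact Or.inr (Or.inl hc)
        · push Not at hc
          have h3 := adj_nm hbc
          have h4 : nm b = r := by omega
          have h5 : Adj (F ∩ (bxz n \ bxz r)) b c := adj_bx hbc (by omega) (by omega) (Or.inr hc)
          by_cases hcn : nm c < n
          · exact Or.inr (Or.inr ⟨hc, hcn, b, h4, hb, Relation.ReflTransGen.single h5⟩)
          · exact Or.inl ⟨b, c, h4, by omega, hb, Relation.ReflTransGen.single h5⟩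
      · have h3 := adj_nm hbc
        have h5 : Adj (F ∩ (bxz n \ bxz r)) b c := adj_bx hbc (by omega) (by omega) (Or.inl h1)
        by_cases hcn : nm c < n
        · right
          by_cases hc : nm c ≤ r
          · exact Or.inl hc
          · push Not at hc
            exact Or.inr ⟨hc, hcn, X, hX, hX1, hX2.tail h5⟩
        · exact Or.inl ⟨X, c, hX, by omega, hX1, hX2.tail h5⟩
  rcases key V h with h1 | h1 | h1
  · exact h1
  · omega
  · omega

/-! ### charts -/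

/-- a chart of the squares of the ball around `z` -/
structure Chart (z : ℤ × ℤ) (n : ℕ) (Qs Qp : ℤ → ℤ) : Prop where
  injs : Function.Injective Qs
  injp : Function.Injective Qp
  nears : ∀ a, Qs a = a ∨ Qs a = a + 1
  nearp : ∀ a, Qp a = a ∨ Qp a = a + 1
  ok : ∀ a d, |Qs a - z.1| ≤ n → |d - z.2| ≤ n → ¬ (d < 0 ∧ Qs a + 1 = 0) ∧
    nrm {0} d (Qs a) d = (Qp a, d) ∧ nrm {0} d (Qs a) (d + 1) = (Qp a, d + 1) ∧
    nrm {0} d (Qs a + 1) d = (Qp (a + 1), d) ∧
    nrm {0} d (Qs a + 1) (d + 1) = (Qp (a + 1), d + 1)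
  sur : ∀ s d, |s - z.1| ≤ n → |d - z.2| ≤ n → ¬ (d < 0 ∧ s + 1 = 0) → ∃ a, Qs a = s

theorem nrm_eq {d j t j' : ℤ} (h : if d < 0 ∧ j = 0 then j' = j - 1 else j' = j) :
    nrm {0} d j t = (j', t) := by
  unfold Pool.Agent.W801.OU.nrm
  simp only [Set.mem_singleton_iff]
  split_ifs at h ⊢ with h1
  · rw [h]
  · rw [h]

/-- existence of charts -/
theorem chart_ex (z : ℤ × ℤ) (n : ℕ) (hn : 1 ≤ n) (hz : 8 * (n : ℤ) ≤ nz z) :
    ∃ Qs Qp : ℤ → ℤ, Chart z n Qs Qp := by
  by_cases h : z.2 ≤ -(8 * (n : ℤ))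
  · refine ⟨fun a => if a ≤ -2 then a else a + 1, fun a => if a ≤ -1 then a else a + 1, ?_⟩
    refine ⟨?_, ?_, ?_, ?_, ?_, ?_⟩
    · intro a b hab
      beta_reduce at hab
      split_ifs at hab <;> omega
    · intro a b hab
      beta_reduce at hab
      split_ifs at hab <;> omega
    · intro a
      split_ifs <;> omega
    · intro a
      split_ifs <;> omega
    · intro a d h1 h2
      rw [abs_le] at h1 h2
      refine ⟨?_, nrm_eq ?_, nrm_eq ?_, nrm_eq ?_, nrm_eq ?_⟩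
      all_goals split_ifs at h1 ⊢ <;> omega
    · intro s d h1 h2 h3
      rw [abs_le] at h1 h2
      by_cases hs : s ≤ -2
      · exact ⟨s, by simp [hs]⟩
      · refine ⟨s - 1, ?_⟩
        split_ifs <;> omega
  · have h8 : (8 * (n : ℤ) ≤ z.1 ∨ 8 * (n : ℤ) ≤ -z.1) ∨ 8 * (n : ℤ) ≤ z.2 := by
      unfold nz at hz
      rw [le_max_iff, le_abs, le_abs] at hz
      omega
    refine ⟨fun a => a, fun a => a, ?_⟩
    refine ⟨fun a b hab => hab, fun a b hab => hab, fun a => Or.inl rfl, fun a => Or.inl rfl,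
      ?_, fun s d _ _ _ => ⟨s, rfl⟩⟩
    intro a d h1 h2
    rw [abs_le] at h1 h2
    refine ⟨?_, nrm_eq ?_, nrm_eq ?_, nrm_eq ?_, nrm_eq ?_⟩
    · omega
    all_goals split_ifs <;> omega

section
variable (Qs Qp : ℤ → ℤ) (A B : ℤ)

/-- the point of the vertex -/
def Nq (v : Vtx) : ℤ × ℤ := (Qp (v.1 + v.2 + A), v.1 - v.2 + B)

/-- the square of the edge -/
def Mq (f : Edg) : Edg := edz (Qs (f.1 + f.2.1 + A)) (dco f + B)

/-- the expected state -/
def gm (f : Edg) : Prop := (Qs (f.1 + f.2.1 + A) + (dco f + B)) % 2 = 0 ↔ f.2.2 = true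

/-- the configuration of the plane, in the squares of `X` -/
def Fq (X G : Set Edg) : Set Edg := {f | Mq Qs A B f ∈ X ∧ (Mq Qs A B f ∈ G ↔ gm Qs A B f)}

end

theorem Dg_r {c : ℤ} {e : Edg} {s d : ℤ} {u v : ℤ × ℤ} (h1 : e.1 + e.2.1 = s) (h2 : dco e = d)
    (h3 : (s + d) % 2 = c) (h4 : nrm {0} d s d = u) (h5 : nrm {0} d (s + 1) (d + 1) = v) :
    Dg {0} c e u v := by
  subst h1 h2 h4 h5
  exact Dg.rise h3

theorem Dg_f {c : ℤ} {e : Edg} {s d : ℤ} {u v : ℤ × ℤ} (h1 : e.1 + e.2.1 = s) (h2 : dco e = d)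
    (h3 : (s + d) % 2 = 1 - c) (h4 : nrm {0} d s (d + 1) = u) (h5 : nrm {0} d (s + 1) d = v) :
    Dg {0} c e u v := by
  subst h1 h2 h4 h5
  exact Dg.fall h3

theorem Dg_inv {c : ℤ} {e : Edg} {u v : ℤ × ℤ} (h : Dg {0} c e u v) :
    ((e.1 + e.2.1 + dco e) % 2 = c ∧ u = nrm {0} (dco e) (e.1 + e.2.1) (dco e) ∧
      v = nrm {0} (dco e) (e.1 + e.2.1 + 1) (dco e + 1)) ∨
    ((e.1 + e.2.1 + dco e) % 2 = 1 - c ∧ u = nrm {0} (dco e) (e.1 + e.2.1) (dco e + 1) ∧
      v = nrm {0} (dco e) (e.1 + e.2.1 + 1) (dco e)) := by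
  cases h with
  | rise h => exact Or.inl ⟨h, rfl, rfl⟩
  | fall h => exact Or.inr ⟨h, rfl, rfl⟩

theorem mem_zp {e : Edg} : e ∈ zp ({0} : Set ℤ) ↔ dco e < 0 ∧ e.1 + e.2.1 + 1 = 0 := Iff.rfl

section
variable {z : ℤ × ℤ} {n : ℕ} {Qs Qp : ℤ → ℤ} (hc : Chart z n Qs Qp) {A B : ℤ} {X G : Set Edg}

include hc in
/-- an open edge gives a link -/
theorem back (hX : X ⊆ DB z n) {f : Edg} (hf : f ∈ Fq Qs A B X G) :
    LZ {0} X G (Nq Qp A B (src f)) (Nq Qp A B (tgt f)) := by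
  obtain ⟨h1, h2⟩ := hf
  have h3 := hX h1
  have hs : (Mq Qs A B f).1 + (Mq Qs A B f).2.1 = Qs (f.1 + f.2.1 + A) := edz_s _ _
  have hd : dco (Mq Qs A B f) = dco f + B := edz_d _ _
  obtain ⟨h3a, h3b⟩ := h3
  rw [hs] at h3a
  rw [hd] at h3b
  obtain ⟨k0, k1, k2, k3, k4⟩ := hc.ok _ _ h3a h3b
  refine ⟨Mq Qs A B f, h1, ?_, ?_⟩
  · rw [mem_zp, hs, hd]
    exact k0
  · have hg : gm Qs A B f ↔ ((Qs (f.1 + f.2.1 + A) + (dco f + B)) % 2 = 0 ↔ f.2.2 = true) :=
      Iff.rfl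
    rw [hg] at h2
    generalize Mq Qs A B f = e at *
    obtain ⟨x, y, _ | _⟩ := f
    · have hdc : dco ((x, y, false) : Edg) = x - y - 1 := rfl
      simp only [hdc] at hd h2 k1 k2 k3 k4
      simp only [src, tgt, Bool.false_eq_true, if_false, iff_false] at h2 ⊢
      by_cases he : e ∈ G
      · refine Or.inl ⟨he, Dg_f hs hd ?_ ?_ ?_⟩
        · have := h2.1 he
          show (Qs (x + y + A) + (x - y - 1 + B)) % 2 = _
          omega
        · rw [k2]
          simp only [Nq, Prod.mk.injEq, true_and]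
          omega
        · rw [k3]
          simp only [Nq, Prod.mk.injEq]
          constructor
          · congr 1
            omega
          · omega
      · refine Or.inr ⟨he, Dg_f hs hd ?_ ?_ ?_⟩
        · have : ¬ ¬ (Qs (x + y + A) + (x - y - 1 + B)) % 2 = 0 := fun h => he (h2.2 h)
          show (Qs (x + y + A) + (x - y - 1 + B)) % 2 = _
          omega
        · rw [k2]
          simp only [Nq, Prod.mk.injEq, true_and]
          omega
        · rw [k3]
          simp only [Nq, Prod.mk.injEq]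
          constructor
          · congr 1
            omega
          · omega
    · have hdc : dco ((x, y, true) : Edg) = x - y := rfl
      simp only [hdc] at hd h2 k1 k2 k3 k4
      simp only [src, tgt, if_true, iff_true] at h2 ⊢
      by_cases he : e ∈ G
      · refine Or.inl ⟨he, Dg_r hs hd ?_ ?_ ?_⟩
        · have := h2.1 he
          show (Qs (x + y + A) + (x - y + B)) % 2 = _
          omega
        · rw [k1]
          simp only [Nq]
        · rw [k4]
          simp only [Nq, Prod.mk.injEq]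
          constructor
          · congr 1
            omega
          · omega
      · refine Or.inr ⟨he, Dg_r hs hd ?_ ?_ ?_⟩
        · have : ¬ (Qs (x + y + A) + (x - y + B)) % 2 = 0 := fun h => he (h2.2 h)
          show (Qs (x + y + A) + (x - y + B)) % 2 = _
          omega
        · rw [k1]
          simp only [Nq]
        · rw [k4]
          simp only [Nq, Prod.mk.injEq]
          constructor
          · congr 1
            omega
          · omega

include hc in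
theorem back_reach (hX : X ⊆ DB z n) {U V : Vtx} (h : Reach (Fq Qs A B X G) U V) :
    RZ {0} X G (Nq Qp A B U) (Nq Qp A B V) := by
  unfold Reach at h
  induction h with
  | refl => exact Relation.EqvGen.refl _
  | tail _ hbc ih =>
    obtain ⟨e, he, (⟨rfl, rfl⟩ | ⟨rfl, rfl⟩)⟩ := hbc
    · exact ih.trans _ _ _ (Relation.EqvGen.rel _ _ (back hc hX he))
    · exact ih.trans _ _ _ (Relation.EqvGen.symm _ _ (Relation.EqvGen.rel _ _ (back hc hX he)))

include hc in
/-- a link gives an open edge -/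
theorem forw (hX : X ⊆ DB z n) {x y : ℤ × ℤ} (h : LZ {0} X G x y) :
    (∀ U, x = Nq Qp A B U → ∃ V, y = Nq Qp A B V ∧ Adj (Fq Qs A B X G) U V) ∧
    (∀ V, y = Nq Qp A B V → ∃ U, x = Nq Qp A B U ∧ Adj (Fq Qs A B X G) U V) := by
  obtain ⟨e, heX, hez, he⟩ := h
  obtain ⟨h3a, h3b⟩ := hX heX
  obtain ⟨a, ha⟩ := hc.sur _ _ h3a h3b (by rw [mem_zp] at hez; exact hez)
  rw [← ha] at h3a
  obtain ⟨k0, k1, k2, k3, k4⟩ := hc.ok _ _ h3a h3b
  -- the shape of the diagonal
  have hsh : ((e ∈ G ↔ (Qs a + dco e) % 2 = 0) ∧ x = (Qp a, dco e) ∧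
        y = (Qp (a + 1), dco e + 1)) ∨
      (¬ (e ∈ G ↔ (Qs a + dco e) % 2 = 0) ∧ x = (Qp a, dco e + 1) ∧ y = (Qp (a + 1), dco e)) := by
    rcases he with ⟨he, hD⟩ | ⟨he, hD⟩
    · rcases Dg_inv hD with ⟨h1, h2, h3⟩ | ⟨h1, h2, h3⟩
      · left
        rw [← ha] at h1 h2 h3
        refine ⟨?_, by rw [h2, k1], by rw [h3, k4]⟩
        simp only [he, true_iff]
        exact h1
      · right
        rw [← ha] at h1 h2 h3
        refine ⟨?_, by rw [h2, k2], by rw [h3, k3]⟩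
        simp only [he, true_iff]
        omega
    · rcases Dg_inv hD with ⟨h1, h2, h3⟩ | ⟨h1, h2, h3⟩
      · left
        rw [← ha] at h1 h2 h3
        refine ⟨?_, by rw [h2, k1], by rw [h3, k4]⟩
        simp only [he, false_iff]
        omega
      · right
        rw [← ha] at h1 h2 h3
        refine ⟨?_, by rw [h2, k2], by rw [h3, k3]⟩
        simp only [he, false_iff]
        omega
  -- the edge
  have hmk : ∀ f : Edg, f.1 + f.2.1 + A = a → dco f + B = dco e →
      ((e ∈ G ↔ (Qs a + dco e) % 2 = 0) ↔ f.2.2 = true) → f ∈ Fq Qs A B X G := by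
    intro f h1 h2 h3
    have h4 : Mq Qs A B f = e := by
      unfold Mq
      rw [h1, h2]
      exact edz_eq ha.symm rfl
    refine ⟨by rw [h4]; exact heX, ?_⟩
    rw [h4]
    unfold gm
    rw [h1, h2]
    tauto
  rcases hsh with ⟨h1, rfl, rfl⟩ | ⟨h1, rfl, rfl⟩
  · constructor
    · intro U hU
      simp only [Nq, Prod.mk.injEq] at hU
      have h5 := hc.injp hU.1
      have h6 := hU.2
      refine ⟨(U.1 + 1, U.2), ?_, ⟨(U.1, U.2, true), hmk _ ?_ ?_ ?_, Or.inl ⟨rfl, rfl⟩⟩⟩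
      · simp only [Nq, Prod.mk.injEq]
        constructor
        · congr 1
          omega
        · omega
      · exact h5.symm
      · show U.1 - U.2 + B = dco e
        omega
      · simp only [h1]
    · intro V hV
      simp only [Nq, Prod.mk.injEq] at hV
      have h5 := hc.injp hV.1
      have h6 := hV.2
      refine ⟨(V.1 - 1, V.2), ?_, ⟨(V.1 - 1, V.2, true), hmk _ ?_ ?_ ?_, Or.inl ⟨rfl, ?_⟩⟩⟩
      · simp only [Nq, Prod.mk.injEq]
        constructor
        · congr 1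
          omega
        · omega
      · simp only
        omega
      · show V.1 - 1 - V.2 + B = dco e
        omega
      · simp only [h1]
      · simp only [tgt, if_true]
        ext <;> simp
  · constructor
    · intro U hU
      simp only [Nq, Prod.mk.injEq] at hU
      have h5 := hc.injp hU.1
      have h6 := hU.2
      refine ⟨(U.1, U.2 + 1), ?_, ⟨(U.1, U.2, false), hmk _ ?_ ?_ ?_, Or.inl ⟨rfl, rfl⟩⟩⟩
      · simp only [Nq, Prod.mk.injEq]
        constructor
        · congr 1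
          omega
        · omega
      · exact h5.symm
      · show U.1 - U.2 - 1 + B = dco e
        omega
      · simp only [h1, Bool.false_eq_true]
    · intro V hV
      simp only [Nq, Prod.mk.injEq] at hV
      have h5 := hc.injp hV.1
      have h6 := hV.2
      refine ⟨(V.1, V.2 - 1), ?_, ⟨(V.1, V.2 - 1, false), hmk _ ?_ ?_ ?_, Or.inl ⟨rfl, ?_⟩⟩⟩
      · simp only [Nq, Prod.mk.injEq]
        constructor
        · congr 1
          omega
        · omega
      · simp only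
        omega
      · show V.1 - (V.2 - 1) - 1 + B = dco e
        omega
      · simp only [h1, Bool.false_eq_true]
      · simp only [tgt, Bool.false_eq_true, if_false]
        ext <;> simp

theorem adj_symm {F : Set Edg} {u v : Vtx} (h : Adj F u v) : Adj F v u := by
  obtain ⟨e, he, h⟩ := h
  exact ⟨e, he, h.symm⟩

theorem reach_symm {F : Set Edg} {u v : Vtx} (h : Reach F u v) : Reach F v u := by
  unfold Reach at h ⊢
  induction h with
  | refl => exact Relation.ReflTransGen.refl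
  | tail _ hbc ih => exact Relation.ReflTransGen.head (adj_symm hbc) ih

include hc in
theorem forw_reach (hX : X ⊆ DB z n) {x y : ℤ × ℤ} (h : RZ {0} X G x y) :
    (∀ U, x = Nq Qp A B U → ∃ V, y = Nq Qp A B V ∧ Reach (Fq Qs A B X G) U V) ∧
    (∀ V, y = Nq Qp A B V → ∃ U, x = Nq Qp A B U ∧ Reach (Fq Qs A B X G) V U) := by
  unfold RZ at h
  induction h with
  | rel x y h =>
    obtain ⟨h1, h2⟩ := forw hc hX h
    constructor
    · intro U hU
      obtain ⟨V, hV, h⟩ := h1 U hU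
      exact ⟨V, hV, Relation.ReflTransGen.single h⟩
    · intro V hV
      obtain ⟨U, hU, h⟩ := h2 V hV
      exact ⟨U, hU, Relation.ReflTransGen.single (adj_symm h)⟩
  | refl x => exact ⟨fun U hU => ⟨U, hU, Relation.ReflTransGen.refl⟩,
      fun V hV => ⟨V, hV, Relation.ReflTransGen.refl⟩⟩
  | symm x y _ ih => exact ⟨ih.2, ih.1⟩
  | trans x y w _ _ ih1 ih2 =>
    constructor
    · intro U hU
      obtain ⟨V, hV, h⟩ := ih1.1 U hU
      obtain ⟨W, hW, h'⟩ := ih2.1 V hV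
      exact ⟨W, hW, h.trans h'⟩
    · intro W hW
      obtain ⟨V, hV, h⟩ := ih2.2 W hW
      obtain ⟨U, hU, h'⟩ := ih1.2 V hV
      exact ⟨U, hU, h.trans h'⟩

end

/-! ### the event -/

theorem fst_cases {q : ℤ → ℤ} (h : ∀ a, q a = a ∨ q a = a + 1) (a : ℤ) : a ≤ q a ∧ q a ≤ a + 1 := by
  rcases h a with h | h <;> omega

theorem box_AZ {z : ℤ × ℤ} {n : ℕ} {Qs Qp : ℤ → ℤ} (hc : Chart z n Qs Qp) {n' : ℕ} {p : ℤ}
    (hp : p = 0 ∨ p = 1) (h1 : 2 * n' + 3 ≤ n) {f : Edg} (hf : f ∈ bxz (n' : ℤ)) :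
    Mq Qs (z.1 + p) z.2 f ∈ DB z n := by
  obtain ⟨hf1, hf2⟩ := hf
  rw [nm_le] at hf1 hf2
  show |(Mq Qs (z.1 + p) z.2 f).1 + (Mq Qs (z.1 + p) z.2 f).2.1 - z.1| ≤ n ∧
    |dco (Mq Qs (z.1 + p) z.2 f) - z.2| ≤ n
  unfold Mq
  rw [edz_s, edz_d, abs_le, abs_le]
  have h3 := fst_cases hc.nears (f.1 + f.2.1 + (z.1 + p))
  obtain ⟨x, y, _ | _⟩ := f
  · have hdc : dco ((x, y, false) : Edg) = x - y - 1 := rfl
    rw [hdc]
    simp only [src, tgt, Bool.false_eq_true, if_false] at hf1 hf2 h3 ⊢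
    rcases hp with rfl | rfl <;> omega
  · have hdc : dco ((x, y, true) : Edg) = x - y := rfl
    rw [hdc]
    simp only [src, tgt, if_true] at hf1 hf2 h3 ⊢
    rcases hp with rfl | rfl <;> omega

theorem box_AZ2 {z : ℤ × ℤ} {n : ℕ} {Qs Qp : ℤ → ℤ} (hc : Chart z n Qs Qp) {s r : ℕ} {p : ℤ}
    (hp : p = 0 ∨ p = 1) (h1 : s + 3 ≤ r) {f : Edg} (hf : Mq Qs (z.1 + p) z.2 f ∈ DB z s) :
    f ∈ bxz (r : ℤ) := by
  have hf' : |(Mq Qs (z.1 + p) z.2 f).1 + (Mq Qs (z.1 + p) z.2 f).2.1 - z.1| ≤ s ∧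
    |dco (Mq Qs (z.1 + p) z.2 f) - z.2| ≤ s := hf
  unfold Mq at hf'
  rw [edz_s, edz_d, abs_le, abs_le] at hf'
  have h3 := fst_cases hc.nears (f.1 + f.2.1 + (z.1 + p))
  show nm (src f) ≤ r ∧ nm (tgt f) ≤ r
  rw [nm_le, nm_le]
  obtain ⟨x, y, _ | _⟩ := f
  · have hdc : dco ((x, y, false) : Edg) = x - y - 1 := rfl
    rw [hdc] at hf'
    simp only [src, tgt, Bool.false_eq_true, if_false] at hf' h3 ⊢
    rcases hp with rfl | rfl <;> omega
  · have hdc : dco ((x, y, true) : Edg) = x - y := rfl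
    rw [hdc] at hf'
    simp only [src, tgt, if_true] at hf' h3 ⊢
    rcases hp with rfl | rfl <;> omega

/-- the corners of a square -/
theorem cor_cases {c : ℤ} {e : Edg} {x : ℤ × ℤ} (h : Cor {0} c e x) : e ∉ zp ({0} : Set ℤ) ∧
    (x = nrm {0} (dco e) (e.1 + e.2.1) (dco e) ∨ x = nrm {0} (dco e) (e.1 + e.2.1) (dco e + 1) ∨
      x = nrm {0} (dco e) (e.1 + e.2.1 + 1) (dco e) ∨
      x = nrm {0} (dco e) (e.1 + e.2.1 + 1) (dco e + 1)) := by
  obtain ⟨h0, y, h | h⟩ := h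
  · rcases Dg_inv h with ⟨-, h1, h2⟩ | ⟨-, h1, h2⟩
    · exact ⟨h0, Or.inl h1⟩
    · exact ⟨h0, Or.inr (Or.inl h1)⟩
  · rcases Dg_inv h with ⟨-, h1, h2⟩ | ⟨-, h1, h2⟩
    · exact ⟨h0, Or.inr (Or.inr (Or.inr h2))⟩
    · exact ⟨h0, Or.inr (Or.inr (Or.inl h2))⟩

theorem cor_in {z : ℤ × ℤ} {n : ℕ} {Qs Qp : ℤ → ℤ} (hc : Chart z n Qs Qp) {s : ℕ} (hsn : s ≤ n)
    {c : ℤ} {e : Edg} {x : ℤ × ℤ} (he : e ∈ DB z s) (h : Cor {0} c e x) :
    ∃ j t : ℤ, x = (Qp j, t) ∧ z.1 - (s + 1) ≤ j ∧ j ≤ z.1 + (s + 1) ∧ z.2 - (s + 1) ≤ t ∧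
      t ≤ z.2 + (s + 1) := by
  obtain ⟨h0, h1⟩ := cor_cases h
  obtain ⟨h3a, h3b⟩ := he
  have hsn' : (s : ℤ) ≤ n := by exact_mod_cast hsn
  have h4a := h3a.trans hsn'
  have h4b := h3b.trans hsn'
  obtain ⟨a, ha⟩ := hc.sur _ _ h4a h4b (by rw [mem_zp] at h0; exact h0)
  rw [← ha] at h4a h3a h1
  obtain ⟨k0, k1, k2, k3, k4⟩ := hc.ok _ _ h4a h4b
  rw [abs_le] at h3a h3b
  have h5 := fst_cases hc.nears a
  rcases h1 with h1 | h1 | h1 | h1
  · exact ⟨a, dco e, by rw [h1, k1], by omega, by omega, by omega, by omega⟩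
  · exact ⟨a, dco e + 1, by rw [h1, k2], by omega, by omega, by omega, by omega⟩
  · exact ⟨a + 1, dco e, by rw [h1, k3], by omega, by omega, by omega, by omega⟩
  · exact ⟨a + 1, dco e + 1, by rw [h1, k4], by omega, by omega, by omega, by omega⟩

theorem nrm_cases (d j t : ℤ) : (nrm {0} d j t).2 = t ∧ j - 1 ≤ (nrm {0} d j t).1 ∧
    (nrm {0} d j t).1 ≤ j := by
  unfold Pool.Agent.W801.OU.nrm
  split_ifs
  · simp
  · simp

theorem cor_out {z : ℤ × ℤ} {n : ℕ} {c : ℤ} {e : Edg} {x : ℤ × ℤ} (he : e ∉ DB z n)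
    (h : Cor {0} c e x) : (x.1 ≤ z.1 - n ∨ z.1 + n ≤ x.1) ∨ (x.2 ≤ z.2 - n ∨ z.2 + n ≤ x.2) := by
  obtain ⟨-, h1⟩ := cor_cases h
  have he' : ¬ (|e.1 + e.2.1 - z.1| ≤ n ∧ |dco e - z.2| ≤ n) := he
  rw [abs_le, abs_le] at he'
  have k1 := nrm_cases (dco e) (e.1 + e.2.1) (dco e)
  have k2 := nrm_cases (dco e) (e.1 + e.2.1) (dco e + 1)
  have k3 := nrm_cases (dco e) (e.1 + e.2.1 + 1) (dco e)
  have k4 := nrm_cases (dco e) (e.1 + e.2.1 + 1) (dco e + 1)
  rcases h1 with h1 | h1 | h1 | h1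
  · rw [← h1] at k1
    omega
  · rw [← h1] at k2
    omega
  · rw [← h1] at k3
    omega
  · rw [← h1] at k4
    omega

theorem pigeon (p : Fin 6 → Bool) : ∃ (q : Bool) (ι : Fin 3 → Fin 6), Function.Injective ι ∧
    ∀ k, p (ι k) = q := by
  have h1 : (univ.filter fun i => p i = true).card + (univ.filter fun i => ¬ p i = true).card = 6 := by
    have := Finset.card_filter_add_card_filter_not (s := (univ : Finset (Fin 6))) (fun i => p i = true)
    simpa using this
  have hk : ∀ q : Bool, 3 ≤ (univ.filter fun i => p i = q).card →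
      ∃ (q : Bool) (ι : Fin 3 → Fin 6), Function.Injective ι ∧ ∀ k, p (ι k) = q := by
    intro q hq
    obtain ⟨t, ht, hcard⟩ := Finset.exists_subset_card_eq hq
    refine ⟨q, t.orderEmbOfFin hcard, (t.orderEmbOfFin hcard).injective, fun k => ?_⟩
    have := ht (Finset.orderEmbOfFin_mem t hcard k)
    simpa using this
  by_cases h : 3 ≤ (univ.filter fun i => p i = true).card
  · exact hk true h
  · refine hk false ?_
    have h2 : (univ.filter fun i => ¬ p i = true) = univ.filter fun i => p i = false := by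
      refine Finset.filter_congr fun i _ => ?_
      simp
    rw [h2] at h1
    omega

theorem Fq_mono {Qs : ℤ → ℤ} {A B : ℤ} {X Y G : Set Edg} (h : X ⊆ Y) :
    Fq Qs A B X G ⊆ Fq Qs A B Y G := fun _ hf => ⟨h hf.1, hf.2⟩

theorem reach_mono {F F' : Set Edg} (h : F ⊆ F') {u v : Vtx} (hr : Reach F u v) : Reach F' u v := by
  unfold Reach at hr ⊢
  induction hr with
  | refl => exact Relation.ReflTransGen.refl
  | tail _ hbc ih =>
    obtain ⟨e, he, hh⟩ := hbc
    exact ih.tail ⟨e, h he, hh⟩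

theorem six_cl3 {z : ℤ × ℤ} {n : ℕ} {Qs Qp : ℤ → ℤ} (hc : Chart z n Qs Qp) {s r n' : ℕ}
    (h1 : 2 * n' + 3 ≤ n) (h2 : s + 3 ≤ r) (h3 : r < n') {G : Set Edg} (h : Six z s n G) :
    Cl3 r n' (Fq Qs (z.1 + 0) z.2 Set.univ G) ∨ Cl3 r n' (Fq Qs (z.1 + 1) z.2 Set.univ G) := by
  obtain ⟨x, y, hx, hy, hxy, hne⟩ := h
  have hx' : ∀ i, ∃ j t : ℤ, x i = (Qp j, t) ∧ z.1 - (s + 1) ≤ j ∧ j ≤ z.1 + (s + 1) ∧
      z.2 - (s + 1) ≤ t ∧ t ≤ z.2 + (s + 1) := by
    intro i
    obtain ⟨e, he, h | h⟩ := hx i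
    · exact cor_in hc (by omega) he h
    · exact cor_in hc (by omega) he h
  choose j t hjt j1 j2 t1 t2 using hx'
  obtain ⟨q, ι, hι, hq⟩ := pigeon (fun i => decide ((j i + t i - z.1 - z.2) % 2 = 0))
  have main : ∀ p : ℤ, (p = 0 ∨ p = 1) → (∀ k, (j (ι k) + t (ι k) - z.1 - z.2 - p) % 2 = 0) →
      Cl3 r n' (Fq Qs (z.1 + p) z.2 Set.univ G) := by
    intro p hp hpar
    have hXsub : AZ z s n ⊆ DB z n := fun e he => he.1
    have hU : ∀ k, ∃ U, x (ι k) = Nq Qp (z.1 + p) z.2 U ∧ nm U ≤ r := by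
      intro k
      have hpk := hpar k
      have a1 := j1 (ι k)
      have a2 := j2 (ι k)
      have a3 := t1 (ι k)
      have a4 := t2 (ι k)
      refine ⟨((j (ι k) + t (ι k) - z.1 - z.2 - p) / 2,
        (j (ι k) - t (ι k) - z.1 + z.2 - p) / 2), ?_, ?_⟩
      · rw [hjt (ι k)]
        simp only [Nq, Prod.mk.injEq]
        constructor
        · congr 1
          omega
        · omega
      · rw [nm_le]
        simp only
        rcases hp with rfl | rfl <;> omega
    choose U hU1 hU2 using hU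
    have hV : ∀ k, ∃ V, y (ι k) = Nq Qp (z.1 + p) z.2 V ∧
        Reach (Fq Qs (z.1 + p) z.2 (AZ z s n) G) (U k) V := fun k =>
      (forw_reach hc hXsub (hxy (ι k))).1 _ (hU1 k)
    choose V hV1 hV2 using hV
    have hV3 : ∀ k, (n' : ℤ) ≤ nm (V k) := by
      intro k
      by_contra hcon
      push Not at hcon
      have hle : nm (V k) ≤ (n' : ℤ) - 1 := by omega
      rw [nm_le] at hle
      obtain ⟨e, he, h | h⟩ := hy (ι k)
      all_goals
        have h4 := cor_out he h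
        rw [hV1 k] at h4
        simp only [Nq] at h4
        have h5 := fst_cases hc.nearp ((V k).1 + (V k).2 + (z.1 + p))
        rcases hp with rfl | rfl <;> omega
    have hexit : ∀ k, ∃ X' W, nm X' = (r : ℤ) ∧ nm W = (n' : ℤ) ∧
        Reach (Fq Qs (z.1 + p) z.2 (AZ z s n) G) (U k) X' ∧
        Reach (Fq Qs (z.1 + p) z.2 (AZ z s n) G ∩ (bxz (n' : ℤ) \ bxz (r : ℤ))) X' W := fun k =>
      exit (by exact_mod_cast h3) (hV2 k) (hU2 k) (hV3 k)
    choose X' W hX1 hW1 hX2 hW2 using hexit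
    refine ⟨X', fun k => ⟨hX1 k, W k, hW1 k, ?_⟩, fun k l hkl hr => ?_⟩
    · exact reach_mono (Set.inter_subset_inter_left _ (Fq_mono (Set.subset_univ _))) (hW2 k)
    · have hsub : Fq Qs (z.1 + p) z.2 Set.univ G ∩ (bxz (n' : ℤ) \ bxz (r : ℤ)) ⊆
          Fq Qs (z.1 + p) z.2 (AZ z s n) G := by
        rintro f ⟨hf, hf1, hf2⟩
        refine ⟨⟨box_AZ hc hp h1 hf1, fun hf3 => hf2 (box_AZ2 hc hp h2 hf3)⟩, hf.2⟩
      have h6 := reach_mono hsub hr
      have h7 : Reach (Fq Qs (z.1 + p) z.2 (AZ z s n) G) (U k) (U l) :=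
        ((hX2 k).trans h6).trans (reach_symm (hX2 l))
      have h8 := back_reach hc hXsub h7
      rw [← hU1 k, ← hU1 l] at h8
      exact hne _ _ (fun h => hkl (hι h)) h8
  cases q with
  | true =>
    left
    refine main 0 (Or.inl rfl) fun k => ?_
    have := of_decide_eq_true (hq k)
    omega
  | false =>
    right
    refine main 1 (Or.inr rfl) fun k => ?_
    have := of_decide_eq_false (hq k)
    omega

/-- the probability -/
theorem pr_cl3 {z : ℤ × ℤ} {n : ℕ} {Qs Qp : ℤ → ℤ} (hc : Chart z n Qs Qp) {r n' : ℕ} {p : ℤ}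
    (hp : p = 0 ∨ p = 1) (h1 : 2 * n' + 3 ≤ n) {S : Finset Edg} (hS : ∀ e ∈ DB z n, e ∈ S) :
    Pr (fun _ => (1 / 2 : ℝ)) S (fun G => Cl3 r n' (Fq Qs (z.1 + p) z.2 Set.univ (↑G : Set Edg))) =
      Pr (fun _ => (1 / 2 : ℝ)) (boxE n') (fun F => Cl3 r n' (↑F : Set Edg)) := by
  classical
  have hbox : ∀ f : Edg, f ∈ boxE n' ↔ f ∈ bxz (n' : ℤ) := by
    intro f
    show f ∈ RE (-n') n' (-n') n' ↔ nm (src f) ≤ (n' : ℤ) ∧ nm (tgt f) ≤ (n' : ℤ)
    rw [nm_le, nm_le]
    obtain ⟨x, y, _ | _⟩ := f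
    · rw [mem_RE_false]
      simp only [src, tgt, Bool.false_eq_true, if_false]
      omega
    · rw [mem_RE_true]
      simp only [src, tgt, if_true]
      omega
  rw [← Pr_tr (T := boxE n') (S := S) (Mq Qs (z.1 + p) z.2) ?_ ?_ (gm Qs (z.1 + p) z.2)]
  · refine Pr_congr fun G _ => ?_
    have hset : Fq Qs (z.1 + p) z.2 Set.univ (↑G : Set Edg) ∩ (bxz (n' : ℤ) \ bxz (r : ℤ)) =
        (↑((boxE n').filter fun f => (Mq Qs (z.1 + p) z.2 f ∈ G ↔ gm Qs (z.1 + p) z.2 f)) :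
          Set Edg) ∩ (bxz (n' : ℤ) \ bxz (r : ℤ)) := by
      ext f
      simp only [Fq, Set.mem_inter_iff, Set.mem_ofPred_eq, Set.mem_univ, true_and, Finset.coe_filter,
        hbox, Set.mem_sdiff, Finset.mem_coe]
      tauto
    unfold Cl3
    rw [hset]
  · intro f _ g _ hfg
    have h2 : (Mq Qs (z.1 + p) z.2 f).1 + (Mq Qs (z.1 + p) z.2 f).2.1 =
        (Mq Qs (z.1 + p) z.2 g).1 + (Mq Qs (z.1 + p) z.2 g).2.1 := by rw [hfg]
    have h3 : dco (Mq Qs (z.1 + p) z.2 f) = dco (Mq Qs (z.1 + p) z.2 g) := by rw [hfg]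
    unfold Mq at h2 h3
    rw [edz_s, edz_s] at h2
    rw [edz_d, edz_d] at h3
    have h4 := hc.injs h2
    rw [← edz_of' f, ← edz_of' g]
    congr 1
    · omega
    · omega
  · intro e he
    obtain ⟨f, hf, rfl⟩ := Finset.mem_image.1 he
    exact hS _ (box_AZ hc hp h1 ((hbox f).1 hf))

theorem ok_half : Ok (fun _ : Edg => (1 / 2 : ℝ)) := fun _ => ⟨by norm_num, by norm_num⟩

end P6i

open P6i in
theorem t_P6 : S_CL3 → S_P6 := by
  intro hCL s
  obtain ⟨C0, hC0, hC⟩ := hCL (s + 3) (by omega)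
  have hN0 : (0 : ℝ) < 8 * ((s : ℝ) + 10) := by positivity
  refine ⟨128 * C0 + (8 * ((s : ℝ) + 10)) ^ 3, by positivity, fun z n S hn hz hS => ?_⟩
  have hnpos : (0 : ℝ) < n := by exact_mod_cast hn
  have hn1 : (1 : ℝ) ≤ n := by exact_mod_cast hn
  have hpow : 0 < (n : ℝ) ^ (-(35 / 12 : ℝ)) := Real.rpow_pos_of_pos hnpos _
  by_cases hbig : 8 * (s + 10) ≤ n
  · obtain ⟨Qs, Qp, hc⟩ := chart_ex z n hn hz
    set n' : ℕ := (n - 6) / 2 with hn'
    have h1 : 2 * n' + 3 ≤ n := by omega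
    have h3 : s + 3 < n' := by omega
    have h4 : n ≤ 4 * n' := by omega
    have hle : Pr (fun _ => (1 / 2 : ℝ)) S (fun G => Six z s n (↑G : Set Edg)) ≤
        C0 * (n' : ℝ) ^ (-(35 / 12 : ℝ)) + C0 * (n' : ℝ) ^ (-(35 / 12 : ℝ)) := by
      refine (Pr_mono ok_half (fun G _ hG => six_cl3 hc h1 le_rfl h3 hG)).trans ?_
      refine (Pr_or_le ok_half S _ _).trans ?_
      rw [pr_cl3 hc (Or.inl rfl) h1 hS, pr_cl3 hc (Or.inr rfl) h1 hS]
      have := hC n' (by omega)
      exact add_le_add this this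
    have hn4 : (0 : ℝ) < (n : ℝ) / 4 := by positivity
    have h5 : (n' : ℝ) ^ (-(35 / 12 : ℝ)) ≤ ((n : ℝ) / 4) ^ (-(35 / 12 : ℝ)) := by
      refine Real.rpow_le_rpow_of_nonpos hn4 ?_ (by norm_num)
      have : (n : ℝ) ≤ 4 * n' := by exact_mod_cast h4
      linarith
    have h6 : ((n : ℝ) / 4) ^ (-(35 / 12 : ℝ)) ≤ 64 * (n : ℝ) ^ (-(35 / 12 : ℝ)) := by
      rw [Real.div_rpow hnpos.le (by norm_num)]
      rw [div_eq_mul_inv, mul_comm]
      refine mul_le_mul_of_nonneg_right ?_ hpow.le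
      rw [← Real.rpow_neg (by norm_num), neg_neg]
      calc (4 : ℝ) ^ (35 / 12 : ℝ) ≤ (4 : ℝ) ^ (3 : ℝ) :=
            Real.rpow_le_rpow_of_exponent_le (by norm_num) (by norm_num)
        _ = 64 := by norm_num
    have h7 : (n' : ℝ) ^ (-(35 / 12 : ℝ)) ≤ 64 * (n : ℝ) ^ (-(35 / 12 : ℝ)) := h5.trans h6
    have h8 : 0 ≤ (8 * ((s : ℝ) + 10)) ^ 3 * (n : ℝ) ^ (-(35 / 12 : ℝ)) := by positivity
    nlinarith
  · push Not at hbig
    refine (Pr_le_one ok_half _ _).trans ?_
    have h1 : (n : ℝ) ≤ 8 * ((s : ℝ) + 10) := by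
      have : (n : ℝ) ≤ ((8 * (s + 10) : ℕ) : ℝ) := by exact_mod_cast hbig.le
      push_cast at this
      exact this
    have h2 : (n : ℝ) ^ (35 / 12 : ℝ) ≤ (8 * ((s : ℝ) + 10)) ^ 3 := by
      calc (n : ℝ) ^ (35 / 12 : ℝ) ≤ (n : ℝ) ^ (3 : ℝ) :=
            Real.rpow_le_rpow_of_exponent_le hn1 (by norm_num)
        _ = (n : ℝ) ^ 3 := by
            rw [← Real.rpow_natCast]
            norm_num
        _ ≤ _ := pow_le_pow_left₀ hnpos.le h1 3
    have h3 : (n : ℝ) ^ (35 / 12 : ℝ) * (n : ℝ) ^ (-(35 / 12 : ℝ)) = 1 := by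
      rw [← Real.rpow_add hnpos]
      norm_num
    have h4 : 1 ≤ (8 * ((s : ℝ) + 10)) ^ 3 * (n : ℝ) ^ (-(35 / 12 : ℝ)) := by
      rw [← h3]
      exact mul_le_mul_of_nonneg_right h2 hpow.le
    have h5 : 0 ≤ 128 * C0 * (n : ℝ) ^ (-(35 / 12 : ℝ)) := by positivity
    nlinarith

end Pool.Agent.W801.RS
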