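import Pool.Agent.W801.RS.Stm

/-!
# Algebra of the map to the plane
-/

set_option autoImplicit false

namespace Pool.Agent.W801.RS
open H974 H906.Cyl
open Pool.Agent.W801.OU (RZ LZ Dg nrm zp bxz)
open Pool.Agent.W801.OS (cr)

namespace RAaux

/-- the normal form, with an explicit first coordinate -/
def nf (d j : ℤ) : ℤ := if d < 0 ∧ j = 0 then -1 else j

theorem nrm_eq (d j t : ℤ) : nrm {0} d j t = (nf d j, t) := by
  unfold nrm nf
  by_cases h : d < 0 ∧ j = 0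
  · have h' : d < 0 ∧ j ∈ ({0} : Set ℤ) := ⟨h.1, h.2⟩
    rw [if_pos h', if_pos h, h.2]
    rfl
  · have h' : ¬ (d < 0 ∧ j ∈ ({0} : Set ℤ)) := h
    rw [if_neg h', if_neg h]

/-- the corners of a link -/
theorem corners {G : Set Edg} {e : Edg} {x y : ℤ × ℤ} (h : Lq G e x y) :
    ¬ (dco e < 0 ∧ e.1 + e.2.1 + 1 = 0) ∧ ∃ i k : ℤ, (i = 0 ∨ i = 1) ∧ (k = 0 ∨ k = 1) ∧
      x = nrm {0} (dco e) (e.1 + e.2.1 + i) (dco e + k) ∧
      y = nrm {0} (dco e) (e.1 + e.2.1 + (1 - i)) (dco e + (1 - k)) := by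
  obtain ⟨hz, h⟩ := h
  refine ⟨fun h' => hz h', ?_⟩
  have key : ∀ (c : ℤ) (u v : ℤ × ℤ), Dg {0} c e u v → ∃ k : ℤ, (k = 0 ∨ k = 1) ∧
      u = nrm {0} (dco e) (e.1 + e.2.1 + 0) (dco e + k) ∧
      v = nrm {0} (dco e) (e.1 + e.2.1 + 1) (dco e + (1 - k)) := by
    intro c u v huv
    cases huv with
    | rise _ => exact ⟨0, Or.inl rfl, by rw [add_zero, add_zero], by rw [sub_zero]⟩
    | fall _ => exact ⟨1, Or.inr rfl, by rw [add_zero], by rw [sub_self, add_zero]⟩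
  have key2 : ∀ (c : ℤ), (Dg {0} c e x y ∨ Dg {0} c e y x) → ∃ i k : ℤ, (i = 0 ∨ i = 1) ∧
      (k = 0 ∨ k = 1) ∧ x = nrm {0} (dco e) (e.1 + e.2.1 + i) (dco e + k) ∧
      y = nrm {0} (dco e) (e.1 + e.2.1 + (1 - i)) (dco e + (1 - k)) := by
    rintro c (h | h)
    · obtain ⟨k, hk, h1, h2⟩ := key c _ _ h
      exact ⟨0, k, Or.inl rfl, hk, h1, by rw [sub_zero]; exact h2⟩
    · obtain ⟨k, hk, h1, h2⟩ := key c _ _ h
      refine ⟨1, 1 - k, Or.inr rfl, by omega, h2, ?_⟩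
      rw [sub_self, sub_sub_cancel]
      exact h1
  rcases h with ⟨-, h⟩ | ⟨-, h⟩
  · exact key2 0 h
  · exact key2 1 h

theorem part2 (m : ℤ × ℤ → ℤ) (x : ℤ × ℤ) (sq d i k : ℤ) (hi : i = 0 ∨ i = 1) (hk : k = 0 ∨ k = 1)
    (hd : ¬ (d < 0 ∧ sq + 1 = 0)) (hx : nrm {0} d (sq + i) (d + k) = x) :
    (dsi m x sq d).2 = d ∧ Psi m x = ((dsi m x sq d).1 + i, (dsi m x sq d).2 + k) := by
  rw [nrm_eq] at hx
  have h1 : x.1 = nf d (sq + i) := by rw [← hx]
  have h2 : x.2 = d + k := by rw [← hx]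
  unfold dsi Psi kpp vnS vnK
  generalize m x = q
  rw [h1, h2]
  unfold nf
  constructor
  · split_ifs <;> rfl
  · apply Prod.ext
    · split_ifs <;> simp only <;> omega
    · split_ifs <;> simp only <;> omega

theorem gauge_eq {R : ℕ} {G : Set Edg} {m : ℤ × ℤ → ℤ} (hm : GauD R G m) {x y : ℤ × ℤ} {e : Edg}
    (hx : K1 R G x) (he : e ∈ bxz R) (h : Lq G e x y) :
    dsi m x (e.1 + e.2.1) (dco e) = dsi m y (e.1 + e.2.1) (dco e) := by
  have hs := hm.step x y e hx he h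
  obtain ⟨hz, i, k, hi, hk, h1, h2⟩ := corners h
  rw [nrm_eq] at h1 h2
  have a1 : x.1 = nf (dco e) (e.1 + e.2.1 + i) := by rw [h1]
  have a2 : x.2 = dco e + k := by rw [h1]
  have b1 : y.1 = nf (dco e) (e.1 + e.2.1 + (1 - i)) := by rw [h2]
  have b2 : y.2 = dco e + (1 - k) := by rw [h2]
  clear h1 h2
  unfold dsi kpp
  unfold cr at hs
  simp only at hs
  generalize m x = q at *
  generalize m y = q' at *
  rw [a2, b2] at *
  generalize x.1 = x1 at *
  generalize y.1 = y1 at *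
  clear a1 b1 a2 b2
  generalize dco e = d at *
  apply Prod.ext
  · split_ifs at hs ⊢ <;> simp only <;> omega
  · split_ifs <;> rfl

theorem k1_of {R : ℕ} {G : Set Edg} {a b : ℤ × ℤ} (ha : K1 R G a)
    (h : RZ {0} (bxz R) G a b) : K1 R G b := Relation.EqvGen.trans _ _ _ ha h

theorem lq_of {R : ℕ} {G : Set Edg} {a b : ℤ × ℤ} (h : LZ {0} (bxz R) G a b) :
    ∃ e ∈ bxz R, Lq G e a b := by
  obtain ⟨e, he, hz, h⟩ := h
  refine ⟨e, he, hz, ?_⟩
  rcases h with ⟨h1, h2⟩ | ⟨h1, h2⟩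
  · exact Or.inl ⟨h1, Or.inl h2⟩
  · exact Or.inr ⟨h1, Or.inl h2⟩

theorem part1 {R : ℕ} {G : Set Edg} {x : ℤ × ℤ} (hx : K1 R G x) : x.2 < 0 → x.1 ≠ 0 := by
  have key : ∀ a b : ℤ × ℤ, Relation.EqvGen (LZ {0} (bxz R) G) a b →
      ((a.2 < 0 → a.1 ≠ 0) ↔ (b.2 < 0 → b.1 ≠ 0)) := by
    intro a b h
    induction h with
    | rel u v h =>
      obtain ⟨e, -, h⟩ := lq_of h
      obtain ⟨hz, i, k, hi, hk, h1, h2⟩ := corners h
      rw [nrm_eq] at h1 h2
      rw [h1, h2]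
      unfold nf
      simp only
      constructor
      · intro _ hlt
        split_ifs <;> omega
      · intro _ hlt
        split_ifs <;> omega
    | refl u => exact Iff.rfl
    | symm u v _ ih => exact ih.symm
    | trans u v w _ _ ih1 ih2 => exact ih1.trans ih2
  exact (key _ _ hx).1 (fun h => absurd h (lt_irrefl _))

theorem part3 {R : ℕ} {G : Set Edg} (m : ℤ × ℤ → ℤ) {x : ℤ × ℤ} {s' d' i k : ℤ} (hx : K1 R G x)
    (hx0 : x ≠ (0, 0)) (hi : i = 0 ∨ i = 1) (hk : k = 0 ∨ k = 1)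
    (hP : Psi m x = (s' + i, d' + k)) : ∃ sq : ℤ, ¬ (d' < 0 ∧ sq + 1 = 0) ∧
      nrm {0} d' (sq + i) (d' + k) = x ∧ dsi m x sq d' = (s', d') := by
  have h1 := part1 hx
  have hx0' : ¬ (x.1 = 0 ∧ x.2 = 0) := fun h => hx0 (Prod.ext h.1 h.2)
  have hP1 : (Psi m x).1 = s' + i := by rw [hP]
  have hP2 : (Psi m x).2 = d' + k := by rw [hP]
  have hx2 : x.2 = d' + k := by
    rw [← hP2]; unfold Psi; split_ifs <;> rfl
  unfold Psi vnK at hP1
  refine ⟨if 0 ≤ d' then s' - m x else if s' - kpp m x ≤ -2 then s' - kpp m x else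
    s' - kpp m x + 1, ?_, ?_, ?_⟩
  · split_ifs <;> omega
  · rw [nrm_eq]
    apply Prod.ext
    · unfold nf kpp
      generalize m x = q at *
      split_ifs at hP1 ⊢ <;> simp only at hP1 ⊢ <;> omega
    · exact hx2.symm
  · unfold dsi vnS
    generalize kpp m x = q at *
    apply Prod.ext
    · split_ifs <;> simp only <;> omega
    · split_ifs <;> rfl

end RAaux

open RAaux in
theorem t_RA : S_RA := by
  intro R G m hm
  have h4 : ∀ (x y : ℤ × ℤ) (e : Edg), K1 R G x → e ∈ bxz R → Lq G e x y →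
      dsi m x (e.1 + e.2.1) (dco e) = dsi m y (e.1 + e.2.1) (dco e) ∧
      |(Psi m y).1 - (Psi m x).1| = 1 ∧ |(Psi m y).2 - (Psi m x).2| = 1 := by
    intro x y e hx he h
    have hg := gauge_eq hm hx he h
    obtain ⟨hz, i, k, hi, hk, h1, h2⟩ := corners h
    have p1 := part2 m x _ _ i k hi hk hz h1.symm
    have p2 := part2 m y _ _ (1 - i) (1 - k) (by omega) (by omega) hz h2.symm
    refine ⟨hg, ?_⟩
    rw [p1.2, p2.2, hg]
    simp only
    constructor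
    · rcases hi with rfl | rfl
      · rw [abs_eq (by norm_num)]; left; ring
      · rw [abs_eq (by norm_num)]; right; ring
    · rcases hk with rfl | rfl
      · rw [abs_eq (by norm_num)]; left; ring
      · rw [abs_eq (by norm_num)]; right; ring
  refine ⟨fun x hx => part1 hx, fun x sq d i k hi hk hd hx => part2 m x sq d i k hi hk hd hx,
    fun x s' d' i k hx hx0 hi hk hP => part3 m hx hx0 hi hk hP, h4, ?_⟩
  intro x hx
  have key : ∀ a b : ℤ × ℤ, Relation.EqvGen (LZ {0} (bxz R) G) a b → K1 R G a →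
      ((Psi m b).1 + (Psi m b).2) % 2 = ((Psi m a).1 + (Psi m a).2) % 2 := by
    intro a b h
    induction h with
    | rel u v h =>
      intro hu
      obtain ⟨e, he, h⟩ := lq_of h
      obtain ⟨-, e1, e2⟩ := h4 u v e hu he h
      rw [abs_eq (by norm_num)] at e1 e2
      omega
    | refl u => intro _; rfl
    | symm u v h ih =>
      intro hv
      exact (ih (k1_of hv (Relation.EqvGen.symm _ _ h))).symm
    | trans u v w h1 h2 ih1 ih2 =>
      intro hu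
      rw [ih2 (k1_of hu h1), ih1 hu]
  rw [key _ _ hx (Relation.EqvGen.refl _)]
  unfold Psi
  rw [if_pos (le_refl (0 : ℤ))]
  simp only [hm.zero]
  norm_num

end Pool.Agent.W801.RS
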