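import Pool.Agent.W801.RS.Stm
import Pool.Agent.W801.OS.T_CMP

/-! # The coupling of the reverse seam -/

set_option autoImplicit false

namespace Pool.Agent.W801.RS
open H974 H906.Cyl H12S Finset
open Pool.Agent.H160R2.ML (nm)
open Pool.Agent.W801.OU (RZ LZ Dg nrm zp Cor scz bxz SE3 uR S_UR3)
open Pool.Agent.W801.OU.TISO (Ri edz_sum dco_edz edz_eq)
open Pool.Agent.W801.OS (cr)
open Pool.Agent.W801.OS.TCMP (bxz_iff bxz_of_bound pp count)
open Pool.Agent.W424.OD (A3v AE)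

namespace TRSV

/-- touched by the cluster -/
def Tch (R : ℕ) (G : Set Edg) (e : Edg) : Prop :=
  ∃ x : ℤ × ℤ, K1 R G x ∧ (Cor {0} 0 e x ∨ Cor {0} 1 e x)

/-- explored -/
def Exr (ρ R : ℕ) (G : Set Edg) (e : Edg) : Prop := e ∈ AnD ρ R ∧ Tch R G e

theorem cnz_of {c : ℤ} {e : Edg} {x : ℤ × ℤ} (h : Cor {0} c e x) :
    Cnz x (e.1 + e.2.1) (dco e) := by
  obtain ⟨hz, y, hy⟩ := h
  refine ⟨hz, ?_⟩
  rcases hy with hy | hy
  · cases hy with
    | rise _ => exact ⟨0, 0, Or.inl rfl, Or.inl rfl, by simp⟩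
    | fall _ => exact ⟨0, 1, Or.inl rfl, Or.inr rfl, by simp⟩
  · cases hy with
    | rise _ => exact ⟨1, 1, Or.inr rfl, Or.inr rfl, rfl⟩
    | fall _ => exact ⟨1, 0, Or.inr rfl, Or.inl rfl, by simp⟩

theorem cnz_of' {e : Edg} {x : ℤ × ℤ} (h : Cor {0} 0 e x ∨ Cor {0} 1 e x) :
    Cnz x (e.1 + e.2.1) (dco e) := by
  rcases h with h | h
  · exact cnz_of h
  · exact cnz_of h

theorem cor_lq {G : Set Edg} {e : Edg} {x y : ℤ × ℤ} (h : Lq G e x y) :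
    Cor {0} 0 e x ∨ Cor {0} 1 e x := by
  obtain ⟨hz, ⟨-, h⟩ | ⟨-, h⟩⟩ := h
  · left
    rcases h with h | h
    · exact ⟨hz, y, Or.inl h⟩
    · exact ⟨hz, y, Or.inr h⟩
  · right
    rcases h with h | h
    · exact ⟨hz, y, Or.inl h⟩
    · exact ⟨hz, y, Or.inr h⟩

theorem lq_rz {B G : Set Edg} {e : Edg} {x y : ℤ × ℤ} (he : e ∈ B) (h : Lq G e x y) :
    RZ {0} B G x y := by
  obtain ⟨hz, ⟨h1, h | h⟩ | ⟨h1, h | h⟩⟩ := h
  · exact Relation.EqvGen.rel _ _ ⟨e, he, hz, Or.inl ⟨h1, h⟩⟩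
  · exact Relation.EqvGen.symm _ _ (Relation.EqvGen.rel _ _ ⟨e, he, hz, Or.inl ⟨h1, h⟩⟩)
  · exact Relation.EqvGen.rel _ _ ⟨e, he, hz, Or.inr ⟨h1, h⟩⟩
  · exact Relation.EqvGen.symm _ _ (Relation.EqvGen.rel _ _ ⟨e, he, hz, Or.inr ⟨h1, h⟩⟩)

theorem rz_rt {B G : Set Edg} {x y : ℤ × ℤ} (h : RZ {0} B G x y) :
    Relation.ReflTransGen (fun u v => ∃ e ∈ B, Lq G e u v) x y ∧
      Relation.ReflTransGen (fun u v => ∃ e ∈ B, Lq G e u v) y x := by
  induction h with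
  | rel x y h =>
    obtain ⟨e, he, hz, h⟩ := h
    have h1 : Lq G e x y := ⟨hz, by
      rcases h with ⟨h1, h2⟩ | ⟨h1, h2⟩
      · exact Or.inl ⟨h1, Or.inl h2⟩
      · exact Or.inr ⟨h1, Or.inl h2⟩⟩
    have h2 : Lq G e y x := ⟨hz, by
      rcases h with ⟨h1, h2⟩ | ⟨h1, h2⟩
      · exact Or.inl ⟨h1, Or.inr h2⟩
      · exact Or.inr ⟨h1, Or.inr h2⟩⟩
    exact ⟨Relation.ReflTransGen.single ⟨e, he, h1⟩, Relation.ReflTransGen.single ⟨e, he, h2⟩⟩
  | refl x => exact ⟨Relation.ReflTransGen.refl, Relation.ReflTransGen.refl⟩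
  | symm x y _ ih => exact ⟨ih.2, ih.1⟩
  | trans x y z _ _ ih1 ih2 => exact ⟨ih1.1.trans ih2.1, ih2.2.trans ih1.2⟩

theorem k1_ind {R : ℕ} {G : Set Edg} {P : ℤ × ℤ → Prop} (h0 : P (0, 0))
    (hs : ∀ x y e, K1 R G x → P x → e ∈ bxz R → Lq G e x y → P y) {x : ℤ × ℤ}
    (h : K1 R G x) : P x := by
  have h1 := (rz_rt h).1
  have key : ∀ y, Relation.ReflTransGen (fun u v => ∃ e ∈ bxz (R : ℤ), Lq G e u v) (0, 0) y →
      K1 R G y ∧ P y := by
    intro y hy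
    induction hy with
    | refl => exact ⟨Relation.EqvGen.refl _, h0⟩
    | @tail u w h2 h3 ih =>
      obtain ⟨e, he, h4⟩ := h3
      exact ⟨Relation.EqvGen.trans _ _ _ ih.1 (lq_rz he h4), hs u w e ih.1 ih.2 he h4⟩
  exact (key x h1).2

/-- the data -/
structure RD (C ρ R : ℕ) (G : Set Edg) (m : ℤ × ℤ → ℤ) : Prop where
  g : GauD R G m
  c1 : ∀ (x x' : ℤ × ℤ) (sq d : ℤ), K1 R G x → K1 R G x' → Rg ρ R x → Rg ρ R x' → Cnz x sq d →
    Cnz x' sq d → dsi m x sq d = dsi m x' sq d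
  c2 : ∀ (x x' : ℤ × ℤ) (sq d sq' d' : ℤ), K1 R G x → K1 R G x' → Rg ρ R x → Rg ρ R x' →
    Cnz x sq d → Cnz x' sq' d' → dsi m x sq d = dsi m x' sq' d' → sq = sq' ∧ d = d'
  b : ∀ x, K1 R G x → 2 * nz x ≤ R → 2 * |m x| ≤ |x.1| + C * (|x.2| + 1)

open Classical in
/-- the image of a square -/
noncomputable def img (R : ℕ) (G : Set Edg) (m : ℤ × ℤ → ℤ) (e : Edg) : Edg :=
  if h : Tch R G e then im m h.choose e else e

theorem img_eq {C ρ R : ℕ} {G : Set Edg} {m : ℤ × ℤ → ℤ} (D : RD C ρ R G m) {e : Edg}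
    (he : e ∈ AnD ρ R) {x : ℤ × ℤ} (hx : K1 R G x) (hc : Cor {0} 0 e x ∨ Cor {0} 1 e x) :
    img R G m e = im m x e := by
  have h : Tch R G e := ⟨x, hx, hc⟩
  unfold img
  rw [dif_pos h]
  obtain ⟨h1, h2⟩ := h.choose_spec
  unfold im
  rw [D.c1 _ _ _ _ h1 hx (he.2 _ h2) (he.2 _ hc) (cnz_of' h2) (cnz_of' hc)]

theorem dsi_snd (m : ℤ × ℤ → ℤ) (x : ℤ × ℤ) (s d : ℤ) : (dsi m x s d).2 = d := by
  unfold dsi; split_ifs <;> rfl

theorem img_inj {C ρ R : ℕ} {G : Set Edg} {m : ℤ × ℤ → ℤ} (D : RD C ρ R G m) {e e' : Edg}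
    (h : Exr ρ R G e) (h' : Exr ρ R G e') (he : img R G m e = img R G m e') : e = e' := by
  obtain ⟨h1, x, h2, h3⟩ := h
  obtain ⟨h1', x', h2', h3'⟩ := h'
  rw [img_eq D h1 h2 h3, img_eq D h1' h2' h3'] at he
  unfold im at he
  have e1 := congrArg (fun e : Edg => e.1 + e.2.1) he
  have e2 := congrArg dco he
  simp only [edz_sum] at e1
  simp only [dco_edz] at e2
  obtain ⟨h4, h5⟩ := D.c2 _ _ _ _ _ _ h2 h2' (h1.2 _ h3) (h1'.2 _ h3') (cnz_of' h3) (cnz_of' h3')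
    (Prod.ext e1 e2)
  rw [← edz_eq e, ← edz_eq e', h4, h5]

theorem nz1 (x : ℤ × ℤ) : |x.1| ≤ nz x := le_max_left _ _
theorem nz2 (x : ℤ × ℤ) : |x.2| ≤ nz x := le_max_right _ _

theorem cnz_near {x : ℤ × ℤ} {s d : ℤ} (h : Cnz x s d) : |s| ≤ |x.1| + 1 ∧ |d| ≤ |x.2| + 1 := by
  obtain ⟨-, i, k, hi, hk, h⟩ := h
  have h1 : x.1 = s + i ∨ x.1 = s + i - 1 := by
    rw [← h]
    unfold nrm
    split_ifs
    · right; rfl
    · left; rfl
  have h2 : x.2 = d + k := by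
    rw [← h]
    unfold nrm
    split_ifs <;> rfl
  constructor
  · rcases abs_cases s with ha | ha <;> rcases abs_cases x.1 with hb | hb <;> omega
  · rcases abs_cases d with ha | ha <;> rcases abs_cases x.2 with hb | hb <;> omega

theorem and_mem {ρ R : ℕ} (hR : 6 ≤ R) {e : Edg} (he : e ∈ AnD ρ R) {x : ℤ × ℤ}
    (hc : Cor {0} 0 e x ∨ Cor {0} 1 e x) : e ∈ boxE R := by
  have h1 := cnz_near (cnz_of' hc)
  have h2 := (he.2 _ hc).2
  have h3 := nz1 x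
  have h4 := nz2 x
  rw [← bxz_iff, ← edz_eq e]
  apply bxz_of_bound
  omega

theorem im_mem {C ρ R K : ℕ} {G : Set Edg} {m : ℤ × ℤ → ℤ} (D : RD C ρ R G m) (hR : 6 ≤ R)
    (hK : 8 * C + 40 ≤ K) {e : Edg} (he : e ∈ AnD ρ R) {x : ℤ × ℤ} (hx : K1 R G x)
    (hc : Cor {0} 0 e x ∨ Cor {0} 1 e x) : im m x e ∈ boxE (K * R) := by
  have h1 := cnz_near (cnz_of' hc)
  have h2 := (he.2 _ hc).2
  have h3 := nz1 x
  have h4 := nz2 x
  have h5 := D.b x hx h2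
  have hC0 : (0 : ℤ) ≤ C := Int.natCast_nonneg C
  have h6 : (C : ℤ) * (|x.2| + 1) ≤ C * R := mul_le_mul_of_nonneg_left (by omega) hC0
  have h7 : |m x| ≤ R + C * R := by
    have := abs_nonneg (m x)
    omega
  have h8 : |kpp m x| ≤ R + C * R + 1 := by
    unfold kpp
    split_ifs
    · have := abs_add_le (m x) 1
      simp only [abs_one] at this
      omega
    · rw [add_zero]; omega
  have h9 : |(dsi m x (e.1 + e.2.1) (dco e)).1| ≤ 2 * R + C * R + 3 := by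
    unfold dsi vnS
    split_ifs
    · have := abs_add_le (e.1 + e.2.1) (m x)
      simp only
      omega
    · have := abs_add_le (e.1 + e.2.1) (kpp m x)
      simp only
      omega
    · have := abs_add_le (e.1 + e.2.1 - 1) (kpp m x)
      have h10 : |e.1 + e.2.1 - 1| ≤ |e.1 + e.2.1| + 1 := by
        have := abs_sub (e.1 + e.2.1) 1
        simp only [abs_one] at this
        exact this
      simp only
      omega
  unfold im
  rw [← bxz_iff]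
  apply bxz_of_bound
  rw [dsi_snd]
  have hR' : (6 : ℤ) ≤ R := by exact_mod_cast hR
  have hK' : (8 * C + 40 : ℤ) ≤ K := by exact_mod_cast hK
  push_cast
  nlinarith [mul_nonneg (sub_nonneg.2 hK') (by omega : (0 : ℤ) ≤ R), h1.2, mul_nonneg hC0 (by omega : (0 : ℤ) ≤ R)]

open Classical in
/-- the copied configuration -/
noncomputable def Fc (ρ R K : ℕ) (G : Finset Edg) (m : ℤ × ℤ → ℤ) (H : Finset Edg) : Finset Edg :=
  (boxE (K * R)).filter (fun e' => (∃ e, Exr ρ R G e ∧ img R G m e = e' ∧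
      ((e ∈ G ↔ pa e) ↔ pa e')) ∨ ((¬ ∃ e, Exr ρ R G e ∧ img R G m e = e') ∧ e' ∈ H))

open Classical in
/-- the rest of the randomness -/
noncomputable def Kc (ρ R : ℕ) (G : Finset Edg) (m : ℤ × ℤ → ℤ) (H : Finset Edg) : Finset Edg :=
  (boxE R).filter (fun e => if Exr ρ R G e then img R G m e ∈ H else e ∈ G)

theorem mem_Fc {C ρ R K : ℕ} {G H : Finset Edg} {m : ℤ × ℤ → ℤ} (D : RD C ρ R G m) (hR : 6 ≤ R)
    (hK : 8 * C + 40 ≤ K) {e : Edg} (he : Exr ρ R G e) :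
    img R G m e ∈ Fc ρ R K G m H ↔ ((e ∈ G ↔ pa e) ↔ pa (img R G m e)) := by
  classical
  unfold Fc
  rw [Finset.mem_filter]
  constructor
  · rintro ⟨-, ⟨e2, h2, h3, h4⟩ | ⟨h2, -⟩⟩
    · have := img_inj D h2 he h3
      subst this
      exact h4
    · exact absurd ⟨e, he, rfl⟩ h2
  · intro h2
    refine ⟨?_, Or.inl ⟨e, he, rfl, h2⟩⟩
    obtain ⟨h5, x, h6, h7⟩ := he
    rw [img_eq D h5 h6 h7]
    exact im_mem D hR hK h5 h6 h7

theorem cpy {C ρ R K : ℕ} {G H : Finset Edg} {m : ℤ × ℤ → ℤ} (D : RD C ρ R G m) (hR : 6 ≤ R)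
    (hK : 8 * C + 40 ≤ K) : Cpy ρ R G m (↑(Fc ρ R K G m H) : Set Edg) := by
  intro e x he hx hc
  have h := mem_Fc (H := H) D hR hK ⟨he, x, hx, hc⟩
  rw [img_eq D he hx hc] at h
  exact h

theorem dsi_congr {m m' : ℤ × ℤ → ℤ} {x : ℤ × ℤ} (h : m x = m' x) (s d : ℤ) :
    dsi m x s d = dsi m' x s d := by
  unfold dsi kpp
  rw [h]

/-- propagation -/
theorem prop {C ρ R K : ℕ} {G H G' H' : Finset Edg} {m m' : ℤ × ℤ → ℤ} (D : RD C ρ R G m)
    (D' : RD C ρ R G' m') (hR : 6 ≤ R) (hK : 8 * C + 40 ≤ K)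
    (hF : Fc ρ R K G m H = Fc ρ R K G' m' H') (hc : Kc ρ R G m H = Kc ρ R G' m' H')
    {x : ℤ × ℤ} (h : K1 R G x) : K1 R G' x ∧ m x = m' x := by
  classical
  refine k1_ind (P := fun x => K1 R G' x ∧ m x = m' x) ?_ ?_ h
  · exact ⟨Relation.EqvGen.refl _, by rw [D.g.zero, D'.g.zero]⟩
  · rintro u v e hu ⟨hu', hm⟩ he hl
    have hcu := cor_lq hl
    have heq : e ∈ G ↔ e ∈ G' := by
      by_cases hA : e ∈ AnD ρ R
      · have x1 : Exr ρ R G e := ⟨hA, u, hu, hcu⟩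
        have x2 : Exr ρ R G' e := ⟨hA, u, hu', hcu⟩
        have hi : img R G m e = img R G' m' e := by
          rw [img_eq D hA hu hcu, img_eq D' hA hu' hcu]
          unfold im
          rw [dsi_congr hm]
        have k1 := mem_Fc (H := H) D hR hK x1
        have k2 := mem_Fc (H := H') D' hR hK x2
        rw [hF, hi] at k1
        exact pp (k1.symm.trans k2)
      · have x1 : ¬ Exr ρ R G e := fun h => hA h.1
        have x2 : ¬ Exr ρ R G' e := fun h => hA h.1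
        have he' : e ∈ boxE R := bxz_iff.1 he
        have h1 : e ∈ Kc ρ R G m H ↔ e ∈ Kc ρ R G' m' H' := by rw [hc]
        unfold Kc at h1
        rw [Finset.mem_filter, Finset.mem_filter, if_neg x1, if_neg x2] at h1
        exact ⟨fun h => (h1.1 ⟨he', h⟩).2, fun h => (h1.2 ⟨he', h⟩).2⟩
    have hl' : Lq (↑G' : Set Edg) e u v := by
      obtain ⟨hz, h | h⟩ := hl
      · exact ⟨hz, Or.inl ⟨heq.1 h.1, h.2⟩⟩
      · exact ⟨hz, Or.inr ⟨fun h2 => h.1 (heq.2 h2), h.2⟩⟩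
    refine ⟨Relation.EqvGen.trans _ _ _ hu' (lq_rz he hl'), ?_⟩
    rw [D.g.step u v e hu he hl, D'.g.step u v e hu' he hl', hm]

/-- **injectivity** -/
theorem inj {C ρ R K : ℕ} {G H G' H' : Finset Edg} {m m' : ℤ × ℤ → ℤ} (D : RD C ρ R G m)
    (D' : RD C ρ R G' m') (hR : 6 ≤ R) (hK : 8 * C + 40 ≤ K) (hG0 : G ⊆ boxE R)
    (hG0' : G' ⊆ boxE R) (hH : H ⊆ boxE (K * R)) (hH' : H' ⊆ boxE (K * R))
    (hF : Fc ρ R K G m H = Fc ρ R K G' m' H') (hc : Kc ρ R G m H = Kc ρ R G' m' H') :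
    G = G' ∧ H = H' := by
  classical
  have hk : ∀ x, K1 R G x ↔ K1 R G' x := fun x =>
    ⟨fun h => (prop D D' hR hK hF hc h).1, fun h => (prop D' D hR hK hF.symm hc.symm h).1⟩
  have hm : ∀ x, K1 R G x → m x = m' x := fun x h => (prop D D' hR hK hF hc h).2
  have hex : ∀ e, Exr ρ R G e ↔ Exr ρ R G' e := by
    intro e
    unfold Exr Tch
    simp only [hk]
  have himg : ∀ e, Exr ρ R G e → img R G m e = img R G' m' e := by
    rintro e ⟨hA, x, hx, hcx⟩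
    rw [img_eq D hA hx hcx, img_eq D' hA ((hk x).1 hx) hcx]
    unfold im
    rw [dsi_congr (hm x hx)]
  have hGG : ∀ e ∈ boxE R, (e ∈ G ↔ e ∈ G') := by
    intro e he
    by_cases hx : Exr ρ R G e
    · have k1 := mem_Fc (H := H) D hR hK hx
      have k2 := mem_Fc (H := H') D' hR hK ((hex e).1 hx)
      rw [hF, himg e hx] at k1
      exact pp (k1.symm.trans k2)
    · have h1 : e ∈ Kc ρ R G m H ↔ e ∈ Kc ρ R G' m' H' := by rw [hc]
      unfold Kc at h1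
      rw [Finset.mem_filter, Finset.mem_filter, if_neg hx, if_neg (fun h => hx ((hex e).2 h))] at h1
      exact ⟨fun h => (h1.1 ⟨he, h⟩).2, fun h => (h1.2 ⟨he, h⟩).2⟩
  have hHH : ∀ e' ∈ boxE (K * R), (e' ∈ H ↔ e' ∈ H') := by
    intro e' he'
    by_cases hx : ∃ e, Exr ρ R G e ∧ img R G m e = e'
    · obtain ⟨e, hx, rfl⟩ := hx
      have hb : e ∈ boxE R := by
        obtain ⟨hA, x, hxx, hcx⟩ := hx
        exact and_mem hR hA hcx
      have h1 : e ∈ Kc ρ R G m H ↔ e ∈ Kc ρ R G' m' H' := by rw [hc]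
      unfold Kc at h1
      rw [Finset.mem_filter, Finset.mem_filter, if_pos hx, if_pos ((hex e).1 hx),
        ← himg e hx] at h1
      exact ⟨fun h => (h1.1 ⟨hb, h⟩).2, fun h => (h1.2 ⟨hb, h⟩).2⟩
    · have hx' : ¬ ∃ e, Exr ρ R G' e ∧ img R G' m' e = e' := by
        rintro ⟨e, h1, h2⟩
        exact hx ⟨e, (hex e).2 h1, by rw [himg e ((hex e).2 h1)]; exact h2⟩
      have h1 : e' ∈ Fc ρ R K G m H ↔ e' ∈ Fc ρ R K G' m' H' := by rw [hF]
      unfold Fc at h1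
      rw [Finset.mem_filter, Finset.mem_filter] at h1
      have h2 : ¬ ∃ e, Exr ρ R G e ∧ img R G m e = e' ∧ ((e ∈ G ↔ pa e) ↔ pa e') := by
        rintro ⟨e, h3, h4, -⟩
        exact hx ⟨e, h3, h4⟩
      have h3 : ¬ ∃ e, Exr ρ R G' e ∧ img R G' m' e = e' ∧ ((e ∈ G' ↔ pa e) ↔ pa e') := by
        rintro ⟨e, h3, h4, -⟩
        exact hx' ⟨e, h3, h4⟩
      constructor
      · intro h
        rcases (h1.1 ⟨he', Or.inr ⟨hx, h⟩⟩).2 with h4 | h4
        · exact absurd h4 h3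
        · exact h4.2
      · intro h
        rcases (h1.2 ⟨he', Or.inr ⟨hx', h⟩⟩).2 with h4 | h4
        · exact absurd h4 h2
        · exact h4.2
  constructor
  · ext e
    exact ⟨fun h => (hGG e (hG0 h)).1 h, fun h => (hGG e (hG0' h)).2 h⟩
  · ext e
    exact ⟨fun h => (hHH e (hH h)).1 h, fun h => (hHH e (hH' h)).2 h⟩

end TRSV

open TRSV in
/-- **the coupling** -/
theorem t_RSV : S_RB → S_HEV → S_RSV := by
  classical
  intro hRB hHE C
  obtain ⟨s1, ρ1, hρ1, hB⟩ := hRB C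
  obtain ⟨s2, K2, ρ2, hK2, hρ2, hE⟩ := hHE C
  refine ⟨max s1 s2, max K2 (8 * C + 40), max ρ1 ρ2, by omega, by omega, ?_⟩
  intro ρ R hρ hR0
  have hr1 : ρ1 ≤ ρ := (le_max_left _ _).trans hρ
  have hr2 : ρ2 ≤ ρ := (le_max_right _ _).trans hρ
  have hK40 : 8 * C + 40 ≤ max K2 (8 * C + 40) := le_max_right _ _
  have hK2' : K2 ≤ max K2 (8 * C + 40) := le_max_left _ _
  generalize max K2 (8 * C + 40) = K at hR0 hK40 hK2' ⊢
  have hR : 6 ≤ R := by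
    have h1 : 1 ≤ ρ := hρ1.trans hr1
    have h2 : 40 ≤ K := by omega
    have h3 : 40 * 1 ≤ K * K := Nat.mul_le_mul h2 (by omega)
    have h4 : 40 * 1 * 1 ≤ K * K * K := Nat.mul_le_mul h3 (by omega)
    have h5 : 40 * 1 * 1 * 1 ≤ K * K * K * ρ := Nat.mul_le_mul h4 h1
    omega
  have hrd : ∀ (G : Finset Edg) (m : ℤ × ℤ → ℤ), Gd C (max s1 s2) ρ R (↑G : Set Edg) m →
      RD C ρ R (↑G : Set Edg) m := by
    intro G m hG
    obtain ⟨b1, b2, b3, b4, b5⟩ := hB (max s1 s2) ρ R (↑G : Set Edg) m (le_max_left _ _) hr1 hG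
    refine ⟨hG.g, b1, b2, ?_⟩
    intro x hx h2
    have h3 := hG.b (0, 0) x (Relation.EqvGen.refl _) hx (by unfold nz; simp) h2
    rw [hG.g.zero] at h3
    simpa using h3
  obtain ⟨mf, hmf⟩ : ∃ mf : Finset Edg → ℤ × ℤ → ℤ, ∀ G : Finset Edg,
      (∃ m : ℤ × ℤ → ℤ, Gd C (max s1 s2) ρ R (↑G : Set Edg) m) →
        Gd C (max s1 s2) ρ R (↑G : Set Edg) (mf G) := by
    refine ⟨fun G => if h : ∃ m : ℤ × ℤ → ℤ, Gd C (max s1 s2) ρ R (↑G : Set Edg) m then h.choose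
      else 0, fun G hG => ?_⟩
    simp only [dif_pos hG]
    exact hG.choose_spec
  refine count (boxE R) (boxE (K * R)) _ _
    (fun G H => (Fc ρ R K G (mf G) H, Kc ρ R G (mf G) H)) ?_ ?_
  · intro G H hG hH hA
    exact ⟨Finset.filter_subset _ _, hE (max s1 s2) K ρ R (↑G : Set Edg) (mf G) _
      (le_max_right _ _) hK2' hr2 hR0 (hmf G hA) (cpy (hrd G _ (hmf G hA)) hR hK40),
      Finset.filter_subset _ _⟩
  · intro G H G' H' hG hH hG' hH' hA hA' he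
    have h1 := congrArg Prod.fst he
    have h2 := congrArg Prod.snd he
    exact inj (hrd G _ (hmf G hA)) (hrd G' _ (hmf G' hA')) hR hK40 hG hG' hH hH' h1 h2

end Pool.Agent.W801.RS
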