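import Pool.Agent.W801.RS.Stm

/-!
# Project RS: the sum over the gates (t_SUM)
-/

set_option autoImplicit false

namespace Pool.Agent.W801.RS
open H974 H906.Cyl H12S Finset
open Pool.Agent.W801.OU (RZ LZ Dg nrm zp Cor scz bxz SE3 uR S_UR3)

namespace TSum

lemma tele (r : ℕ) (hr : 1 ≤ r) : (r : ℝ) ^ (-(23 / 12 : ℝ)) ≤
    5 * ((r : ℝ) ^ (-(11 / 12 : ℝ)) - ((r + 1 : ℕ) : ℝ) ^ (-(11 / 12 : ℝ))) := by
  have hx : (0 : ℝ) < r := by exact_mod_cast hr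
  have hx1 : (1 : ℝ) ≤ r := by exact_mod_cast hr
  have hye : ((r + 1 : ℕ) : ℝ) = (r : ℝ) + 1 := by push_cast; ring
  rw [hye]
  set x : ℝ := (r : ℝ) with hxdef
  set y : ℝ := x + 1 with hydef
  have hy : 0 < y := by linarith
  have h1 : Real.log (x / y) ≤ -(1 / y) := by
    have := Real.log_le_sub_one_of_pos (div_pos hx hy)
    have e : x / y - 1 = -(1 / y) := by
      field_simp
      linarith
    linarith
  have h2 : 11 / 12 * (1 / y) + 1 ≤ (x / y) ^ (-(11 / 12 : ℝ)) := by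
    rw [Real.rpow_def_of_pos (div_pos hx hy)]
    refine (Real.add_one_le_exp _).trans (Real.exp_le_exp.2 ?_)
    nlinarith
  have hya : 0 < y ^ (-(11 / 12 : ℝ)) := Real.rpow_pos_of_pos hy _
  have h3 : x ^ (-(11 / 12 : ℝ)) = (x / y) ^ (-(11 / 12 : ℝ)) * y ^ (-(11 / 12 : ℝ)) := by
    rw [Real.div_rpow hx.le hy.le]
    field_simp
  have h4 : y ^ (-(23 / 12 : ℝ)) = y ^ (-(11 / 12 : ℝ)) * (1 / y) := by
    have : (-(23 / 12 : ℝ)) = -(11 / 12 : ℝ) + (-1) := by norm_num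
    rw [this, Real.rpow_add hy, Real.rpow_neg_one, one_div]
  have h5 : 11 / 12 * y ^ (-(23 / 12 : ℝ)) ≤ x ^ (-(11 / 12 : ℝ)) - y ^ (-(11 / 12 : ℝ)) := by
    rw [h3, h4]
    have := mul_le_mul_of_nonneg_right h2 hya.le
    nlinarith
  have h6 : (1 / 4 : ℝ) * x ^ (-(23 / 12 : ℝ)) ≤ y ^ (-(23 / 12 : ℝ)) := by
    have h7 : (2 * x) ^ (-(23 / 12 : ℝ)) ≤ y ^ (-(23 / 12 : ℝ)) :=
      Real.rpow_le_rpow_of_nonpos hy (by linarith) (by norm_num)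
    rw [Real.mul_rpow (by norm_num) hx.le] at h7
    have h8 : (1 / 4 : ℝ) ≤ (2 : ℝ) ^ (-(23 / 12 : ℝ)) := by
      have h9 : (2 : ℝ) ^ (-2 : ℝ) ≤ (2 : ℝ) ^ (-(23 / 12 : ℝ)) :=
        Real.rpow_le_rpow_of_exponent_le (by norm_num) (by norm_num)
      have h10 : (2 : ℝ) ^ (-2 : ℝ) = 1 / 4 := by
        rw [Real.rpow_neg (by norm_num)]
        norm_num
      linarith
    have h11 : 0 ≤ x ^ (-(23 / 12 : ℝ)) := (Real.rpow_pos_of_pos hx _).le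
    nlinarith
  have h12 : 0 ≤ x ^ (-(23 / 12 : ℝ)) := (Real.rpow_pos_of_pos hx _).le
  nlinarith

lemma sum_le (ρ n : ℕ) (hρ : 1 ≤ ρ) : ∑ r ∈ Ico ρ (ρ + n), (r : ℝ) ^ (-(23 / 12 : ℝ)) ≤
    5 * ((ρ : ℝ) ^ (-(11 / 12 : ℝ)) - ((ρ + n : ℕ) : ℝ) ^ (-(11 / 12 : ℝ))) := by
  induction n with
  | zero => simp
  | succ n ih =>
    rw [← Nat.add_assoc, Finset.sum_Ico_succ_top (Nat.le_add_right _ _)]
    have := tele (ρ + n) (by omega)
    linarith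

lemma sum_le' (ρ R : ℕ) (hρ : 1 ≤ ρ) : ∑ r ∈ Ico ρ (R + 1), (r : ℝ) ^ (-(23 / 12 : ℝ)) ≤
    5 * (ρ : ℝ) ^ (-(11 / 12 : ℝ)) := by
  have hp : 0 ≤ (ρ : ℝ) ^ (-(11 / 12 : ℝ)) := by positivity
  rcases le_or_gt ρ (R + 1) with h | h
  · obtain ⟨n, hn⟩ := Nat.exists_eq_add_of_le h
    rw [hn]
    have h1 := sum_le ρ n hρ
    have h2 : 0 ≤ ((ρ + n : ℕ) : ℝ) ^ (-(11 / 12 : ℝ)) := by positivity
    linarith
  · rw [Finset.Ico_eq_empty_of_le h.le, Finset.sum_empty]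
    positivity

/-- the ring of radius `r` -/
noncomputable def Ring (r : ℕ) : Finset (ℤ × ℤ) :=
  ((Icc (-(r : ℤ)) r) ×ˢ (Icc (-(r : ℤ)) r)).filter (fun z => nz z = r)

lemma mem_Ring (r : ℕ) (z : ℤ × ℤ) : z ∈ Ring r ↔ nz z = r := by
  unfold Ring
  rw [Finset.mem_filter, Finset.mem_product, Finset.mem_Icc, Finset.mem_Icc]
  constructor
  · exact fun h => h.2
  · intro h
    refine ⟨?_, h⟩
    have h1 : |z.1| ≤ r := by rw [← h]; exact le_max_left _ _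
    have h2 : |z.2| ≤ r := by rw [← h]; exact le_max_right _ _
    exact ⟨abs_le.1 h1, abs_le.1 h2⟩

lemma card_Ring (r : ℕ) (hr : 1 ≤ r) : ((Ring r).card : ℝ) ≤ 12 * r := by
  classical
  have hsub : Ring r ⊆ (({(r : ℤ), -(r : ℤ)} : Finset ℤ) ×ˢ (Icc (-(r : ℤ)) r)) ∪
      ((Icc (-(r : ℤ)) r) ×ˢ ({(r : ℤ), -(r : ℤ)} : Finset ℤ)) := by
    intro z hz
    have hz' := (mem_Ring r z).1 hz
    have h1 : |z.1| ≤ r := by rw [← hz']; exact le_max_left _ _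
    have h2 : |z.2| ≤ r := by rw [← hz']; exact le_max_right _ _
    rw [Finset.mem_union, Finset.mem_product, Finset.mem_product, Finset.mem_Icc, Finset.mem_Icc,
      Finset.mem_insert, Finset.mem_singleton, Finset.mem_insert, Finset.mem_singleton]
    rcases max_choice |z.1| |z.2| with h | h
    · left
      have h3 : |z.1| = r := by rw [← hz']; exact h.symm
      exact ⟨eq_or_eq_neg_of_abs_eq h3, abs_le.1 h2⟩
    · right
      have h3 : |z.2| = r := by rw [← hz']; exact h.symm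
      exact ⟨abs_le.1 h1, eq_or_eq_neg_of_abs_eq h3⟩
  have hc2 : (({(r : ℤ), -(r : ℤ)} : Finset ℤ)).card ≤ 2 := Finset.card_le_two
  have hc1 : (Icc (-(r : ℤ)) r).card = 2 * r + 1 := by
    rw [Int.card_Icc]
    omega
  have h1 : (Ring r).card ≤ 2 * (2 * r + 1) + (2 * r + 1) * 2 := by
    refine (Finset.card_le_card hsub).trans ((Finset.card_union_le _ _).trans ?_)
    rw [Finset.card_product, Finset.card_product, hc1]
    exact add_le_add (Nat.mul_le_mul_right _ hc2) (Nat.mul_le_mul_left _ hc2)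
  have h2 : (Ring r).card ≤ 12 * r := by omega
  exact_mod_cast h2

lemma ok2 : Ok (fun _ : Edg => (1 / 2 : ℝ)) := fun _ => ⟨by norm_num, by norm_num⟩

end TSum

open TSum in
theorem t_SUM : S_GPR → Pool.Agent.W801.OU.S_UR3 → S_SUM := by
  intro hG _ s
  obtain ⟨C, hC, h⟩ := hG s
  refine ⟨60 * C, by positivity, fun ρ R hρ hR => ?_⟩
  classical
  set B : ℤ × ℤ → Finset Edg → Prop := fun z G => 2 * nz z ≤ R ∧ SE3 R (↑G : Set Edg) ∧
    ∃ m : ℤ × ℤ → ℤ, GauD R (↑G : Set Edg) m ∧ Gate s R (↑G : Set Edg) m z with hB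
  have hR0 : 0 ≤ (R : ℝ) ^ (-(2 / 3 : ℝ)) := by positivity
  have hone : ∀ r ∈ Ico ρ (R + 1), ∀ z ∈ Ring r, Pr (fun _ => (1 / 2 : ℝ)) (boxE R) (B z) ≤
      C * (r : ℝ) ^ (-(35 / 12 : ℝ)) * (R : ℝ) ^ (-(2 / 3 : ℝ)) := by
    intro r hr z hz
    have hr1 : 1 ≤ r := by
      have := (Finset.mem_Ico.1 hr).1
      omega
    have hz' := (mem_Ring r z).1 hz
    by_cases h2 : 2 * nz z ≤ R
    · have h3 := h z R (by rw [hz']; exact_mod_cast hr1) h2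
      rw [hz', Int.cast_natCast] at h3
      refine (Pr_mono ok2 ?_).trans h3
      intro G _ hG
      exact hG.2
    · have h4 : Pr (fun _ => (1 / 2 : ℝ)) (boxE R) (B z) ≤
          Pr (fun _ => (1 / 2 : ℝ)) (boxE R)
            (fun F => ∃ j ∈ (∅ : Finset (ℤ × ℤ)), B j F) := by
        refine Pr_mono ok2 ?_
        intro G _ hG
        exact absurd hG.1 h2
      have h5 := Pr_exists_le ok2 (boxE R) (∅ : Finset (ℤ × ℤ)) B
      rw [Finset.sum_empty] at h5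
      have h6 : 0 ≤ C * (r : ℝ) ^ (-(35 / 12 : ℝ)) * (R : ℝ) ^ (-(2 / 3 : ℝ)) := by positivity
      linarith
  have hring : ∀ r ∈ Ico ρ (R + 1),
      Pr (fun _ => (1 / 2 : ℝ)) (boxE R) (fun G => ∃ z ∈ Ring r, B z G) ≤
      12 * C * (R : ℝ) ^ (-(2 / 3 : ℝ)) * (r : ℝ) ^ (-(23 / 12 : ℝ)) := by
    intro r hr
    have hr1 : 1 ≤ r := by
      have := (Finset.mem_Ico.1 hr).1
      omega
    have hrp : (0 : ℝ) < r := by exact_mod_cast hr1
    refine (Pr_exists_le ok2 (boxE R) (Ring r) B).trans ?_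
    refine (Finset.sum_le_sum (hone r hr)).trans ?_
    rw [Finset.sum_const, nsmul_eq_mul]
    have h6 : 0 ≤ C * (r : ℝ) ^ (-(35 / 12 : ℝ)) * (R : ℝ) ^ (-(2 / 3 : ℝ)) := by positivity
    refine (mul_le_mul_of_nonneg_right (card_Ring r hr1) h6).trans (le_of_eq ?_)
    have e : (r : ℝ) ^ (-(23 / 12 : ℝ)) = (r : ℝ) * (r : ℝ) ^ (-(35 / 12 : ℝ)) := by
      have : (-(23 / 12 : ℝ)) = 1 + -(35 / 12 : ℝ) := by norm_num
      rw [this, Real.rpow_add hrp, Real.rpow_one]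
    rw [e]
    ring
  have hall : Pr (fun _ => (1 / 2 : ℝ)) (boxE R) (fun G => SE3 R (↑G : Set Edg) ∧
      ∃ m : ℤ × ℤ → ℤ, GauD R (↑G : Set Edg) m ∧ ∃ z : ℤ × ℤ, ((ρ : ℤ) ≤ nz z ∧ 2 * nz z ≤ R) ∧
        Gate s R (↑G : Set Edg) m z) ≤
      Pr (fun _ => (1 / 2 : ℝ)) (boxE R)
        (fun G => ∃ r ∈ Ico ρ (R + 1), ∃ z ∈ Ring r, B z G) := by
    refine Pr_mono ok2 ?_
    rintro G _ ⟨h1, m, h2, z, ⟨h3, h4⟩, h5⟩
    have h0 : 0 ≤ nz z := le_trans (abs_nonneg _) (le_max_left _ _)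
    refine ⟨(nz z).toNat, ?_, z, ?_, h4, h1, m, h2, h5⟩
    · rw [Finset.mem_Ico]
      omega
    · rw [mem_Ring]
      omega
  refine hall.trans ((Pr_exists_le ok2 (boxE R) (Ico ρ (R + 1))
    (fun r G => ∃ z ∈ Ring r, B z G)).trans ?_)
  refine (Finset.sum_le_sum hring).trans ?_
  rw [← Finset.mul_sum]
  have h7 := sum_le' ρ R hρ
  have h8 : 0 ≤ 12 * C * (R : ℝ) ^ (-(2 / 3 : ℝ)) := by positivity
  refine (mul_le_mul_of_nonneg_left h7 h8).trans (le_of_eq ?_)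
  ring

end Pool.Agent.W801.RS

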