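import Pool.Agent.W801.RS.Stm
import Pool.Agent.H160R2.MU.All

/-!
# Six arms in the plane from the slit event

`t_CL3`: three crossing clusters of the annulus between the boxes of radii `r` and `n` have
probability at most `C n ^ (-35/12)`.  Given the crossings, let `u 0, u 1, u 2` be their last vertices
on the diamond of radius `2 r + 4`; all the edges of the diamond are closed and then three vertex
disjoint paths from the `u i` to the three tips of the slit of length `k = 3` are opened: layer by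
layer (horizontal or vertical moves) to the diamond of radius `4`, and from there by a table of
programs (`tbl`), checked by computation.  The slit event has the right probability by `MU.a_UB`.
-/

set_option autoImplicit false

namespace Pool.Agent.W801.RS
namespace CL3Aux
open H974 H906.Cyl H12S Finset
open Pool.Agent.H160R2.ML (nm)
open Pool.Agent.H160R2.MU (SE CL Cb sv sP)
open Pool.Agent.W801.OU (bxz)

/-- edges with both ends in `Q` -/
def inE (Q : Set Vtx) : Set Edg := {e | src e ∈ Q ∧ tgt e ∈ Q}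

/-- joined by an edge -/
def Nb (p q : Vtx) : Prop := ∃ e : Edg, (src e = p ∧ tgt e = q) ∨ (src e = q ∧ tgt e = p)

theorem Nb.symm {p q : Vtx} (h : Nb p q) : Nb q p := by
  obtain ⟨e, he⟩ := h
  exact ⟨e, he.symm⟩

theorem nb_h (x y : ℤ) : Nb (x, y) (x + 1, y) := ⟨(x, y, true), Or.inl ⟨rfl, rfl⟩⟩

theorem nb_v (x y : ℤ) : Nb (x, y) (x, y + 1) := ⟨(x, y, false), Or.inl ⟨rfl, rfl⟩⟩

/-- tokens `T` in the free region `Q` -/
structure St (n : ℤ) (Q T : Set Vtx) (F : Set Edg) : Prop where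
  box : ∀ e ∈ F, nm (src e) ≤ n ∧ nm (tgt e) ≤ n
  qb : ∀ v ∈ Q, nm v ≤ n
  sub : ∀ t ∈ T, t ∈ Q
  fre : ∀ q ∈ Q, q ∉ T → ∀ e ∈ F, src e ≠ q ∧ tgt e ≠ q
  con : ∀ p ∈ T, ∃ w, nm w = n ∧ Reach F p w
  dis : ∀ p ∈ T, ∀ p' ∈ T, p ≠ p' → ¬ Reach F p p'

/-- edges can be added in `Q` to get the slit event -/
def Win (n : ℤ) (Q T : Set Vtx) : Prop :=
  ∀ F, St n Q T F → ∃ F', F ⊆ F' ∧ F' ⊆ F ∪ inE Q ∧ SE 3 n F'

theorem pend {F : Set Edg} {e : Edg} {p q : Vtx}
    (he : (src e = p ∧ tgt e = q) ∨ (src e = q ∧ tgt e = p)) (hpq : p ≠ q)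
    (hfq : ∀ e ∈ F, src e ≠ q ∧ tgt e ≠ q) {x y : Vtx} (h : Reach (insert e F) x y) :
    Reach F (if x = q then p else x) (if y = q then p else y) := by
  induction h with
  | refl => exact Reach.refl _ _
  | tail _ hs ih =>
    refine ih.trans ?_
    obtain ⟨f, hf, hf'⟩ := hs
    rcases Set.mem_insert_iff.mp hf with rfl | hf
    · rcases he with ⟨h1, h2⟩ | ⟨h1, h2⟩ <;> rcases hf' with ⟨h3, h4⟩ | ⟨h3, h4⟩ <;>
        rw [← h3, ← h4, h1, h2] <;> simp [hpq] <;> exact Reach.refl _ _
    · obtain ⟨h1, h2⟩ := hfq f hf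
      rcases hf' with ⟨h3, h4⟩ | ⟨h3, h4⟩ <;> rw [← h3, ← h4, if_neg h1, if_neg h2]
      · exact Adj.reach ⟨f, hf, Or.inl ⟨rfl, rfl⟩⟩
      · exact Adj.reach ⟨f, hf, Or.inr ⟨rfl, rfl⟩⟩

theorem slide {n : ℤ} {Q T Q' T' : Set Vtx} {p q : Vtx} (hp : p ∈ T) (hq : q ∈ Q) (hqT : q ∉ T)
    (hN : Nb p q) (hQ : Q' ⊆ Q) (hpQ : p ∉ Q') (hTQ : ∀ t ∈ T', t ∈ Q')
    (hT : ∀ t, t ∈ T' ↔ t = q ∨ (t ∈ T ∧ t ≠ p)) (hW : Win n Q' T') : Win n Q T := by
  intro F hF
  obtain ⟨e, he⟩ := hN
  have hpq : p ≠ q := fun h => hqT (h ▸ hp)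
  have hfq := hF.fre q hq hqT
  have hpQ0 := hF.sub p hp
  have hS : St n Q' T' (insert e F) := by
    constructor
    · intro f hf
      rcases Set.mem_insert_iff.mp hf with rfl | hf
      · rcases he with ⟨h1, h2⟩ | ⟨h1, h2⟩ <;> rw [h1, h2]
        · exact ⟨hF.qb p hpQ0, hF.qb q hq⟩
        · exact ⟨hF.qb q hq, hF.qb p hpQ0⟩
      · exact hF.box f hf
    · exact fun v hv => hF.qb v (hQ hv)
    · exact hTQ
    · intro q' hq' hqT'
      have h1 : q' ≠ q := fun h => hqT' ((hT q').mpr (Or.inl h))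
      have h2 : q' ≠ p := fun h => hpQ (h ▸ hq')
      have h3 : q' ∉ T := fun h => hqT' ((hT q').mpr (Or.inr ⟨h, h2⟩))
      intro f hf
      rcases Set.mem_insert_iff.mp hf with rfl | hf
      · rcases he with ⟨h4, h5⟩ | ⟨h4, h5⟩ <;> rw [h4, h5]
        · exact ⟨h2.symm, h1.symm⟩
        · exact ⟨h1.symm, h2.symm⟩
      · exact hF.fre q' (hQ hq') h3 f hf
    · intro t ht
      rcases (hT t).mp ht with rfl | ⟨h1, _⟩
      · obtain ⟨w, hw, hr⟩ := hF.con p hp
        refine ⟨w, hw, Reach.trans (Adj.reach ⟨e, Set.mem_insert _ _, ?_⟩)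
          (hr.mono (Set.subset_insert _ _))⟩
        tauto
      · obtain ⟨w, hw, hr⟩ := hF.con t h1
        exact ⟨w, hw, hr.mono (Set.subset_insert _ _)⟩
    · intro t ht t' ht' hne hr
      have h := pend he hpq hfq hr
      rcases (hT t).mp ht with h1 | ⟨h1, h1'⟩ <;> rcases (hT t').mp ht' with h2 | ⟨h2, h2'⟩
      · exact hne (h1.trans h2.symm)
      · have h3 : t' ≠ q := fun h => hqT (h ▸ h2)
        rw [if_pos h1, if_neg h3] at h
        exact hF.dis p hp t' h2 h2'.symm h
      · have h3 : t ≠ q := fun h => hqT (h ▸ h1)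
        rw [if_pos h2, if_neg h3] at h
        exact hF.dis t h1 p hp h1' h
      · have h3 : t' ≠ q := fun h => hqT (h ▸ h2)
        have h4 : t ≠ q := fun h => hqT (h ▸ h1)
        rw [if_neg h3, if_neg h4] at h
        exact hF.dis t h1 t' h2 hne h
  obtain ⟨F', h1, h2, h3⟩ := hW _ hS
  refine ⟨F', (Set.subset_insert _ _).trans h1, ?_, h3⟩
  intro f hf
  rcases h2 hf with h4 | h4
  · rcases Set.mem_insert_iff.mp h4 with rfl | h4
    · right
      rcases he with ⟨h5, h6⟩ | ⟨h5, h6⟩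
      · exact ⟨h5 ▸ hpQ0, h6 ▸ hq⟩
      · exact ⟨h5 ▸ hq, h6 ▸ hpQ0⟩
    · exact Or.inl h4
  · exact Or.inr ⟨hQ h4.1, hQ h4.2⟩

theorem shrink {n : ℤ} {Q T Q' : Set Vtx} (hQ : Q' ⊆ Q) (hTQ : ∀ t ∈ T, t ∈ Q')
    (hW : Win n Q' T) : Win n Q T := by
  intro F hF
  obtain ⟨F', h1, h2, h3⟩ := hW F ⟨hF.box, fun v hv => hF.qb v (hQ hv), hTQ,
    fun q hq hqT => hF.fre q (hQ hq) hqT, hF.con, hF.dis⟩
  exact ⟨F', h1, h2.trans (Set.union_subset_union_right _ (fun e he => ⟨hQ he.1, hQ he.2⟩)), h3⟩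

/-! ## the end -/

theorem cb_both {n : ℤ} {G : Set Edg} {v : Vtx} (hv : v ≠ (1, 1)) (hn : nm v ≤ n) (β β' : Bool) :
    Cb 3 n G (v, β) (v, β') := by
  have h : CL 3 n G (v, false) (v, true) := by
    apply CL.idn v hn
    rintro ⟨h1, h2, h3⟩
    apply hv
    have h4 : v.1 = 1 := by push_cast at h3; omega
    exact Prod.ext h4 (h1 ▸ h4)
  cases β <;> cases β'
  · exact Relation.EqvGen.refl _
  · exact Relation.EqvGen.rel _ _ h
  · exact Relation.EqvGen.symm _ _ (Relation.EqvGen.rel _ _ h)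
  · exact Relation.EqvGen.refl _

theorem lift {n : ℤ} {F G : Set Edg} (hFG : F ⊆ G) (hb : ∀ e ∈ F, nm (src e) ≤ n ∧ nm (tgt e) ≤ n)
    (h11 : ∀ e ∈ F, src e ≠ (1, 1) ∧ tgt e ≠ (1, 1)) {x y : Vtx} (hx : x ≠ (1, 1))
    (hxn : nm x ≤ n) (h : Reach F x y) : ∀ β β' : Bool, Cb 3 n G (x, β) (y, β') := by
  have key : y ≠ (1, 1) ∧ nm y ≤ n ∧ ∀ β β' : Bool, Cb 3 n G (x, β) (y, β') := by
    induction h with
    | refl => exact ⟨hx, hxn, fun β β' => cb_both hx hxn β β'⟩
    | tail _ hs ih =>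
      obtain ⟨f, hf, hf'⟩ := hs
      obtain ⟨h1, h2, h3⟩ := ih
      have hl : CL 3 n G (src f, decide (0 ≤ dco f)) (tgt f, decide (0 ≤ dco f)) :=
        CL.edge f (hFG hf) (hb f hf).1 (hb f hf).2
      rcases hf' with ⟨h4, h5⟩ | ⟨h4, h5⟩
      · subst h4 h5
        refine ⟨(h11 f hf).2, (hb f hf).2, fun β β' => ?_⟩
        exact Relation.EqvGen.trans _ _ _ (h3 β (decide (0 ≤ dco f)))
          (Relation.EqvGen.trans _ _ _ (Relation.EqvGen.rel _ _ hl)
            (cb_both (h11 f hf).2 (hb f hf).2 _ _))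
      · subst h4 h5
        refine ⟨(h11 f hf).1, (hb f hf).1, fun β β' => ?_⟩
        exact Relation.EqvGen.trans _ _ _ (h3 β (decide (0 ≤ dco f)))
          (Relation.EqvGen.trans _ _ _ (Relation.EqvGen.symm _ _ (Relation.EqvGen.rel _ _ hl))
            (cb_both (h11 f hf).1 (hb f hf).1 _ _))
  exact key.2.2

theorem fin0 {n : ℤ} {Q T : Set Vtx} {a b : Vtx} {ea eb : Edg} (h0 : ((0, 0) : Vtx) ∈ T)
    (ha : a ∈ T) (hb : b ∈ T) (h1 : ((1, 1) : Vtx) ∈ Q) (h1' : ((1, 1) : Vtx) ∉ T)
    (hab : a ≠ b) (ha0 : a ≠ (0, 0)) (hb0 : b ≠ (0, 0))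
    (hea : (src ea = a ∧ tgt ea = (1, 1)) ∨ (src ea = (1, 1) ∧ tgt ea = a)) (hda : dco ea < 0)
    (heb : (src eb = b ∧ tgt eb = (1, 1)) ∨ (src eb = (1, 1) ∧ tgt eb = b)) (hdb : 0 ≤ dco eb) :
    Win n Q T := by
  intro F hF
  have h11 := hF.fre _ h1 h1'
  have hsub : F ⊆ insert ea (insert eb F) :=
    (Set.subset_insert _ _).trans (Set.subset_insert _ _)
  have ha1 : a ≠ (1, 1) := fun h => h1' (h ▸ ha)
  have hb1 : b ≠ (1, 1) := fun h => h1' (h ▸ hb)
  have h01 : ((0, 0) : Vtx) ≠ (1, 1) := fun h => h1' (h ▸ h0)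
  have haQ := hF.sub a ha
  have hbQ := hF.sub b hb
  have hbox : ∀ e ∈ insert ea (insert eb F), nm (src e) ≤ n ∧ nm (tgt e) ≤ n := by
    intro e he
    rcases Set.mem_insert_iff.mp he with rfl | he
    · rcases hea with ⟨h2, h3⟩ | ⟨h2, h3⟩ <;> rw [h2, h3]
      · exact ⟨hF.qb _ haQ, hF.qb _ h1⟩
      · exact ⟨hF.qb _ h1, hF.qb _ haQ⟩
    rcases Set.mem_insert_iff.mp he with rfl | he
    · rcases heb with ⟨h2, h3⟩ | ⟨h2, h3⟩ <;> rw [h2, h3]
      · exact ⟨hF.qb _ hbQ, hF.qb _ h1⟩
      · exact ⟨hF.qb _ h1, hF.qb _ hbQ⟩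
    · exact hF.box e he
  let π : Vtx × Bool → Vtx := fun x => if x.1 = (1, 1) then (if x.2 then b else a) else x.1
  have key : ∀ x y, Cb 3 n (insert ea (insert eb F)) x y → Reach F (π x) (π y) := by
    intro x y h
    induction h with
    | rel x y h =>
      cases h with
      | edge e he _ _ =>
        rcases Set.mem_insert_iff.mp he with rfl | he
        · have hd : decide (0 ≤ dco e) = false := by simpa using hda
          rw [hd]
          rcases hea with ⟨h2, h3⟩ | ⟨h2, h3⟩ <;> rw [h2, h3] <;> simp only [π] <;>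
            simp [ha1] <;> exact Reach.refl _ _
        rcases Set.mem_insert_iff.mp he with rfl | he
        · have hd : decide (0 ≤ dco e) = true := by simpa using hdb
          rw [hd]
          rcases heb with ⟨h2, h3⟩ | ⟨h2, h3⟩ <;> rw [h2, h3] <;> simp only [π] <;>
            simp [hb1] <;> exact Reach.refl _ _
        · obtain ⟨h2, h3⟩ := h11 e he
          simp only [π]
          rw [if_neg h2, if_neg h3]
          exact Adj.reach ⟨e, he, Or.inl ⟨rfl, rfl⟩⟩
      | idn v hv hc =>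
        have hv1 : v ≠ (1, 1) := by
          rintro rfl
          exact hc ⟨rfl, by norm_num, by norm_num⟩
        have e1 : π (v, false) = v := by simp [π, hv1]
        have e2 : π (v, true) = v := by simp [π, hv1]
        rw [e1, e2]
        exact Reach.refl _ _
    | refl x => exact Reach.refl _ _
    | symm x y _ ih => exact ih.symm
    | trans x y z _ _ ih1 ih2 => exact ih1.trans ih2
  have s0 : sv 3 0 = (((0, 0) : Vtx), false) := by simp [sv]
  have s2 : sv 3 2 = (((1, 1) : Vtx), false) := by simp [sv]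
  have s4 : sv 3 4 = (((1, 1) : Vtx), true) := by simp [sv]
  have p0 : π (sv 3 0) = (0, 0) := by rw [s0]; simp [π]
  have p2 : π (sv 3 2) = a := by rw [s2]; simp [π]
  have p4 : π (sv 3 4) = b := by rw [s4]; simp [π]
  refine ⟨insert ea (insert eb F), hsub, ?_, ?_, ?_⟩
  · intro e he
    rcases Set.mem_insert_iff.mp he with rfl | he
    · right
      rcases hea with ⟨h2, h3⟩ | ⟨h2, h3⟩
      · exact ⟨h2 ▸ haQ, h3 ▸ h1⟩
      · exact ⟨h2 ▸ h1, h3 ▸ haQ⟩
    rcases Set.mem_insert_iff.mp he with rfl | he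
    · right
      rcases heb with ⟨h2, h3⟩ | ⟨h2, h3⟩
      · exact ⟨h2 ▸ hbQ, h3 ▸ h1⟩
      · exact ⟨h2 ▸ h1, h3 ▸ hbQ⟩
    · exact Or.inl he
  · intro i j hi hj hi2 hj2 hij h
    have h := key _ _ h
    have hi' : i = 0 ∨ i = 2 ∨ i = 4 := by omega
    have hj' : j = 0 ∨ j = 2 ∨ j = 4 := by omega
    rcases hi' with rfl | rfl | rfl <;> rcases hj' with rfl | rfl | rfl
    · exact hij rfl
    · rw [p0, p2] at h; exact hF.dis _ h0 _ ha ha0.symm h
    · rw [p0, p4] at h; exact hF.dis _ h0 _ hb hb0.symm h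
    · rw [p2, p0] at h; exact hF.dis _ ha _ h0 ha0 h
    · exact hij rfl
    · rw [p2, p4] at h; exact hF.dis _ ha _ hb hab h
    · rw [p4, p0] at h; exact hF.dis _ hb _ h0 hb0 h
    · rw [p4, p2] at h; exact hF.dis _ hb _ ha hab.symm h
    · exact hij rfl
  · intro i hi hi2
    have hi' : i = 0 ∨ i = 2 ∨ i = 4 := by omega
    rcases hi' with rfl | rfl | rfl
    · obtain ⟨w, hw, hr⟩ := hF.con _ h0
      refine ⟨w, false, hw, ?_⟩
      rw [s0]
      exact lift hsub hF.box h11 h01 (hF.qb _ (hF.sub _ h0)) hr _ _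
    · obtain ⟨w, hw, hr⟩ := hF.con _ ha
      refine ⟨w, false, hw, ?_⟩
      rw [s2]
      refine Relation.EqvGen.trans _ _ _ ?_
        (lift hsub hF.box h11 ha1 (hF.qb _ (hF.sub _ ha)) hr false false)
      have hl : CL 3 n (insert ea (insert eb F)) (src ea, decide (0 ≤ dco ea))
          (tgt ea, decide (0 ≤ dco ea)) :=
        CL.edge ea (Set.mem_insert _ _) (hbox ea (Set.mem_insert _ _)).1
          (hbox ea (Set.mem_insert _ _)).2
      have hd : decide (0 ≤ dco ea) = false := by simpa using hda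
      rw [hd] at hl
      rcases hea with ⟨h2, h3⟩ | ⟨h2, h3⟩ <;> rw [h2, h3] at hl
      · exact Relation.EqvGen.symm _ _ (Relation.EqvGen.rel _ _ hl)
      · exact Relation.EqvGen.rel _ _ hl
    · obtain ⟨w, hw, hr⟩ := hF.con _ hb
      refine ⟨w, false, hw, ?_⟩
      rw [s4]
      refine Relation.EqvGen.trans _ _ _ ?_
        (lift hsub hF.box h11 hb1 (hF.qb _ (hF.sub _ hb)) hr true false)
      have hm : eb ∈ insert ea (insert eb F) :=
        Set.mem_insert_of_mem _ (Set.mem_insert _ _)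
      have hl : CL 3 n (insert ea (insert eb F)) (src eb, decide (0 ≤ dco eb))
          (tgt eb, decide (0 ≤ dco eb)) :=
        CL.edge eb hm (hbox eb hm).1 (hbox eb hm).2
      have hd : decide (0 ≤ dco eb) = true := by simpa using hdb
      rw [hd] at hl
      rcases heb with ⟨h2, h3⟩ | ⟨h2, h3⟩ <;> rw [h2, h3] at hl
      · exact Relation.EqvGen.symm _ _ (Relation.EqvGen.rel _ _ hl)
      · exact Relation.EqvGen.rel _ _ hl

theorem fin1 {n : ℤ} {Q T : Set Vtx} {a b : Vtx} (h0 : ((0, 0) : Vtx) ∈ T)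
    (ha : a ∈ T) (hb : b ∈ T) (h1 : ((1, 1) : Vtx) ∈ Q) (h1' : ((1, 1) : Vtx) ∉ T)
    (ha' : a = (0, 1) ∨ a = (1, 2)) (hb' : b = (1, 0) ∨ b = (2, 1)) : Win n Q T := by
  have hA : ∃ ea : Edg, ((src ea = a ∧ tgt ea = (1, 1)) ∨ (src ea = (1, 1) ∧ tgt ea = a)) ∧
      dco ea < 0 := by
    rcases ha' with rfl | rfl
    · exact ⟨(0, 1, true), Or.inl ⟨rfl, rfl⟩, by simp [dco]⟩
    · exact ⟨(1, 1, false), Or.inr ⟨rfl, rfl⟩, by simp [dco]⟩
  have hB : ∃ eb : Edg, ((src eb = b ∧ tgt eb = (1, 1)) ∨ (src eb = (1, 1) ∧ tgt eb = b)) ∧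
      0 ≤ dco eb := by
    rcases hb' with rfl | rfl
    · exact ⟨(1, 0, false), Or.inl ⟨rfl, rfl⟩, by simp [dco]⟩
    · exact ⟨(1, 1, true), Or.inr ⟨rfl, rfl⟩, by simp [dco]⟩
  obtain ⟨ea, hea, hda⟩ := hA
  obtain ⟨eb, heb, hdb⟩ := hB
  refine fin0 h0 ha hb h1 h1' ?_ ?_ ?_ hea hda heb hdb
  · rcases ha' with rfl | rfl <;> rcases hb' with rfl | rfl <;> decide
  · rcases ha' with rfl | rfl <;> decide
  · rcases hb' with rfl | rfl <;> decide

/-! ## the table -/

def dec (c : ℕ) : Vtx := (((c / 9 : ℕ) : ℤ) - 4, ((c % 9 : ℕ) : ℤ) - 4)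

theorem dec_inj {c c' : ℕ} (h : dec c = dec c') : c = c' := by
  have h1 : ((c / 9 : ℕ) : ℤ) - 4 = ((c' / 9 : ℕ) : ℤ) - 4 := congrArg Prod.fst h
  have h2 : ((c % 9 : ℕ) : ℤ) - 4 = ((c' % 9 : ℕ) : ℤ) - 4 := congrArg Prod.snd h
  omega

def adjB (p q : ℕ) : Bool :=
  q == p + 9 || p == q + 9 || (q == p + 1 && p % 9 != 8) || (p == q + 1 && q % 9 != 8)

theorem nb9 (p : ℕ) : Nb (dec p) (dec (p + 9)) := by
  have h1 : (p + 9) / 9 = p / 9 + 1 := by omega
  have h2 : (p + 9) % 9 = p % 9 := by omega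
  unfold dec
  rw [h1, h2]
  have h := nb_h (((p / 9 : ℕ) : ℤ) - 4) (((p % 9 : ℕ) : ℤ) - 4)
  have h3 : (((p / 9 + 1 : ℕ) : ℤ) - 4) = ((p / 9 : ℕ) : ℤ) - 4 + 1 := by push_cast; ring
  rw [h3]
  exact h

theorem nb1 (p : ℕ) (hp : p % 9 ≠ 8) : Nb (dec p) (dec (p + 1)) := by
  have h1 : (p + 1) / 9 = p / 9 := by omega
  have h2 : (p + 1) % 9 = p % 9 + 1 := by omega
  unfold dec
  rw [h1, h2]
  have h := nb_v (((p / 9 : ℕ) : ℤ) - 4) (((p % 9 : ℕ) : ℤ) - 4)
  have h3 : (((p % 9 + 1 : ℕ) : ℤ) - 4) = ((p % 9 : ℕ) : ℤ) - 4 + 1 := by push_cast; ring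
  rw [h3]
  exact h

theorem adjB_nb {p q : ℕ} (h : adjB p q = true) : Nb (dec p) (dec q) := by
  simp only [adjB, Bool.or_eq_true, Bool.and_eq_true, beq_iff_eq, bne_iff_ne] at h
  rcases h with ((h | h) | ⟨h, h'⟩) | ⟨h, h'⟩
  · rw [h]; exact nb9 p
  · rw [h]; exact (nb9 q).symm
  · rw [h]; exact nb1 p h'
  · rw [h]; exact (nb1 q h').symm

def stp (p d : ℕ) : ℕ := if d = 0 then p + 9 else if d = 1 then p - 9 else if d = 2 then p + 1 else p - 1

def fin (Q T : List ℕ) : Bool :=
  T.contains 40 && ((T.contains 41 || T.contains 51) && ((T.contains 49 || T.contains 59) &&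
    (Q.contains 50 && !T.contains 50)))

def run : ℕ → List ℕ → List ℕ → ℕ → Bool
  | 0, Q, T, _ => fin Q T
  | f + 1, Q, T, c =>
    if c = 0 then fin Q T else
      let p := T.getD ((c % 13 - 1) / 4) 0
      let q := stp p ((c % 13 - 1) % 4)
      T.contains p && (Q.contains q && (!T.contains q && (adjB p q &&
        run f (Q.filter (fun v => v != p)) (q :: T.filter (fun v => v != p)) (c / 13))))

/-- the set of vertices of a list -/
def DS (L : List ℕ) : Set Vtx := {v | ∃ c ∈ L, dec c = v}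

theorem mem_DS {L : List ℕ} {c : ℕ} : dec c ∈ DS L ↔ c ∈ L := by
  constructor
  · rintro ⟨c', h, h'⟩
    rw [← dec_inj h']
    exact h
  · intro h
    exact ⟨c, h, rfl⟩

theorem fin_win {n : ℤ} {Q T : List ℕ} (h : fin Q T = true) : Win n (DS Q) (DS T) := by
  simp only [fin, Bool.and_eq_true, Bool.or_eq_true, List.contains_iff_mem, Bool.not_eq_true',
    ← Bool.not_eq_true] at h
  obtain ⟨h1, h2, h3, h4, h5⟩ := h
  have d40 : dec 40 = (0, 0) := by decide
  have d50 : dec 50 = (1, 1) := by decide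
  have hA : ∃ a, a ∈ DS T ∧ (a = (0, 1) ∨ a = (1, 2)) := by
    rcases h2 with h | h
    · exact ⟨dec 41, mem_DS.mpr h, Or.inl (by decide)⟩
    · exact ⟨dec 51, mem_DS.mpr h, Or.inr (by decide)⟩
  have hB : ∃ b, b ∈ DS T ∧ (b = (1, 0) ∨ b = (2, 1)) := by
    rcases h3 with h | h
    · exact ⟨dec 49, mem_DS.mpr h, Or.inl (by decide)⟩
    · exact ⟨dec 59, mem_DS.mpr h, Or.inr (by decide)⟩
  obtain ⟨a, ha, ha'⟩ := hA
  obtain ⟨b, hb, hb'⟩ := hB
  exact fin1 (d40 ▸ mem_DS.mpr h1) ha hb (d50 ▸ mem_DS.mpr h4)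
    (fun h => h5 (mem_DS.mp (d50.symm ▸ h))) ha' hb'

theorem run_win {n : ℤ} : ∀ (f : ℕ) (Q T : List ℕ) (c : ℕ), (∀ t ∈ T, t ∈ Q) →
    run f Q T c = true → Win n (DS Q) (DS T) := by
  intro f
  induction f with
  | zero => intro Q T c _ h; exact fin_win h
  | succ f ih =>
    intro Q T c hTQ h
    rw [run] at h
    split_ifs at h with hc
    · exact fin_win h
    · simp only [Bool.and_eq_true, List.contains_iff_mem, Bool.not_eq_true', ← Bool.not_eq_true]
        at h
      set p := T.getD ((c % 13 - 1) / 4) 0 with hp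
      set q := stp p ((c % 13 - 1) % 4) with hq
      obtain ⟨h1, h2, h3, h4, h5⟩ := h
      have hpq : q ≠ p := fun h => h3 (h ▸ h1)
      have hsub : ∀ t ∈ q :: T.filter (fun v => v != p), t ∈ Q.filter (fun v => v != p) := by
        intro t ht
        rw [List.mem_filter]
        rcases List.mem_cons.mp ht with rfl | ht
        · exact ⟨h2, by simpa using hpq⟩
        · rw [List.mem_filter] at ht
          exact ⟨hTQ t ht.1, ht.2⟩
      refine slide (p := dec p) (q := dec q) (mem_DS.mpr h1) (mem_DS.mpr h2)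
        (fun h => h3 (mem_DS.mp h)) (adjB_nb h4) ?_ ?_ ?_ ?_ (ih _ _ _ hsub h5)
      · rintro v ⟨c', hc', rfl⟩
        exact mem_DS.mpr (List.mem_filter.mp hc').1
      · intro h
        have := (List.mem_filter.mp (mem_DS.mp h)).2
        simp at this
      · rintro t ⟨c', hc', rfl⟩
        exact mem_DS.mpr (hsub c' hc')
      · intro t
        constructor
        · rintro ⟨c', hc', rfl⟩
          rcases List.mem_cons.mp hc' with rfl | hc'
          · exact Or.inl rfl
          · obtain ⟨h6, h7⟩ := List.mem_filter.mp hc'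
            refine Or.inr ⟨mem_DS.mpr h6, fun h => ?_⟩
            rw [dec_inj h] at h7
            simp at h7
        · rintro (rfl | ⟨⟨c', hc', rfl⟩, h7⟩)
          · exact mem_DS.mpr (List.mem_cons_self)
          · refine mem_DS.mpr (List.mem_cons_of_mem _ (List.mem_filter.mpr ⟨hc', ?_⟩))
            simp only [bne_iff_ne]
            rintro rfl
            exact h7 rfl

def L4 : List ℕ := [4, 12, 14, 20, 24, 28, 34, 36, 44, 46, 52, 56, 60, 66, 68, 76]

def D3 : List ℕ := [13, 21, 22, 23, 29, 30, 31, 32, 33, 37, 38, 39, 40, 41, 42, 43, 47, 48, 49, 50,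
  51, 57, 58, 59, 67]

def tri : List (ℕ × ℕ × ℕ) :=
  (List.range 16).flatMap fun i => (List.range i).flatMap fun j =>
    (List.range j).map fun k => (i, j, k)

def TT (t : ℕ × ℕ × ℕ) : List ℕ := [L4.getD t.1 0, L4.getD t.2.1 0, L4.getD t.2.2 0]

def chk : List (ℕ × ℕ × ℕ) → List ℕ → Bool
  | [], _ => true
  | _ :: _, [] => false
  | t :: ts, c :: cs => run 20 (D3 ++ TT t) (TT t) c && chk ts cs

theorem chk_run : ∀ (ts : List (ℕ × ℕ × ℕ)) (cs : List ℕ), chk ts cs = true → ∀ t ∈ ts,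
    ∃ c, run 20 (D3 ++ TT t) (TT t) c = true := by
  intro ts
  induction ts with
  | nil => intro cs _ t ht; simp at ht
  | cons t0 ts ih =>
    intro cs h t ht
    cases cs with
    | nil => simp [chk] at h
    | cons c cs =>
      simp only [chk, Bool.and_eq_true] at h
      rcases List.mem_cons.mp ht with rfl | ht
      · exact ⟨c, h.1⟩
      · exact ih cs h.2 t ht

def tbl : List ℕ :=
  [1948158445130, 374797338056350, 1948034485996, 5532355274070, 1948158445130, 934279003945678,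
   5526344358965, 1948168098748, 5532488886822, 7324649280859, 374797338056376, 1948034486022,
   5532355274096, 374797347709994, 375073064693692, 2027985750298, 1948034486022, 5532355274096,
   7324515668133, 5553564272842, 1948158445169, 934279003945717, 5526344359004, 1948168098787,
   5532488886861, 7324649280898, 934279004031400, 5526344444687, 934281451223563, 5802061428385,
   1948168155909, 5532488943983, 7324649338020, 5553697942729, 7356462836139, 374797338056378,
   1948034486024, 5532355274098, 374797347709996, 375073064693694, 2027985750300, 1948034486024,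
   5532355274098, 7324515668135, 5553564272844, 374797348452582, 375073065436280, 2027986492886,
   375094274435026, 2027986492886, 1948048966451, 5532369754525, 7324530148562, 5553578753271,
   7356343646681, 5555210214713, 1948158445172, 934279003945720, 5526344359007, 1948168098790,
   5532488886864, 7324649280901, 934279004031403, 5526344444690, 934281451223566, 5802061428388,
   1948168155912, 5532488943986, 7324649338023, 5553697942732, 7356462836142, 934279004037994,
   5526344451281, 934281451230157, 5802061434979, 934281639475708, 5803692896421, 1948168160306,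
   5532488948380, 7324649342417, 5553697947126, 7356462840536, 5555329408568, 7358910032699,
   2217735728146, 11526831280, 32735830026, 2217736470732, 2238945469478, 12000601148,
   11526831280, 32735830026, 43340329399, 34367291468, 2217736527854, 2238945526600, 12000658270,
   2240576988042, 12000658270, 11526916963, 32735915709, 43340415082, 34367377151, 43528660633,
   34492874185, 2217736532248, 2238945530994, 12000662664, 2240576992436, 12000662664,
   2240702489470, 14447854827, 11526923554, 32735922300, 43340421673, 34367383742, 43528667224,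
   34492880776, 43543147651, 34502534394, 11527564767, 5528278129859, 32700262482, 11527621889,
   32736620635, 43341120008, 5528278136450, 32700269073, 5528466382001, 34331730515, 11527622227,
   32736620973, 43341120346, 32862118007, 45788312509, 5528278136957, 32700269580, 5528466382508,
   34331731022, 5528480862935, 34341384640, 11527622253, 32736620999, 43341120372, 32862118033,
   45788312535, 32871771651, 45976558086, 5528278136996, 32700269619, 5528466382547, 34331731061,
   5528480862974, 34341384679, 5528481976853, 34342127265, 68210861, 193707895, 256456412,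
   203361513, 270936839, 204104099, 272050718, 204161221, 272136401, 2217735728145, 11526831279,
   32735830025, 2217736470731, 2238945469477, 12000601147, 11526831279, 32735830025, 43340329398,
   34367291467, 2217736527853, 2238945526599, 12000658269, 2240576988041, 12000658269,
   11526916962, 32735915708, 43340415081, 34367377150, 43528660632, 34492874184, 2217736532247,
   2238945530993, 12000662663, 2240576992435, 12000662663, 2240702489469, 14447854826,
   11526923553, 32735922299, 43340421672, 34367383741, 43528667223, 34492880775, 43543147650,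
   34502534393, 2217736530050, 2238945528796, 12000660466, 2240576990238, 12000660466,
   2240702487272, 14447852629, 378583780366405, 14636098180, 68221792, 193718826, 256467343,
   203372444, 270947770, 204115030, 272061649, 204172152, 272147332, 204143591, 11527564765,
   68206103, 193703137, 11527621887, 32736620633, 71009475, 68206103, 193703137, 256451654,
   203356755, 11527622225, 32736620971, 71009813, 32862118005, 71009813, 68206610, 193703644,
   256452161, 203357262, 257566040, 204099848, 11527622251, 32736620997, 71009839, 32862118031,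
   71009839, 32871771649, 85490266, 68206649, 193703683, 256452200, 203357301, 257566079,
   204099887, 257651762, 204157009, 68210859, 193707893, 256456410, 203361511, 270936837,
   204104097, 272050716, 204161219, 272136399, 403680, 1146266, 1517559, 1203388, 1603242,
   1207782, 1609833, 1208120, 1610340, 1207951, 68210846, 193707880, 256456397, 203361498,
   270936824, 204104084, 272050703, 204161206, 272136386, 204132645, 4548210, 2217735728132,
   11526831266, 32735830012, 2217736470718, 2238945469464, 12000601134, 11526831266, 32735830012,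
   43340329385, 34367291454, 2217736527840, 2238945526586, 12000658256, 2240576988028,
   12000658256, 11526916949, 32735915695, 43340415068, 34367377137, 43528660619, 34492874171,
   2217736532234, 2238945530980, 12000662650, 2240576992422, 12000662650, 2240702489456,
   14447854813, 11526923540, 32735922286, 43340421659, 34367383728, 43528667210, 34492880762,
   43543147637, 34502534380, 2217736530037, 2238945528783, 12000660453, 2240576990225,
   12000660453, 2240702487259, 14447852616, 378583780366404, 14636098167, 68221779, 193718813,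
   256467330, 203372431, 270947757, 204115017, 272061636, 204172139, 272147319, 204143578,
   2217736501476, 2238945500222, 12000631892, 2240576961664, 12000631892, 2240702458698,
   14447824055, 378583780364207, 14636069606, 378583717615690, 768647349, 68217385, 193714419,
   256462936, 203368037, 270943363, 204110623, 272057242, 204167745, 272142925, 204139184,
   4690961, 203767891, 13122696615, 68206101, 193703135, 13122701009, 13248198043, 71009473,
   68206101, 193703135, 256451652, 203356753, 13122701347, 13248198381, 71009811, 13257851999,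
   71009811, 68206608, 193703642, 256452159, 203357260, 257566038, 204099846, 13122701373,
   13248198407, 71009837, 13257852025, 71009837, 13258594611, 85490264, 68206647, 193703681,
   256452198, 203357299, 257566077, 204099885, 257651760, 204157007, 13122701360, 13248198394,
   71009824, 13257852012, 71009824, 13258594598, 85490251, 2240140712227, 86604130, 403678,
   1146264, 1517557, 1203386, 1603240, 1207780, 1609831, 1208118, 1610338, 1207949, 13122701191,
   13248198225, 71009655, 13257851843, 71009655, 13258594429, 85490082, 2240140712214, 86603961,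
   2240140340921, 4548208, 403652, 1146238, 1517531, 1203360, 1603214, 1207754, 1609805, 1208092,
   1610312, 1207923, 1609974, 1205726, 13122698994, 13248196028, 71007458, 13257849646, 71007458,
   13258592232, 85487885, 2240140712045, 86601764, 2240140340752, 4546011, 2240135513943,
   3803425, 2217735727963, 11526831097, 32735829843, 2217736470549, 2238945469295, 12000600965,
   11526831097, 32735829843, 43340329216, 34367291285, 2217736527671, 2238945526417, 12000658087,
   2240576987859, 12000658087, 11526916780, 32735915526, 43340414899, 34367376968, 43528660450,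
   34492874002, 2217736532065, 2238945530811, 12000662481, 2240576992253, 12000662481,
   2240702489287, 14447854644, 11526923371, 32735922117, 43340421490, 34367383559, 43528667041,
   34492880593, 43543147468, 34502534211, 2217736529868, 2238945528614, 12000660284,
   2240576990056, 12000660284, 2240702487090, 14447852447, 378583780366391, 14636097998,
   68221610, 193718644, 256467161, 203372262, 270947588, 204114848, 272061467, 204171970,
   272147150, 204143409, 2217736501307, 2238945500053, 12000631723, 2240576961495, 12000631723,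
   2240702458529, 14447823886, 378583780364194, 14636069437, 378583717615677, 768647180,
   68217216, 193714250, 256462767, 203367868, 270943194, 204110454, 272057073, 204167576,
   272142756, 204139015, 4688764, 203767722, 2217736130014, 2238945128760, 12000260430,
   2240576590202, 12000260430, 2240702087236, 14447452593, 378583780335633, 14635698144,
   378583717587116, 768275887, 378582901856395, 642778853, 13122784625, 13248281659, 71093089,
   13257935277, 71093089, 13258677863, 85573516, 2240140797676, 86687395, 2240140426383, 4631642,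
   2240135599574, 3889056, 2239319868853]

theorem tbl_ok : chk tri tbl = true := by decide +kernel

theorem mem_tri {i j k : ℕ} (hi : i < 16) (hj : j < i) (hk : k < j) : (i, j, k) ∈ tri := by
  simp only [tri, List.mem_flatMap, List.mem_range, List.mem_map]
  exact ⟨i, hi, j, hj, k, hk, rfl⟩

/-- the norm -/
def N1 (v : Vtx) : ℕ := v.1.natAbs + v.2.natAbs

/-- the diamond -/
def Bl (m : ℕ) : Set Vtx := {v | N1 v ≤ m}

theorem cov : ∀ x ∈ Finset.Icc (-4 : ℤ) 4, ∀ y ∈ Finset.Icc (-4 : ℤ) 4,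
    x.natAbs + y.natAbs = 4 → ∃ i < 16, dec (L4.getD i 0) = (x, y) := by
  decide +kernel

theorem cov4 {v : Vtx} (hv : N1 v = 4) : ∃ i < 16, dec (L4.getD i 0) = v := by
  obtain ⟨x, y⟩ := v
  simp only [N1] at hv
  exact cov x (by rw [Finset.mem_Icc]; omega) y (by rw [Finset.mem_Icc]; omega) hv

theorem D3_bl : ∀ c ∈ D3, N1 (dec c) ≤ 3 := by decide +kernel

theorem base_sorted {n : ℤ} {i j k : ℕ} (hi : i < 16) (hj : j < i) (hk : k < j) :
    Win n (Bl 3 ∪ {dec (L4.getD i 0), dec (L4.getD j 0), dec (L4.getD k 0)})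
      {dec (L4.getD i 0), dec (L4.getD j 0), dec (L4.getD k 0)} := by
  obtain ⟨c, hc⟩ := chk_run _ _ tbl_ok _ (mem_tri hi hj hk)
  have h := run_win (n := n) 20 _ _ c (fun t ht => List.mem_append_right _ ht) hc
  have hT : DS (TT (i, j, k)) = {dec (L4.getD i 0), dec (L4.getD j 0), dec (L4.getD k 0)} := by
    ext v
    rw [Set.mem_insert_iff, Set.mem_insert_iff, Set.mem_singleton_iff]
    constructor
    · rintro ⟨c', hc', rfl⟩
      simp only [TT, List.mem_cons, List.not_mem_nil, or_false] at hc'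
      rcases hc' with rfl | rfl | rfl
      · exact Or.inl rfl
      · exact Or.inr (Or.inl rfl)
      · exact Or.inr (Or.inr rfl)
    · rintro (rfl | rfl | rfl)
      · exact mem_DS.mpr (by simp [TT])
      · exact mem_DS.mpr (by simp [TT])
      · exact mem_DS.mpr (by simp [TT])
  rw [hT] at h
  refine shrink ?_ ?_ h
  · rintro v ⟨c', hc', rfl⟩
    rcases List.mem_append.mp hc' with h1 | h1
    · exact Or.inl (D3_bl c' h1)
    · right
      rw [← hT]
      exact mem_DS.mpr h1
  · intro t ht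
    rw [← hT] at ht
    obtain ⟨c', hc', rfl⟩ := ht
    exact mem_DS.mpr (List.mem_append_right _ hc')

theorem base {n : ℤ} {a b c : Vtx} (ha : N1 a = 4) (hb : N1 b = 4) (hc : N1 c = 4)
    (hab : a ≠ b) (hac : a ≠ c) (hbc : b ≠ c) : Win n (Bl 3 ∪ {a, b, c}) {a, b, c} := by
  obtain ⟨i, hi, rfl⟩ := cov4 ha
  obtain ⟨j, hj, rfl⟩ := cov4 hb
  obtain ⟨k, hk, rfl⟩ := cov4 hc
  have hij : i ≠ j := fun h => hab (by rw [h])
  have hik : i ≠ k := fun h => hac (by rw [h])
  have hjk : j ≠ k := fun h => hbc (by rw [h])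
  have sw1 : ∀ a b c : Vtx, ({a, b, c} : Set Vtx) = {b, a, c} := fun a b c => Set.insert_comm _ _ _
  have sw2 : ∀ a b c : Vtx, ({a, b, c} : Set Vtx) = {a, c, b} := fun a b c => by
    rw [Set.pair_comm]
  rcases lt_or_gt_of_ne hij with h1 | h1 <;> rcases lt_or_gt_of_ne hik with h2 | h2 <;>
    rcases lt_or_gt_of_ne hjk with h3 | h3
  · rw [sw1, sw2, sw1]; exact base_sorted hk h3 h1
  · rw [sw1, sw2]; exact base_sorted hj h3 h2
  · omega
  · rw [sw1]; exact base_sorted hj h1 h2
  · rw [sw2, sw1]; exact base_sorted hk h2 h1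
  · omega
  · rw [sw2]; exact base_sorted hi h2 h3
  · exact base_sorted hi h1 h3

/-! ## layers -/

theorem lay1 {n : ℤ} {B M R : Set Vtx} {p q : Vtx} (hpB : p ∉ B) (hpR : p ∉ R) (hM : M ⊆ B)
    (hR : ∀ v ∈ R, v ∉ B) (hqB : q ∈ B) (hqM : q ∉ M) (hN : Nb p q)
    (hW : Win n (B ∪ R) (insert q M ∪ R)) : Win n (B ∪ insert p R) (M ∪ insert p R) := by
  have hpM : p ∉ M := fun h => hpB (hM h)
  have hpq : q ≠ p := fun h => hpB (h ▸ hqB)
  have hqR : q ∉ R := fun h => hR q h hqB
  refine slide (p := p) (q := q) (Or.inr (Set.mem_insert _ _)) (Or.inl hqB) ?_ hN ?_ ?_ ?_ ?_ hW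
  · rintro (h | h)
    · exact hqM h
    · rcases Set.mem_insert_iff.mp h with h | h
      · exact hpq h
      · exact hqR h
  · rintro v (h | h)
    · exact Or.inl h
    · exact Or.inr (Set.mem_insert_of_mem _ h)
  · rintro (h | h)
    · exact hpB h
    · exact hpR h
  · rintro v (h | h)
    · rcases Set.mem_insert_iff.mp h with rfl | h
      · exact Or.inl hqB
      · exact Or.inl (hM h)
    · exact Or.inr h
  · intro t
    constructor
    · rintro (h | h)
      · rcases Set.mem_insert_iff.mp h with rfl | h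
        · exact Or.inl rfl
        · exact Or.inr ⟨Or.inl h, fun h' => hpM (h' ▸ h)⟩
      · exact Or.inr ⟨Or.inr (Set.mem_insert_of_mem _ h), fun h' => hpR (h' ▸ h)⟩
    · rintro (rfl | ⟨h | h, h'⟩)
      · exact Or.inl (Set.mem_insert _ _)
      · exact Or.inl (Set.mem_insert_of_mem _ h)
      · rcases Set.mem_insert_iff.mp h with h | h
        · exact absurd h h'
        · exact Or.inr h

theorem lay {n : ℤ} {m : ℕ} {a b c a' b' c' : Vtx} (ha : N1 a = m + 1)
    (hb : N1 b = m + 1)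
    (hc : N1 c = m + 1) (ha' : N1 a' = m) (hb' : N1 b' = m) (hc' : N1 c' = m)
    (hab : a ≠ b) (hac : a ≠ c) (hbc : b ≠ c) (hab' : a' ≠ b') (hac' : a' ≠ c') (hbc' : b' ≠ c')
    (na : Nb a a') (nb : Nb b b') (nc : Nb c c')
    (hW : Win n (Bl (m - 1) ∪ {a', b', c'}) {a', b', c'}) :
    Win n (Bl m ∪ {a, b, c}) {a, b, c} := by
  have bl : ∀ {v : Vtx}, N1 v = m → v ∈ Bl m := fun h => le_of_eq h
  have nbl : ∀ {v : Vtx}, N1 v = m + 1 → v ∉ Bl m := fun {v} h h' => by
    have : N1 v ≤ m := h'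
    omega
  have la := bl ha'
  have lb := bl hb'
  have lc := bl hc'
  have ka := nbl ha
  have kb := nbl hb
  have kc := nbl hc
  have s1 := lay1 (n := n) (B := Bl m) (M := ∅) (R := {b, c}) (p := a) (q := a') ka
    (by simp [hab, hac]) (Set.empty_subset _) (by rintro v (rfl | rfl) <;> assumption) la
    (by simp) na
  rw [Set.empty_union] at s1
  apply s1
  apply lay1 (n := n) (B := Bl m) (M := insert a' ∅) (R := {c}) (p := b) (q := b') kb
    (by simp [hbc]) (by
      rintro v (rfl | h)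
      · exact la
      · exact absurd h (by simp))
    (by rintro v rfl; exact kc) lb (by simp [hab'.symm]) nb
  have s3 := lay1 (n := n) (B := Bl m) (M := insert b' (insert a' ∅)) (R := ∅) (p := c) (q := c') kc
    (by simp) (by
      rintro v (rfl | rfl | h)
      · exact lb
      · exact la
      · exact absurd h (by simp))
    (by rintro v h; exact absurd h (by simp)) lc (by simp [hac'.symm, hbc'.symm]) nc
  rw [show (insert c ∅ : Set Vtx) = {c} by simp] at s3
  apply s3
  rw [Set.union_empty, Set.union_empty]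
  have e : (insert c' (insert b' (insert a' ∅)) : Set Vtx) = {a', b', c'} := by
    ext v
    simp only [Set.mem_insert_iff, Set.mem_singleton_iff, Set.mem_empty_iff_false, or_false]
    constructor
    · rintro (h | h | h)
      · exact Or.inr (Or.inr h)
      · exact Or.inr (Or.inl h)
      · exact Or.inl h
    · rintro (h | h | h)
      · exact Or.inr (Or.inr h)
      · exact Or.inr (Or.inl h)
      · exact Or.inl h
  rw [e]
  refine shrink ?_ (fun t ht => Or.inr ht) hW
  intro v hv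
  rcases hv with hv | hv
  · have h1 : N1 v ≤ m - 1 := hv
    have h2 : N1 v ≤ m := by omega
    exact h2
  · simp only [Set.mem_insert_iff, Set.mem_singleton_iff] at hv
    rcases hv with rfl | rfl | rfl <;> assumption

def sg (z : ℤ) : ℤ := if 0 < z then 1 else if z < 0 then -1 else 0

def hx (v : Vtx) : Vtx := if v.1 = 0 then (0, v.2 - sg v.2) else (v.1 - sg v.1, v.2)

def vx (v : Vtx) : Vtx := if v.2 = 0 then (v.1 - sg v.1, 0) else (v.1, v.2 - sg v.2)

theorem nb_sx {x y : ℤ} (hx : x ≠ 0) : Nb (x, y) (x - sg x, y) := by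
  unfold sg
  split_ifs with h1 h2
  · have := (nb_h (x - 1) y).symm
    rw [sub_add_cancel] at this
    exact this
  · have := nb_h x y
    rw [sub_neg_eq_add]
    exact this
  · omega

theorem nb_sy {x y : ℤ} (hy : y ≠ 0) : Nb (x, y) (x, y - sg y) := by
  unfold sg
  split_ifs with h1 h2
  · have := (nb_v x (y - 1)).symm
    rw [sub_add_cancel] at this
    exact this
  · have := nb_v x y
    rw [sub_neg_eq_add]
    exact this
  · omega

theorem sg_abs {z : ℤ} (hz : z ≠ 0) : (z - sg z).natAbs + 1 = z.natAbs := by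
  unfold sg
  split_ifs <;> omega

theorem hx_nb {m : ℕ} {v : Vtx} (hv : N1 v = m + 1) : Nb v (hx v) ∧ N1 (hx v) = m := by
  obtain ⟨x, y⟩ := v
  simp only [N1] at hv
  unfold hx
  simp only
  split_ifs with h
  · subst h
    have hy : y ≠ 0 := by rintro rfl; simp at hv
    refine ⟨nb_sy hy, ?_⟩
    have := sg_abs hy
    simp only [N1]
    omega
  · refine ⟨nb_sx h, ?_⟩
    have := sg_abs h
    simp only [N1]
    omega

theorem vx_nb {m : ℕ} {v : Vtx} (hv : N1 v = m + 1) : Nb v (vx v) ∧ N1 (vx v) = m := by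
  obtain ⟨x, y⟩ := v
  simp only [N1] at hv
  unfold vx
  simp only
  split_ifs with h
  · subst h
    have hy : x ≠ 0 := by rintro rfl; simp at hv
    refine ⟨nb_sx hy, ?_⟩
    have := sg_abs hy
    simp only [N1]
    omega
  · refine ⟨nb_sy h, ?_⟩
    have := sg_abs h
    simp only [N1]
    omega

theorem hx_col {m : ℕ} {u v : Vtx} (hu : N1 u = m + 1) (hv : N1 v = m + 1) (h : hx u = hx v)
    (hne : u ≠ v) : u.1.natAbs ≤ 1 ∧ v.1.natAbs ≤ 1 := by
  obtain ⟨x, y⟩ := u
  obtain ⟨x', y'⟩ := v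
  simp only [N1] at hu hv
  have hne' : ¬ (x = x' ∧ y = y') := fun h => hne (by rw [h.1, h.2])
  unfold hx sg at h
  simp only at h
  split_ifs at h <;> simp only [Prod.mk.injEq] at h <;> constructor <;> simp only <;> omega

theorem vx_col {m : ℕ} {u v : Vtx} (hu : N1 u = m + 1) (hv : N1 v = m + 1) (h : vx u = vx v)
    (hne : u ≠ v) : u.2.natAbs ≤ 1 ∧ v.2.natAbs ≤ 1 := by
  obtain ⟨x, y⟩ := u
  obtain ⟨x', y'⟩ := v
  simp only [N1] at hu hv
  have hne' : ¬ (x = x' ∧ y = y') := fun h => hne (by rw [h.1, h.2])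
  unfold vx sg at h
  simp only at h
  split_ifs at h <;> simp only [Prod.mk.injEq] at h <;> constructor <;> simp only <;> omega

theorem small {m : ℕ} {u : Vtx} (hm : 2 ≤ m) (hu : N1 u = m + 1) (h1 : u.1.natAbs ≤ 1)
    (h2 : u.2.natAbs ≤ 1) : False := by
  unfold N1 at hu
  omega

theorem desc {n : ℤ} : ∀ (k : ℕ) (a b c : Vtx), N1 a = k + 4 → N1 b = k + 4 → N1 c = k + 4 →
    a ≠ b → a ≠ c → b ≠ c → Win n (Bl (k + 3) ∪ {a, b, c}) {a, b, c} := by
  intro k
  induction k with
  | zero => intro a b c ha hb hc hab hac hbc; exact base ha hb hc hab hac hbc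
  | succ k ih =>
    intro a b c ha hb hc hab hac hbc
    have ha1 : N1 a = (k + 4) + 1 := by omega
    have hb1 : N1 b = (k + 4) + 1 := by omega
    have hc1 : N1 c = (k + 4) + 1 := by omega
    have e : k + 1 + 3 = k + 4 := by omega
    rw [e]
    have hm : 2 ≤ k + 4 := by omega
    by_cases hH : hx a ≠ hx b ∧ hx a ≠ hx c ∧ hx b ≠ hx c
    · exact lay ha1 hb1 hc1 (hx_nb ha1).2 (hx_nb hb1).2 (hx_nb hc1).2 hab hac hbc
        hH.1 hH.2.1 hH.2.2 (hx_nb ha1).1 (hx_nb hb1).1 (hx_nb hc1).1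
        (ih _ _ _ (hx_nb ha1).2 (hx_nb hb1).2 (hx_nb hc1).2 hH.1 hH.2.1 hH.2.2)
    by_cases hV : vx a ≠ vx b ∧ vx a ≠ vx c ∧ vx b ≠ vx c
    · exact lay ha1 hb1 hc1 (vx_nb ha1).2 (vx_nb hb1).2 (vx_nb hc1).2 hab hac hbc
        hV.1 hV.2.1 hV.2.2 (vx_nb ha1).1 (vx_nb hb1).1 (vx_nb hc1).1
        (ih _ _ _ (vx_nb ha1).2 (vx_nb hb1).2 (vx_nb hc1).2 hV.1 hV.2.1 hV.2.2)
    exfalso
    have hH' : hx a = hx b ∨ hx a = hx c ∨ hx b = hx c := by tauto
    have hV' : vx a = vx b ∨ vx a = vx c ∨ vx b = vx c := by tauto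
    rcases hH' with h | h | h <;> rcases hV' with h' | h' | h'
    · exact small hm ha1 (hx_col ha1 hb1 h hab).1 (vx_col ha1 hb1 h' hab).1
    · exact small hm ha1 (hx_col ha1 hb1 h hab).1 (vx_col ha1 hc1 h' hac).1
    · exact small hm hb1 (hx_col ha1 hb1 h hab).2 (vx_col hb1 hc1 h' hbc).1
    · exact small hm ha1 (hx_col ha1 hc1 h hac).1 (vx_col ha1 hb1 h' hab).1
    · exact small hm ha1 (hx_col ha1 hc1 h hac).1 (vx_col ha1 hc1 h' hac).1
    · exact small hm hc1 (hx_col ha1 hc1 h hac).2 (vx_col hb1 hc1 h' hbc).2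
    · exact small hm hb1 (hx_col hb1 hc1 h hbc).1 (vx_col ha1 hb1 h' hab).2
    · exact small hm hc1 (hx_col hb1 hc1 h hbc).2 (vx_col ha1 hc1 h' hac).2
    · exact small hm hb1 (hx_col hb1 hc1 h hbc).1 (vx_col hb1 hc1 h' hbc).1

/-! ## the last exit -/

theorem exit1 {G : Set Edg} {B : Set Vtx} {x w : Vtx} (hx : x ∈ B) (h : Reach G x w) :
    ∃ u ∈ B, Reach G x u ∧ Reach (G \ inE B) u w := by
  induction h with
  | refl => exact ⟨x, hx, Reach.refl _ _, Reach.refl _ _⟩
  | @tail v w hxv hs ih =>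
    by_cases hw : w ∈ B
    · exact ⟨w, hw, Reach.trans hxv (Adj.reach hs), Reach.refl _ _⟩
    · obtain ⟨u, hu, h1, h2⟩ := ih
      refine ⟨u, hu, h1, h2.trans (Adj.reach ?_)⟩
      obtain ⟨e, he, he'⟩ := hs
      refine ⟨e, ⟨he, ?_⟩, he'⟩
      rintro ⟨h3, h4⟩
      rcases he' with ⟨h5, h6⟩ | ⟨h5, h6⟩
      · exact hw (h6 ▸ h4)
      · exact hw (h5 ▸ h3)

theorem edge_N1 (e : Edg) : N1 (src e) ≤ N1 (tgt e) + 1 ∧ N1 (tgt e) ≤ N1 (src e) + 1 := by
  obtain ⟨x, y, _ | _⟩ := e
  · rw [src_mk, tgt_false]; simp only [N1]; omega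
  · rw [src_mk, tgt_true]; simp only [N1]; omega

theorem exit2 {G : Set Edg} {ρ : ℕ} {u w : Vtx} (hu : u ∈ Bl ρ) (hw : w ∉ Bl ρ)
    (h : Reach (G \ inE (Bl ρ)) u w) : N1 u = ρ := by
  have hu' : N1 u ≤ ρ := hu
  rcases Relation.ReflTransGen.cases_head h with rfl | ⟨v, hs, _⟩
  · exact absurd hu hw
  · obtain ⟨e, ⟨_, he⟩, he'⟩ := hs
    have h1 := edge_N1 e
    have h2 : ¬ (N1 (src e) ≤ ρ ∧ N1 (tgt e) ≤ ρ) := he
    rcases he' with ⟨h5, h6⟩ | ⟨h5, h6⟩
    · rw [h5] at h1 h2; omega
    · rw [h6] at h1 h2; omega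

theorem nm_N1 (v : Vtx) : nm v ≤ N1 v := by
  unfold nm N1
  push_cast
  apply max_le
  · have := abs_nonneg v.2; linarith
  · have := abs_nonneg v.1; linarith

theorem N1_nm (v : Vtx) : (N1 v : ℤ) ≤ 2 * nm v := by
  unfold nm N1
  push_cast
  have h1 := le_max_left |v.1| |v.2|
  have h2 := le_max_right |v.1| |v.2|
  linarith

theorem det {r n : ℕ} (hn : 2 * r + 4 < n) {F : Set Edg} (hF : F ⊆ bxz n) (h : Cl3 r n F) :
    ∃ F' : Set Edg, F' ⊆ bxz n ∧ (∀ e, e ∉ inE (Bl (2 * r + 4)) → (e ∈ F' ↔ e ∈ F)) ∧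
      SE 3 n F' := by
  obtain ⟨x, hx, hxd⟩ := h
  set ρ := 2 * r + 4 with hρ
  set G := F ∩ (bxz n \ bxz r) with hG
  have hGF : F \ inE (Bl ρ) = G \ inE (Bl ρ) := by
    ext e
    constructor
    · rintro ⟨h1, h2⟩
      refine ⟨⟨h1, hF h1, ?_⟩, h2⟩
      rintro ⟨h3, h4⟩
      apply h2
      have h5 := N1_nm (src e)
      have h6 := N1_nm (tgt e)
      constructor
      · show N1 (src e) ≤ ρ
        omega
      · show N1 (tgt e) ≤ ρ
        omega
    · rintro ⟨h1, h2⟩
      exact ⟨h1.1, h2⟩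
  have hex : ∀ i, ∃ u, N1 u = ρ ∧ Reach G (x i) u ∧ ∃ w, nm w = n ∧
      Reach (F \ inE (Bl ρ)) u w := by
    intro i
    obtain ⟨h1, w, hw, h2⟩ := hx i
    have hxB : x i ∈ Bl ρ := by
      have h3 := N1_nm (x i)
      show N1 (x i) ≤ ρ
      omega
    have hwB : w ∉ Bl ρ := by
      intro h3
      have h4 : N1 w ≤ ρ := h3
      have h5 := nm_N1 w
      omega
    obtain ⟨u, hu, h3, h4⟩ := exit1 hxB h2
    exact ⟨u, exit2 hu hwB h4, h3, w, hw, hGF ▸ h4⟩
  choose u hu hxu hw using hex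
  have hd : ∀ i j, i ≠ j → ¬ Reach (F \ inE (Bl ρ)) (u i) (u j) := by
    intro i j hij h
    rw [hGF] at h
    exact hxd i j hij ((hxu i).trans ((h.mono Set.sdiff_subset).trans (hxu j).symm))
  have hne : ∀ i j, i ≠ j → u i ≠ u j := by
    intro i j hij h
    exact hd i j hij (h ▸ Reach.refl _ _)
  have hT : ∀ t, t ∈ ({u 0, u 1, u 2} : Set Vtx) ↔ ∃ i, t = u i := by
    intro t
    simp only [Set.mem_insert_iff, Set.mem_singleton_iff]
    constructor
    · rintro (h | h | h)
      · exact ⟨0, h⟩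
      · exact ⟨1, h⟩
      · exact ⟨2, h⟩
    · rintro ⟨i, h⟩
      fin_cases i
      · exact Or.inl h
      · exact Or.inr (Or.inl h)
      · exact Or.inr (Or.inr h)
  have hW : Win (n : ℤ) (Bl (2 * r + 3) ∪ {u 0, u 1, u 2}) {u 0, u 1, u 2} :=
    desc (2 * r) _ _ _ (hu 0) (hu 1) (hu 2) (hne _ _ (by decide)) (hne _ _ (by decide))
      (hne _ _ (by decide))
  have hQ : ∀ v ∈ Bl (2 * r + 3) ∪ {u 0, u 1, u 2}, N1 v ≤ ρ := by
    rintro v (hv | hv)
    · have : N1 v ≤ 2 * r + 3 := hv
      omega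
    · obtain ⟨i, rfl⟩ := (hT v).mp hv
      exact le_of_eq (hu i)
  have hQn : ∀ v, N1 v ≤ ρ → nm v ≤ n := by
    intro v hv
    have h1 := nm_N1 v
    have h2 : (N1 v : ℤ) ≤ ρ := by exact_mod_cast hv
    have h3 : (ρ : ℤ) < n := by exact_mod_cast hn
    omega
  have hSt : St (n : ℤ) (Bl (2 * r + 3) ∪ {u 0, u 1, u 2}) {u 0, u 1, u 2} (F \ inE (Bl ρ)) := by
    constructor
    · intro e he
      exact hF he.1
    · exact fun v hv => hQn v (hQ v hv)
    · exact fun t ht => Or.inr ht
    · intro q hq hqT e he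
      have hq1 : N1 q ≤ 2 * r + 3 := by
        rcases hq with hq | hq
        · exact hq
        · exact absurd hq hqT
      have h1 := edge_N1 e
      have h2 : ¬ (N1 (src e) ≤ ρ ∧ N1 (tgt e) ≤ ρ) := he.2
      constructor
      · rintro rfl; omega
      · rintro rfl; omega
    · intro p hp
      obtain ⟨i, rfl⟩ := (hT p).mp hp
      exact hw i
    · intro p hp p' hp' hpp
      obtain ⟨i, rfl⟩ := (hT p).mp hp
      obtain ⟨j, rfl⟩ := (hT p').mp hp'
      exact hd i j (fun h => hpp (by rw [h]))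
  obtain ⟨F', h1, h2, h3⟩ := hW _ hSt
  refine ⟨F', ?_, ?_, h3⟩
  · intro e he
    rcases h2 he with h4 | h4
    · exact hF h4.1
    · exact ⟨hQn _ (hQ _ h4.1), hQn _ (hQ _ h4.2)⟩
  · intro e he
    constructor
    · intro h4
      rcases h2 h4 with h5 | h5
      · exact h5.1
      · exact absurd ⟨hQ _ h5.1, hQ _ h5.2⟩ he
    · intro h4
      exact h1 ⟨h4, he⟩

/-! ## probability -/

theorem pr_mod {S D : Finset Edg} (hD : D ⊆ S) {A B : Finset Edg → Prop}
    (h : ∀ F, F ⊆ S → A F → ∃ F', F' ⊆ S ∧ F' \ D = F \ D ∧ B F') :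
    Pr (fun _ => (1 / 2 : ℝ)) S A ≤ 2 ^ D.card * Pr (fun _ => (1 / 2 : ℝ)) S B := by
  have hok : Ok (fun _ : Edg => (1 / 2 : ℝ)) := fun e => by constructor <;> norm_num
  have hS : S = (S \ D) ∪ D := by rw [Finset.sdiff_union_of_subset hD]
  have hd : Disjoint (S \ D) D := Finset.sdiff_disjoint
  have e1 : ∀ A : Finset Edg → Prop, Pr (fun _ => (1 / 2 : ℝ)) S A =
      Ex (fun _ => (1 / 2 : ℝ)) (S \ D) (fun X => Ex (fun _ => (1 / 2 : ℝ)) D
        (fun Y => ind (A (X ∪ Y)))) := by
    intro A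
    unfold Pr
    conv_lhs => rw [hS]
    rw [Ex_union hd]
  rw [e1 A, e1 B, ← Ex_mul_left]
  apply Ex_mono hok
  intro X hX
  have hXD : Disjoint X D := Finset.disjoint_of_subset_left hX hd
  by_cases hE : ∃ Y, Y ⊆ D ∧ A (X ∪ Y)
  · obtain ⟨Y, hY, hA⟩ := hE
    have hXS : X ⊆ S := hX.trans Finset.sdiff_subset
    obtain ⟨F', hF', hFD, hB⟩ := h (X ∪ Y) (Finset.union_subset hXS (hY.trans hD)) hA
    have e2 : (X ∪ Y) \ D = X := by
      rw [Finset.union_sdiff_distrib, Finset.sdiff_eq_empty_iff_subset.mpr hY,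
        Finset.sdiff_eq_self_of_disjoint hXD, Finset.union_empty]
    have e3 : X ∪ (F' ∩ D) = F' := by
      rw [← e2, ← hFD, Finset.sdiff_union_inter]
    have h1 : (1 / 2 : ℝ) ^ D.card ≤ Ex (fun _ => (1 / 2 : ℝ)) D (fun Y => ind (B (X ∪ Y))) := by
      unfold Ex
      have h2 : (∏ e ∈ F' ∩ D, (1 / 2 : ℝ)) * (∏ e ∈ D \ (F' ∩ D), (1 - (1 / 2 : ℝ))) *
          ind (B (X ∪ (F' ∩ D))) = (1 / 2 : ℝ) ^ D.card := by
        rw [e3, ind_of hB, mul_one, Finset.prod_const, Finset.prod_const]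
        have h3 : (1 - (1 / 2 : ℝ)) = 1 / 2 := by norm_num
        rw [h3, ← pow_add]
        congr 1
        have := Finset.card_sdiff_add_card_eq_card (s := F' ∩ D) (t := D) Finset.inter_subset_right
        omega
      rw [← h2]
      apply Finset.single_le_sum (f := fun F => (∏ e ∈ F, (1 / 2 : ℝ)) *
        (∏ e ∈ D \ F, (1 - (1 / 2 : ℝ))) * ind (B (X ∪ F)))
      · intro F _
        apply mul_nonneg
        · apply mul_nonneg
          · exact Finset.prod_nonneg (fun _ _ => by norm_num)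
          · exact Finset.prod_nonneg (fun _ _ => by norm_num)
        · exact ind_nonneg _
      · exact Finset.mem_powerset.mpr Finset.inter_subset_right
    have h4 : Ex (fun _ => (1 / 2 : ℝ)) D (fun Y => ind (A (X ∪ Y))) ≤ 1 :=
      Ex_le_of_le hok (fun Y _ => ind_le_one _)
    have h5 : (2 : ℝ) ^ D.card * (1 / 2) ^ D.card = 1 := by
      rw [← mul_pow]; norm_num
    calc Ex (fun _ => (1 / 2 : ℝ)) D (fun Y => ind (A (X ∪ Y))) ≤ 1 := h4
      _ = (2 : ℝ) ^ D.card * (1 / 2) ^ D.card := h5.symm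
      _ ≤ _ := mul_le_mul_of_nonneg_left h1 (by positivity)
  · have h1 : Ex (fun _ => (1 / 2 : ℝ)) D (fun Y => ind (A (X ∪ Y))) ≤ 0 := by
      apply Ex_le_of_le hok
      intro Y hY
      rw [ind_not_of (fun h => hE ⟨Y, hY, h⟩)]
    refine h1.trans (mul_nonneg (by positivity) (Ex_nonneg hok (fun Y _ => ind_nonneg _)))

theorem bxz_box {R : ℕ} {e : Edg} : e ∈ bxz R ↔ e ∈ boxE R := by
  obtain ⟨x, y, _ | _⟩ := e
  · unfold boxE
    rw [mem_RE_false]
    simp only [bxz, nm, Set.mem_ofPred_eq, src_mk, tgt_false, max_le_iff, abs_le]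
    omega
  · unfold boxE
    rw [mem_RE_true]
    simp only [bxz, nm, Set.mem_ofPred_eq, src_mk, tgt_true, max_le_iff, abs_le]
    omega

theorem pr_le {r n : ℕ} (hn : 2 * r + 4 < n) :
    Pr (fun _ => (1 / 2 : ℝ)) (boxE n) (fun F => Cl3 r n (↑F : Set Edg)) ≤
      2 ^ (boxE (2 * r + 4)).card * sP 3 n := by
  classical
  unfold sP
  apply pr_mod (boxE_mono (by omega))
  intro F hF hC
  have hFb : (↑F : Set Edg) ⊆ bxz n := fun e he => bxz_box.mpr (hF he)
  obtain ⟨F', h1, h2, h3⟩ := det hn hFb hC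
  have h4 : (↑((boxE n).filter (fun e => e ∈ F')) : Set Edg) = F' := by
    ext e
    simp only [Finset.coe_filter, Set.mem_ofPred_eq]
    constructor
    · exact fun h => h.2
    · exact fun h => ⟨bxz_box.mp (h1 h), h⟩
  refine ⟨(boxE n).filter (fun e => e ∈ F'), Finset.filter_subset _ _, ?_, by rw [h4]; exact h3⟩
  ext e
  rw [Finset.mem_sdiff, Finset.mem_sdiff, Finset.mem_filter]
  constructor
  · rintro ⟨⟨_, h5⟩, h6⟩
    refine ⟨?_, h6⟩
    have h7 : e ∉ inE (Bl (2 * r + 4)) := by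
      rintro ⟨h8, h9⟩
      apply h6
      rw [← bxz_box]
      have h8' : N1 (src e) ≤ 2 * r + 4 := h8
      have h9' : N1 (tgt e) ≤ 2 * r + 4 := h9
      have h10 := nm_N1 (src e)
      have h11 := nm_N1 (tgt e)
      constructor
      · push_cast; omega
      · push_cast; omega
    exact_mod_cast (h2 e h7).mp h5
  · rintro ⟨h5, h6⟩
    have h7 : e ∉ inE (Bl (2 * r + 4)) := by
      rintro ⟨h8, h9⟩
      apply h6
      rw [← bxz_box]
      have h8' : N1 (src e) ≤ 2 * r + 4 := h8
      have h9' : N1 (tgt e) ≤ 2 * r + 4 := h9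
      have h10 := nm_N1 (src e)
      have h11 := nm_N1 (tgt e)
      constructor
      · push_cast; omega
      · push_cast; omega
    exact ⟨⟨hF h5, (h2 e h7).mpr (by exact_mod_cast h5)⟩, h6⟩

theorem cl3_of (hUB : Pool.Agent.H160R2.MU.S_UB) : S_CL3 := by
  intro r _
  obtain ⟨C0, hC0, hU⟩ := hUB 3 (by norm_num)
  have hD : (0 : ℝ) < 2 ^ (boxE (2 * r + 4)).card := by positivity
  have hρ : (0 : ℝ) < ((2 * r + 4 : ℕ) : ℝ) ^ (35 / 12 : ℝ) := by positivity
  refine ⟨2 ^ (boxE (2 * r + 4)).card * C0 + ((2 * r + 4 : ℕ) : ℝ) ^ (35 / 12 : ℝ),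
    by positivity, ?_⟩
  intro n hn
  have hn0 : (0 : ℝ) < n := by exact_mod_cast hn
  have hp : (0 : ℝ) < (n : ℝ) ^ (-(35 / 12 : ℝ)) := Real.rpow_pos_of_pos hn0 _
  by_cases h : 2 * r + 4 < n
  · have h1 := hU n (by omega)
    have e : ((4 * ((3 : ℕ) : ℝ) ^ 2 - 1) / 12) = (35 / 12 : ℝ) := by norm_num
    rw [e] at h1
    calc Pr (fun _ => (1 / 2 : ℝ)) (boxE n) (fun F => Cl3 r n (↑F : Set Edg))
        ≤ 2 ^ (boxE (2 * r + 4)).card * sP 3 n := pr_le h
      _ ≤ 2 ^ (boxE (2 * r + 4)).card * (C0 * (n : ℝ) ^ (-(35 / 12 : ℝ))) :=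
        mul_le_mul_of_nonneg_left h1 hD.le
      _ ≤ _ := by nlinarith [mul_pos hρ hp]
  · have hok : Ok (fun _ : Edg => (1 / 2 : ℝ)) := fun e => by constructor <;> norm_num
    have h1 : Pr (fun _ => (1 / 2 : ℝ)) (boxE n) (fun F => Cl3 r n (↑F : Set Edg)) ≤ 1 :=
      Pr_le_one hok _ _
    have h2 : (n : ℝ) ^ (35 / 12 : ℝ) ≤ ((2 * r + 4 : ℕ) : ℝ) ^ (35 / 12 : ℝ) := by
      apply Real.rpow_le_rpow hn0.le _ (by norm_num)
      exact_mod_cast (by omega : n ≤ 2 * r + 4)
    have h3 : (n : ℝ) ^ (35 / 12 : ℝ) * (n : ℝ) ^ (-(35 / 12 : ℝ)) = 1 := by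
      rw [← Real.rpow_add hn0]; simp
    have h4 := mul_le_mul_of_nonneg_right h2 hp.le
    rw [h3] at h4
    have h5 : 0 < 2 ^ (boxE (2 * r + 4)).card * C0 * (n : ℝ) ^ (-(35 / 12 : ℝ)) := by positivity
    rw [add_mul]
    linarith

end CL3Aux

/-- **six arms in the plane** -/
theorem t_CL3 : S_CL3 := CL3Aux.cl3_of Pool.Agent.H160R2.MU.a_UB

end Pool.Agent.W801.RS
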