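import Pool.Agent.W801.RS.Stm

/-!
# RS-RB: the map without gates (helper790, for helper801)
-/

set_option autoImplicit false

namespace Pool.Agent.W801.RS
open H974 H906.Cyl H12S Finset
open Pool.Agent.H160R2.ML (nm)
open Pool.Agent.W801.OU (RZ LZ Dg nrm zp Cor scz bxz SE3 uR)
open Pool.Agent.W801.OS (cr)

namespace RB790

variable {C s' ρ R : ℕ} {G : Set Edg} {m : ℤ × ℤ → ℤ}

theorem nz_le_iff {x : ℤ × ℤ} {n : ℤ} :
    nz x ≤ n ↔ (-n ≤ x.1 ∧ x.1 ≤ n) ∧ (-n ≤ x.2 ∧ x.2 ≤ n) := by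
  unfold nz
  rw [max_le_iff, abs_le, abs_le]

theorem bnd (h : Gd C s' ρ R G m) {x y : ℤ × ℤ} (hx : K1 R G x) (hy : K1 R G y)
    (hx' : 2 * nz x ≤ R) (hy' : 2 * nz y ≤ R) (k : ℤ) (hk : |y.2 - x.2| ≤ k) :
    2 * |m y - m x| ≤ |y.1 - x.1| + C * (k + 1) := by
  have h1 := h.b x y hx hy hx' hy'
  have h2 : (C : ℤ) * (|y.2 - x.2| + 1) ≤ C * (k + 1) :=
    mul_le_mul_of_nonneg_left (by linarith) (Int.natCast_nonneg C)
  linarith

theorem near (h : Gd C s' ρ R G m) {x y : ℤ × ℤ} (hx : K1 R G x) (hy : K1 R G y)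
    (hr : Rg ρ R x) (hn : nz (y.1 - x.1, y.2 - x.2) ≤ s') : m y - m x = crd x y := by
  by_contra hc
  refine h.ng x hr.1 hr.2 ⟨x, y, hx, hy, ?_, hn, hc⟩
  rw [nz_le_iff]
  simp

theorem nrm_p {d : ℤ} (hd : 0 ≤ d) (j t : ℤ) : nrm {0} d j t = (j, t) := by
  unfold nrm
  rw [if_neg]
  rintro ⟨h, _⟩
  omega

theorem nrm_n {d j : ℤ} (hj : j ≠ 0) (t : ℤ) : nrm {0} d j t = (j, t) := by
  unfold nrm
  rw [if_neg]
  rintro ⟨_, h⟩
  exact hj h

theorem nrm_z {d : ℤ} (hd : d < 0) (t : ℤ) : nrm {0} d 0 t = (-1, t) := by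
  unfold nrm
  rw [if_pos ⟨hd, rfl⟩]
  rfl

theorem cnz_pos {x : ℤ × ℤ} {s d : ℤ} (hd : 0 ≤ d) (h : Cnz x s d) :
    (x.1 = s ∨ x.1 = s + 1) ∧ (x.2 = d ∨ x.2 = d + 1) := by
  obtain ⟨_, i, k, hi, hk, hx⟩ := h
  rw [nrm_p hd] at hx
  subst hx
  constructor
  · show s + i = s ∨ s + i = s + 1
    omega
  · show d + k = d ∨ d + k = d + 1
    omega

theorem cnz_neg {x : ℤ × ℤ} {s d : ℤ} (hd : d < 0) (h : Cnz x s d) :
    (s - 1 ≤ x.1 ∧ x.1 ≤ s + 1) ∧ (x.2 = d ∨ x.2 = d + 1) ∧ s ≠ -1 := by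
  obtain ⟨h0, i, k, hi, hk, hx⟩ := h
  have hs : s ≠ -1 := by
    intro h
    exact h0 ⟨hd, by omega⟩
  by_cases hj : s + i = 0
  · rw [hj, nrm_z hd] at hx
    subst hx
    refine ⟨⟨?_, ?_⟩, ?_, hs⟩
    · show s - 1 ≤ -1
      omega
    · show (-1 : ℤ) ≤ s + 1
      omega
    · show d + k = d ∨ d + k = d + 1
      omega
  · rw [nrm_n hj] at hx
    subst hx
    refine ⟨⟨?_, ?_⟩, ?_, hs⟩
    · show s - 1 ≤ s + i
      omega
    · show s + i ≤ s + 1
      omega
    · show d + k = d ∨ d + k = d + 1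
      omega

theorem crd_pp {a b : ℤ × ℤ} (ha : 0 ≤ a.2) (hb : 0 ≤ b.2) : crd a b = 0 := by
  unfold crd
  rw [if_neg (by omega), if_neg (by omega)]
  rfl

theorem kpp_eq (h : Gd C s' ρ R G m) {x y : ℤ × ℤ} (hx : K1 R G x) (hy : K1 R G y)
    (hr : Rg ρ R x) {d t : ℤ} (hd : d < 0) (hxd : x.2 = d ∨ x.2 = d + 1)
    (hyd : y.2 = d ∨ y.2 = d + 1) (ht : |y.1 - x.1| ≤ t) (ht1 : 1 ≤ t) (ht2 : t ≤ s')
    (ht3 : t < ρ) : kpp m x = kpp m y := by
  rw [abs_le] at ht
  have h1 : m y - m x = crd x y := by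
    apply near h hx hy hr
    rw [nz_le_iff]
    refine ⟨⟨?_, ?_⟩, ⟨?_, ?_⟩⟩
    · show -(s' : ℤ) ≤ y.1 - x.1
      omega
    · show y.1 - x.1 ≤ (s' : ℤ)
      omega
    · show -(s' : ℤ) ≤ y.2 - x.2
      omega
    · show y.2 - x.2 ≤ (s' : ℤ)
      omega
  have h2 : (x.2 = 0 ∨ x.2 = -1) → (0 < x.1 ↔ 0 < y.1) := by
    intro h2
    have h3 := hr.1
    unfold nz at h3
    rw [le_max_iff, le_abs, le_abs] at h3
    omega
  unfold crd at h1
  unfold kpp
  split_ifs at h1 ⊢ <;> omega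

end RB790

open RB790

theorem t_RB : S_RA → S_RB := by
  intro hRA C
  refine ⟨8 * C + 40, 8 * C + 40, by omega, ?_⟩
  intro s' ρ R G m hs hρ h
  obtain ⟨hA1, hA2, hA3, _, _⟩ := hRA R G m h.g
  -- (1)
  have P1 : ∀ (x x' : ℤ × ℤ) (sq d : ℤ), K1 R G x → K1 R G x' → Rg ρ R x → Rg ρ R x' →
      Cnz x sq d → Cnz x' sq d → dsi m x sq d = dsi m x' sq d := by
    intro x x' sq d hx hx' hr hr' hc hc'
    by_cases hd : 0 ≤ d
    · obtain ⟨h1, h2⟩ := cnz_pos hd hc
      obtain ⟨h1', h2'⟩ := cnz_pos hd hc'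
      have h3 : m x' - m x = crd x x' := by
        apply near h hx hx' hr
        rw [nz_le_iff]
        refine ⟨⟨?_, ?_⟩, ⟨?_, ?_⟩⟩
        · show -(s' : ℤ) ≤ x'.1 - x.1
          omega
        · show x'.1 - x.1 ≤ (s' : ℤ)
          omega
        · show -(s' : ℤ) ≤ x'.2 - x.2
          omega
        · show x'.2 - x.2 ≤ (s' : ℤ)
          omega
      rw [crd_pp (by omega) (by omega)] at h3
      have h4 : m x = m x' := by omega
      unfold dsi
      rw [if_pos hd, if_pos hd, h4]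
    · obtain ⟨h1, h2, _⟩ := cnz_neg (by omega) hc
      obtain ⟨h1', h2', _⟩ := cnz_neg (by omega) hc'
      have h3 : kpp m x = kpp m x' := by
        refine kpp_eq h hx hx' hr (d := d) (t := 2) (by omega) h2 h2' ?_ (by omega) (by omega)
          (by omega)
        rw [abs_le]
        omega
      unfold dsi
      rw [if_neg hd, if_neg hd, h3]
  -- (2)
  have P2 : ∀ (x x' : ℤ × ℤ) (sq d sq' d' : ℤ), K1 R G x → K1 R G x' → Rg ρ R x → Rg ρ R x' →
      Cnz x sq d → Cnz x' sq' d' → dsi m x sq d = dsi m x' sq' d' → sq = sq' ∧ d = d' := by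
    intro x x' sq d sq' d' hx hx' hr hr' hc hc' he
    have hd2 : ∀ (z : ℤ × ℤ) (a b : ℤ), (dsi m z a b).2 = b := by
      intro z a b
      unfold dsi
      split_ifs <;> rfl
    have hdd : d = d' := by
      have := congrArg Prod.snd he
      rw [hd2, hd2] at this
      exact this
    subst hdd
    refine ⟨?_, rfl⟩
    by_cases hd : 0 ≤ d
    · obtain ⟨h1, h2⟩ := cnz_pos hd hc
      obtain ⟨h1', h2'⟩ := cnz_pos hd hc'
      have h3 := congrArg Prod.fst he
      unfold dsi at h3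
      rw [if_pos hd, if_pos hd] at h3
      have h3' : sq + m x = sq' + m x' := h3
      have h4 := bnd h hx hx' hr.2 hr'.2 1 (by rw [abs_le]; omega)
      have h5 : |x'.1 - x.1| ≤ 2 + 2 * C := by
        rw [abs_eq_max_neg, abs_eq_max_neg] at h4
        rw [abs_le]
        omega
      rw [abs_le] at h5
      have h6 : m x' - m x = crd x x' := by
        apply near h hx hx' hr
        rw [nz_le_iff]
        refine ⟨⟨?_, ?_⟩, ⟨?_, ?_⟩⟩
        · show -(s' : ℤ) ≤ x'.1 - x.1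
          omega
        · show x'.1 - x.1 ≤ (s' : ℤ)
          omega
        · show -(s' : ℤ) ≤ x'.2 - x.2
          omega
        · show x'.2 - x.2 ≤ (s' : ℤ)
          omega
      rw [crd_pp (by omega) (by omega)] at h6
      omega
    · obtain ⟨h1, h2, hq⟩ := cnz_neg (by omega) hc
      obtain ⟨h1', h2', hq'⟩ := cnz_neg (by omega) hc'
      have h3 := congrArg Prod.fst he
      unfold dsi at h3
      rw [if_neg hd, if_neg hd] at h3
      have h3' : vnS sq + kpp m x = vnS sq' + kpp m x' := h3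
      have h4 := bnd h hx hx' hr.2 hr'.2 1 (by rw [abs_le]; omega)
      have hk1 : ∀ z : ℤ × ℤ, m z ≤ kpp m z ∧ kpp m z ≤ m z + 1 := by
        intro z
        unfold kpp
        split_ifs <;> omega
      have hkx := hk1 x
      have hkx' := hk1 x'
      have hv : ∀ a : ℤ, a - 1 ≤ vnS a ∧ vnS a ≤ a := by
        intro a
        unfold vnS
        split_ifs <;> omega
      have hv1 := hv sq
      have hv2 := hv sq'
      have h5 : |x'.1 - x.1| ≤ 8 + 2 * C := by
        rw [abs_eq_max_neg, abs_eq_max_neg] at h4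
        rw [abs_le]
        omega
      have h6 : kpp m x = kpp m x' := by
        refine kpp_eq h hx hx' hr (d := d) (t := 8 + 2 * C) (by omega) h2 h2' h5 (by omega)
          (by omega) (by omega)
      have h7 : vnS sq = vnS sq' := by omega
      unfold vnS at h7
      split_ifs at h7 <;> omega
  refine ⟨P1, P2, ?_, ?_, ?_⟩
  · -- (3)
    intro x x' hx hx' hr hr' he
    have hx0 : x' ≠ (0, 0) := by
      rintro rfl
      have h1 := hr'.1
      have h2 : nz (0, 0) = 0 := by simp [nz]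
      omega
    obtain ⟨sq, d, i, k, hi, hk, h0, hn⟩ : ∃ sq d i k : ℤ, (i = 0 ∨ i = 1) ∧ (k = 0 ∨ k = 1) ∧
        ¬ (d < 0 ∧ sq + 1 = 0) ∧ nrm {0} d (sq + i) (d + k) = x := by
      by_cases hx2 : 0 ≤ x.2
      · refine ⟨x.1, x.2, 0, 0, Or.inl rfl, Or.inl rfl, by omega, ?_⟩
        rw [nrm_p hx2]
        simp
      · have h1 := hA1 x hx (by omega)
        refine ⟨x.1 - 1, x.2, 1, 0, Or.inr rfl, Or.inl rfl, by omega, ?_⟩
        rw [nrm_n (by omega)]
        ext <;> simp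
    obtain ⟨h1, h2⟩ := hA2 x sq d i k hi hk h0 hn
    obtain ⟨sq', h0', hn', hd'⟩ := hA3 x' (dsi m x sq d).1 d i k hx' hx0 hi hk (by
      rw [← he, h2, h1])
    have h3 : dsi m x sq d = dsi m x' sq' d := by
      rw [hd']
      exact Prod.ext rfl h1
    obtain ⟨h4, _⟩ := P2 x x' sq d sq' d hx hx' hr hr' ⟨h0, i, k, hi, hk, hn⟩
      ⟨h0', i, k, hi, hk, hn'⟩ h3
    rw [← hn, ← hn', h4]
  · -- (4)
    intro x hx hxR
    have h0 : K1 R G (0, 0) := Relation.EqvGen.refl _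
    have h1 := h.b (0, 0) x h0 hx (by simp [nz]) hxR
    rw [h.g.zero] at h1
    simp only [sub_zero] at h1
    have hP2 : (Psi m x).2 = x.2 := by
      unfold Psi
      split_ifs <;> rfl
    have hP1 : x.1 + m x - 1 ≤ (Psi m x).1 ∧ (Psi m x).1 ≤ x.1 + m x := by
      unfold Psi vnK
      split_ifs <;> constructor <;> simp <;> omega
    have hC : (0 : ℤ) ≤ C := Int.natCast_nonneg C
    constructor
    · have h2 : |x.1| ≤ nz x := le_max_left _ _
      have h3 : |x.2| ≤ nz x := le_max_right _ _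
      have h4 : (C : ℤ) * (|x.2| + 1) ≤ C * (nz x + 1) :=
        mul_le_mul_of_nonneg_left (by linarith) hC
      have h5 : 0 ≤ nz x := (abs_nonneg _).trans h2
      have h6 : ((C : ℤ) + 4) * (nz x + 1) = C * (nz x + 1) + 4 * nz x + 4 := by ring
      have h7 : 0 ≤ (C : ℤ) * (nz x + 1) := mul_nonneg hC (by linarith)
      rw [h6, nz_le_iff, hP2]
      rw [abs_le] at h3
      have h8 := abs_le.1 h2
      rw [abs_eq_max_neg] at h1
      omega
    · set P := nz (Psi m x) with hP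
      have h2 : |(Psi m x).1| ≤ P := le_max_left _ _
      have h3 : |(Psi m x).2| ≤ P := le_max_right _ _
      rw [hP2] at h3
      have h4 : (C : ℤ) * (|x.2| + 1) ≤ C * (P + 1) :=
        mul_le_mul_of_nonneg_left (by linarith) hC
      have h5 : 0 ≤ P := (abs_nonneg _).trans h2
      have h7 : 0 ≤ (C : ℤ) * (P + 1) := mul_nonneg hC (by linarith)
      have h6 : 4 * ((C : ℤ) + 2) * (P + 1) = 4 * (C * (P + 1)) + 8 * P + 8 := by ring
      rw [h6, nz_le_iff]
      rw [abs_le] at h2 h3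
      rw [abs_eq_max_neg, abs_eq_max_neg] at h1
      omega
  · -- (5)
    intro x y hx hy hr hr' h1 h2
    have hP2 : ∀ z, (Psi m z).2 = z.2 := by
      intro z
      unfold Psi
      split_ifs <;> rfl
    have hP1 : ∀ z : ℤ × ℤ, z.1 + m z - 1 ≤ (Psi m z).1 ∧ (Psi m z).1 ≤ z.1 + m z := by
      intro z
      unfold Psi vnK
      split_ifs <;> constructor <;> simp <;> omega
    rw [hP2, hP2] at h2
    have hx1 := hP1 x
    have hy1 := hP1 y
    have h3 := bnd h hx hy hr.2 hr'.2 2 h2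
    have hC : (0 : ℤ) ≤ C := Int.natCast_nonneg C
    rw [abs_le] at h1 h2
    have h5 : |y.1 - x.1| ≤ 6 + 3 * C := by
      rw [abs_eq_max_neg, abs_eq_max_neg] at h3
      rw [abs_le]
      omega
    rw [abs_le] at h5
    have h6 : m y - m x = crd x y := by
      apply near h hx hy hr
      rw [nz_le_iff]
      refine ⟨⟨?_, ?_⟩, ⟨?_, ?_⟩⟩
      · show -(s' : ℤ) ≤ y.1 - x.1
        omega
      · show y.1 - x.1 ≤ (s' : ℤ)
        omega
      · show -(s' : ℤ) ≤ y.2 - x.2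
        omega
      · show y.2 - x.2 ≤ (s' : ℤ)
        omega
    rw [h6]
    have h7 : (|x.2| ≤ 2) → (0 < x.1 ↔ 0 < (Psi m x).1) := by
      intro h7
      have h0 : K1 R G (0, 0) := Relation.EqvGen.refl _
      have h8 := bnd h h0 hx (by simp [nz]) hr.2 2 (by simpa using h7)
      rw [h.g.zero] at h8
      simp only [sub_zero] at h8
      have h9 := hr.1
      unfold nz at h9
      rw [abs_eq_max_neg, abs_eq_max_neg] at h8
      rw [abs_eq_max_neg] at h9
      rw [abs_le] at h7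
      have h10 : |x.2| ≤ 2 := abs_le.2 h7
      omega
    rw [abs_le] at h7
    unfold crd
    rw [hP2, hP2]
    by_cases h8 : 0 ≤ x.2
    · by_cases h9 : y.2 < 0
      · have h10 := h7 (by omega)
        by_cases h11 : 0 < x.1
        · have h12 := h10.1 h11
          simp [h8, h9, h11, h12]
        · have h12 : ¬ 0 < (Psi m x).1 := fun h => h11 (h10.2 h)
          simp [h11, h12]
      · have h9' : 0 ≤ y.2 := by omega
        have h8' : ¬ x.2 < 0 := by omega
        simp [h9, h8']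
    · by_cases h9 : y.2 < 0
      · have h9' : ¬ 0 ≤ y.2 := by omega
        simp [h8, h9']
      · have h10 := h7 (by omega)
        by_cases h11 : 0 < x.1
        · have h12 := h10.1 h11
          simp [h8, h9, h11, h12]
        · have h12 : ¬ 0 < (Psi m x).1 := fun h => h11 (h10.2 h)
          simp [h11, h12]

end Pool.Agent.W801.RS
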