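import Pool.Agent.W801.RS.T_CON
import Pool.Agent.W801.RS.T_LP
import Pool.Agent.W801.RS.T_GAD
import Pool.Agent.W801.RS.T_DG
import Pool.Agent.W801.RS.T_GATE
import Pool.Agent.W801.RS.T_CL3
import Pool.Agent.W801.RS.T_P6
import Pool.Agent.W801.RS.T_GPR
import Pool.Agent.W801.RS.T_SUM
import Pool.Agent.W801.RS.T_RA
import Pool.Agent.W801.RS.T_RB
import Pool.Agent.W801.RS.T_JOR
import Pool.Agent.W801.RS.T_HEV
import Pool.Agent.W801.RS.T_RSV
import Pool.Agent.W801.RS.T_LOW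
import Pool.Agent.W801.RS.T_LOWA
import Pool.Agent.W801.RS.T_LOWB
import Pool.Agent.W801.OS.T_LB
import Pool.Agent.W328.KZR.All
import Pool.Agent.W424.KI.Fin

/-!
# The reverse seam: assembly
-/

set_option autoImplicit false

namespace Pool.Agent.W801.RS

theorem a_LP : S_LP := t_LP t_CON
theorem a_GAD : S_GAD := t_GAD t_CON a_LP
theorem a_DG : S_DG := t_DG t_CON a_LP
theorem a_GATE : S_GATE := t_GATE t_CON a_LP
theorem a_P6 : S_P6 := t_P6 t_CL3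
theorem a_GPR : S_GPR := t_GPR a_GATE a_P6 Pool.Agent.W658.KZ.a_UR3 Pool.Agent.W424.KI.va
theorem a_SUM : S_SUM := t_SUM a_GPR Pool.Agent.W658.KZ.a_UR3
theorem a_RB : S_RB := t_RB t_RA
theorem a_HEV : S_HEV := t_HEV t_RA a_RB t_JOR
theorem a_RSV : S_RSV := t_RSV a_RB a_HEV
theorem a_LOW : S_LOW := t_LOW a_GAD a_DG a_SUM a_RSV Pool.Agent.W801.OS.t_LB
theorem a_LOWA : S_LOWA := t_LOWA a_LOW Pool.Agent.W424.KI.u3
theorem a_LOWT : S_LOWT := t_LOWT a_LOW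
theorem a_LOWB : S_LOWB := t_LOWB a_LOW a_LOWA

end Pool.Agent.W801.RS
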