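import Pool.Agent.W801.OS.Stm3
import Pool.Agent.W424.KI.Stm

/-!
# The reverse seam: from the dislocated plane to the plane (definitions)

Coordinates of `Pool.Agent.W801.OU` and `Pool.Agent.W801.OS`.  `cr p u v` (from `OS.Defs`) = signed
crossing of the half-line below and to the right of `p` by a step from `u` to `v`.
-/

set_option autoImplicit false

namespace Pool.Agent.W801.RS
open H974 H906.Cyl H12S Finset
open Pool.Agent.H160R2.ML (nm)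
open Pool.Agent.W801.OU (RZ LZ Dg nrm zp Cor scz bxz SE3 uR)
open Pool.Agent.W801.OS (cr)

/-! ## links and walks of the dislocated plane -/

/-- `x` and `y` are the ends of the diagonal of the square of `e` in the configuration `G` -/
def Lq (G : Set Edg) (e : Edg) (x y : ℤ × ℤ) : Prop :=
  e ∉ zp ({0} : Set ℤ) ∧ ((e ∈ G ∧ (Dg {0} 0 e x y ∨ Dg {0} 0 e y x)) ∨
    (e ∉ G ∧ (Dg {0} 1 e x y ∨ Dg {0} 1 e y x)))

/-- walks along the diagonals of the squares of `B`, with their crossing numbers -/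
inductive Wk (B G : Set Edg) : ℤ × ℤ → ℤ × ℤ → (ℤ × ℤ → ℤ) → Prop
  | nil (u : ℤ × ℤ) : Wk B G u u (fun _ => 0)
  | cons (u v w : ℤ × ℤ) (φ : ℤ × ℤ → ℤ) (e : Edg) : Wk B G u v φ → e ∈ B → Lq G e v w →
      Wk B G u w (fun p => φ p + cr p v w)

/-- unit steps -/
def Unt (v w : ℤ × ℤ) : Prop :=
  (w.1 = v.1 ∧ (w.2 = v.2 + 1 ∨ w.2 = v.2 - 1)) ∨ (w.2 = v.2 ∧ (w.1 = v.1 + 1 ∨ w.1 = v.1 - 1))

/-- paths of unit steps in the set `P`, with their crossing numbers -/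
inductive Jw (P : Set (ℤ × ℤ)) : ℤ × ℤ → ℤ × ℤ → (ℤ × ℤ → ℤ) → Prop
  | nil (u : ℤ × ℤ) : u ∈ P → Jw P u u (fun _ => 0)
  | cons (u v w : ℤ × ℤ) (φ : ℤ × ℤ → ℤ) : Jw P u v φ → w ∈ P → Unt v w →
      Jw P u w (fun p => φ p + cr p v w)

/-- indicator: `u` is in the row of `p`, on its right -/
def gg (p u : ℤ × ℤ) : ℤ := if u.2 = p.2 ∧ p.1 < u.1 then 1 else 0

/-- norm of points -/
def nz (x : ℤ × ℤ) : ℤ := max |x.1| |x.2|

/-- the cluster of the middle sector -/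
def K1 (R : ℕ) (G : Set Edg) (x : ℤ × ℤ) : Prop := RZ {0} (bxz R) G (0, 0) x

/-- gauges -/
structure GauD (R : ℕ) (G : Set Edg) (m : ℤ × ℤ → ℤ) : Prop where
  zero : m (0, 0) = 0
  step : ∀ (u v : ℤ × ℤ) (e : Edg), K1 R G u → e ∈ bxz R → Lq G e u v → m v = m u + cr (0, 0) u v

/-- crossing number of the direct path between two points near each other and far from the tip -/
def crd (a b : ℤ × ℤ) : ℤ :=
  (if 0 ≤ a.2 ∧ b.2 < 0 ∧ 0 < a.1 then 1 else 0) - (if a.2 < 0 ∧ 0 ≤ b.2 ∧ 0 < a.1 then 1 else 0)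

/-- two points of the cluster near `z`, between which it winds around the tip -/
def Gate (s : ℕ) (R : ℕ) (G : Set Edg) (m : ℤ × ℤ → ℤ) (z : ℤ × ℤ) : Prop :=
  ∃ a b : ℤ × ℤ, K1 R G a ∧ K1 R G b ∧ nz (a.1 - z.1, a.2 - z.2) ≤ s ∧
    nz (b.1 - z.1, b.2 - z.2) ≤ s ∧ m b - m a ≠ crd a b

/-! ## six arms -/

/-- squares of the ball around `z` -/
def DB (z : ℤ × ℤ) (n : ℕ) : Set Edg := {e | |e.1 + e.2.1 - z.1| ≤ n ∧ |dco e - z.2| ≤ n}

/-- squares of the annulus -/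
def AZ (z : ℤ × ℤ) (s n : ℕ) : Set Edg := DB z n \ DB z s

/-- six pairwise not connected crossing clusters of the annulus -/
def Six (z : ℤ × ℤ) (s n : ℕ) (G : Set Edg) : Prop :=
  ∃ x y : Fin 6 → ℤ × ℤ, (∀ i, ∃ e ∈ DB z s, Cor {0} 0 e (x i) ∨ Cor {0} 1 e (x i)) ∧
    (∀ i, ∃ e ∉ DB z n, Cor {0} 0 e (y i) ∨ Cor {0} 1 e (y i)) ∧
    (∀ i, RZ {0} (AZ z s n) G (x i) (y i)) ∧ ∀ i j, i ≠ j → ¬ RZ {0} (AZ z s n) G (x i) (x j)

/-- three pairwise not connected open crossing clusters of the annulus of the plane -/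
def Cl3 (r n : ℕ) (F : Set Edg) : Prop :=
  ∃ x : Fin 3 → Vtx, (∀ i, nm (x i) = r ∧ ∃ w, nm w = n ∧ Reach (F ∩ (bxz n \ bxz r)) (x i) w) ∧
    ∀ i j, i ≠ j → ¬ Reach (F ∩ (bxz n \ bxz r)) (x i) (x j)

/-! ## the map to the plane -/

/-- columns of points, seen from below -/
def vnK (j : ℤ) : ℤ := if j ≤ -1 then j else j - 1

/-- columns of squares, seen from below -/
def vnS (s : ℤ) : ℤ := if s ≤ -2 then s else s - 1

/-- the lower gauge -/
def kpp (m : ℤ × ℤ → ℤ) (x : ℤ × ℤ) : ℤ := m x + if x.2 = 0 ∧ 0 < x.1 then 1 else 0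

/-- the point of the plane -/
def Psi (m : ℤ × ℤ → ℤ) (x : ℤ × ℤ) : ℤ × ℤ :=
  if 0 ≤ x.2 then (x.1 + m x, x.2) else (vnK x.1 + m x, x.2)

/-- the square of the plane, seen from the corner `x` -/
def dsi (m : ℤ × ℤ → ℤ) (x : ℤ × ℤ) (s d : ℤ) : ℤ × ℤ :=
  if 0 ≤ d then (s + m x, d) else (vnS s + kpp m x, d)

/-- `x` is a corner of the (not removed) square `(s, d)` -/
def Cnz (x : ℤ × ℤ) (s d : ℤ) : Prop :=
  ¬ (d < 0 ∧ s + 1 = 0) ∧ ∃ i k : ℤ, (i = 0 ∨ i = 1) ∧ (k = 0 ∨ k = 1) ∧ nrm {0} d (s + i) (d + k) = x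

/-- the good configurations: three arms and no gate between the distances `ρ` and `R / 2`; `C` is the
constant of the bound of the gauge -/
structure Gd (C s ρ R : ℕ) (G : Set Edg) (m : ℤ × ℤ → ℤ) : Prop where
  se : SE3 R G
  g : GauD R G m
  b : ∀ a b, K1 R G a → K1 R G b → 2 * nz a ≤ R → 2 * nz b ≤ R →
    2 * |m b - m a| ≤ |b.1 - a.1| + C * (|b.2 - a.2| + 1)
  ng : ∀ z, (ρ : ℤ) ≤ nz z → 2 * nz z ≤ R → ¬ Gate s R G m z

/-- crossing of the half-line by the step between two vertices of the same face -/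
def crv (v w : Vtx) : ℤ := crd (v.1 + v.2, v.1 - v.2) (w.1 + w.2, w.1 - w.2)

end Pool.Agent.W801.RS
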