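import Pool.Agent.W801.RS.Defs

/-!
# The reverse seam: the steps
(every step is a `Prop`; the file `T_X.lean` proves `t_X` from its hypotheses)
-/

set_option autoImplicit false

namespace Pool.Agent.W801.RS
open H974 H906.Cyl H12S Finset
open Pool.Agent.H160R2.ML (nm)
open Pool.Agent.W801.OU (RZ LZ Dg nrm zp Cor scz bxz SE3 uR S_UR3)
open Pool.Agent.W801.OS (cr)
open Pool.Agent.W424.OD (A3v AE)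

/-! ## additional definitions -/

/-- crossing number (of the half-line below and to the right of `p`) of the path from `b` to `a` which
is vertical in the column of `b`, then horizontal -/
def vc (p b a : ℤ × ℤ) : ℤ :=
  (if a.2 < p.2 ∧ p.2 ≤ b.2 ∧ p.1 < b.1 then 1 else 0) -
    (if b.2 < p.2 ∧ p.2 ≤ a.2 ∧ p.1 < b.1 then 1 else 0)

/-- range of the distances -/
def Rg (ρ R : ℕ) (x : ℤ × ℤ) : Prop := (ρ : ℤ) ≤ nz x ∧ 2 * nz x ≤ R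

/-- the squares of the range -/
def AnD (ρ R : ℕ) : Set Edg :=
  {e | e ∉ zp ({0} : Set ℤ) ∧ ∀ x, Cor {0} 0 e x ∨ Cor {0} 1 e x → Rg ρ R x}

/-- the image of the square of `e`, seen from its corner `x` -/
def im (m : ℤ × ℤ → ℤ) (x : ℤ × ℤ) (e : Edg) : Edg :=
  edz (dsi m x (e.1 + e.2.1) (dco e)).1 (dsi m x (e.1 + e.2.1) (dco e)).2

/-- the edge of the square rises -/
def pa (e : Edg) : Prop := (e.1 + e.2.1 + dco e) % 2 = 0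

/-- `F` is a copy of `G` along the cluster of the middle sector -/
def Cpy (ρ R : ℕ) (G : Set Edg) (m : ℤ × ℤ → ℤ) (F : Set Edg) : Prop :=
  ∀ (e : Edg) (x : ℤ × ℤ), e ∈ AnD ρ R → K1 R G x → (Cor {0} 0 e x ∨ Cor {0} 1 e x) →
    (im m x e ∈ F ↔ ((e ∈ G ↔ pa e) ↔ pa (im m x e)))

/-! ## winding numbers -/

/-- the winding number of a walk changes only by crossing the row to the end points -/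
def S_CON : Prop := ∀ (B G G' : Set Edg) (a b : ℤ × ℤ) (φ : ℤ × ℤ → ℤ) (e : Edg) (p p' : ℤ × ℤ),
  Wk B G a b φ → (e ∈ B → (e ∈ G' ↔ e ∈ G)) → Lq G' e p p' → p'.2 = p.2 + 1 →
  ¬ RZ {0} B G a p → ¬ RZ {0} B G a p' → φ p' - φ p = gg p b - gg p a

/-- closed loops: a walk from `a` to `b` and the short path from `b` to `a` -/
def S_LP : Prop := ∀ (R : ℕ) (G : Set Edg) (a b : ℤ × ℤ) (φ : ℤ × ℤ → ℤ) (z : ℤ × ℤ) (s : ℕ),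
  Wk (bxz R) G a b φ → nz (a.1 - z.1, a.2 - z.2) ≤ s → nz (b.1 - z.1, b.2 - z.2) ≤ s →
  (∀ q q', ¬ RZ {0} (bxz R) G a q → RZ {0} (bxz R \ DB z (s + 2)) G q q' →
    φ q' + vc q' b a = φ q + vc q b a) ∧
  (nz z + s + 3 ≤ R → ∀ q, ¬ RZ {0} (bxz R) G a q →
    (∃ e ∉ bxz R, Cor {0} 0 e q ∨ Cor {0} 1 e q) → φ q + vc q b a = 0)

/-- existence of the gauge -/
def S_GAD : Prop := ∀ (R : ℕ) (G : Set Edg), 3 ≤ R → SE3 R G → ∃ m : ℤ × ℤ → ℤ, GauD R G m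

/-- bound of the gauge -/
def S_DG : Prop := ∃ C : ℕ, ∀ (R : ℕ) (G : Set Edg) (m : ℤ × ℤ → ℤ), 20 ≤ R → SE3 R G → GauD R G m →
  ∀ a b, K1 R G a → K1 R G b → 2 * nz a ≤ R → 2 * nz b ≤ R →
    2 * |m b - m a| ≤ |b.1 - a.1| + C * (|b.2 - a.2| + 1)

/-- **six arms around a gate** -/
def S_GATE : Prop := ∀ (s n R : ℕ) (G : Set Edg) (m : ℤ × ℤ → ℤ) (z : ℤ × ℤ), s + 2 ≤ n →
  8 * (n : ℤ) ≤ nz z → 2 * nz z ≤ R → SE3 R G → GauD R G m → Gate s R G m z → Six z (s + 2) n G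

/-! ## probabilities -/

/-- **six arms in the plane** -/
def S_CL3 : Prop := ∀ r : ℕ, 1 ≤ r → ∃ C : ℝ, 0 < C ∧ ∀ n : ℕ, 1 ≤ n →
  Pr (fun _ => (1 / 2 : ℝ)) (boxE n) (fun F => Cl3 r n (↑F : Set Edg)) ≤
    C * (n : ℝ) ^ (-(35 / 12 : ℝ))

/-- six arms away from the tip -/
def S_P6 : Prop := ∀ s : ℕ, ∃ C : ℝ, 0 < C ∧ ∀ (z : ℤ × ℤ) (n : ℕ) (S : Finset Edg), 1 ≤ n →
  8 * (n : ℤ) ≤ nz z → (∀ e ∈ DB z n, e ∈ S) →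
  Pr (fun _ => (1 / 2 : ℝ)) S (fun G => Six z s n (↑G : Set Edg)) ≤ C * (n : ℝ) ^ (-(35 / 12 : ℝ))

/-- one gate -/
def S_GPR : Prop := ∀ s : ℕ, ∃ C : ℝ, 0 < C ∧ ∀ (z : ℤ × ℤ) (R : ℕ), 1 ≤ nz z → 2 * nz z ≤ R →
  Pr (fun _ => (1 / 2 : ℝ)) (boxE R) (fun G => SE3 R (↑G : Set Edg) ∧ ∃ m : ℤ × ℤ → ℤ,
      GauD R (↑G : Set Edg) m ∧ Gate s R (↑G : Set Edg) m z) ≤
    C * ((nz z : ℤ) : ℝ) ^ (-(35 / 12 : ℝ)) * (R : ℝ) ^ (-(2 / 3 : ℝ))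

/-- all the gates -/
def S_SUM : Prop := ∀ s : ℕ, ∃ C : ℝ, 0 < C ∧ ∀ ρ R : ℕ, 1 ≤ ρ → 1 ≤ R →
  Pr (fun _ => (1 / 2 : ℝ)) (boxE R) (fun G => SE3 R (↑G : Set Edg) ∧ ∃ m : ℤ × ℤ → ℤ,
      GauD R (↑G : Set Edg) m ∧ ∃ z : ℤ × ℤ, ((ρ : ℤ) ≤ nz z ∧ 2 * nz z ≤ R) ∧
        Gate s R (↑G : Set Edg) m z) ≤
    C * (ρ : ℝ) ^ (-(11 / 12 : ℝ)) * (R : ℝ) ^ (-(2 / 3 : ℝ))

/-! ## the map to the plane -/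

/-- algebra of the map -/
def S_RA : Prop := ∀ (R : ℕ) (G : Set Edg) (m : ℤ × ℤ → ℤ), GauD R G m →
  (∀ x, K1 R G x → x.2 < 0 → x.1 ≠ 0) ∧
  (∀ (x : ℤ × ℤ) (sq d i k : ℤ), (i = 0 ∨ i = 1) → (k = 0 ∨ k = 1) → ¬ (d < 0 ∧ sq + 1 = 0) →
    nrm {0} d (sq + i) (d + k) = x →
    (dsi m x sq d).2 = d ∧ Psi m x = ((dsi m x sq d).1 + i, (dsi m x sq d).2 + k)) ∧
  (∀ (x : ℤ × ℤ) (s' d' i k : ℤ), K1 R G x → x ≠ (0, 0) → (i = 0 ∨ i = 1) → (k = 0 ∨ k = 1) →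
    Psi m x = (s' + i, d' + k) → ∃ sq : ℤ, ¬ (d' < 0 ∧ sq + 1 = 0) ∧
      nrm {0} d' (sq + i) (d' + k) = x ∧ dsi m x sq d' = (s', d')) ∧
  (∀ (x y : ℤ × ℤ) (e : Edg), K1 R G x → e ∈ bxz R → Lq G e x y →
    dsi m x (e.1 + e.2.1) (dco e) = dsi m y (e.1 + e.2.1) (dco e) ∧
    |(Psi m y).1 - (Psi m x).1| = 1 ∧ |(Psi m y).2 - (Psi m x).2| = 1) ∧
  (∀ x, K1 R G x → ((Psi m x).1 + (Psi m x).2) % 2 = 0)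

/-- the map without gates -/
def S_RB : Prop := ∀ C : ℕ, ∃ s ρ0 : ℕ, 1 ≤ ρ0 ∧ ∀ (s' ρ R : ℕ) (G : Set Edg) (m : ℤ × ℤ → ℤ),
  s ≤ s' → ρ0 ≤ ρ → Gd C s' ρ R G m →
  (∀ (x x' : ℤ × ℤ) (sq d : ℤ), K1 R G x → K1 R G x' → Rg ρ R x → Rg ρ R x' → Cnz x sq d →
    Cnz x' sq d → dsi m x sq d = dsi m x' sq d) ∧
  (∀ (x x' : ℤ × ℤ) (sq d sq' d' : ℤ), K1 R G x → K1 R G x' → Rg ρ R x → Rg ρ R x' → Cnz x sq d →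
    Cnz x' sq' d' → dsi m x sq d = dsi m x' sq' d' → sq = sq' ∧ d = d') ∧
  (∀ x x' : ℤ × ℤ, K1 R G x → K1 R G x' → Rg ρ R x → Rg ρ R x' → Psi m x = Psi m x' → x = x') ∧
  (∀ x, K1 R G x → 2 * nz x ≤ R → nz (Psi m x) ≤ (C + 4) * (nz x + 1) ∧
    nz x ≤ 4 * (C + 2) * (nz (Psi m x) + 1)) ∧
  (∀ x y, K1 R G x → K1 R G y → Rg ρ R x → Rg ρ R y → |(Psi m y).1 - (Psi m x).1| ≤ 2 →
    |(Psi m y).2 - (Psi m x).2| ≤ 2 → m y - m x = crd (Psi m x) (Psi m y))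

/-- **discrete Jordan theorem** -/
def S_JOR : Prop := ∀ (W : Set Vtx) (μ : Vtx → ℤ) (d k : ℕ), 1 ≤ d → d < k →
  (∀ v w, v ∈ W → w ∈ W → |v.1 - w.1| ≤ 1 → |v.2 - w.2| ≤ 1 → ((d : ℤ) ≤ nm v ∧ nm v ≤ k) →
    ((d : ℤ) ≤ nm w ∧ nm w ≤ k) → μ w - μ v = crv v w) →
  ∃ x ∈ bdB (0, 0) d, ∃ y ∈ bdB (0, 0) k,
    Reach {e | e ∈ AE (0, 0) d k ∧ src e ∉ W ∧ tgt e ∉ W} x y

/-- **three arms of the copy** -/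
def S_HEV : Prop := ∀ C : ℕ, ∃ s K ρ0 : ℕ, 1 ≤ K ∧ 1 ≤ ρ0 ∧
  ∀ (s' K' ρ R : ℕ) (G : Set Edg) (m : ℤ × ℤ → ℤ) (F : Set Edg), s ≤ s' → K ≤ K' → ρ0 ≤ ρ →
  K' * K' * K' * ρ ≤ R → Gd C s' ρ R G m → Cpy ρ R G m F → A3v (0, 0) (K' * ρ) (R / K') F

/-- **the coupling** -/
def S_RSV : Prop := ∀ C : ℕ, ∃ s K ρ0 : ℕ, 1 ≤ K ∧ 1 ≤ ρ0 ∧ ∀ ρ R : ℕ, ρ0 ≤ ρ →
  K * K * K * ρ ≤ R →
  Pr (fun _ => (1 / 2 : ℝ)) (boxE R) (fun G => ∃ m : ℤ × ℤ → ℤ, Gd C s ρ R (↑G : Set Edg) m) ≤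
    Pr (fun _ => (1 / 2 : ℝ)) (boxE (K * R)) (fun F => A3v (0, 0) (K * ρ) (R / K) (↑F : Set Edg))

/-! ## the lower bound -/

/-- **lower bound for the three arm event of the plane** -/
def S_LOW : Prop := ∃ (c : ℝ) (d0 : ℕ), 0 < c ∧ 1 ≤ d0 ∧ ∀ (a : ℤ × ℤ) (k : ℕ), d0 ≤ k →
  ∀ S : Finset Edg, blk a k ⊆ S →
    c * (k : ℝ) ^ (-(2 / 3 : ℝ)) ≤ PQ (1 / 2) S (fun F => A3v a d0 k (↑F : Set Edg))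

/-- **lower bound for annuli** -/
def S_LOWA : Prop := ∃ (c : ℝ) (d0 : ℕ), 0 < c ∧ 1 ≤ d0 ∧ ∀ (a : ℤ × ℤ) (d k : ℕ), d0 ≤ d → d ≤ k →
  ∀ S : Finset Edg, blk a k ⊆ S →
    c * ((d : ℝ) / k) ^ (2 / 3 : ℝ) ≤ PQ (1 / 2) S (fun F => A3v a d k (↑F : Set Edg))

end Pool.Agent.W801.RS
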